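import Mathlib
import Pool.Graph.R_seed8.H560R3.GB.Tup
import Pool.Agent.H570.TH.Prm

/-! The numbers of prime pairs with almost all differences: the input. -/

set_option autoImplicit false

namespace Pool.Agent.H570.CD

open Finset Filter Topology Pool.Agent.H570.LQ Pool.Agent.H570.TH
open Pool.Agent.H373R2.T7 (pz Vz mem_pz Vz_pos Vz_inv_small singZ singZ_eq rhoP rhoP_le nuP lamI lamzI lamz)

/-- the sieve model at an integer -/
noncomputable def mz (z : ℕ) (m : ℤ) : ℝ := if ∀ p ∈ pz z, ¬ (p : ℤ) ∣ m then (Vz z)⁻¹ else 0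

/-- the singular series of `n`, `n + a`, cut at `z` -/
noncomputable def sg (z : ℕ) (a : ℤ) : ℝ := singZ (fun _ : Fin 1 => a) z

lemma mz_nonneg (z : ℕ) (m : ℤ) : 0 ≤ mz z m := by
  unfold mz
  split_ifs
  · exact inv_nonneg.2 (Vz_pos z).le
  · exact le_rfl

lemma mz_le (z : ℕ) (m : ℤ) : mz z m ≤ (Vz z)⁻¹ := by
  unfold mz
  split_ifs
  · exact le_rfl
  · exact inv_nonneg.2 (Vz_pos z).le

lemma sg_nonneg (z : ℕ) (a : ℤ) : 0 ≤ sg z a := by
  unfold sg
  rw [singZ_eq]
  refine mul_nonneg (pow_nonneg (inv_nonneg.2 (Vz_pos z).le) _) (Finset.prod_nonneg fun p hp => ?_)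
  have hp2 : (2 : ℝ) ≤ p := by exact_mod_cast (mem_pz.1 hp).2.two_le
  have h1 : (rhoP (fun _ : Fin 1 => a) p : ℝ) ≤ p - 1 := by
    have h2 := rhoP_le (fun _ : Fin 1 => a) p
    have h3 := (mem_pz.1 hp).2.one_le
    have : ((rhoP (fun _ : Fin 1 => a) p : ℕ) : ℝ) ≤ ((p - 1 : ℕ) : ℝ) := by exact_mod_cast h2
    rw [Nat.cast_sub h3] at this
    simpa using this
  rw [sub_nonneg, div_le_one (by linarith)]
  exact h1

lemma sg_le (z : ℕ) (a : ℤ) : sg z a ≤ (Vz z)⁻¹ := by
  unfold sg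
  rw [singZ_eq, pow_one]
  refine mul_le_of_le_one_right (inv_nonneg.2 (Vz_pos z).le) (Finset.prod_le_one (fun p hp => ?_) fun p hp => ?_)
  · have hp2 : (2 : ℝ) ≤ p := by exact_mod_cast (mem_pz.1 hp).2.two_le
    have h1 : (rhoP (fun _ : Fin 1 => a) p : ℝ) ≤ p - 1 := by
      have h2 := rhoP_le (fun _ : Fin 1 => a) p
      have h3 := (mem_pz.1 hp).2.one_le
      have : ((rhoP (fun _ : Fin 1 => a) p : ℕ) : ℝ) ≤ ((p - 1 : ℕ) : ℝ) := by exact_mod_cast h2
      rw [Nat.cast_sub h3] at this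
      simpa using this
    rw [sub_nonneg, div_le_one (by linarith)]
    exact h1
  · have hp2 : (2 : ℝ) ≤ p := by exact_mod_cast (mem_pz.1 hp).2.two_le
    have : 0 ≤ (rhoP (fun _ : Fin 1 => a) p : ℝ) / (p - 1) := div_nonneg (Nat.cast_nonneg _) (by linarith)
    linarith

lemma lim_log : Tendsto (fun N : ℕ => Real.log (N : ℝ)) atTop atTop :=
  Real.tendsto_log_atTop.comp tendsto_natCast_atTop_atTop

/-- primes and the model, all lengths -/
lemma one_mod (E U : ℕ) : ∀ᶠ X : ℕ in atTop, ∀ z : ℕ, 1 ≤ z → (z : ℝ) ≤ Real.log X ^ E → ∀ (a : ℤ) (y : ℕ), y ≤ X →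
    |∑ n ∈ Icc 1 y, vM n * mz z ((n : ℤ) + a) - sg z a * y| ≤ X / Real.log X ^ U := by
  obtain ⟨N0, h0⟩ := Pool.Agent.H373R2.T7.tuple_main 1 (E + 1) (U + 1) le_rfl
  obtain ⟨N1, h1⟩ := Vz_inv_small E
  filter_upwards [ev1 (2 ^ (E + 1)), ev1 (2 ^ (U + 1)), ev4 (U + 2) (1 / 2) (by norm_num),
    eventually_ge_atTop (N0 ^ 2), eventually_ge_atTop N1, eventually_ge_atTop 3] with X b1 b2 b3 b4 b5 b6 z hz hzE a y hy
  set L := Real.log X with hL
  have hX3 : (3 : ℝ) ≤ X := by exact_mod_cast b6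
  have hL1 : 1 ≤ L := le_trans (one_le_pow₀ (by norm_num)) b1
  have hs0 : 0 < Real.sqrt X := Real.sqrt_pos.2 (by linarith)
  have hss : Real.sqrt X * Real.sqrt X = X := Real.mul_self_sqrt (by linarith)
  have hV := h1 X b5 z hz hzE
  have hV0 : 0 ≤ (Vz z)⁻¹ := inv_nonneg.2 (Vz_pos z).le
  by_cases hys : Real.sqrt X ≤ y
  · have hy0 : 0 < (y : ℝ) := lt_of_lt_of_le hs0 hys
    have hyN : N0 ≤ y := by
      have h2 : (N0 : ℝ) ≤ Real.sqrt X := by
        apply Real.le_sqrt_of_sq_le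
        exact_mod_cast b4
      exact_mod_cast h2.trans hys
    have hly : L / 2 ≤ Real.log y := by
      have h2 := Real.log_le_log hs0 hys
      rw [Real.log_sqrt (by linarith)] at h2
      exact h2
    have hz2 : (z : ℝ) ≤ Real.log y ^ (E + 1) := by
      calc (z : ℝ) ≤ L ^ E := hzE
        _ ≤ (L / 2) ^ (E + 1) := by
            rw [div_pow, pow_succ, le_div_iff₀ (by positivity)]
            exact mul_le_mul_of_nonneg_left b1 (by positivity)
        _ ≤ _ := pow_le_pow_left₀ (by linarith) hly _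
    have h2 := h0 y hyN z hz hz2 (fun _ => a)
    simp only [Finset.univ_unique, Finset.prod_singleton] at h2
    refine le_trans h2 ?_
    rw [div_le_div_iff₀ (pow_pos (by linarith) _) (by positivity)]
    have h3 : L ^ U ≤ Real.log y ^ (U + 1) := by
      calc L ^ U ≤ (L / 2) ^ (U + 1) := by
            rw [div_pow, pow_succ, le_div_iff₀ (by positivity)]
            exact mul_le_mul_of_nonneg_left b2 (by positivity)
        _ ≤ _ := pow_le_pow_left₀ (by linarith) hly _
    have h4 : (y : ℝ) ≤ X := by exact_mod_cast hy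
    exact mul_le_mul h4 h3 (by positivity) (by linarith)
  · push Not at hys
    have h2 : ∑ n ∈ Icc 1 y, vM n * mz z ((n : ℤ) + a) ≤ y * (L * L) := by
      calc _ ≤ ∑ n ∈ Icc 1 y, L * L := by
            refine Finset.sum_le_sum fun n hn => ?_
            have h3 := mem_Icc.1 hn
            have h4 : vM n ≤ L := by
              refine le_trans ArithmeticFunction.vonMangoldt_le_log (Real.log_le_log ?_ ?_)
              · exact_mod_cast h3.1
              · exact_mod_cast h3.2.trans hy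
            exact mul_le_mul h4 ((mz_le _ _).trans hV) (mz_nonneg _ _) (by linarith)
        _ = _ := by rw [Finset.sum_const, Nat.card_Icc, nsmul_eq_mul]; simp
    have h2' : 0 ≤ ∑ n ∈ Icc 1 y, vM n * mz z ((n : ℤ) + a) :=
      Finset.sum_nonneg fun n _ => mul_nonneg (vM_nonneg _) (mz_nonneg _ _)
    have h3 : sg z a * y ≤ L * y := mul_le_mul_of_nonneg_right ((sg_le z a).trans hV) (Nat.cast_nonneg _)
    have h3' : 0 ≤ sg z a * y := mul_nonneg (sg_nonneg z a) (Nat.cast_nonneg _)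
    have h4 : (y : ℝ) * (L * L) ≤ X / L ^ U := by
      rw [le_div_iff₀ (by positivity)]
      have h5 : L * L * L ^ U = L ^ (U + 2) := by ring
      calc (y : ℝ) * (L * L) * L ^ U = y * (L * L * L ^ U) := by ring
        _ = y * L ^ (U + 2) := by rw [h5]
        _ ≤ Real.sqrt X * (1 / 2 * Real.sqrt X) := mul_le_mul hys.le b3 (by positivity) hs0.le
        _ = X / 2 := by rw [← hss]; ring_nf; rw [Real.sq_sqrt (by positivity)]
        _ ≤ X := by linarith
    have h5 : L * y ≤ y * (L * L) := by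
      have : (0 : ℝ) ≤ L * y := by positivity
      nlinarith
    rw [abs_le]
    constructor <;> linarith

lemma energy_one (X : ℕ) : (Pool.Agent.H373R2.T7.energy 1 X (fun m => (m : ℤ)) : ℝ) ≤ X := by
  have h : Pool.Agent.H373R2.T7.energy 1 X (fun m => (m : ℤ)) ≤ X := by
    unfold Pool.Agent.H373R2.T7.energy
    calc _ ≤ (Icc 1 X).card := by
          refine Finset.card_le_card_of_injOn (fun q => q.1 0) ?_ ?_
          · intro q hq
            have h1 := (Finset.mem_filter.1 (Finset.mem_coe.1 hq)).1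
            have h2 := (Finset.mem_product.1 h1).1
            exact Finset.mem_coe.2 (Fintype.mem_piFinset.1 h2 0)
          · intro q hq q' hq' h
            have h1 := (Finset.mem_filter.1 (Finset.mem_coe.1 hq)).2
            have h2 := (Finset.mem_filter.1 (Finset.mem_coe.1 hq')).2
            simp only [Finset.univ_unique, Fin.default_eq_zero, Finset.sum_singleton, Nat.cast_inj] at h1 h2
            have h3 : q.1 0 = q'.1 0 := h
            refine Prod.ext (funext fun i => ?_) (funext fun i => ?_)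
            · rw [Subsingleton.elim i 0]; exact h3
            · rw [Subsingleton.elim i 0, ← h1, ← h2]; exact h3
      _ = X := by simp
  exact_mod_cast h

lemma lamI_nat (n : ℕ) (h : 1 ≤ n) : lamI (n : ℤ) = vM n := by
  unfold lamI
  rw [if_pos (by exact_mod_cast h), Int.toNat_natCast]

lemma lamzI_nat (z n : ℕ) (h : 1 ≤ n) : lamzI z (n : ℤ) = mz z (n : ℤ) := by
  unfold lamzI mz lamz
  rw [if_pos (by exact_mod_cast h), Int.toNat_natCast]
  simp only [Int.natCast_dvd_natCast]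

/-- the pair sums -/
noncomputable def ps (D y : ℕ) : ℝ := ∑ n ∈ Icc 1 y, vM n * vM (n + D)

/-- one cutoff -/
lemma one_cut (U : ℕ) : ∃ B0 : ℕ, ∀ E : ℕ, ∀ᶠ X : ℕ in atTop, ∀ y : ℕ, y ≤ X → ∀ z : ℕ, Real.log X ^ B0 ≤ z →
    (z : ℝ) ≤ Real.log X ^ E → ∑ D ∈ Icc 1 X, |ps D y - sg z D * y| ≤ 2 * (X : ℝ) ^ 2 / Real.log X ^ U := by
  obtain ⟨B0, h0⟩ := Pool.Agent.H560R3.GB.lam_e 1 1 0 (U + 1)
  refine ⟨B0, fun E => ?_⟩
  obtain ⟨N0, h1⟩ := h0 E
  filter_upwards [one_mod E U, ev1 1, eventually_ge_atTop (max N0 3)] with X b1 b2 b3 y hy z hz1 hz2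
  have hX3 : 3 ≤ X := le_trans (le_max_right _ _) b3
  have hX0 : (0 : ℝ) < X := by exact_mod_cast (by omega : 0 < X)
  have hz : 1 ≤ z := by
    have : (1 : ℝ) ≤ z := le_trans (one_le_pow₀ b2) hz1
    exact_mod_cast this
  have h2 := h1 X (le_trans (le_max_left _ _) b3) X (fun m => (m : ℤ)) (fun m hm => by
    have := (mem_Icc.1 hm).2
    rw [abs_of_nonneg (by positivity)]
    push_cast
    omega) (by
    rw [pow_zero, one_mul]
    have := energy_one X
    calc _ ≤ (X : ℝ) * X := mul_le_mul_of_nonneg_right this hX0.le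
      _ = (X : ℝ) ^ (2 * 1) := by ring) y (by omega) z hz1 hz2
  have h3 := Pool.Agent.H560R3.GB.l1_real y X (fun a m => lamI ((a : ℤ) + (m : ℤ)) - lamzI z ((a : ℤ) + (m : ℤ)))
    ((X : ℝ) * X / Real.log X ^ (U + 1)) (Real.log X) (by linarith) h2 (fun a => vM a) (fun a ha => by
      have h4 := mem_Icc.1 ha
      rw [abs_of_nonneg (vM_nonneg _)]
      exact le_trans (vM_le_log a) (Real.log_le_log (by exact_mod_cast h4.1) (by exact_mod_cast h4.2.trans hy)))
  have h4 : ∀ D ∈ Icc 1 X, |ps D y - sg z D * y| ≤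
      |∑ a ∈ Icc 1 y, vM a * (lamI ((a : ℤ) + (D : ℤ)) - lamzI z ((a : ℤ) + (D : ℤ)))| + X / Real.log X ^ U := by
    intro D hD
    have e1 : ∑ a ∈ Icc 1 y, vM a * (lamI ((a : ℤ) + (D : ℤ)) - lamzI z ((a : ℤ) + (D : ℤ))) =
        ps D y - ∑ n ∈ Icc 1 y, vM n * mz z ((n : ℤ) + (D : ℤ)) := by
      unfold ps
      rw [← Finset.sum_sub_distrib]
      refine Finset.sum_congr rfl fun a ha => ?_
      have h5 := (mem_Icc.1 ha).1
      have e2 : (a : ℤ) + (D : ℤ) = ((a + D : ℕ) : ℤ) := by push_cast; ring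
      rw [e2, lamI_nat _ (by omega), lamzI_nat _ _ (by omega)]
      ring
    have h5 := b1 z hz hz2 (D : ℤ) y hy
    rw [e1]
    have e3 : ps D y - sg z D * y = (ps D y - ∑ n ∈ Icc 1 y, vM n * mz z ((n : ℤ) + (D : ℤ))) +
        (∑ n ∈ Icc 1 y, vM n * mz z ((n : ℤ) + (D : ℤ)) - sg z D * y) := by ring
    rw [e3]
    exact (abs_add_le _ _).trans (add_le_add le_rfl h5)
  refine (Finset.sum_le_sum h4).trans ?_
  rw [Finset.sum_add_distrib, Finset.sum_const, Nat.card_Icc, nsmul_eq_mul, Nat.add_sub_cancel]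
  have hL : 0 < Real.log X := by linarith
  have h5 : Real.log X * ((X : ℝ) * X / Real.log X ^ (U + 1)) = (X : ℝ) ^ 2 / Real.log X ^ U := by
    rw [pow_succ (Real.log X) U]
    field_simp
  rw [h5] at h3
  have h6 : (X : ℝ) * (X / Real.log X ^ U) = (X : ℝ) ^ 2 / Real.log X ^ U := by ring
  rw [h6]
  have e7 : 2 * (X : ℝ) ^ 2 / Real.log X ^ U = (X : ℝ) ^ 2 / Real.log X ^ U + (X : ℝ) ^ 2 / Real.log X ^ U := by ring
  rw [e7]
  exact add_le_add h3 le_rfl

lemma ps_step (D X y y' : ℕ) (h : y ≤ y') (hy : y' ≤ X) (hD : D ≤ X) (hX : 1 ≤ X) :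
    |ps D y' - ps D y| ≤ (y' - y : ℕ) * Real.log (2 * X) ^ 2 := by
  have h1 : ps D y' - ps D y = ∑ n ∈ Ioc y y', vM n * vM (n + D) := by
    unfold ps
    have h2 : Icc 1 y' = Icc 1 y ∪ Ioc y y' := by
      ext n; simp only [mem_union, mem_Icc, mem_Ioc]; omega
    have h3 : Disjoint (Icc 1 y) (Ioc y y') := by
      rw [Finset.disjoint_left]; intro n hn hn'
      have := mem_Icc.1 hn; have := mem_Ioc.1 hn'; omega
    rw [h2, Finset.sum_union h3]; ring
  have hXr : (1 : ℝ) ≤ X := by exact_mod_cast hX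
  rw [h1, abs_of_nonneg (Finset.sum_nonneg fun n _ => mul_nonneg (vM_nonneg _) (vM_nonneg _))]
  have hlog : ∀ m : ℕ, 1 ≤ m → m ≤ 2 * X → vM m ≤ Real.log (2 * X) := by
    intro m h4 h5
    refine (vM_le_log m).trans (Real.log_le_log (by exact_mod_cast h4) (by exact_mod_cast h5))
  calc _ ≤ ∑ n ∈ Ioc y y', Real.log (2 * X) ^ 2 := by
        refine Finset.sum_le_sum fun n hn => ?_
        have h4 := mem_Ioc.1 hn
        rw [sq]
        exact mul_le_mul (hlog n (by omega) (by omega)) (hlog _ (by omega) (by omega)) (vM_nonneg _)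
          (Real.log_nonneg (by linarith))
    _ = _ := by rw [Finset.sum_const, Nat.card_Ioc, nsmul_eq_mul]

/-- the exceptional differences -/
theorem pairs (B U : ℕ) : ∃ E : ℕ, ∀ᶠ H : ℕ in atTop, ∃ z : ℕ, Real.log H ≤ z ∧ (z : ℝ) ≤ Real.log H ^ E ∧
    (Vz z)⁻¹ ≤ 2 * Real.log H ∧
    ∃ Ex : Finset ℕ, (Ex.card : ℝ) ≤ H / Real.log H ^ U ∧ ∀ D : ℕ, 1 ≤ D → D ≤ NG B H → D ∉ Ex → ∀ y : ℕ, y ≤ NG B H →
      |ps D y - sg z D * y| ≤ H / Real.log H ^ U := by
  set U2 := 3 * B + 3 * U + 8 with hU2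
  obtain ⟨B0, h0⟩ := one_cut U2
  refine ⟨B0 + 3, ?_⟩
  have hN : Tendsto (fun H : ℕ => NG B H) atTop atTop := by
    refine tendsto_atTop_mono' atTop ?_ tendsto_id
    filter_upwards [NG_facts B 1 one_pos] with H hH
    exact hH.1
  obtain ⟨N1, h1⟩ := Vz_inv_small (B0 + 2)
  filter_upwards [hN.eventually (h0 (B0 + 2)), hN.eventually_ge_atTop N1, NG_facts B (1 / 2) (by norm_num), ev1 1024,
    ev4 (U + 4) 1 (by norm_num), eventually_ge_atTop 3, ev1 ((3 / 2) ^ (B0 + 2))] with H b1 b2 b3 b4 b5 b6 b7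
  obtain ⟨c1, c2, c3, c4⟩ := b3
  set X := NG B H with hX
  set x := Real.log H with hx
  have hHr : (3 : ℝ) ≤ H := by exact_mod_cast b6
  have hXr : (3 : ℝ) ≤ X := hHr.trans (by exact_mod_cast c1)
  have hHX : (H : ℝ) ≤ X := by exact_mod_cast c1
  have hx0 : 0 < x := by linarith
  set L := Real.log X with hL
  have hL1 : 1 ≤ L := by linarith
  set z := ⌈L ^ (B0 + 1)⌉₊ with hz
  have hz1 : L ^ (B0 + 1) ≤ z := Nat.le_ceil _
  have hz2 : (z : ℝ) ≤ L ^ (B0 + 1) + 1 := (Nat.ceil_lt_add_one (by positivity)).le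
  have hLB : 1 ≤ L ^ (B0 + 1) := one_le_pow₀ hL1
  have hz3 : (z : ℝ) ≤ L ^ (B0 + 2) := by
    rw [pow_succ L (B0 + 1)]
    have : 2 ≤ L := by linarith
    nlinarith
  have hz0 : 1 ≤ z := by
    have : (1 : ℝ) ≤ z := hLB.trans hz1
    exact_mod_cast this
  have hzB : L ^ B0 ≤ z := le_trans (pow_le_pow_right₀ hL1 (by omega)) hz1
  have hV := h1 X b2 z hz0 hz3
  refine ⟨z, ?_, ?_, by linarith, ?_⟩
  · calc x ≤ L := c4
      _ ≤ L ^ (B0 + 1) := le_self_pow₀ hL1 (by omega)
      _ ≤ z := hz1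
  · calc (z : ℝ) ≤ L ^ (B0 + 2) := hz3
      _ ≤ ((3 / 2) * x) ^ (B0 + 2) := pow_le_pow_left₀ (by linarith) (by linarith) _
      _ ≤ x ^ (B0 + 3) := by
          rw [mul_pow, pow_succ x (B0 + 2), mul_comm]
          exact mul_le_mul_of_nonneg_left b7 (by positivity)
  · set h := ⌊(H : ℝ) / x ^ (U + 3)⌋₊ with hh
    have hxU : 0 < x ^ (U + 3) := by positivity
    have hsH : 0 < Real.sqrt H := Real.sqrt_pos.2 (by linarith)
    have hq : 2 ≤ (H : ℝ) / x ^ (U + 3) := by
      rw [le_div_iff₀ hxU]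
      have e1 : x ^ (U + 4) = x * x ^ (U + 3) := by ring
      rw [e1, one_mul] at b5
      have e2 : Real.sqrt H ≤ H := by
        have := Real.mul_self_sqrt (show (0 : ℝ) ≤ H by linarith)
        have h2 : 1 ≤ Real.sqrt H := by rw [Real.one_le_sqrt]; linarith
        nlinarith
      nlinarith
    have hh1 : (h : ℝ) ≤ H / x ^ (U + 3) := Nat.floor_le (by positivity)
    have hh2 : (H : ℝ) / x ^ (U + 3) / 2 ≤ h := by
      have := Nat.lt_floor_add_one ((H : ℝ) / x ^ (U + 3))
      rw [← hh] at this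
      linarith
    have hh0 : 0 < h := by
      have : (0 : ℝ) < h := by linarith
      exact_mod_cast this
    have hh0r : (0 : ℝ) < h := by exact_mod_cast hh0
    set J := X / h + 1 with hJ
    have hJr : (J : ℝ) ≤ 3 * x ^ (B + U + 3) := by
      rw [hJ]; push_cast
      have h1 : ((X / h : ℕ) : ℝ) ≤ (X : ℝ) / h := Nat.cast_div_le
      have h2 : (X : ℝ) / h ≤ 2 * x ^ (B + U + 3) := by
        rw [div_le_iff₀ hh0r]
        calc (X : ℝ) ≤ H * x ^ B := c2
          _ = 2 * x ^ (B + U + 3) * ((H : ℝ) / x ^ (U + 3) / 2) := by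
              rw [add_assoc, pow_add x B]; field_simp
          _ ≤ _ := mul_le_mul_of_nonneg_left hh2 (by positivity)
      have h3 : 1 ≤ x ^ (B + U + 3) := one_le_pow₀ (by linarith)
      linarith
    set Bad : ℕ → Finset ℕ := fun j => if j * h ≤ X then
      (Icc 1 X).filter (fun D => H / (2 * x ^ U) < |ps D (j * h) - sg z D * ((j * h : ℕ) : ℝ)|) else ∅ with hBad
    have hBc : ∀ j, ((Bad j).card : ℝ) ≤ 4 * H * x ^ (2 * B + U) / x ^ U2 := by
      intro j
      simp only [hBad]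
      split_ifs with hj
      · have h2 := b1 (j * h) hj z hzB hz3
        set F := (Icc 1 X).filter (fun D : ℕ => H / (2 * x ^ U) < |ps D (j * h) - sg z D * ((j * h : ℕ) : ℝ)|) with hF
        have h3 : (F.card : ℝ) * (H / (2 * x ^ U)) ≤ 2 * (X : ℝ) ^ 2 / L ^ U2 := by
          calc (F.card : ℝ) * (H / (2 * x ^ U)) = ∑ D ∈ F, H / (2 * x ^ U) := by rw [Finset.sum_const, nsmul_eq_mul]
            _ ≤ ∑ D ∈ F, |ps D (j * h) - sg z D * ((j * h : ℕ) : ℝ)| :=
                Finset.sum_le_sum fun D hD => (Finset.mem_filter.1 hD).2.le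
            _ ≤ _ := (Finset.sum_le_sum_of_subset_of_nonneg (Finset.filter_subset _ _) fun D _ _ => abs_nonneg _).trans h2
        have h4 : 2 * (X : ℝ) ^ 2 / L ^ U2 ≤ 2 * (H * x ^ B) ^ 2 / x ^ U2 := by
          gcongr
        have h5 := h3.trans h4
        rw [← le_div_iff₀ (by positivity)] at h5
        refine h5.trans (le_of_eq ?_)
        field_simp
        ring
      · simp; positivity
    refine ⟨(range J).biUnion Bad, ?_, ?_⟩
    · have h2 : (((range J).biUnion Bad).card : ℝ) ≤ ∑ j ∈ range J, ((Bad j).card : ℝ) := by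
        exact_mod_cast Finset.card_biUnion_le
      refine h2.trans ((Finset.sum_le_sum fun j _ => hBc j).trans ?_)
      rw [Finset.sum_const, Finset.card_range, nsmul_eq_mul]
      calc (J : ℝ) * (4 * H * x ^ (2 * B + U) / x ^ U2) ≤ 3 * x ^ (B + U + 3) * (4 * H * x ^ (2 * B + U) / x ^ U2) :=
            mul_le_mul_of_nonneg_right hJr (by positivity)
        _ = 12 / x ^ 5 * (H / x ^ U) := by
            rw [hU2]
            have e1 : x ^ (3 * B + 3 * U + 8) = x ^ (B + U + 3) * x ^ (2 * B + U) * (x ^ 5 * x ^ U) := by ring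
            rw [e1]
            field_simp
            ring
        _ ≤ 1 * (H / x ^ U) := by
            refine mul_le_mul_of_nonneg_right ?_ (by positivity)
            rw [div_le_one (by positivity)]
            calc (12 : ℝ) ≤ x := by linarith
              _ ≤ x ^ 5 := le_self_pow₀ (by linarith) (by norm_num)
        _ = _ := one_mul _
    · intro D hD1 hD2 hD3 y hy
      set j := y / h with hj
      have h2 : j * h ≤ y := Nat.div_mul_le_self y h
      have h3 : y < j * h + h := by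
        have := Nat.lt_div_mul_add hh0 (a := y)
        exact this
      have hjJ : j ∈ range J := by
        rw [Finset.mem_range, hJ]
        exact Nat.lt_succ_of_le (Nat.div_le_div_right hy)
      have h4 : D ∉ Bad j := fun hb => hD3 (Finset.mem_biUnion.2 ⟨j, hjJ, hb⟩)
      simp only [hBad] at h4
      rw [if_pos (h2.trans hy)] at h4
      have h5 : |ps D (j * h) - sg z D * ((j * h : ℕ) : ℝ)| ≤ H / (2 * x ^ U) := by
        by_contra hcon
        push Not at hcon
        exact h4 (Finset.mem_filter.2 ⟨mem_Icc.2 ⟨hD1, hD2⟩, hcon⟩)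
      have h6 := ps_step D X (j * h) y h2 hy hD2 (by omega)
      have h7 : Real.log (2 * X) ≤ 2 * x := by
        rw [Real.log_mul (by norm_num) (by linarith)]
        have := Real.log_two_lt_d9
        linarith
      have h8 : 0 ≤ Real.log (2 * X) := Real.log_nonneg (by linarith)
      have h9 : ((y - j * h : ℕ) : ℝ) ≤ h := by
        have : y - j * h ≤ h := by omega
        exact_mod_cast this
      have h10 : |ps D y - ps D (j * h)| ≤ h * (2 * x) ^ 2 := by
        refine h6.trans (mul_le_mul h9 (pow_le_pow_left₀ h8 h7 2) (by positivity) (by positivity))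
      have h11 : |sg z D * ((j * h : ℕ) : ℝ) - sg z D * y| ≤ (2 * x) * h := by
        rw [← mul_sub, abs_mul, abs_of_nonneg (sg_nonneg z D)]
        have e1 : |((j * h : ℕ) : ℝ) - y| ≤ h := by
          rw [abs_sub_comm, ← Nat.cast_sub h2, abs_of_nonneg (Nat.cast_nonneg _)]
          exact h9
        exact mul_le_mul ((sg_le z D).trans (by linarith)) e1 (abs_nonneg _) (by positivity)
      have e2 : ps D y - sg z D * y = (ps D y - ps D (j * h)) + (ps D (j * h) - sg z D * ((j * h : ℕ) : ℝ)) +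
          (sg z D * ((j * h : ℕ) : ℝ) - sg z D * y) := by ring
      rw [e2]
      refine (abs_add_le _ _).trans ?_
      refine (add_le_add ((abs_add_le _ _).trans (add_le_add h10 h5)) h11).trans ?_
      have h12 : (h : ℝ) * (2 * x) ^ 2 + H / (2 * x ^ U) + 2 * x * h ≤
          H / x ^ (U + 3) * (2 * x) ^ 2 + H / (2 * x ^ U) + 2 * x * (H / x ^ (U + 3)) := by gcongr
      refine h12.trans ?_
      have e3 : H / x ^ (U + 3) * (2 * x) ^ 2 + H / (2 * x ^ U) + 2 * x * (H / x ^ (U + 3)) =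
          H / x ^ U * (4 / x + 1 / 2 + 2 / x ^ 2) := by
        rw [pow_add x U 3]
        field_simp
        ring
      rw [e3]
      refine mul_le_of_le_one_right (by positivity) ?_
      have e4 : 4 / x ≤ 1 / 8 := by rw [div_le_div_iff₀ hx0 (by norm_num)]; linarith
      have e5 : 2 / x ^ 2 ≤ 1 / 8 := by
        rw [div_le_div_iff₀ (by positivity) (by norm_num)]
        nlinarith
      linarith

end Pool.Agent.H570.CD
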