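import Mathlib
import Pool.Agent.H570.CD.Inp

/-! Sums of two values over an interval. -/

set_option autoImplicit false

namespace Pool.Agent.H570.CD

open Finset Filter Topology Pool.Agent.H570.LQ Pool.Agent.H570.TH
open Pool.Agent.H373R2.T7 (pz Vz mem_pz Vz_pos Vz_inv_small singZ singZ_eq rhoP rhoP_le nuP)

/-- shifting the variable -/
lemma shift_sum (f : ℕ → ℝ) (H y : ℕ) : ∑ x ∈ Ioc 0 H, f (x + y) = ∑ u ∈ Ioc y (y + H), f u := by
  rw [← Finset.sum_image (f := f) (g := fun x => x + y) (s := Ioc 0 H)]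
  · congr 1
    ext u
    simp only [mem_image, mem_Ioc]
    constructor
    · rintro ⟨x, hx, rfl⟩; omega
    · intro h; exact ⟨u - y, by omega, by omega⟩
  · intro a _ b _ h
    exact Nat.add_right_cancel h

lemma Ioc_sub (f : ℕ → ℝ) (y H : ℕ) : ∑ u ∈ Ioc y (y + H), f u = ∑ u ∈ Icc 1 (y + H), f u - ∑ u ∈ Icc 1 y, f u := by
  have h2 : Icc 1 (y + H) = Icc 1 y ∪ Ioc y (y + H) := by
    ext n; simp only [mem_union, mem_Icc, mem_Ioc]; omega
  have h3 : Disjoint (Icc 1 y) (Ioc y (y + H)) := by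
    rw [Finset.disjoint_left]; intro n hn hn'
    have := mem_Icc.1 hn; have := mem_Ioc.1 hn'; omega
  rw [h2, Finset.sum_union h3]; ring

/-- two values of the von Mangoldt function -/
lemma pair_FF (H y D X z : ℕ) (δ : ℝ) (hy : y + H ≤ X)
    (h : ∀ y : ℕ, y ≤ X → |ps D y - sg z D * y| ≤ δ) :
    |∑ x ∈ Ioc 0 H, vM (x + y) * vM (x + (y + D)) - sg z D * H| ≤ 2 * δ := by
  have e1 : ∑ x ∈ Ioc 0 H, vM (x + y) * vM (x + (y + D)) = ps D (y + H) - ps D y := by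
    have := shift_sum (fun u => vM u * vM (u + D)) H y
    simp only [add_assoc] at this ⊢
    rw [this, Ioc_sub]
    rfl
  have h1 := h (y + H) hy
  have h2 := h y (by omega)
  rw [e1]
  have e2 : ps D (y + H) - ps D y - sg z D * H =
      (ps D (y + H) - sg z D * ((y + H : ℕ) : ℝ)) - (ps D y - sg z D * y) := by push_cast; ring
  rw [e2]
  exact (abs_sub _ _).trans (by linarith)

/-- one value of the von Mangoldt function and one of the model -/
lemma pair_FM (H y X z : ℕ) (a : ℤ) (δ : ℝ) (hy : y + H ≤ X)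
    (h : ∀ y : ℕ, y ≤ X → |∑ n ∈ Icc 1 y, vM n * mz z ((n : ℤ) + a) - sg z a * y| ≤ δ) :
    |∑ x ∈ Ioc 0 H, vM (x + y) * mz z ((x : ℤ) + (y + a)) - sg z a * H| ≤ 2 * δ := by
  have e1 : ∑ x ∈ Ioc 0 H, vM (x + y) * mz z ((x : ℤ) + (y + a)) =
      ∑ n ∈ Icc 1 (y + H), vM n * mz z ((n : ℤ) + a) - ∑ n ∈ Icc 1 y, vM n * mz z ((n : ℤ) + a) := by
    have := shift_sum (fun u => vM u * mz z ((u : ℤ) + a)) H y
    rw [← Ioc_sub, ← this]
    refine Finset.sum_congr rfl fun x _ => ?_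
    push_cast
    rw [add_assoc]
  have h1 := h (y + H) hy
  have h2 := h y (by omega)
  rw [e1]
  have e2 : ∑ n ∈ Icc 1 (y + H), vM n * mz z ((n : ℤ) + a) - ∑ n ∈ Icc 1 y, vM n * mz z ((n : ℤ) + a) - sg z a * H =
      (∑ n ∈ Icc 1 (y + H), vM n * mz z ((n : ℤ) + a) - sg z a * ((y + H : ℕ) : ℝ)) -
      (∑ n ∈ Icc 1 y, vM n * mz z ((n : ℤ) + a) - sg z a * y) := by push_cast; ring
  rw [e2]
  exact (abs_sub _ _).trans (by linarith)

/-- periodic functions over intervals -/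
lemma per_sum (f : ℕ → ℝ) (W : ℕ) (hW : 1 ≤ W) (hf : ∀ n, f (n + W) = f n) (M : ℝ) (h0 : ∀ n, 0 ≤ f n) (hM : ∀ n, f n ≤ M)
    (y H : ℕ) : |∑ u ∈ Ioc y (y + H), f u - (H : ℝ) / W * ∑ r ∈ range W, f r| ≤ W * M := by
  have hper : Function.Periodic f W := hf
  have hmod : ∀ n, f (n % W) = f n := fun n => hper.map_mod_nat n
  have hWr : (0 : ℝ) < W := by exact_mod_cast hW
  have hM0 : 0 ≤ M := (h0 0).trans (hM 0)
  have hblock : ∀ y : ℕ, ∑ u ∈ Ioc y (y + W), f u = ∑ r ∈ range W, f r := by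
    intro y
    refine Finset.sum_bij (fun u _ => u % W) ?_ ?_ ?_ ?_
    · intro u _; exact Finset.mem_range.2 (Nat.mod_lt _ hW)
    · intro a ha b hb hab
      have ha' := mem_Ioc.1 ha
      have hb' := mem_Ioc.1 hb
      have h1 : a ≡ b [MOD W] := hab
      rcases le_total a b with h | h
      · have h2 := (Nat.modEq_iff_dvd' h).1 h1
        have h3 := Nat.eq_zero_of_dvd_of_lt h2 (by omega)
        omega
      · have h2 := (Nat.modEq_iff_dvd' h).1 h1.symm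
        have h3 := Nat.eq_zero_of_dvd_of_lt h2 (by omega)
        omega
    · intro r hr
      have hr' := Finset.mem_range.1 hr
      have h1 : (y + 1 + (r + W * (y + 1) - (y + 1)) % W) % W = r := by
        have h2 : (y + 1) ≤ r + W * (y + 1) := by nlinarith
        rw [Nat.add_mod_mod, Nat.add_sub_cancel' h2, Nat.add_mul_mod_self_left, Nat.mod_eq_of_lt hr']
      have h3 := Nat.mod_lt (r + W * (y + 1) - (y + 1)) hW
      exact ⟨y + 1 + (r + W * (y + 1) - (y + 1)) % W, mem_Ioc.2 ⟨by omega, by omega⟩, h1⟩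
    · intro u _; exact (hmod u).symm
  have hq : ∀ q y : ℕ, ∑ u ∈ Ioc y (y + q * W), f u = q * ∑ r ∈ range W, f r := by
    intro q
    induction q with
    | zero => intro y; simp
    | succ q ih =>
      intro y
      have h1 : Ioc y (y + (q + 1) * W) = Ioc y (y + q * W) ∪ Ioc (y + q * W) (y + q * W + W) := by
        ext n
        have : (q + 1) * W = q * W + W := by ring
        simp only [mem_union, mem_Ioc, this]; omega
      have h2 : Disjoint (Ioc y (y + q * W)) (Ioc (y + q * W) (y + q * W + W)) := by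
        rw [Finset.disjoint_left]; intro n hn hn'
        have := mem_Ioc.1 hn; have := mem_Ioc.1 hn'; omega
      rw [h1, Finset.sum_union h2, ih, hblock]
      push_cast; ring
  set q := H / W with hqd
  set r := H % W with hr
  have hH : H = q * W + r := by rw [hqd, hr, mul_comm]; exact (Nat.div_add_mod H W).symm
  have hrW : r < W := Nat.mod_lt _ hW
  have h1 : Ioc y (y + H) = Ioc y (y + q * W) ∪ Ioc (y + q * W) (y + q * W + r) := by
    ext n; simp only [mem_union, mem_Ioc]; omega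
  have h2 : Disjoint (Ioc y (y + q * W)) (Ioc (y + q * W) (y + q * W + r)) := by
    rw [Finset.disjoint_left]; intro n hn hn'
    have := mem_Ioc.1 hn; have := mem_Ioc.1 hn'; omega
  rw [h1, Finset.sum_union h2, hq]
  set T := ∑ r ∈ range W, f r with hT
  set R := ∑ u ∈ Ioc (y + q * W) (y + q * W + r), f u with hR
  have hR0 : 0 ≤ R := Finset.sum_nonneg fun _ _ => h0 _
  have hR1 : R ≤ r * M := by
    calc R ≤ ∑ u ∈ Ioc (y + q * W) (y + q * W + r), M := Finset.sum_le_sum fun _ _ => hM _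
      _ = _ := by rw [Finset.sum_const, Nat.card_Ioc, nsmul_eq_mul, Nat.add_sub_cancel_left]
  have hT0 : 0 ≤ T := Finset.sum_nonneg fun _ _ => h0 _
  have hT1 : T ≤ W * M := by
    calc T ≤ ∑ u ∈ range W, M := Finset.sum_le_sum fun _ _ => hM _
      _ = _ := by rw [Finset.sum_const, Finset.card_range, nsmul_eq_mul]
  have hHr : (H : ℝ) = q * W + r := by exact_mod_cast hH
  have e1 : (q : ℝ) * T + R - H / W * T = R - r / W * T := by
    rw [hHr]; field_simp; ring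
  rw [e1]
  have hrr : (r : ℝ) ≤ W := by exact_mod_cast hrW.le
  have h3 : (r : ℝ) / W * T ≤ r * M := by
    rw [div_mul_eq_mul_div, div_le_iff₀ hWr]
    calc (r : ℝ) * T ≤ r * (W * M) := mul_le_mul_of_nonneg_left hT1 (Nat.cast_nonneg _)
      _ = _ := by ring
  have h4 : (r : ℝ) * M ≤ W * M := mul_le_mul_of_nonneg_right hrr hM0
  have h5 : 0 ≤ (r : ℝ) / W * T := by positivity
  rw [abs_le]
  constructor <;> linarith

lemma PW_pz (z : ℕ) : PW z = ∏ p ∈ pz z, p := rfl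

lemma dvd_PW' {z p : ℕ} (hp : p ∈ pz z) : p ∣ PW z := Finset.dvd_prod_of_mem _ hp

lemma mz_add_PW (z : ℕ) (m : ℤ) : mz z (m + (PW z : ℕ)) = mz z m := by
  unfold mz
  have h : (∀ p ∈ pz z, ¬ (p : ℤ) ∣ m + (PW z : ℕ)) ↔ (∀ p ∈ pz z, ¬ (p : ℤ) ∣ m) := by
    refine forall_congr' fun p => forall_congr' fun hp => not_congr ?_
    have h1 : (p : ℤ) ∣ ((PW z : ℕ) : ℤ) := Int.natCast_dvd_natCast.2 (dvd_PW' hp)
    exact Int.dvd_add_left h1
  by_cases h1 : ∀ p ∈ pz z, ¬ (p : ℤ) ∣ m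
  · rw [if_pos h1, if_pos (h.2 h1)]
  · rw [if_neg h1, if_neg (fun h2 => h1 (h.1 h2))]

lemma mz_periodic (z W : ℕ) (hW : PW z ∣ W) (m : ℤ) : mz z (m + (W : ℕ)) = mz z m := by
  unfold mz
  have h : (∀ p ∈ pz z, ¬ (p : ℤ) ∣ m + (W : ℕ)) ↔ (∀ p ∈ pz z, ¬ (p : ℤ) ∣ m) := by
    refine forall_congr' fun p => forall_congr' fun hp => not_congr ?_
    have h1 : (p : ℤ) ∣ (W : ℤ) := Int.natCast_dvd_natCast.2 ((dvd_PW' hp).trans hW)
    exact Int.dvd_add_left h1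
  by_cases h1 : ∀ p ∈ pz z, ¬ (p : ℤ) ∣ m
  · rw [if_pos h1, if_pos (h.2 h1)]
  · rw [if_neg h1, if_neg (fun h2 => h1 (h.1 h2))]

lemma mod_int (p n : ℕ) (a : ℤ) : (p : ℤ) ∣ ((n % p : ℕ) : ℤ) + a ↔ (p : ℤ) ∣ (n : ℤ) + a := by
  have h1 : (n : ℤ) + a = (((n % p : ℕ) : ℤ) + a) + p * ((n / p : ℕ) : ℤ) := by
    have := Nat.mod_add_div n p
    have h2 : (n : ℤ) = ((n % p : ℕ) : ℤ) + p * ((n / p : ℕ) : ℤ) := by exact_mod_cast this.symm
    rw [h2]; simp; ring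
  rw [h1]
  exact (Int.dvd_add_left (dvd_mul_right _ _)).symm

lemma mz_prod (z : ℕ) (r : ℕ) (a : ℤ) : mz z (r : ℤ) * mz z ((r : ℤ) + a) =
    if ∀ p ∈ pz z, ¬ (p : ℤ) ∣ ((r % p : ℕ) : ℤ) + 0 ∧ ¬ (p : ℤ) ∣ ((r % p : ℕ) : ℤ) + a then ((Vz z)⁻¹) ^ 2 else 0 := by
  have h : (∀ p ∈ pz z, ¬ (p : ℤ) ∣ ((r % p : ℕ) : ℤ) + 0 ∧ ¬ (p : ℤ) ∣ ((r % p : ℕ) : ℤ) + a) ↔
      (∀ p ∈ pz z, ¬ (p : ℤ) ∣ (r : ℤ)) ∧ (∀ p ∈ pz z, ¬ (p : ℤ) ∣ (r : ℤ) + a) := by
    have h0 : ∀ p : ℕ, ((p : ℤ) ∣ ((r % p : ℕ) : ℤ) + 0 ↔ (p : ℤ) ∣ (r : ℤ)) := fun p => by rw [mod_int, add_zero]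
    simp only [h0, mod_int]
    constructor
    · intro h; exact ⟨fun p hp => (h p hp).1, fun p hp => (h p hp).2⟩
    · rintro ⟨h1, h2⟩ p hp; exact ⟨h1 p hp, h2 p hp⟩
  unfold mz
  by_cases h1 : ∀ p ∈ pz z, ¬ (p : ℤ) ∣ (r : ℤ)
  · by_cases h2 : ∀ p ∈ pz z, ¬ (p : ℤ) ∣ (r : ℤ) + a
    · rw [if_pos h1, if_pos h2, if_pos (h.2 ⟨h1, h2⟩)]; ring
    · rw [if_neg h2, if_neg (fun h3 => h2 (h.1 h3).2)]; ring
  · rw [if_neg h1, if_neg (fun h3 => h1 (h.1 h3).1)]; ring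

lemma model_mean (z : ℕ) (a : ℤ) : ∑ r ∈ range (PW z), mz z (r : ℤ) * mz z ((r : ℤ) + a) = PW z * sg z a := by
  classical
  have h1 : ∑ r ∈ range (PW z), mz z (r : ℤ) * mz z ((r : ℤ) + a) =
      (((range (∏ p ∈ pz z, p)).filter (fun n => ∀ p ∈ pz z, (fun (p b : ℕ) => ¬ (p : ℤ) ∣ (b : ℤ) + 0 ∧ ¬ (p : ℤ) ∣ (b : ℤ) + a) p (n % p))).card : ℝ) *
        ((Vz z)⁻¹) ^ 2 := by
    rw [Finset.sum_congr rfl fun r _ => mz_prod z r a, ← Finset.sum_filter, Finset.sum_const, nsmul_eq_mul, ← PW_pz]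
  rw [h1, Pool.Agent.H373R2.T7.crt_card (fun (p b : ℕ) => ¬ (p : ℤ) ∣ (b : ℤ) + 0 ∧ ¬ (p : ℤ) ∣ (b : ℤ) + a) (pz z)
    (fun p hp => (mem_pz.1 hp).2)]
  unfold sg singZ Vz
  rw [PW_pz]
  have e0 : (Icc 1 z).filter Nat.Prime = pz z := rfl
  rw [e0]
  push_cast
  rw [← Finset.prod_inv_distrib, ← Finset.prod_pow, ← Finset.prod_mul_distrib, ← Finset.prod_mul_distrib]
  refine Finset.prod_congr rfl fun p hp => ?_
  have hp2 : (2 : ℝ) ≤ p := by exact_mod_cast (mem_pz.1 hp).2.two_le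
  have h2 : (((range p).filter (fun b : ℕ => ¬ (p : ℤ) ∣ (b : ℤ) + 0 ∧ ¬ (p : ℤ) ∣ (b : ℤ) + a)).card : ℝ) =
      p - nuP (fun _ : Fin 1 => a) p := by
    have h3 := Finset.card_filter_add_card_filter_not (s := range p) (fun r : ℕ => p ∣ r ∨ ∃ _i : Fin 1, (p : ℤ) ∣ (r : ℤ) + a)
    rw [Finset.card_range] at h3
    have h4 : (range p).filter (fun b : ℕ => ¬ (p : ℤ) ∣ (b : ℤ) + 0 ∧ ¬ (p : ℤ) ∣ (b : ℤ) + a) =
        (range p).filter (fun r : ℕ => ¬ (p ∣ r ∨ ∃ _i : Fin 1, (p : ℤ) ∣ (r : ℤ) + a)) := by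
      refine Finset.filter_congr fun r _ => ?_
      rw [add_zero, Int.natCast_dvd_natCast]
      simp only [exists_const, not_or]
    rw [h4]
    unfold nuP
    have h5 : (((range p).filter (fun r : ℕ => p ∣ r ∨ ∃ _i : Fin 1, (p : ℤ) ∣ (r : ℤ) + a)).card : ℝ) +
        (((range p).filter (fun r : ℕ => ¬ (p ∣ r ∨ ∃ _i : Fin 1, (p : ℤ) ∣ (r : ℤ) + a))).card : ℝ) = p := by
      exact_mod_cast h3
    linarith
  rw [h2]
  have h7 : (1 : ℝ) - 1 / p ≠ 0 := by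
    have : 1 / (p : ℝ) ≤ 1 / 2 := one_div_le_one_div_of_le (by norm_num) hp2
    intro h8; linarith
  field_simp

/-- two values of the model -/
lemma pair_MM (H y z : ℕ) (a : ℤ) :
    |∑ x ∈ Ioc 0 H, mz z ((x : ℤ) + y) * mz z ((x : ℤ) + (y + a)) - sg z a * H| ≤ PW z * ((Vz z)⁻¹) ^ 2 := by
  have e1 : ∑ x ∈ Ioc 0 H, mz z ((x : ℤ) + y) * mz z ((x : ℤ) + (y + a)) =
      ∑ u ∈ Ioc y (y + H), mz z (u : ℤ) * mz z ((u : ℤ) + a) := by
    rw [← shift_sum (fun u => mz z (u : ℤ) * mz z ((u : ℤ) + a)) H y]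
    refine Finset.sum_congr rfl fun x _ => ?_
    push_cast
    rw [add_assoc]
  have h := per_sum (fun u => mz z (u : ℤ) * mz z ((u : ℤ) + a)) (PW z) (PW_pos z) (fun n => by
    push_cast
    rw [mz_add_PW, show (n : ℤ) + ((PW z : ℕ) : ℤ) + a = ((n : ℤ) + a) + ((PW z : ℕ) : ℤ) by ring, mz_add_PW])
    (((Vz z)⁻¹) ^ 2) (fun n => mul_nonneg (mz_nonneg _ _) (mz_nonneg _ _))
    (fun n => by rw [sq]; exact mul_le_mul (mz_le _ _) (mz_le _ _) (mz_nonneg _ _) (inv_nonneg.2 (Vz_pos z).le)) y H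
  rw [model_mean] at h
  rw [e1]
  have hWr : ((PW z : ℕ) : ℝ) ≠ 0 := by
    have := PW_pos z
    positivity
  have e2 : sg z a * (H : ℝ) = (H : ℝ) / (PW z : ℕ) * ((PW z : ℕ) * sg z a) := by field_simp
  rw [e2]
  exact h

lemma nuP_one (a : ℤ) (p : ℕ) (hp : p.Prime) : nuP (fun _ : Fin 1 => a) p = if (p : ℤ) ∣ a then 1 else 2 := by
  unfold nuP
  have hp1 := hp.pos
  split_ifs with h
  · rw [Finset.card_eq_one]
    refine ⟨0, ?_⟩
    ext r
    simp only [mem_filter, mem_range, mem_singleton, exists_const]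
    constructor
    · rintro ⟨h1, h2 | h2⟩
      · exact Nat.eq_zero_of_dvd_of_lt h2 h1
      · have h3 := (Int.dvd_add_left h).1 h2
        exact Nat.eq_zero_of_dvd_of_lt (Int.natCast_dvd_natCast.1 h3) h1
    · rintro rfl; exact ⟨hp1, Or.inl (dvd_zero _)⟩
  · rw [Finset.card_eq_two]
    refine ⟨0, ((-a) % p).toNat, ?_, ?_⟩
    · intro h0
      have h1 : 0 ≤ (-a) % (p : ℤ) := Int.emod_nonneg _ (by exact_mod_cast hp1.ne')
      have h2 : (-a) % (p : ℤ) = 0 := by omega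
      exact h ((dvd_neg).1 (Int.dvd_of_emod_eq_zero h2))
    · have h1 : 0 ≤ (-a) % (p : ℤ) := Int.emod_nonneg _ (by exact_mod_cast hp1.ne')
      have h2 : (-a) % (p : ℤ) < p := Int.emod_lt_of_pos _ (by exact_mod_cast hp1)
      have h3 : (((-a) % (p : ℤ)).toNat : ℤ) = (-a) % p := Int.toNat_of_nonneg h1
      ext r
      simp only [mem_filter, mem_range, mem_insert, mem_singleton, exists_const]
      constructor
      · rintro ⟨h4, h5 | h5⟩
        · exact Or.inl (Nat.eq_zero_of_dvd_of_lt h5 h4)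
        · right
          have h6 : (-a) % p = (r : ℤ) % p := by
            have h8 : (-a) ≡ (r : ℤ) [ZMOD p] := Int.modEq_iff_dvd.2 (by rw [sub_neg_eq_add]; exact h5)
            exact h8
          have h7 : (r : ℤ) % p = r := Int.emod_eq_of_lt (by positivity) (by exact_mod_cast h4)
          omega
      · rintro (rfl | rfl)
        · exact ⟨hp1, Or.inl (dvd_zero _)⟩
        · refine ⟨by omega, Or.inr ?_⟩
          rw [h3]
          have h8 := Int.emod_add_mul_ediv (-a) p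
          have h9 : (-a) % (p : ℤ) + a = p * (-((-a) / (p : ℤ))) := by linarith
          rw [h9]; exact dvd_mul_right _ _

end Pool.Agent.H570.CD
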