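import Mathlib
import Pool.Agent.H570.CD.Sums

/-! The averages of the singular series. -/

set_option autoImplicit false

namespace Pool.Agent.H570.CD

open Finset Filter Topology Pool.Agent.H570.LQ Pool.Agent.H570.TH
open Pool.Agent.H373R2.T7 (pz Vz mem_pz Vz_pos Vz_inv_small singZ singZ_eq rhoP rhoP_le nuP)

noncomputable def beta (P : Finset ℕ) (φ τ : ℕ → ℝ) (e : ℕ) : ℝ :=
  (∏ p ∈ e.primeFactors, (φ p - τ p)) * ∏ p ∈ P \ e.primeFactors, τ p

/-- the moduli which occur -/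
def Sm (P : Finset ℕ) (J : ℕ) : Finset ℕ := (Icc 1 J).filter (fun e => Squarefree e ∧ e.primeFactors ⊆ P)

lemma sqf_prod (T : Finset ℕ) (hT : ∀ p ∈ T, p.Prime) : Squarefree (∏ p ∈ T, p) := by
  have h3 : Set.Pairwise (T : Set ℕ) (Function.onFun IsRelPrime (fun p : ℕ => p)) := by
    intro p hp q hq hpq
    have := (Nat.coprime_primes (hT p hp) (hT q hq)).2 hpq
    exact Nat.coprime_iff_isRelPrime.1 this
  exact (Finset.squarefree_prod_of_pairwise_isCoprime (s := T) (f := fun p => p) (fun p hp q hq hpq => h3 hp hq hpq)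
    fun p hp => (hT p hp).prime.squarefree)

lemma expand_gen (P : Finset ℕ) (hP : ∀ p ∈ P, p.Prime) (φ τ : ℕ → ℝ) (l J : ℕ) (hl : 1 ≤ l) (hlJ : l ≤ J) :
    ∏ p ∈ P, (if p ∣ l then φ p else τ p) = ∑ e ∈ (Sm P J).filter (fun e => e ∣ l), beta P φ τ e := by
  set P1 := P.filter (fun p => p ∣ l) with hP1
  set P2 := P.filter (fun p => ¬ p ∣ l) with hP2
  have h1 : ∏ p ∈ P, (if p ∣ l then φ p else τ p) = (∏ p ∈ P1, φ p) * ∏ p ∈ P2, τ p := by
    rw [← Finset.prod_filter_mul_prod_filter_not P (fun p => p ∣ l)]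
    congr 1
    · exact Finset.prod_congr rfl fun p hp => if_pos (Finset.mem_filter.1 hp).2
    · exact Finset.prod_congr rfl fun p hp => if_neg (Finset.mem_filter.1 hp).2
  have h2 : ∏ p ∈ P1, φ p = ∑ T ∈ P1.powerset, (∏ p ∈ T, (φ p - τ p)) * ∏ p ∈ P1 \ T, τ p := by
    rw [← Finset.prod_add]
    exact Finset.prod_congr rfl fun p _ => by ring
  have h3 : ∀ T ∈ P1.powerset, ((∏ p ∈ T, (φ p - τ p)) * ∏ p ∈ P1 \ T, τ p) * ∏ p ∈ P2, τ p =
      beta P φ τ (∏ p ∈ T, p) := by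
    intro T hT
    have hT1 := Finset.mem_powerset.1 hT
    have hTp : ∀ p ∈ T, p.Prime := fun p hp => hP p (Finset.mem_filter.1 (hT1 hp)).1
    unfold beta
    rw [Nat.primeFactors_prod hTp, mul_assoc]
    congr 1
    rw [← Finset.prod_union]
    · congr 1
      ext p
      simp only [hP1, hP2, Finset.mem_union, Finset.mem_sdiff, Finset.mem_filter]
      constructor
      · rintro (⟨⟨a, b⟩, c⟩ | ⟨a, b⟩)
        · exact ⟨a, c⟩
        · exact ⟨a, fun h => b (Finset.mem_filter.1 (hT1 h)).2⟩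
      · rintro ⟨a, b⟩
        by_cases h : p ∣ l
        · exact Or.inl ⟨⟨a, h⟩, b⟩
        · exact Or.inr ⟨a, h⟩
    · rw [Finset.disjoint_left]
      intro p hp hp'
      exact (Finset.mem_filter.1 hp').2 (Finset.mem_filter.1 (Finset.mem_sdiff.1 hp).1).2
  rw [h1, h2, Finset.sum_mul, Finset.sum_congr rfl h3]
  refine Finset.sum_bij (fun T _ => ∏ p ∈ T, p) ?_ ?_ ?_ ?_
  · intro T hT
    have hT1 := Finset.mem_powerset.1 hT
    have hTp : ∀ p ∈ T, p.Prime := fun p hp => hP p (Finset.mem_filter.1 (hT1 hp)).1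
    have h4 : (∏ p ∈ T, p) ∣ l := by
      refine Finset.prod_primes_dvd l (fun p hp => (hTp p hp).prime) fun p hp => (Finset.mem_filter.1 (hT1 hp)).2
    have h5 : 0 < ∏ p ∈ T, p := Finset.prod_pos fun p hp => (hTp p hp).pos
    simp only [Sm, mem_filter, mem_Icc]
    refine ⟨⟨⟨h5, (Nat.le_of_dvd hl h4).trans hlJ⟩, sqf_prod T hTp, ?_⟩, h4⟩
    rw [Nat.primeFactors_prod hTp]
    exact hT1.trans (Finset.filter_subset _ _)
  · intro T hT T' hT' heq
    have h1 : ∀ p ∈ T, p.Prime := fun p hp => hP p (Finset.mem_filter.1 (Finset.mem_powerset.1 hT hp)).1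
    have h2 : ∀ p ∈ T', p.Prime := fun p hp => hP p (Finset.mem_filter.1 (Finset.mem_powerset.1 hT' hp)).1
    rw [← Nat.primeFactors_prod h1, ← Nat.primeFactors_prod h2]
    exact congrArg Nat.primeFactors heq
  · intro e he
    simp only [Sm, mem_filter, mem_Icc] at he
    obtain ⟨⟨⟨he1, heJ⟩, hsq, hsub⟩, hel⟩ := he
    refine ⟨e.primeFactors, ?_, Nat.prod_primeFactors_of_squarefree hsq⟩
    rw [Finset.mem_powerset, hP1]
    intro p hp
    exact Finset.mem_filter.2 ⟨hsub hp, (Nat.dvd_of_mem_primeFactors hp).trans hel⟩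
  · intro T _; rfl

/-- the quadratic form -/
lemma quad_gen (c : ℕ → ℝ) (P : Finset ℕ) (hP : ∀ p ∈ P, p.Prime) (φ τ : ℕ → ℝ) (J : ℕ) :
    ∑ j ∈ range J, ∑ j' ∈ (range J).filter (fun j' => j' ≠ j), c j * c j' * ∏ p ∈ P, (if p ∣ dd j j' then φ p else τ p) =
      ∑ e ∈ Sm P J, beta P φ τ e * OO c J e := by
  have h1 : ∀ j ∈ range J, ∀ j' ∈ (range J).filter (fun j' => j' ≠ j),
      c j * c j' * ∏ p ∈ P, (if p ∣ dd j j' then φ p else τ p) =
      ∑ e ∈ Sm P J, if j' ≡ j [MOD e] then beta P φ τ e * (c j * c j') else 0 := by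
    intro j hj j' hj'
    have hj1 := Finset.mem_range.1 hj
    have hj2 := Finset.mem_filter.1 hj'
    have hj3 := Finset.mem_range.1 hj2.1
    have hl1 := dd_pos j j' hj2.2
    have hl2 : dd j j' ≤ J := by unfold dd; omega
    rw [expand_gen P hP φ τ (dd j j') J hl1 hl2, Finset.mul_sum, Finset.sum_filter]
    refine Finset.sum_congr rfl fun e _ => ?_
    have h4 : e ∣ dd j j' ↔ j' ≡ j [MOD e] := dvd_dd_iff e j j'
    by_cases h6 : j' ≡ j [MOD e]
    · rw [if_pos (h4.2 h6), if_pos h6]; ring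
    · rw [if_neg (fun h => h6 (h4.1 h)), if_neg h6]
  rw [Finset.sum_congr rfl fun j hj => Finset.sum_congr rfl (h1 j hj)]
  have h2 : ∀ e, beta P φ τ e * OO c J e = ∑ j ∈ range J, ∑ j' ∈ (range J).filter (fun j' => j' ≠ j),
      if j' ≡ j [MOD e] then beta P φ τ e * (c j * c j') else 0 := by
    intro e
    unfold OO
    rw [Finset.mul_sum]
    refine Finset.sum_congr rfl fun j _ => ?_
    rw [Finset.mul_sum, ← Finset.sum_filter, Finset.filter_filter]
  simp only [h2]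
  conv_rhs => rw [Finset.sum_comm]
  refine Finset.sum_congr rfl fun j _ => ?_
  rw [Finset.sum_comm]

/-- the quadratic form of the difference weight -/
lemma QF_gen (b J J' : ℕ) (hb1 : 1 ≤ b) (hJ : 1 ≤ J) (hJJ : J ≤ J') (S : Finset ℕ) (hS : S ⊆ Icc 1 J') (β : ℕ → ℝ) (A : ℝ)
    (hA : 0 ≤ A) (h0 : ∀ e ∈ S, 0 ≤ β e) (hβ : ∀ e ∈ S, β e ≤ A * gw b e) :
    ∑ e ∈ S, β e * OO (vv J J') J' e ≤ A * (6 * (b : ℝ) ^ (b ^ 2)) / Real.sqrt J := by
  set Cb' : ℝ := (b : ℝ) ^ (b ^ 2) with hCb'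
  have hCb1' : 1 ≤ Cb' := one_le_pow₀ (by exact_mod_cast hb1)
  have hJr : (1 : ℝ) ≤ J := by exact_mod_cast hJ
  have hsJ : 0 < Real.sqrt J := Real.sqrt_pos.2 (by linarith)
  have hss : Real.sqrt J * Real.sqrt J = J := Real.mul_self_sqrt (by linarith)
  have h1 : ∀ e ∈ S, e ≤ J → β e * OO (vv J J') J' e ≤ A * (4 * Cb' * Real.sqrt J / (J : ℝ) ^ 2) := by
    intro e he heJ
    have h3 := mem_Icc.1 (hS he)
    have he0 : (0 : ℝ) < e := by exact_mod_cast (by omega : 0 < e)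
    calc β e * OO (vv J J') J' e ≤ β e * (e * (4 / (J : ℝ) ^ 2)) :=
          mul_le_mul_of_nonneg_left (OO_vv1 J J' e hJJ hJ (by omega)) (h0 e he)
      _ ≤ (A * gw b e) * (e * (4 / (J : ℝ) ^ 2)) := mul_le_mul_of_nonneg_right (hβ e he) (by positivity)
      _ = A * ((b : ℝ) ^ e.primeFactors.card * (4 / (J : ℝ) ^ 2)) := by unfold gw; field_simp
      _ ≤ A * ((Cb' * Real.sqrt J) * (4 / (J : ℝ) ^ 2)) := by
          refine mul_le_mul_of_nonneg_left (mul_le_mul_of_nonneg_right ?_ (by positivity)) hA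
          refine (omega_bound b e hb1 (by omega)).trans (mul_le_mul_of_nonneg_left ?_ (by linarith))
          exact Real.sqrt_le_sqrt (by exact_mod_cast heJ)
      _ = _ := by ring
  have h2 : ∀ e ∈ S, J < e → β e * OO (vv J J') J' e ≤ A * (Cb' * (1 / ((e : ℝ) * Real.sqrt e))) := by
    intro e he heJ
    have h3 := mem_Icc.1 (hS he)
    calc β e * OO (vv J J') J' e ≤ β e * (1 / e) :=
          mul_le_mul_of_nonneg_left (OO_vv2 J J' e hJJ hJ heJ.le) (h0 e he)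
      _ ≤ (A * gw b e) * (1 / e) := mul_le_mul_of_nonneg_right (hβ e he) (by positivity)
      _ = A * (gw b e / e) := by ring
      _ ≤ _ := mul_le_mul_of_nonneg_left (gw_e b e hb1 (by omega)) hA
  rw [← Finset.sum_filter_add_sum_filter_not S (fun e => e ≤ J)]
  have h3 : ∑ e ∈ S.filter (fun e => e ≤ J), β e * OO (vv J J') J' e ≤ A * (4 * Cb' / Real.sqrt J) := by
    calc _ ≤ ∑ e ∈ S.filter (fun e => e ≤ J), A * (4 * Cb' * Real.sqrt J / (J : ℝ) ^ 2) :=
          Finset.sum_le_sum fun e he => by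
            have := Finset.mem_filter.1 he
            exact h1 e this.1 this.2
      _ = ((S.filter (fun e => e ≤ J)).card : ℝ) * (A * (4 * Cb' * Real.sqrt J / (J : ℝ) ^ 2)) := by
          rw [Finset.sum_const, nsmul_eq_mul]
      _ ≤ J * (A * (4 * Cb' * Real.sqrt J / (J : ℝ) ^ 2)) := by
          refine mul_le_mul_of_nonneg_right ?_ (by positivity)
          have : S.filter (fun e => e ≤ J) ⊆ Icc 1 J := by
            intro e he
            have h4 := Finset.mem_filter.1 he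
            have h5 := mem_Icc.1 (hS h4.1)
            exact mem_Icc.2 ⟨by omega, h4.2⟩
          have := Finset.card_le_card this
          rw [Nat.card_Icc, Nat.add_sub_cancel] at this
          exact_mod_cast this
      _ = A * (4 * Cb' / Real.sqrt J) := by
          have : (J : ℝ) * (A * (4 * Cb' * Real.sqrt J / (J : ℝ) ^ 2)) = A * (4 * Cb' * Real.sqrt J / J) := by
            field_simp
          rw [this]
          congr 1
          rw [div_eq_div_iff (by linarith) hsJ.ne', mul_assoc, hss]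
  have h4 : ∑ e ∈ S.filter (fun e => ¬ e ≤ J), β e * OO (vv J J') J' e ≤ A * (2 * Cb' / Real.sqrt J) := by
    calc _ ≤ ∑ e ∈ S.filter (fun e => ¬ e ≤ J), A * (Cb' * (1 / ((e : ℝ) * Real.sqrt e))) :=
          Finset.sum_le_sum fun e he => by
            have := Finset.mem_filter.1 he
            exact h2 e this.1 (not_le.1 this.2)
      _ ≤ ∑ e ∈ Ioc J J', A * (Cb' * (1 / ((e : ℝ) * Real.sqrt e))) := by
          refine Finset.sum_le_sum_of_subset_of_nonneg ?_ fun e _ _ => by positivity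
          intro e he
          have h4 := Finset.mem_filter.1 he
          have h5 := mem_Icc.1 (hS h4.1)
          exact mem_Ioc.2 ⟨not_le.1 h4.2, h5.2⟩
      _ ≤ A * (Cb' * (2 / Real.sqrt J)) := by
          rw [← Finset.mul_sum, ← Finset.mul_sum]
          exact mul_le_mul_of_nonneg_left (mul_le_mul_of_nonneg_left (tele J J' hJ) (by linarith)) hA
      _ = _ := by ring
  calc _ ≤ A * (4 * Cb' / Real.sqrt J) + A * (2 * Cb' / Real.sqrt J) := add_le_add h3 h4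
    _ = _ := by ring

noncomputable def ph (k p : ℕ) : ℝ := ((1 - (p : ℝ)⁻¹)⁻¹) ^ k

noncomputable def ta (k p : ℕ) : ℝ := ((1 - 2 / (p : ℝ)) / (1 - 1 / (p : ℝ)) ^ 2) ^ k

def bk (k : ℕ) : ℕ := 2 ^ (k + 1) + 2 * k

lemma one_le_bk (k : ℕ) : 1 ≤ bk k := by unfold bk; have := Nat.one_le_two_pow (n := k + 1); omega

lemma base_facts (p : ℕ) (hp : 2 ≤ p) : 0 ≤ (1 - 2 / (p : ℝ)) / (1 - 1 / (p : ℝ)) ^ 2 ∧
    (1 - 2 / (p : ℝ)) / (1 - 1 / (p : ℝ)) ^ 2 ≤ 1 ∧ 1 - (1 - 2 / (p : ℝ)) / (1 - 1 / (p : ℝ)) ^ 2 ≤ 2 / p := by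
  have hp2 : (2 : ℝ) ≤ p := by exact_mod_cast hp
  have h1 : (0 : ℝ) < 1 - 1 / p := by
    have : 1 / (p : ℝ) ≤ 1 / 2 := one_div_le_one_div_of_le (by norm_num) hp2
    linarith
  have h2 : (0 : ℝ) ≤ 1 - 2 / p := by rw [sub_nonneg, div_le_one (by linarith)]; exact hp2
  refine ⟨by positivity, ?_, ?_⟩
  · rw [div_le_one (by positivity)]
    have e1 : (1 - 1 / (p : ℝ)) ^ 2 = 1 - 2 / p + (1 / p) ^ 2 := by ring
    rw [e1]
    have : 0 ≤ (1 / (p : ℝ)) ^ 2 := by positivity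
    linarith
  · have e2 : 1 - (1 - 2 / (p : ℝ)) / (1 - 1 / (p : ℝ)) ^ 2 = 1 / ((p : ℝ) - 1) ^ 2 := by
      have h3 : (p : ℝ) - 1 ≠ 0 := by intro h; linarith
      have h4 : (p : ℝ) ≠ 0 := by positivity
      have h5 : (1 : ℝ) - 1 / p = (p - 1) / p := by field_simp
      rw [h5]
      field_simp
      ring
    rw [e2, div_le_div_iff₀ (by have : (0:ℝ) < p - 1 := by linarith
                                positivity) (by linarith)]
    nlinarith

lemma ta_nonneg (k p : ℕ) (hp : 2 ≤ p) : 0 ≤ ta k p := pow_nonneg (base_facts p hp).1 k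

lemma ta_le_one (k p : ℕ) (hp : 2 ≤ p) : ta k p ≤ 1 := pow_le_one₀ (base_facts p hp).1 (base_facts p hp).2.1

lemma one_le_ph (k p : ℕ) (hp : 2 ≤ p) : 1 ≤ ph k p := loc_ge p k hp

lemma ph_sub_ta (k p : ℕ) (hp : 2 ≤ p) : ph k p - ta k p ≤ (bk k : ℝ) / p := by
  obtain ⟨h1, h2, h3⟩ := base_facts p hp
  set x := (1 - 2 / (p : ℝ)) / (1 - 1 / (p : ℝ)) ^ 2 with hx
  have h4 := one_add_mul_le_pow (show (-2 : ℝ) ≤ x - 1 by linarith) k
  have h5 : ta k p = (1 + (x - 1)) ^ k := by unfold ta; rw [← hx]; ring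
  have h6 := local_le p k hp
  have h7 : ph k p ≤ 1 + ((2 ^ (k + 1) : ℕ) : ℝ) / p := h6
  have h8 : (k : ℝ) * (1 - x) ≤ k * (2 / p) := mul_le_mul_of_nonneg_left h3 (Nat.cast_nonneg _)
  have e1 : (bk k : ℝ) / p = ((2 ^ (k + 1) : ℕ) : ℝ) / p + k * (2 / p) := by unfold bk; push_cast; ring
  rw [e1, h5]
  nlinarith

/-- the second family of local factors -/
noncomputable def tb (k d p : ℕ) : ℝ := if p ∣ d then ph k p else ta k p

lemma tb_nonneg (k d p : ℕ) (hp : 2 ≤ p) : 0 ≤ tb k d p := by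
  unfold tb; split_ifs
  · have := one_le_ph k p hp; linarith
  · exact ta_nonneg k p hp

lemma tb_le (k d p : ℕ) (hp : 2 ≤ p) : tb k d p ≤ ph k p := by
  unfold tb; split_ifs
  · exact le_rfl
  · have := one_le_ph k p hp; have := ta_le_one k p hp; linarith

lemma sg_pow (z k d l : ℕ) : sg z ((d * l : ℕ) : ℤ) ^ k =
    ∏ p ∈ pz z, (if p ∣ l then ph k p else tb k d p) := by
  unfold sg singZ
  have e0 : (Icc 1 z).filter Nat.Prime = pz z := rfl
  rw [e0, ← Finset.prod_pow]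
  refine Finset.prod_congr rfl fun p hp => ?_
  have hpp := (mem_pz.1 hp).2
  have hp2 : (2 : ℝ) ≤ p := by exact_mod_cast hpp.two_le
  rw [nuP_one _ p hpp]
  have h1 : (p : ℤ) ∣ ((d * l : ℕ) : ℤ) ↔ p ∣ d ∨ p ∣ l := by
    rw [Int.natCast_dvd_natCast, hpp.dvd_mul]
  have h7 : (1 : ℝ) - 1 / p ≠ 0 := by
    have : 1 / (p : ℝ) ≤ 1 / 2 := one_div_le_one_div_of_le (by norm_num) hp2
    intro h8; linarith
  have e1 : ((1 - ((1 : ℕ) : ℝ) / p) / (1 - 1 / (p : ℝ)) ^ (1 + 1)) = (1 - (p : ℝ)⁻¹)⁻¹ := by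
    rw [← one_div (p : ℝ), pow_succ, pow_one, Nat.cast_one]
    field_simp
  have e2 : ((1 - ((2 : ℕ) : ℝ) / p) / (1 - 1 / (p : ℝ)) ^ (1 + 1)) = (1 - 2 / (p : ℝ)) / (1 - 1 / (p : ℝ)) ^ 2 := by
    norm_num
  by_cases hl : p ∣ l
  · rw [if_pos (h1.2 (Or.inr hl)), if_pos hl, e1]; rfl
  · rw [if_neg hl]
    unfold tb
    by_cases hd : p ∣ d
    · rw [if_pos (h1.2 (Or.inl hd)), if_pos hd, e1]; rfl
    · rw [if_neg (fun h => (h1.1 h).elim hd hl), if_neg hd, e2]; rfl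

/-- the product over the prime factors outside of the primes up to `z` -/
noncomputable def Gk (k z n : ℕ) : ℝ := ∏ p ∈ n.primeFactors \ pz z, ph k p

lemma one_le_prod_r {ι : Type*} (s : Finset ι) (f : ι → ℝ) (h : ∀ i ∈ s, 1 ≤ f i) : 1 ≤ ∏ i ∈ s, f i := by
  calc (1 : ℝ) = ∏ _i ∈ s, (1 : ℝ) := by simp
    _ ≤ _ := Finset.prod_le_prod (fun _ _ => zero_le_one) h

lemma prod_le_of_subset (s t : Finset ℕ) (f : ℕ → ℝ) (hst : s ⊆ t) (h : ∀ i ∈ t, 1 ≤ f i) : ∏ i ∈ s, f i ≤ ∏ i ∈ t, f i := by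
  rw [← Finset.prod_sdiff hst]
  refine le_mul_of_one_le_left ?_ (one_le_prod_r _ _ fun i hi => h i (Finset.mem_sdiff.1 hi).1)
  exact Finset.prod_nonneg fun i hi => by have := h i (hst hi); linarith

lemma prod_union_le (s t : Finset ℕ) (f : ℕ → ℝ) (hs : ∀ i ∈ s, 1 ≤ f i) (ht : ∀ i ∈ t, 1 ≤ f i) :
    ∏ i ∈ s ∪ t, f i ≤ (∏ i ∈ s, f i) * ∏ i ∈ t, f i := by
  have h1 : s ∪ t = s ∪ (t \ s) := by ext x; simp
  have h2 : Disjoint s (t \ s) := Finset.disjoint_sdiff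
  rw [h1, Finset.prod_union h2]
  refine mul_le_mul_of_nonneg_left (prod_le_of_subset _ _ _ Finset.sdiff_subset ht) ?_
  exact Finset.prod_nonneg fun i hi => by have := hs i hi; linarith

lemma one_le_Gk (k z n : ℕ) : 1 ≤ Gk k z n := by
  unfold Gk
  refine one_le_prod_r _ _ fun p hp => ?_
  exact one_le_ph k p (Nat.prime_of_mem_primeFactors (Finset.mem_sdiff.1 hp).1).two_le

lemma Gk_mul (k z d l : ℕ) (hd : 1 ≤ d) (hl : 1 ≤ l) : Gk k z (d * l) ≤ Gk k z d * Gk k z l := by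
  unfold Gk
  rw [Nat.primeFactors_mul (by omega) (by omega), Finset.union_sdiff_distrib]
  refine prod_union_le _ _ _ (fun p hp => ?_) fun p hp => ?_
  · exact one_le_ph k p (Nat.prime_of_mem_primeFactors (Finset.mem_sdiff.1 hp).1).two_le
  · exact one_le_ph k p (Nat.prime_of_mem_primeFactors (Finset.mem_sdiff.1 hp).1).two_le

lemma Gk_eq (k z n : ℕ) (hn : 1 ≤ n) : rat (PW z) (PW z * n) ^ k = Gk k z n := by
  have h1 : (PW z).primeFactors = pz z := Nat.primeFactors_prod fun p hp => (mem_pz.1 hp).2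
  rw [rat_eq (PW z) (PW z * n) (PW_pos z) (Nat.mul_pos (PW_pos z) hn) (Dvd.intro _ rfl), ← Finset.prod_pow,
    primeFactors_diff (PW z) n (PW_pos z) hn, h1]
  rfl

/-- comparison of two cutoffs -/
lemma sg_cut (z0 z k d l : ℕ) (hz : z0 ≤ z) (hd : 1 ≤ d) (hl : 1 ≤ l) :
    sg z ((d * l : ℕ) : ℤ) ^ k - sg z0 ((d * l : ℕ) : ℤ) ^ k ≤ ((Vz z0)⁻¹) ^ k * (Gk k z0 d * Gk k z0 l - 1) := by
  have hsub : pz z0 ⊆ pz z := by
    intro p hp
    have := mem_pz.1 hp
    exact mem_pz.2 ⟨this.1.trans hz, this.2⟩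
  have h1 : sg z ((d * l : ℕ) : ℤ) ^ k = (∏ p ∈ pz z \ pz z0, (if p ∣ l then ph k p else tb k d p)) * sg z0 ((d * l : ℕ) : ℤ) ^ k := by
    rw [sg_pow, sg_pow, Finset.prod_sdiff hsub]
  have h2 : ∏ p ∈ pz z \ pz z0, (if p ∣ l then ph k p else tb k d p) ≤ Gk k z0 (d * l) := by
    unfold Gk
    have h3 : ∏ p ∈ pz z \ pz z0, (if p ∣ l then ph k p else tb k d p) ≤
        ∏ p ∈ (pz z \ pz z0).filter (fun p => p ∣ d * l), ph k p := by
      rw [Finset.prod_filter]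
      refine Finset.prod_le_prod (fun p hp => ?_) fun p hp => ?_
      · have hp2 := (mem_pz.1 (Finset.mem_sdiff.1 hp).1).2.two_le
        split_ifs
        · have := one_le_ph k p hp2; linarith
        · exact tb_nonneg k d p hp2
      · have hpp := (mem_pz.1 (Finset.mem_sdiff.1 hp).1).2
        by_cases hl : p ∣ l
        · rw [if_pos hl, if_pos (hl.mul_left d)]
        · rw [if_neg hl]
          unfold tb
          by_cases hd : p ∣ d
          · rw [if_pos hd, if_pos (hd.mul_right l)]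
          · rw [if_neg hd, if_neg (fun h => (hpp.dvd_mul.1 h).elim hd hl)]
            exact ta_le_one k p hpp.two_le
    refine h3.trans (prod_le_of_subset _ _ _ ?_ fun p hp => one_le_ph k p (Nat.prime_of_mem_primeFactors (Finset.mem_sdiff.1 hp).1).two_le)
    intro p hp
    obtain ⟨h4, h5⟩ := Finset.mem_filter.1 hp
    obtain ⟨h6, h7⟩ := Finset.mem_sdiff.1 h4
    exact Finset.mem_sdiff.2 ⟨Nat.mem_primeFactors.2 ⟨(mem_pz.1 h6).2, h5, (Nat.mul_pos hd hl).ne'⟩, h7⟩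
  have h4 := Gk_mul k z0 d l hd hl
  have h5 : 0 ≤ sg z0 ((d * l : ℕ) : ℤ) ^ k := pow_nonneg (sg_nonneg _ _) _
  have h6 : sg z0 ((d * l : ℕ) : ℤ) ^ k ≤ ((Vz z0)⁻¹) ^ k := pow_le_pow_left₀ (sg_nonneg _ _) (sg_le _ _) _
  have h7 := one_le_Gk k z0 (d * l)
  rw [h1]
  calc _ = sg z0 ((d * l : ℕ) : ℤ) ^ k * (∏ p ∈ pz z \ pz z0, (if p ∣ l then ph k p else tb k d p) - 1) := by ring
    _ ≤ sg z0 ((d * l : ℕ) : ℤ) ^ k * (Gk k z0 d * Gk k z0 l - 1) :=
        mul_le_mul_of_nonneg_left (by linarith) h5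
    _ ≤ _ := mul_le_mul_of_nonneg_right h6 (by linarith)

/-- the difference weight -/
lemma QF_sg (k z d J J' : ℕ) (hd : 1 ≤ d) (hJ : 1 ≤ J) (hJJ : J ≤ J') :
    ∑ j ∈ range J', ∑ j' ∈ (range J').filter (fun j' => j' ≠ j), vv J J' j * vv J J' j' * sg z ((d * dd j j' : ℕ) : ℤ) ^ k ≤
      Gk k 1 d * (6 * (bk k : ℝ) ^ (bk k ^ 2)) / Real.sqrt J := by
  simp only [sg_pow]
  rw [quad_gen (vv J J') (pz z) (fun p hp => (mem_pz.1 hp).2) (ph k) (tb k d) J']
  have hpz1 : pz 1 = ∅ := by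
    rw [Finset.eq_empty_iff_forall_notMem]
    intro p hp
    have h := mem_pz.1 hp
    have := h.2.two_le
    omega
  have hG0 : 0 ≤ Gk k 1 d := by have := one_le_Gk k 1 d; linarith
  refine QF_gen (bk k) J J' (one_le_bk k) hJ hJJ _ (Finset.filter_subset _ _) _ _ hG0 (fun e he => ?_) fun e he => ?_
  · unfold beta
    refine mul_nonneg (Finset.prod_nonneg fun p hp => ?_) (Finset.prod_nonneg fun p hp => ?_)
    · have := tb_le k d p (Nat.prime_of_mem_primeFactors hp).two_le; linarith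
    · exact tb_nonneg k d p (mem_pz.1 (Finset.mem_sdiff.1 hp).1).2.two_le
  · have he' := Finset.mem_filter.1 he
    have hsq := he'.2.1
    unfold beta
    rw [mul_comm (Gk k 1 d)]
    refine mul_le_mul ?_ ?_ (Finset.prod_nonneg fun p hp => ?_) (gw_nonneg _ _)
    · have h1 : (e : ℝ) = ∏ p ∈ e.primeFactors, (p : ℝ) := by
        have := Nat.prod_primeFactors_of_squarefree hsq
        have h2 : ((∏ p ∈ e.primeFactors, p : ℕ) : ℝ) = e := by rw [this]
        rw [← h2]; push_cast; rfl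
      have h2 : gw (bk k) e = ∏ p ∈ e.primeFactors, ((bk k : ℝ) / p) := by
        unfold gw
        rw [Finset.prod_div_distrib, Finset.prod_const, ← h1]
      rw [h2]
      refine Finset.prod_le_prod (fun p hp => ?_) fun p hp => ?_
      · have := tb_le k d p (Nat.prime_of_mem_primeFactors hp).two_le; linarith
      · have hp2 := (Nat.prime_of_mem_primeFactors hp).two_le
        have h3 := ph_sub_ta k p hp2
        unfold tb
        split_ifs
        · rw [sub_self]; positivity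
        · exact h3
    · unfold Gk
      rw [hpz1, Finset.sdiff_empty]
      calc _ ≤ ∏ p ∈ (pz z \ e.primeFactors).filter (fun p => p ∣ d), ph k p := by
            rw [Finset.prod_filter]
            refine Finset.prod_le_prod (fun p hp => ?_) fun p hp => ?_
            · exact tb_nonneg k d p (mem_pz.1 (Finset.mem_sdiff.1 hp).1).2.two_le
            · unfold tb
              split_ifs
              · exact le_rfl
              · exact ta_le_one k p (mem_pz.1 (Finset.mem_sdiff.1 hp).1).2.two_le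
        _ ≤ _ := by
            refine prod_le_of_subset _ _ _ ?_ fun p hp => one_le_ph k p (Nat.prime_of_mem_primeFactors hp).two_le
            intro p hp
            obtain ⟨h4, h5⟩ := Finset.mem_filter.1 hp
            exact Nat.mem_primeFactors.2 ⟨(mem_pz.1 (Finset.mem_sdiff.1 h4).1).2, h5, by omega⟩
    · exact tb_nonneg k d p (mem_pz.1 (Finset.mem_sdiff.1 hp).1).2.two_le

/-- the base weight -/
lemma QF_cut (k : ℕ) : ∃ C1 : ℝ, 1 ≤ C1 ∧ ∀ z0 z d J : ℕ, 1 ≤ z0 → z0 ≤ z → 1 ≤ d → 1 ≤ J →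
    ∑ j ∈ range J, ∑ j' ∈ (range J).filter (fun j' => j' ≠ j), uu J j * uu J j' *
      (sg z ((d * dd j j' : ℕ) : ℤ) ^ k - sg z0 ((d * dd j j' : ℕ) : ℤ) ^ k) ≤
      ((Vz z0)⁻¹) ^ k * (Gk k z0 d * (1 + C1 / Real.sqrt z0) - 1) := by
  obtain ⟨C1, hC1, h1⟩ := QF_uu k
  refine ⟨C1, hC1, fun z0 z d J hz0 hz hd hJ => ?_⟩
  have hG := one_le_Gk k z0 d
  have hV : 0 ≤ ((Vz z0)⁻¹) ^ k := pow_nonneg (inv_nonneg.2 (Vz_pos z0).le) _
  have h2 := h1 (PW z0) z0 J (PW_pos z0) hz0 hJ (fun p hp hpz => dvd_PW' (mem_pz.2 ⟨hpz, hp⟩))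
  have h3 : ∑ j ∈ range J, ∑ j' ∈ (range J).filter (fun j' => j' ≠ j), uu J j * uu J j' *
      (sg z ((d * dd j j' : ℕ) : ℤ) ^ k - sg z0 ((d * dd j j' : ℕ) : ℤ) ^ k) ≤
      ∑ j ∈ range J, ∑ j' ∈ (range J).filter (fun j' => j' ≠ j), uu J j * uu J j' *
        (((Vz z0)⁻¹) ^ k * (Gk k z0 d * (rat (PW z0) (PW z0 * dd j j') ^ k - 1) + (Gk k z0 d - 1))) := by
    refine Finset.sum_le_sum fun j _ => Finset.sum_le_sum fun j' hj' => ?_
    refine mul_le_mul_of_nonneg_left ?_ (mul_nonneg (uu_nonneg _ _) (uu_nonneg _ _))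
    have hl := dd_pos j j' (Finset.mem_filter.1 hj').2
    rw [Gk_eq k z0 _ hl]
    have := sg_cut z0 z k d (dd j j') hz hd hl
    refine this.trans (le_of_eq ?_)
    ring
  refine h3.trans ?_
  have h4 : ∑ j ∈ range J, ∑ j' ∈ (range J).filter (fun j' => j' ≠ j), uu J j * uu J j' *
        (((Vz z0)⁻¹) ^ k * (Gk k z0 d * (rat (PW z0) (PW z0 * dd j j') ^ k - 1) + (Gk k z0 d - 1))) =
      ((Vz z0)⁻¹) ^ k * (Gk k z0 d * ∑ j ∈ range J, ∑ j' ∈ (range J).filter (fun j' => j' ≠ j),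
        uu J j * uu J j' * (rat (PW z0) (PW z0 * dd j j') ^ k - 1) +
        (Gk k z0 d - 1) * ∑ j ∈ range J, ∑ j' ∈ (range J).filter (fun j' => j' ≠ j), uu J j * uu J j') := by
    simp only [Finset.mul_sum, ← Finset.sum_add_distrib]
    refine Finset.sum_congr rfl fun j _ => Finset.sum_congr rfl fun j' _ => ?_
    ring
  rw [h4]
  refine mul_le_mul_of_nonneg_left ?_ hV
  have h5 : ∑ j ∈ range J, ∑ j' ∈ (range J).filter (fun j' => j' ≠ j), uu J j * uu J j' ≤ 1 := by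
    calc _ ≤ ∑ j ∈ range J, ∑ j' ∈ range J, uu J j * uu J j' := by
          refine Finset.sum_le_sum fun j _ => ?_
          exact Finset.sum_le_sum_of_subset_of_nonneg (Finset.filter_subset _ _) fun j' _ _ =>
            mul_nonneg (uu_nonneg _ _) (uu_nonneg _ _)
      _ = (∑ j ∈ range J, uu J j) * ∑ j' ∈ range J, uu J j' := by rw [Finset.sum_mul_sum]
      _ = 1 := by rw [sum_uu J J le_rfl hJ, one_mul]
  have h6 := mul_le_mul_of_nonneg_left h2 (show 0 ≤ Gk k z0 d by linarith)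
  have h7 := mul_le_mul_of_nonneg_left h5 (show 0 ≤ Gk k z0 d - 1 by linarith)
  calc _ ≤ Gk k z0 d * (C1 / Real.sqrt z0) + (Gk k z0 d - 1) * 1 := add_le_add h6 h7
    _ = _ := by ring

lemma sum_inv_sqrt (X : ℕ) : ∑ e ∈ Icc 1 X, 1 / Real.sqrt e ≤ 2 * Real.sqrt X := by
  induction X with
  | zero => simp
  | succ n ih =>
    rw [Finset.sum_Icc_succ_top (by omega)]
    have h0 : (0 : ℝ) < ((n + 1 : ℕ) : ℝ) := by positivity
    have h1 : 0 < Real.sqrt ((n + 1 : ℕ) : ℝ) := Real.sqrt_pos.2 h0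
    have h2 : Real.sqrt n ≤ Real.sqrt ((n + 1 : ℕ) : ℝ) := Real.sqrt_le_sqrt (by push_cast; linarith)
    have h3 : Real.sqrt n * Real.sqrt n = n := Real.mul_self_sqrt (Nat.cast_nonneg _)
    have h4 : Real.sqrt ((n + 1 : ℕ) : ℝ) * Real.sqrt ((n + 1 : ℕ) : ℝ) = n + 1 := by
      rw [Real.mul_self_sqrt h0.le]; push_cast; ring
    have h5 : 0 ≤ Real.sqrt n := Real.sqrt_nonneg _
    have h6 : 1 / Real.sqrt ((n + 1 : ℕ) : ℝ) ≤ 2 * (Real.sqrt ((n + 1 : ℕ) : ℝ) - Real.sqrt n) := by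
      rw [div_le_iff₀ h1]
      nlinarith
    linarith

/-- the mean of `Gk` over an interval -/
lemma avg_Gk (k : ℕ) : ∃ C : ℝ, 1 ≤ C ∧ ∀ z0 t H X : ℕ, 1 ≤ z0 → 1 ≤ H → t + H ≤ X →
    ∑ d ∈ Ioc t (t + H), Gk k z0 d ≤ H * (1 + C / Real.sqrt z0) + C * Real.sqrt X := by
  set b : ℕ := 2 ^ (k + 1) with hb
  have hb1 : 1 ≤ b := Nat.one_le_two_pow
  set Cb : ℝ := (b : ℝ) ^ (b ^ 2) with hCb
  have hCb1 : 1 ≤ Cb := one_le_pow₀ (by exact_mod_cast hb1)
  refine ⟨2 * Cb, by linarith, fun z0 t H X hz0 hH hX => ?_⟩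
  have hX1 : 1 ≤ X := by omega
  set W := PW z0 with hW
  have hWp := PW_pos z0
  set S := (Icc 1 X).filter (fun e => Squarefree e ∧ e.Coprime W) with hS
  have h1 : ∀ d ∈ Ioc t (t + H), Gk k z0 d = ∑ e ∈ S, if e ∣ d then hh k e else 0 := by
    intro d hd
    have hd' := mem_Ioc.1 hd
    rw [← Gk_eq k z0 d (by omega), rat_expand (PW z0) d k X hWp (by omega) (by omega), ← Finset.sum_filter]
    refine Finset.sum_congr ?_ fun _ _ => rfl
    ext e
    simp only [hS, mem_filter]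
    tauto
  rw [Finset.sum_congr rfl h1, Finset.sum_comm]
  have h2 : ∀ e ∈ S, ∑ d ∈ Ioc t (t + H), (if e ∣ d then hh k e else 0) =
      hh k e * ((Ioc t (t + H)).filter (fun d => e ∣ d)).card := by
    intro e _
    rw [← Finset.sum_filter, Finset.sum_const, nsmul_eq_mul, mul_comm]
  rw [Finset.sum_congr rfl h2]
  have h3 : S = insert 1 ((Icc 2 X).filter (fun e => Squarefree e ∧ e.Coprime W)) := by
    ext e
    simp only [hS, mem_filter, mem_Icc, mem_insert]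
    constructor
    · rintro ⟨⟨a1, a2⟩, a3⟩
      rcases Nat.lt_or_ge e 2 with h | h
      · left; omega
      · right; exact ⟨⟨h, a2⟩, a3⟩
    · rintro (rfl | ⟨⟨a1, a2⟩, a3⟩)
      · exact ⟨⟨le_rfl, hX1⟩, squarefree_one, Nat.coprime_one_left W⟩
      · exact ⟨⟨by omega, a2⟩, a3⟩
  rw [h3, Finset.sum_insert (by simp)]
  have h4 : hh k 1 = 1 := by unfold hh; simp
  have h5 : ((Ioc t (t + H)).filter (fun d => 1 ∣ d)).card = H := by
    rw [Finset.filter_true_of_mem (fun d _ => one_dvd d), Nat.card_Ioc, Nat.add_sub_cancel_left]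
  rw [h4, h5, one_mul]
  have h6 : ∑ e ∈ (Icc 2 X).filter (fun e => Squarefree e ∧ e.Coprime W),
      hh k e * ((Ioc t (t + H)).filter (fun d => e ∣ d)).card ≤
      ∑ e ∈ (Icc 2 X).filter (fun e => Squarefree e ∧ e.Coprime W), (H * (Cb * (1 / ((e : ℝ) * Real.sqrt e))) + Cb * (1 / Real.sqrt e)) := by
    refine Finset.sum_le_sum fun e he => ?_
    have h7 := Finset.mem_filter.1 he
    have h8 := mem_Icc.1 h7.1
    have he0 : (0 : ℝ) < e := by exact_mod_cast (by omega : 0 < e)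
    have h9 : (((Ioc t (t + H)).filter (fun d => e ∣ d)).card : ℝ) ≤ H / e + 1 := by
      refine le_trans ?_ (card_cls_le t H e 0 (by omega))
      refine Nat.cast_le.2 (Finset.card_le_card ?_)
      intro d hd
      obtain ⟨a, b⟩ := Finset.mem_filter.1 hd
      exact Finset.mem_filter.2 ⟨a, (Nat.modEq_zero_iff_dvd).2 b⟩
    have h10 := hh_le k e h7.2.1
    have h11 := gw_nonneg b e
    calc hh k e * (((Ioc t (t + H)).filter (fun d => e ∣ d)).card : ℝ) ≤ gw b e * (H / e + 1) :=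
          mul_le_mul h10 h9 (Nat.cast_nonneg _) h11
      _ = H * (gw b e / e) + gw b e := by ring
      _ ≤ _ := by
          refine add_le_add (mul_le_mul_of_nonneg_left (gw_e b e hb1 (by omega)) (Nat.cast_nonneg _)) ?_
          unfold gw
          have hs : 0 < Real.sqrt e := Real.sqrt_pos.2 he0
          have hss : Real.sqrt e * Real.sqrt e = e := Real.mul_self_sqrt he0.le
          rw [div_le_iff₀ he0]
          refine (omega_bound b e hb1 (by omega)).trans (le_of_eq ?_)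
          have : (1 : ℝ) / Real.sqrt e * e = Real.sqrt e := by
            rw [div_mul_eq_mul_div, one_mul, div_eq_iff hs.ne', hss]
          rw [mul_assoc, this]
  have h7 : ∑ e ∈ (Icc 2 X).filter (fun e => Squarefree e ∧ e.Coprime W), (1 / ((e : ℝ) * Real.sqrt e)) ≤ 2 / Real.sqrt z0 := by
    refine le_trans ?_ (tele z0 X hz0)
    refine Finset.sum_le_sum_of_subset_of_nonneg ?_ fun e _ _ => by positivity
    intro e he
    have h2 := Finset.mem_filter.1 he
    have h3 := mem_Icc.1 h2.1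
    refine mem_Ioc.2 ⟨?_, h3.2⟩
    by_contra h8
    have h6 : e ≠ 1 := by omega
    have h9 := Nat.minFac_prime h6
    have h10 : e.minFac ≤ z0 := le_trans (Nat.minFac_le (by omega)) (by omega)
    have h11 : e.minFac ∣ W := dvd_PW' (mem_pz.2 ⟨h10, h9⟩)
    have h12 := Nat.Coprime.eq_one_of_dvd (Nat.Coprime.coprime_dvd_left (Nat.minFac_dvd e) h2.2.2) h11
    exact h9.one_lt.ne' h12
  have h8 : ∑ e ∈ (Icc 2 X).filter (fun e => Squarefree e ∧ e.Coprime W), (1 / Real.sqrt e) ≤ 2 * Real.sqrt X := by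
    refine le_trans ?_ (sum_inv_sqrt X)
    refine Finset.sum_le_sum_of_subset_of_nonneg ?_ fun e _ _ => by positivity
    intro e he
    have h3 := mem_Icc.1 (Finset.mem_filter.1 he).1
    exact mem_Icc.2 ⟨by omega, h3.2⟩
  rw [Finset.sum_add_distrib, ← Finset.mul_sum, ← Finset.mul_sum, ← Finset.mul_sum] at h6
  have h9 : (H : ℝ) * (Cb * ∑ e ∈ (Icc 2 X).filter (fun e => Squarefree e ∧ e.Coprime W), (1 / ((e : ℝ) * Real.sqrt e))) ≤
      H * (Cb * (2 / Real.sqrt z0)) := by gcongr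
  have h10 : Cb * ∑ e ∈ (Icc 2 X).filter (fun e => Squarefree e ∧ e.Coprime W), (1 / Real.sqrt e) ≤ Cb * (2 * Real.sqrt X) := by
    gcongr
  calc _ ≤ (H : ℝ) + (H * (Cb * (2 / Real.sqrt z0)) + Cb * (2 * Real.sqrt X)) := by linarith
    _ = _ := by ring

end Pool.Agent.H570.CD
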