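import Mathlib
import Pool.Agent.H570.CD.Sing

/-! The second moment over the systems `a_i + w_i(d, n)`. -/

set_option autoImplicit false

namespace Pool.Agent.H570.CD

open Finset Filter Topology Pool.Agent.H570.LQ Pool.Agent.H570.TH
open Pool.Agent.H373R2.T7 (pz Vz mem_pz Vz_pos Vz_inv_small singZ singZ_eq rhoP rhoP_le nuP)

/-- the product of the values of the von Mangoldt function -/
noncomputable def FF {k : ℕ} (w : Fin k → ℕ → ℕ → ℕ) (n : ℕ) (v : ℕ × (Fin k → ℕ)) : ℝ :=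
  ∏ i, vM (v.2 i + w i v.1 n)

/-- the product of the values of the model -/
noncomputable def MM {k : ℕ} (w : Fin k → ℕ → ℕ → ℕ) (z0 n : ℕ) (v : ℕ × (Fin k → ℕ)) : ℝ :=
  ∏ i, mz z0 ((v.2 i : ℤ) + (w i v.1 n : ℕ))

def XB (k H : ℕ) : Finset (Fin k → ℕ) := Fintype.piFinset (fun _ => Ioc 0 H)

/-- the sample space -/
def Om (k t H : ℕ) : Finset (ℕ × (Fin k → ℕ)) := Ioc t (t + H) ×ˢ XB k H

structure Hyp {k : ℕ} (w : Fin k → ℕ → ℕ → ℕ) (t H K X z z0 : ℕ) (L δ : ℝ) (Ex : Finset ℕ) : Prop where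
  hH : 1 ≤ H
  off : ∀ i d, d ∈ Ioc t (t + H) → (∀ n m, n ≤ m → m ≤ K → w i d m = w i d n + d * (m - n)) ∨
    (∀ n m, n ≤ m → m ≤ K → w i d n = w i d m + d * (m - n))
  le : ∀ i d n, d ∈ Ioc t (t + H) → n ≤ K → w i d n + H ≤ X
  dK : (t + H) * K ≤ X
  hL : 1 ≤ L
  logX : Real.log X ≤ L
  hz : z0 ≤ z
  hz0 : 1 ≤ z0
  Vz1 : (Vz z)⁻¹ ≤ L
  Vz0 : (Vz z0)⁻¹ ≤ L
  hδ : 0 ≤ δ
  hδ1 : δ ≤ 1
  ex : ∀ D : ℕ, 1 ≤ D → D ≤ X → D ∉ Ex → ∀ y : ℕ, y ≤ X → |ps D y - sg z D * y| ≤ δ * H / 2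
  exc : (Ex.card : ℝ) ≤ δ * H
  mod : ∀ (a : ℤ) (y : ℕ), y ≤ X → |∑ n ∈ Icc 1 y, vM n * mz z0 ((n : ℤ) + a) - sg z0 a * y| ≤ δ * H / 2
  one : ∀ y : ℕ, y ≤ X → |∑ n ∈ Icc 1 y, vM n - y| ≤ H / 2
  mm : (PW z0 : ℝ) * ((Vz z0)⁻¹) ^ 2 ≤ δ * H

lemma sg_neg (z : ℕ) (a : ℤ) : sg z (-a) = sg z a := by
  unfold sg singZ
  refine Finset.prod_congr rfl fun p hp => ?_
  have hpp := (Finset.mem_filter.1 hp).2
  rw [nuP_one _ p hpp, nuP_one _ p hpp]
  simp only [dvd_neg]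

section
variable {k : ℕ} {w : Fin k → ℕ → ℕ → ℕ} {t H K X z z0 : ℕ} {L δ : ℝ} {Ex : Finset ℕ}

lemma diffs (h : Hyp w t H K X z z0 L δ Ex) (i : Fin k) (d n m : ℕ) (hd : d ∈ Ioc t (t + H)) (hn : n ≤ K) (hm : m ≤ K) :
    w i d m = w i d n + d * dd n m ∨ w i d n = w i d m + d * dd n m := by
  have h1 := h.off i d hd
  rcases le_total n m with hnm | hnm
  · have e : dd n m = m - n := by unfold dd; omega
    rw [e]
    rcases h1 with h1 | h1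
    · exact Or.inl (h1 n m hnm hm)
    · exact Or.inr (h1 n m hnm hm)
  · have e : dd n m = n - m := by unfold dd; omega
    rw [e]
    rcases h1 with h1 | h1
    · exact Or.inr (h1 m n hnm hn)
    · exact Or.inl (h1 m n hnm hn)

lemma PFF (h : Hyp w t H K X z z0 L δ Ex) (i : Fin k) (d n m : ℕ) (hd : d ∈ Ioc t (t + H)) (hn : n ≤ K) (hm : m ≤ K)
    (hnm : m ≠ n) (hE : d * dd n m ∉ Ex) :
    |(∑ x ∈ Ioc 0 H, vM (x + w i d n) * vM (x + w i d m)) / H - sg z ((d * dd n m : ℕ) : ℤ)| ≤ δ := by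
  have hHr : (0 : ℝ) < H := by exact_mod_cast h.hH
  have hd' := mem_Ioc.1 hd
  have hdd := dd_pos n m hnm
  have hddK : dd n m ≤ K := by unfold dd; omega
  have hD1 : 1 ≤ d * dd n m := Nat.mul_pos (by omega) hdd
  have hD2 : d * dd n m ≤ X := (Nat.mul_le_mul hd'.2 hddK).trans h.dK
  have h1 := h.ex (d * dd n m) hD1 hD2 hE
  have h2 : |∑ x ∈ Ioc 0 H, vM (x + w i d n) * vM (x + w i d m) - sg z ((d * dd n m : ℕ) : ℤ) * H| ≤ 2 * (δ * H / 2) := by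
    rcases diffs h i d n m hd hn hm with h3 | h3
    · rw [h3]
      exact pair_FF H (w i d n) (d * dd n m) X z _ (h.le i d n hd hn) h1
    · rw [h3]
      have h4 := pair_FF H (w i d m) (d * dd n m) X z _ (h.le i d m hd hm) h1
      have h5 : ∑ x ∈ Ioc 0 H, vM (x + (w i d m + d * dd n m)) * vM (x + w i d m) =
          ∑ x ∈ Ioc 0 H, vM (x + w i d m) * vM (x + (w i d m + d * dd n m)) :=
        Finset.sum_congr rfl fun x _ => mul_comm _ _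
      rw [h5]; exact h4
  have e1 : (∑ x ∈ Ioc 0 H, vM (x + w i d n) * vM (x + w i d m)) / H - sg z ((d * dd n m : ℕ) : ℤ) =
      (∑ x ∈ Ioc 0 H, vM (x + w i d n) * vM (x + w i d m) - sg z ((d * dd n m : ℕ) : ℤ) * H) / H := by field_simp
  rw [e1, abs_div, abs_of_pos hHr, div_le_iff₀ hHr]
  linarith

lemma PFM (h : Hyp w t H K X z z0 L δ Ex) (i : Fin k) (d n m : ℕ) (hd : d ∈ Ioc t (t + H)) (hn : n ≤ K) (hm : m ≤ K) :
    |(∑ x ∈ Ioc 0 H, vM (x + w i d n) * mz z0 ((x : ℤ) + (w i d m : ℕ))) / H - sg z0 ((d * dd n m : ℕ) : ℤ)| ≤ δ := by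
  have hHr : (0 : ℝ) < H := by exact_mod_cast h.hH
  have h2 : |∑ x ∈ Ioc 0 H, vM (x + w i d n) * mz z0 ((x : ℤ) + (w i d m : ℕ)) - sg z0 ((d * dd n m : ℕ) : ℤ) * H| ≤
      2 * (δ * H / 2) := by
    rcases diffs h i d n m hd hn hm with h3 | h3
    · have h4 := pair_FM H (w i d n) X z0 ((d * dd n m : ℕ) : ℤ) _ (h.le i d n hd hn) (fun y hy => h.mod _ y hy)
      have e : ((w i d m : ℕ) : ℤ) = (w i d n : ℤ) + ((d * dd n m : ℕ) : ℤ) := by rw [h3]; push_cast; ring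
      rw [e]; exact h4
    · have h4 := pair_FM H (w i d n) X z0 (-((d * dd n m : ℕ) : ℤ)) _ (h.le i d n hd hn) (fun y hy => h.mod _ y hy)
      rw [sg_neg] at h4
      have e : ((w i d m : ℕ) : ℤ) = (w i d n : ℤ) + -((d * dd n m : ℕ) : ℤ) := by rw [h3]; push_cast; ring
      rw [e]; exact h4
  have e1 : (∑ x ∈ Ioc 0 H, vM (x + w i d n) * mz z0 ((x : ℤ) + (w i d m : ℕ))) / H - sg z0 ((d * dd n m : ℕ) : ℤ) =
      (∑ x ∈ Ioc 0 H, vM (x + w i d n) * mz z0 ((x : ℤ) + (w i d m : ℕ)) - sg z0 ((d * dd n m : ℕ) : ℤ) * H) / H := by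
    field_simp
  rw [e1, abs_div, abs_of_pos hHr, div_le_iff₀ hHr]
  linarith

lemma PMM (h : Hyp w t H K X z z0 L δ Ex) (i : Fin k) (d n m : ℕ) (hd : d ∈ Ioc t (t + H)) (hn : n ≤ K) (hm : m ≤ K) :
    |(∑ x ∈ Ioc 0 H, mz z0 ((x : ℤ) + (w i d n : ℕ)) * mz z0 ((x : ℤ) + (w i d m : ℕ))) / H -
      sg z0 ((d * dd n m : ℕ) : ℤ)| ≤ δ := by
  have hHr : (0 : ℝ) < H := by exact_mod_cast h.hH
  have h2 : |∑ x ∈ Ioc 0 H, mz z0 ((x : ℤ) + (w i d n : ℕ)) * mz z0 ((x : ℤ) + (w i d m : ℕ)) -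
      sg z0 ((d * dd n m : ℕ) : ℤ) * H| ≤ PW z0 * ((Vz z0)⁻¹) ^ 2 := by
    rcases diffs h i d n m hd hn hm with h3 | h3
    · have h4 := pair_MM H (w i d n) z0 ((d * dd n m : ℕ) : ℤ)
      have e : ((w i d m : ℕ) : ℤ) = (w i d n : ℤ) + ((d * dd n m : ℕ) : ℤ) := by rw [h3]; push_cast; ring
      rw [e]; exact h4
    · have h4 := pair_MM H (w i d n) z0 (-((d * dd n m : ℕ) : ℤ))
      rw [sg_neg] at h4
      have e : ((w i d m : ℕ) : ℤ) = (w i d n : ℤ) + -((d * dd n m : ℕ) : ℤ) := by rw [h3]; push_cast; ring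
      rw [e]; exact h4
  have e1 : (∑ x ∈ Ioc 0 H, mz z0 ((x : ℤ) + (w i d n : ℕ)) * mz z0 ((x : ℤ) + (w i d m : ℕ))) / H - sg z0 ((d * dd n m : ℕ) : ℤ) =
      (∑ x ∈ Ioc 0 H, mz z0 ((x : ℤ) + (w i d n : ℕ)) * mz z0 ((x : ℤ) + (w i d m : ℕ)) - sg z0 ((d * dd n m : ℕ) : ℤ) * H) / H := by
    field_simp
  rw [e1, abs_div, abs_of_pos hHr, div_le_iff₀ hHr]
  exact h2.trans h.mm

end

/-- products of close numbers -/
lemma prod_close (k : ℕ) (a : Fin k → ℝ) (b M δ : ℝ) (hM : 1 ≤ M) (hb0 : 0 ≤ b) (hbM : b ≤ M) (ha0 : ∀ i, 0 ≤ a i)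
    (haM : ∀ i, a i ≤ M) (hδ : 0 ≤ δ) (h : ∀ i, |a i - b| ≤ δ) : |∏ i, a i - b ^ k| ≤ k * (M ^ k * δ) := by
  induction k with
  | zero => simp
  | succ k ih =>
    have h1 := ih (fun i => a i.succ) (fun i => ha0 _) (fun i => haM _) (fun i => h _)
    rw [Fin.prod_univ_succ, pow_succ]
    set P := ∏ i : Fin k, a i.succ with hP
    have hP0 : 0 ≤ P := Finset.prod_nonneg fun i _ => ha0 _
    have hPM : P ≤ M ^ k := by
      calc P ≤ ∏ _i : Fin k, M := Finset.prod_le_prod (fun i _ => ha0 _) fun i _ => haM _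
        _ = _ := by simp
    have hMk : 0 ≤ M ^ k := by positivity
    have e1 : a 0 * P - b ^ k * b = (a 0 - b) * P + b * (P - b ^ k) := by ring
    rw [e1]
    refine (abs_add_le _ _).trans ?_
    rw [abs_mul, abs_mul, abs_of_nonneg hP0, abs_of_nonneg hb0]
    have h2 : |a 0 - b| * P ≤ δ * M ^ k := mul_le_mul (h 0) hPM hP0 hδ
    have h3 : b * |P - b ^ k| ≤ M * (k * (M ^ k * δ)) := mul_le_mul hbM h1 (abs_nonneg _) (by linarith)
    have h4 : M ^ k ≤ M ^ (k + 1) := pow_le_pow_right₀ hM (by omega)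
    have h5 : δ * M ^ k ≤ δ * M ^ (k + 1) := mul_le_mul_of_nonneg_left h4 hδ
    have e2 : M * (k * (M ^ k * δ)) = k * (M ^ (k + 1) * δ) := by ring
    push_cast
    rw [e2] at h3
    nlinarith

/-- sums over the box -/
lemma sum_XB {k : ℕ} (H : ℕ) (f : Fin k → ℕ → ℝ) : ∑ x ∈ XB k H, ∏ i, f i (x i) = ∏ i, ∑ a ∈ Ioc 0 H, f i a := by
  unfold XB
  rw [Finset.prod_univ_sum]

lemma second {α : Type*} (Ω : Finset α) (a : ℕ → α → ℝ) (c : ℕ → ℝ) (J : ℕ) :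
    ∑ v ∈ Ω, (∑ j ∈ range J, c j * a j v) ^ 2 = ∑ j ∈ range J, c j ^ 2 * ∑ v ∈ Ω, a j v ^ 2 +
      ∑ j ∈ range J, ∑ j' ∈ (range J).filter (fun j' => j' ≠ j), c j * c j' * ∑ v ∈ Ω, a j v * a j' v := by
  have h1 : ∀ v, (∑ j ∈ range J, c j * a j v) ^ 2 = ∑ j ∈ range J, (c j ^ 2 * a j v ^ 2 +
      ∑ j' ∈ (range J).filter (fun j' => j' ≠ j), c j * c j' * (a j v * a j' v)) := by
    intro v
    rw [sq, Finset.sum_mul_sum]
    refine Finset.sum_congr rfl fun j hj => ?_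
    rw [← Finset.sum_filter_add_sum_filter_not (range J) (fun j' => j' = j)]
    congr 1
    · rw [Finset.filter_eq' , if_pos hj, Finset.sum_singleton]; ring
    · exact Finset.sum_congr rfl fun j' _ => by ring
  simp only [h1]
  rw [Finset.sum_comm]
  simp only [Finset.sum_add_distrib]
  rw [← Finset.sum_add_distrib, ← Finset.sum_add_distrib]
  refine Finset.sum_congr rfl fun j _ => ?_
  rw [Finset.mul_sum]
  congr 1
  rw [Finset.sum_comm]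
  exact Finset.sum_congr rfl fun j' _ => by rw [Finset.mul_sum]

section
variable {k : ℕ} {w : Fin k → ℕ → ℕ → ℕ} {t H K X z z0 : ℕ} {L δ : ℝ} {Ex : Finset ℕ}

lemma vM_le_L (h : Hyp w t H K X z z0 L δ Ex) (i : Fin k) (d n x : ℕ) (hd : d ∈ Ioc t (t + H)) (hn : n ≤ K)
    (hx : x ∈ Ioc 0 H) : vM (x + w i d n) ≤ L := by
  have hx' := mem_Ioc.1 hx
  have h1 := h.le i d n hd hn
  refine (vM_le_log _).trans ((Real.log_le_log ?_ ?_).trans h.logX)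
  · exact_mod_cast (by omega : 0 < x + w i d n)
  · exact_mod_cast (by omega : x + w i d n ≤ X)

lemma mean_le (f g : ℕ → ℝ) (H : ℕ) (hH : 1 ≤ H) (A B : ℝ) (hA : 0 ≤ A) (hf : ∀ x ∈ Ioc 0 H, 0 ≤ f x ∧ f x ≤ A)
    (hg : ∀ x ∈ Ioc 0 H, 0 ≤ g x ∧ g x ≤ B) :
    0 ≤ (∑ x ∈ Ioc 0 H, f x * g x) / H ∧ (∑ x ∈ Ioc 0 H, f x * g x) / H ≤ A * B := by
  have hHr : (0 : ℝ) < H := by exact_mod_cast hH
  constructor
  · exact div_nonneg (Finset.sum_nonneg fun x hx => mul_nonneg (hf x hx).1 (hg x hx).1) hHr.le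
  · rw [div_le_iff₀ hHr]
    calc ∑ x ∈ Ioc 0 H, f x * g x ≤ ∑ x ∈ Ioc 0 H, A * B :=
          Finset.sum_le_sum fun x hx => mul_le_mul (hf x hx).2 (hg x hx).2 (hg x hx).1 hA
      _ = _ := by rw [Finset.sum_const, Nat.card_Ioc, nsmul_eq_mul, Nat.sub_zero]; ring

lemma sum_Om (f : Fin k → ℕ → ℕ → ℝ) (t H : ℕ) (hH : 1 ≤ H) :
    ∑ v ∈ Om k t H, ∏ i, f i v.1 (v.2 i) = (H : ℝ) ^ k * ∑ d ∈ Ioc t (t + H), ∏ i, ((∑ x ∈ Ioc 0 H, f i d x) / H) := by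
  have hHr : (H : ℝ) ≠ 0 := by exact_mod_cast (by omega : H ≠ 0)
  unfold Om
  rw [Finset.sum_product, Finset.mul_sum]
  refine Finset.sum_congr rfl fun d _ => ?_
  rw [sum_XB H (fun i x => f i d x), Finset.prod_div_distrib, Finset.prod_const, Finset.card_univ, Fintype.card_fin]
  field_simp

lemma EFF (h : Hyp w t H K X z z0 L δ Ex) (n m : ℕ) (hn : n ≤ K) (hm : m ≤ K) (hnm : m ≠ n) :
    |∑ v ∈ Om k t H, FF w n v * FF w m v - (H : ℝ) ^ k * ∑ d ∈ Ioc t (t + H), sg z ((d * dd n m : ℕ) : ℤ) ^ k| ≤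
      (H : ℝ) ^ (k + 1) * ((k + 1) * ((L ^ 2) ^ k * δ)) := by
  classical
  have hHr : (0 : ℝ) < H := by exact_mod_cast h.hH
  have hL := h.hL
  have hM : 1 ≤ L ^ 2 := one_le_pow₀ hL
  have h1 : ∀ v, FF w n v * FF w m v = ∏ i, (vM (v.2 i + w i v.1 n) * vM (v.2 i + w i v.1 m)) := by
    intro v; unfold FF; rw [Finset.prod_mul_distrib]
  simp only [h1]
  rw [sum_Om (fun i d x => vM (x + w i d n) * vM (x + w i d m)) t H h.hH, ← mul_sub, ← Finset.sum_sub_distrib, abs_mul,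
    abs_of_nonneg (by positivity : (0 : ℝ) ≤ (H : ℝ) ^ k), pow_succ, mul_assoc]
  refine mul_le_mul_of_nonneg_left ?_ (by positivity)
  refine (Finset.abs_sum_le_sum_abs _ _).trans ?_
  have hdd := dd_pos n m hnm
  have h2 : ∀ d ∈ Ioc t (t + H), |∏ i, ((∑ x ∈ Ioc 0 H, vM (x + w i d n) * vM (x + w i d m)) / H) -
      sg z ((d * dd n m : ℕ) : ℤ) ^ k| ≤ k * ((L ^ 2) ^ k * δ) + if d * dd n m ∈ Ex then (L ^ 2) ^ k else 0 := by
    intro d hd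
    have h3 : ∀ i : Fin k, 0 ≤ (∑ x ∈ Ioc 0 H, vM (x + w i d n) * vM (x + w i d m)) / H ∧
        (∑ x ∈ Ioc 0 H, vM (x + w i d n) * vM (x + w i d m)) / H ≤ L ^ 2 := by
      intro i
      rw [sq]
      exact mean_le _ _ H h.hH L L (by linarith) (fun x hx => ⟨vM_nonneg _, vM_le_L h i d n x hd hn hx⟩)
        (fun x hx => ⟨vM_nonneg _, vM_le_L h i d m x hd hm hx⟩)
    have h4 : sg z ((d * dd n m : ℕ) : ℤ) ≤ L ^ 2 := (sg_le _ _).trans (h.Vz1.trans (by nlinarith))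
    have h5 : 0 ≤ sg z ((d * dd n m : ℕ) : ℤ) := sg_nonneg _ _
    have h0 := h.hδ
    by_cases hE : d * dd n m ∈ Ex
    · rw [if_pos hE]
      have h6 : 0 ≤ ∏ i, ((∑ x ∈ Ioc 0 H, vM (x + w i d n) * vM (x + w i d m)) / H) := Finset.prod_nonneg fun i _ => (h3 i).1
      have h7 : ∏ i, ((∑ x ∈ Ioc 0 H, vM (x + w i d n) * vM (x + w i d m)) / H) ≤ (L ^ 2) ^ k := by
        calc _ ≤ ∏ _i : Fin k, (L ^ 2) := Finset.prod_le_prod (fun i _ => (h3 i).1) fun i _ => (h3 i).2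
          _ = _ := by simp
      have h8 : sg z ((d * dd n m : ℕ) : ℤ) ^ k ≤ (L ^ 2) ^ k := pow_le_pow_left₀ h5 h4 k
      have h9 : 0 ≤ sg z ((d * dd n m : ℕ) : ℤ) ^ k := pow_nonneg h5 k
      have h10 : 0 ≤ (k : ℝ) * ((L ^ 2) ^ k * δ) := by positivity
      rw [abs_le]
      constructor <;> linarith
    · rw [if_neg hE, add_zero]
      exact prod_close k _ _ (L ^ 2) δ hM h5 h4 (fun i => (h3 i).1) (fun i => (h3 i).2) h.hδ
        (fun i => PFF h i d n m hd hn hm hnm hE)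
  refine (Finset.sum_le_sum h2).trans ?_
  rw [Finset.sum_add_distrib, Finset.sum_const, Nat.card_Ioc, nsmul_eq_mul, Nat.add_sub_cancel_left, ← Finset.sum_filter,
    Finset.sum_const, nsmul_eq_mul]
  have h3 : (((Ioc t (t + H)).filter (fun d => d * dd n m ∈ Ex)).card : ℝ) ≤ δ * H := by
    refine le_trans ?_ h.exc
    exact_mod_cast Finset.card_le_card_of_injOn (fun d => d * dd n m) (fun d hd => (Finset.mem_filter.1 (Finset.mem_coe.1 hd)).2)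
      (fun a _ b _ hab => Nat.eq_of_mul_eq_mul_right hdd hab)
  have h4 : (((Ioc t (t + H)).filter (fun d => d * dd n m ∈ Ex)).card : ℝ) * (L ^ 2) ^ k ≤ δ * H * (L ^ 2) ^ k :=
    mul_le_mul_of_nonneg_right h3 (by positivity)
  calc _ ≤ (H : ℝ) * (k * ((L ^ 2) ^ k * δ)) + δ * H * (L ^ 2) ^ k := by linarith
    _ = _ := by ring

lemma EFM (h : Hyp w t H K X z z0 L δ Ex) (n m : ℕ) (hn : n ≤ K) (hm : m ≤ K) :
    |∑ v ∈ Om k t H, FF w n v * MM w z0 m v - (H : ℝ) ^ k * ∑ d ∈ Ioc t (t + H), sg z0 ((d * dd n m : ℕ) : ℤ) ^ k| ≤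
      (H : ℝ) ^ (k + 1) * ((k + 1) * ((L ^ 2) ^ k * δ)) := by
  have hHr : (0 : ℝ) < H := by exact_mod_cast h.hH
  have hL := h.hL
  have hM : 1 ≤ L ^ 2 := one_le_pow₀ hL
  have h0 := h.hδ
  have h1 : ∀ v, FF w n v * MM w z0 m v = ∏ i, (vM (v.2 i + w i v.1 n) * mz z0 ((v.2 i : ℤ) + (w i v.1 m : ℕ))) := by
    intro v; unfold FF MM; rw [Finset.prod_mul_distrib]
  simp only [h1]
  rw [sum_Om (fun i d x => vM (x + w i d n) * mz z0 ((x : ℤ) + (w i d m : ℕ))) t H h.hH, ← mul_sub,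
    ← Finset.sum_sub_distrib, abs_mul, abs_of_nonneg (by positivity : (0 : ℝ) ≤ (H : ℝ) ^ k), pow_succ, mul_assoc]
  refine mul_le_mul_of_nonneg_left ?_ (by positivity)
  refine (Finset.abs_sum_le_sum_abs _ _).trans ?_
  have h2 : ∀ d ∈ Ioc t (t + H), |∏ i, ((∑ x ∈ Ioc 0 H, vM (x + w i d n) * mz z0 ((x : ℤ) + (w i d m : ℕ))) / H) -
      sg z0 ((d * dd n m : ℕ) : ℤ) ^ k| ≤ k * ((L ^ 2) ^ k * δ) := by
    intro d hd
    have h3 : ∀ i : Fin k, 0 ≤ (∑ x ∈ Ioc 0 H, vM (x + w i d n) * mz z0 ((x : ℤ) + (w i d m : ℕ))) / H ∧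
        (∑ x ∈ Ioc 0 H, vM (x + w i d n) * mz z0 ((x : ℤ) + (w i d m : ℕ))) / H ≤ L ^ 2 := by
      intro i
      rw [sq]
      exact mean_le _ _ H h.hH L L (by linarith) (fun x hx => ⟨vM_nonneg _, vM_le_L h i d n x hd hn hx⟩)
        (fun x hx => ⟨mz_nonneg _ _, (mz_le _ _).trans h.Vz0⟩)
    have h4 : sg z0 ((d * dd n m : ℕ) : ℤ) ≤ L ^ 2 := (sg_le _ _).trans (h.Vz0.trans (by nlinarith))
    exact prod_close k _ _ (L ^ 2) δ hM (sg_nonneg _ _) h4 (fun i => (h3 i).1) (fun i => (h3 i).2) h.hδ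
        (fun i => PFM h i d n m hd hn hm)
  refine (Finset.sum_le_sum h2).trans ?_
  rw [Finset.sum_const, Nat.card_Ioc, nsmul_eq_mul, Nat.add_sub_cancel_left]
  refine mul_le_mul_of_nonneg_left ?_ hHr.le
  refine mul_le_mul_of_nonneg_right (by linarith) (by positivity)

lemma EMM (h : Hyp w t H K X z z0 L δ Ex) (n m : ℕ) (hn : n ≤ K) (hm : m ≤ K) :
    |∑ v ∈ Om k t H, MM w z0 n v * MM w z0 m v - (H : ℝ) ^ k * ∑ d ∈ Ioc t (t + H), sg z0 ((d * dd n m : ℕ) : ℤ) ^ k| ≤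
      (H : ℝ) ^ (k + 1) * ((k + 1) * ((L ^ 2) ^ k * δ)) := by
  have hHr : (0 : ℝ) < H := by exact_mod_cast h.hH
  have hL := h.hL
  have hM : 1 ≤ L ^ 2 := one_le_pow₀ hL
  have h0 := h.hδ
  have h1 : ∀ v, MM w z0 n v * MM w z0 m v =
      ∏ i, (mz z0 ((v.2 i : ℤ) + (w i v.1 n : ℕ)) * mz z0 ((v.2 i : ℤ) + (w i v.1 m : ℕ))) := by
    intro v; unfold MM; rw [Finset.prod_mul_distrib]
  simp only [h1]
  rw [sum_Om (fun i d x => mz z0 ((x : ℤ) + (w i d n : ℕ)) * mz z0 ((x : ℤ) + (w i d m : ℕ))) t H h.hH, ← mul_sub,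
    ← Finset.sum_sub_distrib, abs_mul, abs_of_nonneg (by positivity : (0 : ℝ) ≤ (H : ℝ) ^ k), pow_succ, mul_assoc]
  refine mul_le_mul_of_nonneg_left ?_ (by positivity)
  refine (Finset.abs_sum_le_sum_abs _ _).trans ?_
  have h2 : ∀ d ∈ Ioc t (t + H), |∏ i, ((∑ x ∈ Ioc 0 H, mz z0 ((x : ℤ) + (w i d n : ℕ)) * mz z0 ((x : ℤ) + (w i d m : ℕ))) / H) -
      sg z0 ((d * dd n m : ℕ) : ℤ) ^ k| ≤ k * ((L ^ 2) ^ k * δ) := by
    intro d hd
    have h3 : ∀ i : Fin k, 0 ≤ (∑ x ∈ Ioc 0 H, mz z0 ((x : ℤ) + (w i d n : ℕ)) * mz z0 ((x : ℤ) + (w i d m : ℕ))) / H ∧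
        (∑ x ∈ Ioc 0 H, mz z0 ((x : ℤ) + (w i d n : ℕ)) * mz z0 ((x : ℤ) + (w i d m : ℕ))) / H ≤ L ^ 2 := by
      intro i
      rw [sq]
      exact mean_le _ _ H h.hH L L (by linarith) (fun x hx => ⟨mz_nonneg _ _, (mz_le _ _).trans h.Vz0⟩)
        (fun x hx => ⟨mz_nonneg _ _, (mz_le _ _).trans h.Vz0⟩)
    have h4 : sg z0 ((d * dd n m : ℕ) : ℤ) ≤ L ^ 2 := (sg_le _ _).trans (h.Vz0.trans (by nlinarith))
    exact prod_close k _ _ (L ^ 2) δ hM (sg_nonneg _ _) h4 (fun i => (h3 i).1) (fun i => (h3 i).2) h.hδ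
        (fun i => PMM h i d n m hd hn hm)
  refine (Finset.sum_le_sum h2).trans ?_
  rw [Finset.sum_const, Nat.card_Ioc, nsmul_eq_mul, Nat.add_sub_cancel_left]
  refine mul_le_mul_of_nonneg_left ?_ hHr.le
  refine mul_le_mul_of_nonneg_right (by linarith) (by positivity)

lemma FF_nonneg (n : ℕ) (v : ℕ × (Fin k → ℕ)) : 0 ≤ FF w n v := Finset.prod_nonneg fun _ _ => vM_nonneg _

lemma MM_nonneg (n : ℕ) (v : ℕ × (Fin k → ℕ)) : 0 ≤ MM w z0 n v := Finset.prod_nonneg fun _ _ => mz_nonneg _ _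

lemma mem_Om {v : ℕ × (Fin k → ℕ)} (hv : v ∈ Om k t H) : v.1 ∈ Ioc t (t + H) ∧ ∀ i, v.2 i ∈ Ioc 0 H := by
  unfold Om XB at hv
  have := Finset.mem_product.1 hv
  exact ⟨this.1, fun i => Fintype.mem_piFinset.1 this.2 i⟩

lemma card_Om (k t H : ℕ) : ((Om k t H).card : ℝ) = (H : ℝ) ^ (k + 1) := by
  unfold Om XB
  rw [Finset.card_product, Fintype.card_piFinset, Nat.card_Ioc, Nat.add_sub_cancel_left]
  simp
  ring

lemma FF_le (h : Hyp w t H K X z z0 L δ Ex) (n : ℕ) (hn : n ≤ K) (v : ℕ × (Fin k → ℕ)) (hv : v ∈ Om k t H) :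
    FF w n v ≤ L ^ k := by
  unfold FF
  calc _ ≤ ∏ _i : Fin k, L := Finset.prod_le_prod (fun i _ => vM_nonneg _) fun i _ =>
        vM_le_L h i v.1 n (v.2 i) (mem_Om hv).1 hn ((mem_Om hv).2 i)
    _ = _ := by simp

lemma EF (h : Hyp w t H K X z z0 L δ Ex) (n : ℕ) (hn : n ≤ K) : ∑ v ∈ Om k t H, FF w n v ≤ (H : ℝ) ^ (k + 1) * 2 ^ k := by
  have hHr : (0 : ℝ) < H := by exact_mod_cast h.hH
  unfold FF
  rw [sum_Om (fun i d x => vM (x + w i d n)) t H h.hH, pow_succ, mul_assoc]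
  refine mul_le_mul_of_nonneg_left ?_ (by positivity)
  calc _ ≤ ∑ d ∈ Ioc t (t + H), (2 : ℝ) ^ k := by
        refine Finset.sum_le_sum fun d hd => ?_
        calc _ ≤ ∏ _i : Fin k, (2 : ℝ) := by
              refine Finset.prod_le_prod (fun i _ => ?_) fun i _ => ?_
              · exact div_nonneg (Finset.sum_nonneg fun x _ => vM_nonneg _) hHr.le
              · rw [div_le_iff₀ hHr, shift_sum (fun u => vM u) H (w i d n), Ioc_sub]
                have h1 := h.le i d n hd hn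
                have h2 := (abs_le.1 (h.one (w i d n + H) h1)).2
                have h3 := (abs_le.1 (h.one (w i d n) (by omega))).1
                push_cast at h2
                linarith
          _ = _ := by simp
    _ = _ := by rw [Finset.sum_const, Nat.card_Ioc, nsmul_eq_mul, Nat.add_sub_cancel_left]

lemma EF2 (h : Hyp w t H K X z z0 L δ Ex) (n : ℕ) (hn : n ≤ K) :
    ∑ v ∈ Om k t H, FF w n v ^ 2 ≤ (H : ℝ) ^ (k + 1) * (2 * L) ^ k := by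
  have hL := h.hL
  calc _ ≤ ∑ v ∈ Om k t H, L ^ k * FF w n v := by
        refine Finset.sum_le_sum fun v hv => ?_
        rw [sq]
        exact mul_le_mul_of_nonneg_right (FF_le h n hn v hv) (FF_nonneg n v)
    _ = L ^ k * ∑ v ∈ Om k t H, FF w n v := by rw [Finset.mul_sum]
    _ ≤ L ^ k * ((H : ℝ) ^ (k + 1) * 2 ^ k) := mul_le_mul_of_nonneg_left (EF h n hn) (by positivity)
    _ = _ := by rw [mul_pow]; ring

lemma swap3 (D S : Finset ℕ) (S' : ℕ → Finset ℕ) (f : ℕ → ℕ → ℕ → ℝ) (c : ℕ → ℕ → ℝ) (A : ℝ) :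
    ∑ j ∈ S, ∑ j' ∈ S' j, c j j' * (A * ∑ d ∈ D, f d j j') = A * ∑ d ∈ D, ∑ j ∈ S, ∑ j' ∈ S' j, c j j' * f d j j' := by
  rw [Finset.sum_comm (s := D), Finset.mul_sum]
  refine Finset.sum_congr rfl fun j _ => ?_
  rw [Finset.sum_comm (s := D), Finset.mul_sum]
  refine Finset.sum_congr rfl fun j' _ => ?_
  rw [← Finset.mul_sum]; ring

/-- the difference weight -/
lemma V1 (h : Hyp w t H K X z z0 L δ Ex) (J J' : ℕ) (hJ : 1 ≤ J) (hJJ : J ≤ J') (hJK : J' ≤ K) (G : ℝ)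
    (hG : ∑ d ∈ Ioc t (t + H), Gk k 1 d ≤ G * H) :
    ∑ v ∈ Om k t H, (∑ j ∈ range J', vv J J' j * FF w (j + 1) v) ^ 2 ≤
      (H : ℝ) ^ (k + 1) * (G * (6 * (bk k : ℝ) ^ (bk k ^ 2)) / Real.sqrt J + 4 * ((k + 1) * ((L ^ 2) ^ k * δ)) +
        (2 * L) ^ k * (2 / J)) := by
  have hHr : (0 : ℝ) < H := by exact_mod_cast h.hH
  have hL := h.hL
  have h0 := h.hδ
  rw [second]
  have hd : ∑ j ∈ range J', vv J J' j ^ 2 * ∑ v ∈ Om k t H, FF w (j + 1) v ^ 2 ≤ (H : ℝ) ^ (k + 1) * ((2 * L) ^ k * (2 / J)) := by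
    calc _ ≤ ∑ j ∈ range J', vv J J' j ^ 2 * ((H : ℝ) ^ (k + 1) * (2 * L) ^ k) := by
          refine Finset.sum_le_sum fun j hj => mul_le_mul_of_nonneg_left (EF2 h (j + 1) ?_) (sq_nonneg _)
          have := Finset.mem_range.1 hj; omega
      _ = (∑ j ∈ range J', vv J J' j ^ 2) * ((H : ℝ) ^ (k + 1) * (2 * L) ^ k) := by rw [Finset.sum_mul]
      _ ≤ (2 / J) * ((H : ℝ) ^ (k + 1) * (2 * L) ^ k) := mul_le_mul_of_nonneg_right (vv_sq_sum J J' hJJ hJ) (by positivity)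
      _ = _ := by ring
  set e0 := (k + 1) * ((L ^ 2) ^ k * δ) with he0
  have he00 : 0 ≤ e0 := by rw [he0]; positivity
  have ho : ∑ j ∈ range J', ∑ j' ∈ (range J').filter (fun j' => j' ≠ j), vv J J' j * vv J J' j' *
      ∑ v ∈ Om k t H, FF w (j + 1) v * FF w (j' + 1) v ≤
      ∑ j ∈ range J', ∑ j' ∈ (range J').filter (fun j' => j' ≠ j), (vv J J' j * vv J J' j' *
        ((H : ℝ) ^ k * ∑ d ∈ Ioc t (t + H), sg z ((d * dd j j' : ℕ) : ℤ) ^ k) + |vv J J' j| * |vv J J' j'| * ((H : ℝ) ^ (k + 1) * e0)) := by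
    refine Finset.sum_le_sum fun j hj => Finset.sum_le_sum fun j' hj' => ?_
    have h1 := Finset.mem_range.1 hj
    have h2 := Finset.mem_filter.1 hj'
    have h3 := Finset.mem_range.1 h2.1
    have h4 := EFF h (j + 1) (j' + 1) (by omega) (by omega) (by have := h2.2; omega)
    have h5 : dd (j + 1) (j' + 1) = dd j j' := by unfold dd; omega
    rw [h5] at h4
    set A := ∑ v ∈ Om k t H, FF w (j + 1) v * FF w (j' + 1) v with hA
    set B := (H : ℝ) ^ k * ∑ d ∈ Ioc t (t + H), sg z ((d * dd j j' : ℕ) : ℤ) ^ k with hB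
    have h6 : vv J J' j * vv J J' j' * (A - B) ≤ |vv J J' j| * |vv J J' j'| * ((H : ℝ) ^ (k + 1) * e0) := by
      calc _ ≤ |vv J J' j * vv J J' j' * (A - B)| := le_abs_self _
        _ = |vv J J' j| * |vv J J' j'| * |A - B| := by rw [abs_mul, abs_mul]
        _ ≤ _ := mul_le_mul_of_nonneg_left h4 (by positivity)
    linarith
  have ho2 : ∑ j ∈ range J', ∑ j' ∈ (range J').filter (fun j' => j' ≠ j), |vv J J' j| * |vv J J' j'| * ((H : ℝ) ^ (k + 1) * e0) ≤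
      4 * ((H : ℝ) ^ (k + 1) * e0) := by
    have h1 := vv_abs_sum J J' hJJ hJ
    calc _ ≤ ∑ j ∈ range J', ∑ j' ∈ range J', |vv J J' j| * |vv J J' j'| * ((H : ℝ) ^ (k + 1) * e0) := by
          refine Finset.sum_le_sum fun j _ => ?_
          exact Finset.sum_le_sum_of_subset_of_nonneg (Finset.filter_subset _ _) fun j' _ _ => by positivity
      _ = (∑ j ∈ range J', |vv J J' j|) * (∑ j ∈ range J', |vv J J' j|) * ((H : ℝ) ^ (k + 1) * e0) := by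
          rw [Finset.sum_mul_sum, Finset.sum_mul]
          refine Finset.sum_congr rfl fun j _ => ?_
          rw [Finset.sum_mul]
      _ ≤ 2 * 2 * ((H : ℝ) ^ (k + 1) * e0) := by
          refine mul_le_mul_of_nonneg_right (mul_le_mul h1 h1 (Finset.sum_nonneg fun _ _ => abs_nonneg _) (by norm_num))
            (by positivity)
      _ = _ := by ring
  have ho3 : ∑ j ∈ range J', ∑ j' ∈ (range J').filter (fun j' => j' ≠ j), vv J J' j * vv J J' j' *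
        ((H : ℝ) ^ k * ∑ d ∈ Ioc t (t + H), sg z ((d * dd j j' : ℕ) : ℤ) ^ k) ≤
      (H : ℝ) ^ (k + 1) * (G * (6 * (bk k : ℝ) ^ (bk k ^ 2)) / Real.sqrt J) := by
    have h1 : ∑ j ∈ range J', ∑ j' ∈ (range J').filter (fun j' => j' ≠ j), vv J J' j * vv J J' j' *
        ((H : ℝ) ^ k * ∑ d ∈ Ioc t (t + H), sg z ((d * dd j j' : ℕ) : ℤ) ^ k) =
        (H : ℝ) ^ k * ∑ d ∈ Ioc t (t + H), ∑ j ∈ range J', ∑ j' ∈ (range J').filter (fun j' => j' ≠ j),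
          vv J J' j * vv J J' j' * sg z ((d * dd j j' : ℕ) : ℤ) ^ k :=
      swap3 (Ioc t (t + H)) (range J') (fun j => (range J').filter (fun j' => j' ≠ j))
        (fun d j j' => sg z ((d * dd j j' : ℕ) : ℤ) ^ k) (fun j j' => vv J J' j * vv J J' j') ((H : ℝ) ^ k)
    rw [h1, pow_succ, mul_assoc]
    refine mul_le_mul_of_nonneg_left ?_ (by positivity)
    calc _ ≤ ∑ d ∈ Ioc t (t + H), Gk k 1 d * (6 * (bk k : ℝ) ^ (bk k ^ 2)) / Real.sqrt J := by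
          refine Finset.sum_le_sum fun d hd => QF_sg k z d J J' ?_ hJ hJJ
          have := mem_Ioc.1 hd; omega
      _ = (∑ d ∈ Ioc t (t + H), Gk k 1 d) * ((6 * (bk k : ℝ) ^ (bk k ^ 2)) / Real.sqrt J) := by
          rw [Finset.sum_mul]; exact Finset.sum_congr rfl fun d _ => by ring
      _ ≤ (G * H) * ((6 * (bk k : ℝ) ^ (bk k ^ 2)) / Real.sqrt J) := mul_le_mul_of_nonneg_right hG (by positivity)
      _ = _ := by ring
  simp only [Finset.sum_add_distrib] at ho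
  calc _ ≤ (H : ℝ) ^ (k + 1) * ((2 * L) ^ k * (2 / J)) + ((H : ℝ) ^ (k + 1) * (G * (6 * (bk k : ℝ) ^ (bk k ^ 2)) / Real.sqrt J) +
        4 * ((H : ℝ) ^ (k + 1) * e0)) := by linarith
    _ = _ := by ring

/-- the longest sum against the model -/
lemma V2 (h : Hyp w t H K X z z0 L δ Ex) (C1 : ℝ) (hC1 : 1 ≤ C1)
    (hQ : ∀ d J : ℕ, 1 ≤ d → 1 ≤ J → ∑ j ∈ range J, ∑ j' ∈ (range J).filter (fun j' => j' ≠ j), uu J j * uu J j' *
      (sg z ((d * dd j j' : ℕ) : ℤ) ^ k - sg z0 ((d * dd j j' : ℕ) : ℤ) ^ k) ≤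
      ((Vz z0)⁻¹) ^ k * (Gk k z0 d * (1 + C1 / Real.sqrt z0) - 1)) (J : ℕ) (hJ : 1 ≤ J) (hJK : J ≤ K) (G : ℝ)
    (hG : ∑ d ∈ Ioc t (t + H), Gk k z0 d ≤ G * H) :
    ∑ v ∈ Om k t H, (∑ j ∈ range J, uu J j * (FF w (j + 1) v - MM w z0 (j + 1) v)) ^ 2 ≤
      (H : ℝ) ^ (k + 1) * (((Vz z0)⁻¹) ^ k * (G * (1 + C1 / Real.sqrt z0) - 1) + 4 * ((k + 1) * ((L ^ 2) ^ k * δ)) +
        ((2 * L) ^ k + (L ^ 2) ^ k) * (1 / J)) := by
  have hHr : (0 : ℝ) < H := by exact_mod_cast h.hH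
  have hL := h.hL
  have h0 := h.hδ
  have hV0 : 0 ≤ (Vz z0)⁻¹ := inv_nonneg.2 (Vz_pos z0).le
  rw [second (Om k t H) (fun j v => FF w (j + 1) v - MM w z0 (j + 1) v) (uu J) J]
  set e0 := (k + 1) * ((L ^ 2) ^ k * δ) with he0
  have he00 : 0 ≤ e0 := by rw [he0]; positivity
  have hd : ∑ j ∈ range J, uu J j ^ 2 * ∑ v ∈ Om k t H, (FF w (j + 1) v - MM w z0 (j + 1) v) ^ 2 ≤
      (H : ℝ) ^ (k + 1) * (((2 * L) ^ k + (L ^ 2) ^ k) * (1 / J)) := by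
    have h1 : ∀ j ∈ range J, ∑ v ∈ Om k t H, (FF w (j + 1) v - MM w z0 (j + 1) v) ^ 2 ≤
        (H : ℝ) ^ (k + 1) * ((2 * L) ^ k + (L ^ 2) ^ k) := by
      intro j hj
      have hj' := Finset.mem_range.1 hj
      calc _ ≤ ∑ v ∈ Om k t H, (FF w (j + 1) v ^ 2 + (L ^ 2) ^ k) := by
            refine Finset.sum_le_sum fun v hv => ?_
            have h2 := FF_nonneg (w := w) (j + 1) v
            have h3 := MM_nonneg (w := w) (z0 := z0) (j + 1) v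
            have h4 : MM w z0 (j + 1) v ≤ L ^ k := by
              unfold MM
              calc _ ≤ ∏ _i : Fin k, L := Finset.prod_le_prod (fun i _ => mz_nonneg _ _) fun i _ => (mz_le _ _).trans h.Vz0
                _ = _ := by simp
            have h5 : MM w z0 (j + 1) v ^ 2 ≤ (L ^ 2) ^ k := by
              calc _ ≤ (L ^ k) ^ 2 := pow_le_pow_left₀ h3 h4 2
                _ = _ := by rw [← pow_mul, ← pow_mul, mul_comm]
            nlinarith [mul_nonneg h2 h3]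
        _ = ∑ v ∈ Om k t H, FF w (j + 1) v ^ 2 + (H : ℝ) ^ (k + 1) * (L ^ 2) ^ k := by
            rw [Finset.sum_add_distrib, Finset.sum_const, nsmul_eq_mul, card_Om]
        _ ≤ (H : ℝ) ^ (k + 1) * (2 * L) ^ k + (H : ℝ) ^ (k + 1) * (L ^ 2) ^ k := by
            have := EF2 h (j + 1) (by omega)
            linarith
        _ = _ := by ring
    calc _ ≤ ∑ j ∈ range J, uu J j ^ 2 * ((H : ℝ) ^ (k + 1) * ((2 * L) ^ k + (L ^ 2) ^ k)) :=
          Finset.sum_le_sum fun j hj => mul_le_mul_of_nonneg_left (h1 j hj) (sq_nonneg _)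
      _ = (∑ j ∈ range J, uu J j ^ 2) * ((H : ℝ) ^ (k + 1) * ((2 * L) ^ k + (L ^ 2) ^ k)) := by rw [Finset.sum_mul]
      _ = _ := by rw [sum_uu_sq J J le_rfl hJ]; ring
  have ho : ∑ j ∈ range J, ∑ j' ∈ (range J).filter (fun j' => j' ≠ j), uu J j * uu J j' *
      ∑ v ∈ Om k t H, (FF w (j + 1) v - MM w z0 (j + 1) v) * (FF w (j' + 1) v - MM w z0 (j' + 1) v) ≤
      ∑ j ∈ range J, ∑ j' ∈ (range J).filter (fun j' => j' ≠ j), (uu J j * uu J j' *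
        ((H : ℝ) ^ k * ∑ d ∈ Ioc t (t + H), (sg z ((d * dd j j' : ℕ) : ℤ) ^ k - sg z0 ((d * dd j j' : ℕ) : ℤ) ^ k)) +
          uu J j * uu J j' * (4 * ((H : ℝ) ^ (k + 1) * e0))) := by
    refine Finset.sum_le_sum fun j hj => Finset.sum_le_sum fun j' hj' => ?_
    have h1 := Finset.mem_range.1 hj
    have h2 := Finset.mem_filter.1 hj'
    have h3 := Finset.mem_range.1 h2.1
    have h4 := (abs_le.1 (EFF h (j + 1) (j' + 1) (by omega) (by omega) (by have := h2.2; omega))).2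
    have h4b := (abs_le.1 (EFM h (j + 1) (j' + 1) (by omega) (by omega))).1
    have h4c := (abs_le.1 (EFM h (j' + 1) (j + 1) (by omega) (by omega))).1
    have h4d := (abs_le.1 (EMM h (j + 1) (j' + 1) (by omega) (by omega))).2
    have h5 : dd (j + 1) (j' + 1) = dd j j' := by unfold dd; omega
    have h5' : dd (j' + 1) (j + 1) = dd j j' := by unfold dd; omega
    rw [h5] at h4 h4b h4d
    rw [h5'] at h4c
    rw [← he0] at h4 h4b h4c h4d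
    rw [← mul_add]
    refine mul_le_mul_of_nonneg_left ?_ (mul_nonneg (uu_nonneg _ _) (uu_nonneg _ _))
    have e1 : ∑ v ∈ Om k t H, (FF w (j + 1) v - MM w z0 (j + 1) v) * (FF w (j' + 1) v - MM w z0 (j' + 1) v) =
        ∑ v ∈ Om k t H, FF w (j + 1) v * FF w (j' + 1) v - ∑ v ∈ Om k t H, FF w (j + 1) v * MM w z0 (j' + 1) v -
        ∑ v ∈ Om k t H, FF w (j' + 1) v * MM w z0 (j + 1) v + ∑ v ∈ Om k t H, MM w z0 (j + 1) v * MM w z0 (j' + 1) v := by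
      rw [← Finset.sum_sub_distrib, ← Finset.sum_sub_distrib, ← Finset.sum_add_distrib]
      exact Finset.sum_congr rfl fun v _ => by ring
    rw [e1, Finset.sum_sub_distrib, mul_sub]
    linarith
  have ho2 : ∑ j ∈ range J, ∑ j' ∈ (range J).filter (fun j' => j' ≠ j), uu J j * uu J j' * (4 * ((H : ℝ) ^ (k + 1) * e0)) ≤
      4 * ((H : ℝ) ^ (k + 1) * e0) := by
    calc _ ≤ ∑ j ∈ range J, ∑ j' ∈ range J, uu J j * uu J j' * (4 * ((H : ℝ) ^ (k + 1) * e0)) := by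
          refine Finset.sum_le_sum fun j _ => ?_
          exact Finset.sum_le_sum_of_subset_of_nonneg (Finset.filter_subset _ _) fun j' _ _ =>
            mul_nonneg (mul_nonneg (uu_nonneg _ _) (uu_nonneg _ _)) (by positivity)
      _ = (∑ j ∈ range J, uu J j) * (∑ j ∈ range J, uu J j) * (4 * ((H : ℝ) ^ (k + 1) * e0)) := by
          rw [Finset.sum_mul_sum, Finset.sum_mul]
          refine Finset.sum_congr rfl fun j _ => ?_
          rw [Finset.sum_mul]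
      _ = _ := by rw [sum_uu J J le_rfl hJ]; ring
  have ho3 : ∑ j ∈ range J, ∑ j' ∈ (range J).filter (fun j' => j' ≠ j), uu J j * uu J j' *
        ((H : ℝ) ^ k * ∑ d ∈ Ioc t (t + H), (sg z ((d * dd j j' : ℕ) : ℤ) ^ k - sg z0 ((d * dd j j' : ℕ) : ℤ) ^ k)) ≤
      (H : ℝ) ^ (k + 1) * (((Vz z0)⁻¹) ^ k * (G * (1 + C1 / Real.sqrt z0) - 1)) := by
    rw [swap3 (Ioc t (t + H)) (range J) (fun j => (range J).filter (fun j' => j' ≠ j))
        (fun d j j' => sg z ((d * dd j j' : ℕ) : ℤ) ^ k - sg z0 ((d * dd j j' : ℕ) : ℤ) ^ k)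
        (fun j j' => uu J j * uu J j') ((H : ℝ) ^ k), pow_succ, mul_assoc]
    refine mul_le_mul_of_nonneg_left ?_ (by positivity)
    calc _ ≤ ∑ d ∈ Ioc t (t + H), ((Vz z0)⁻¹) ^ k * (Gk k z0 d * (1 + C1 / Real.sqrt z0) - 1) := by
          refine Finset.sum_le_sum fun d hd => hQ d J ?_ hJ
          have := mem_Ioc.1 hd; omega
      _ = ((Vz z0)⁻¹) ^ k * ((∑ d ∈ Ioc t (t + H), Gk k z0 d) * (1 + C1 / Real.sqrt z0) - H) := by
          rw [← Finset.mul_sum, Finset.sum_sub_distrib, ← Finset.sum_mul, Finset.sum_const, Nat.card_Ioc,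
            Nat.add_sub_cancel_left]
          simp
      _ ≤ ((Vz z0)⁻¹) ^ k * ((G * H) * (1 + C1 / Real.sqrt z0) - H) := by
          refine mul_le_mul_of_nonneg_left ?_ (by positivity)
          have := mul_le_mul_of_nonneg_right hG (show 0 ≤ 1 + C1 / Real.sqrt z0 by positivity)
          linarith
      _ = _ := by ring
  simp only [Finset.sum_add_distrib] at ho
  calc _ ≤ (H : ℝ) ^ (k + 1) * (((2 * L) ^ k + (L ^ 2) ^ k) * (1 / J)) +
        ((H : ℝ) ^ (k + 1) * (((Vz z0)⁻¹) ^ k * (G * (1 + C1 / Real.sqrt z0) - 1)) + 4 * ((H : ℝ) ^ (k + 1) * e0)) := by linarith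
    _ = _ := by ring

end

end Pool.Agent.H570.CD
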