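import Mathlib
import Pool.Agent.H570.CD.Par
import Pool.Agent.H570.TH.SS2

/-! The singular series of linear forms over the integers. -/

set_option autoImplicit false

namespace Pool.Agent.H570.CD

open Finset Filter Topology Pool.Agent.H570.LQ Pool.Agent.H570.TH
open Pool.Agent.H373R2.T7 (pz Vz mem_pz Vz_pos Vz_inv_small singZ singZ_eq rhoP rhoP_le nuP)

/-- number of residues `n` modulo `p` such that `p` divides one of the values at `n` -/
def nuZ {k : ℕ} (v : Fin k → ℤ × ℤ) (p : ℕ) : ℕ :=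
  ((range p).filter (fun n : ℕ => ∃ i, (p : ℤ) ∣ (v i).1 + n * (v i).2)).card

/-- local factor of the singular series -/
noncomputable def sfZ {k : ℕ} (v : Fin k → ℤ × ℤ) (p : ℕ) : ℝ :=
  (1 - (nuZ v p : ℝ) / p) / (1 - 1 / (p : ℝ)) ^ k

/-- truncated singular series -/
noncomputable def SPZ {k : ℕ} (v : Fin k → ℤ × ℤ) (z : ℕ) : ℝ :=
  ∏ p ∈ (Icc 1 z).filter Nat.Prime, sfZ v p

lemma nuZ_le {k : ℕ} (v : Fin k → ℤ × ℤ) (p : ℕ) : nuZ v p ≤ p := by
  unfold nuZ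
  calc _ ≤ (range p).card := Finset.card_le_card (Finset.filter_subset _ _)
    _ = p := Finset.card_range p

lemma mod_lin (p r : ℕ) (a c : ℤ) : (p : ℤ) ∣ a + ((r % p : ℕ) : ℤ) * c ↔ (p : ℤ) ∣ a + (r : ℤ) * c := by
  have h1 : a + (r : ℤ) * c = (a + ((r % p : ℕ) : ℤ) * c) + p * (((r / p : ℕ) : ℤ) * c) := by
    have := Nat.mod_add_div r p
    have h2 : (r : ℤ) = ((r % p : ℕ) : ℤ) + p * ((r / p : ℕ) : ℤ) := by exact_mod_cast this.symm
    calc a + (r : ℤ) * c = a + (((r % p : ℕ) : ℤ) + p * ((r / p : ℕ) : ℤ)) * c := by rw [← h2]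
      _ = _ := by ring
  rw [h1]
  exact (Int.dvd_add_left (dvd_mul_right _ _)).symm

open Classical in
lemma prod_mz {k : ℕ} (v : Fin k → ℤ × ℤ) (z r : ℕ) : ∏ i, mz z ((v i).1 + r * (v i).2) =
    if ∀ p ∈ pz z, ∀ i, ¬ (p : ℤ) ∣ (v i).1 + ((r % p : ℕ) : ℤ) * (v i).2 then ((Vz z)⁻¹) ^ k else 0 := by
  have h : (∀ p ∈ pz z, ∀ i, ¬ (p : ℤ) ∣ (v i).1 + ((r % p : ℕ) : ℤ) * (v i).2) ↔
      ∀ i, ∀ p ∈ pz z, ¬ (p : ℤ) ∣ (v i).1 + (r : ℤ) * (v i).2 := by
    simp only [mod_lin]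
    constructor
    · intro h i p hp; exact h p hp i
    · intro h p hp i; exact h i p hp
  by_cases h1 : ∀ i, ∀ p ∈ pz z, ¬ (p : ℤ) ∣ (v i).1 + (r : ℤ) * (v i).2
  · rw [if_pos (h.2 h1)]
    calc _ = ∏ _i : Fin k, (Vz z)⁻¹ := Finset.prod_congr rfl fun i _ => by
          unfold mz; rw [if_pos (h1 i)]
      _ = _ := by simp
  · rw [if_neg (fun h3 => h1 (h.1 h3))]
    rw [not_forall] at h1
    obtain ⟨i, hi⟩ := h1
    refine Finset.prod_eq_zero (Finset.mem_univ i) ?_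
    unfold mz; rw [if_neg hi]

lemma mean_SPZ {k : ℕ} (v : Fin k → ℤ × ℤ) (z : ℕ) :
    ∑ r ∈ range (PW z), ∏ i, mz z ((v i).1 + r * (v i).2) = PW z * SPZ v z := by
  classical
  have h1 : ∑ r ∈ range (PW z), ∏ i, mz z ((v i).1 + r * (v i).2) =
      (((range (∏ p ∈ pz z, p)).filter (fun n => ∀ p ∈ pz z,
        (fun (p b : ℕ) => ∀ i, ¬ (p : ℤ) ∣ (v i).1 + (b : ℤ) * (v i).2) p (n % p))).card : ℝ) * ((Vz z)⁻¹) ^ k := by
    rw [Finset.sum_congr rfl fun r _ => prod_mz v z r, ← Finset.sum_filter, Finset.sum_const, nsmul_eq_mul, ← PW_pz]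
  rw [h1, Pool.Agent.H373R2.T7.crt_card (fun (p b : ℕ) => ∀ i, ¬ (p : ℤ) ∣ (v i).1 + (b : ℤ) * (v i).2) (pz z)
    (fun p hp => (mem_pz.1 hp).2)]
  unfold SPZ Vz
  rw [PW_pz]
  have e0 : (Icc 1 z).filter Nat.Prime = pz z := rfl
  rw [e0]
  push_cast
  rw [← Finset.prod_inv_distrib, ← Finset.prod_pow, ← Finset.prod_mul_distrib, ← Finset.prod_mul_distrib]
  refine Finset.prod_congr rfl fun p hp => ?_
  have hp2 : (2 : ℝ) ≤ p := by exact_mod_cast (mem_pz.1 hp).2.two_le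
  have h2 : (((range p).filter (fun b : ℕ => ∀ i, ¬ (p : ℤ) ∣ (v i).1 + (b : ℤ) * (v i).2)).card : ℝ) = p - nuZ v p := by
    have h3 := Finset.card_filter_add_card_filter_not (s := range p) (fun r : ℕ => ∃ i, (p : ℤ) ∣ (v i).1 + r * (v i).2)
    rw [Finset.card_range] at h3
    have h4 : (range p).filter (fun b : ℕ => ∀ i, ¬ (p : ℤ) ∣ (v i).1 + (b : ℤ) * (v i).2) =
        (range p).filter (fun r : ℕ => ¬ (∃ i, (p : ℤ) ∣ (v i).1 + r * (v i).2)) := by
      refine Finset.filter_congr fun r _ => ?_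
      rw [not_exists]
    rw [h4]
    unfold nuZ
    have h5 : (((range p).filter (fun r : ℕ => ∃ i, (p : ℤ) ∣ (v i).1 + r * (v i).2)).card : ℝ) +
        (((range p).filter (fun r : ℕ => ¬ (∃ i, (p : ℤ) ∣ (v i).1 + r * (v i).2))).card : ℝ) = p := by
      exact_mod_cast h3
    have h6 : (((range p).filter (fun r : ℕ => ∃ i, (p : ℤ) ∣ (v i).1 + r * (v i).2)).card : ℝ) =
      ((@filter ℕ (fun n => ∃ i, (p : ℤ) ∣ (v i).1 + n * (v i).2) (fun a => Fintype.decidableExistsFintype) (range p)).card : ℝ) := by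
      congr
    linarith
  rw [h2]
  unfold sfZ
  have h7 : (1 : ℝ) - 1 / p ≠ 0 := by
    have : 1 / (p : ℝ) ≤ 1 / 2 := one_div_le_one_div_of_le (by norm_num) hp2
    intro h8; linarith
  have hp0 : (p : ℝ) ≠ 0 := by linarith
  generalize (1 : ℝ) - 1 / p = D at h7 ⊢
  rw [inv_pow]
  field_simp

/-- `p` divides some leading coefficient, or some determinant -/
def Ex {k : ℕ} (v : Fin k → ℤ × ℤ) (p : ℕ) : Prop :=
  (∃ i, (p : ℤ) ∣ (v i).2) ∨ ∃ i j, i ≠ j ∧ (p : ℤ) ∣ (v i).1 * (v j).2 - (v j).1 * (v i).2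

/-- `p` divides both coefficients of a form -/
def VB {k : ℕ} (v : Fin k → ℤ × ℤ) (p : ℕ) : Prop := ∃ i, (p : ℤ) ∣ (v i).1 ∧ (p : ℤ) ∣ (v i).2

/-- the roots of one form -/
def rts (a d : ℤ) (p : ℕ) : Finset ℕ := (range p).filter (fun n : ℕ => (p : ℤ) ∣ a + n * d)

lemma rts_le (a d : ℤ) (p : ℕ) (hp : p.Prime) (h : ¬ ((p : ℤ) ∣ a ∧ (p : ℤ) ∣ d)) : (rts a d p).card ≤ 1 := by
  rw [Finset.card_le_one]
  intro n hn n' hn'
  obtain ⟨h1, h2⟩ := Finset.mem_filter.1 hn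
  obtain ⟨h1', h2'⟩ := Finset.mem_filter.1 hn'
  have hpd : ¬ (p : ℤ) ∣ d := by
    intro hd
    exact h ⟨(Int.dvd_add_left (hd.mul_left (n : ℤ))).1 h2, hd⟩
  have h3 : (p : ℤ) ∣ ((n : ℤ) - n') * d := by
    have e3 := dvd_sub h2 h2'
    have e4 : (a + n * d - (a + n' * d)) = ((n : ℤ) - n') * d := by ring
    rwa [e4] at e3
  have hp' : Prime (p : ℤ) := Nat.prime_iff_prime_int.1 hp
  rcases hp'.dvd_or_dvd h3 with h4 | h4
  · have hn1 := Finset.mem_range.1 h1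
    have hn2 := Finset.mem_range.1 h1'
    have h5 : n' ≡ n [MOD p] := (Nat.modEq_iff_dvd).2 h4
    exact (Nat.ModEq.eq_of_lt_of_lt h5 hn2 hn1).symm
  · exact absurd h4 hpd

lemma rts_one (a d : ℤ) (p : ℕ) (hp : p.Prime) (h : ¬ (p : ℤ) ∣ d) : (rts a d p).card = 1 := by
  refine le_antisymm (rts_le a d p hp fun h' => h h'.2) ?_
  haveI : Fact p.Prime := ⟨hp⟩
  rw [Nat.succ_le_iff, Finset.card_pos]
  refine ⟨((-(a : ZMod p)) / (d : ZMod p)).val, Finset.mem_filter.2 ⟨Finset.mem_range.2 (ZMod.val_lt _), ?_⟩⟩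
  rw [← ZMod.intCast_zmod_eq_zero_iff_dvd]
  push_cast
  rw [ZMod.natCast_zmod_val]
  have hd : (d : ZMod p) ≠ 0 := by
    intro h0
    exact h ((ZMod.intCast_zmod_eq_zero_iff_dvd _ _).1 h0)
  field_simp
  ring

lemma nu_eq {k : ℕ} (v : Fin k → ℤ × ℤ) (p : ℕ) :
    nuZ v p = ((univ : Finset (Fin k)).biUnion (fun i => rts (v i).1 (v i).2 p)).card := by
  unfold nuZ rts
  congr 1
  ext n
  simp only [mem_filter, mem_biUnion, mem_univ, true_and]
  constructor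
  · rintro ⟨a, i, b⟩; exact ⟨i, a, b⟩
  · rintro ⟨i, a, b⟩; exact ⟨a, i, b⟩

lemma nu_le {k : ℕ} (v : Fin k → ℤ × ℤ) (p : ℕ) (hp : p.Prime) (h : ¬ VB v p) : nuZ v p ≤ k := by
  rw [nu_eq]
  calc _ ≤ ∑ i : Fin k, (rts (v i).1 (v i).2 p).card := Finset.card_biUnion_le
    _ ≤ ∑ i : Fin k, 1 := Finset.sum_le_sum fun i _ => rts_le _ _ _ hp fun h' => h ⟨i, h'⟩
    _ = k := by simp

lemma nu_k {k : ℕ} (v : Fin k → ℤ × ℤ) (p : ℕ) (hp : p.Prime) (h : ¬ Ex v p) : nuZ v p = k := by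
  rw [nu_eq, Finset.card_biUnion]
  · calc _ = ∑ i : Fin k, 1 := Finset.sum_congr rfl fun i _ => rts_one _ _ _ hp fun h' => h (Or.inl ⟨i, h'⟩)
      _ = k := by simp
  · intro i _ j _ hij
    rw [Function.onFun, Finset.disjoint_left] at *
    intro n hn hn'
    have e1 := (Finset.mem_filter.1 hn).2
    have e2 := (Finset.mem_filter.1 hn').2
    refine h (Or.inr ⟨i, j, hij, ?_⟩)
    have e3 := dvd_sub (e1.mul_left (v j).2) (e2.mul_left (v i).2)
    have e4 : (v j).2 * ((v i).1 + n * (v i).2) - (v i).2 * ((v j).1 + n * (v j).2) =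
      (v i).1 * (v j).2 - (v j).1 * (v i).2 := by ring
    rwa [e4] at e3

lemma sfZ_bound {k : ℕ} (v : Fin k → ℤ × ℤ) (p : ℕ) (hp : p.Prime) (h : ¬ VB v p) : |sfZ v p - 1| ≤ Ck k / p := by
  have hp2 : (2 : ℝ) ≤ p := by exact_mod_cast hp.two_le
  have hν := nu_le v p hp h
  have hνr : (nuZ v p : ℝ) ≤ k := by exact_mod_cast hν
  have hν0 : (0 : ℝ) ≤ nuZ v p := Nat.cast_nonneg _
  have hνp : (nuZ v p : ℝ) / p ≤ 1 := by
    rw [div_le_one (by linarith)]; exact_mod_cast nuZ_le v p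
  unfold sfZ
  set y : ℝ := 1 / (p : ℝ) with hy
  have hy0 : 0 < y := by positivity
  have hy1 : y ≤ 1 / 2 := one_div_le_one_div_of_le (by norm_num) hp2
  have hden : 0 < (1 - y) ^ k := pow_pos (by linarith) k
  have hden1 : (1 - y) ^ k ≤ 1 := pow_le_one₀ (by linarith) (by linarith)
  have hνy : (nuZ v p : ℝ) / p = nuZ v p * y := by rw [hy]; ring
  have hinv : ((1 - y)⁻¹) ^ k ≤ 1 + (2 ^ k - 1) * (2 * y) := by
    have h1 : (1 - y)⁻¹ ≤ 1 + 2 * y := by
      rw [inv_le_iff_one_le_mul₀ (by linarith)]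
      nlinarith
    exact (pow_le_pow_left₀ (inv_nonneg.2 (by linarith)) h1 k).trans (one_add_pow_le _ (by linarith) (by linarith) k)
  have h2k : (1 : ℝ) ≤ 2 ^ k := one_le_pow₀ (by norm_num)
  have hkk : (k : ℝ) ≤ (k : ℝ) ^ 2 + 1 := by nlinarith [sq_nonneg ((k : ℝ) - 1)]
  have e0 : Ck k / p = Ck k * y := by rw [hy]; ring
  rw [e0, hνy, abs_le]
  unfold Ck
  rw [pow_succ]
  constructor
  · have h1 : 1 - nuZ v p * y ≤ (1 - nuZ v p * y) / (1 - y) ^ k := by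
      rw [le_div_iff₀ hden]
      have : 0 ≤ 1 - nuZ v p * y := by rw [← hνy]; linarith
      nlinarith
    have h2 : (nuZ v p : ℝ) * y ≤ ((k : ℝ) ^ 2 + 1) * y := mul_le_mul_of_nonneg_right (by linarith) hy0.le
    have h3 : ((k : ℝ) ^ 2 + 1) * y ≤ 2 ^ k * 2 * ((k : ℝ) ^ 2 + 1) * y := by
      have : 0 ≤ ((k : ℝ) ^ 2 + 1) * y := by positivity
      nlinarith
    linarith
  · have h1 : (1 - nuZ v p * y) / (1 - y) ^ k ≤ ((1 - y)⁻¹) ^ k := by
      rw [inv_pow, div_eq_mul_inv]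
      refine mul_le_of_le_one_left (by positivity) ?_
      have : 0 ≤ nuZ v p * y := by positivity
      linarith
    have h3 : (2 ^ k - 1) * (2 * y) ≤ 2 ^ k * 2 * ((k : ℝ) ^ 2 + 1) * y := by
      have h4 : (0 : ℝ) ≤ 2 ^ k * 2 * (k : ℝ) ^ 2 * y := by positivity
      nlinarith
    linarith

lemma sfZ_bound2 {k : ℕ} (v : Fin k → ℤ × ℤ) (p : ℕ) (hp : p.Prime) (h : ¬ Ex v p) : |sfZ v p - 1| ≤ Ck k / (p : ℝ) ^ 2 := by
  have hp2 : (2 : ℝ) ≤ p := by exact_mod_cast hp.two_le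
  have hν := nu_k v p hp h
  unfold sfZ
  rw [hν]
  set y : ℝ := 1 / (p : ℝ) with hy
  have hy0 : 0 < y := by positivity
  have hy1 : y ≤ 1 / 2 := one_div_le_one_div_of_le (by norm_num) hp2
  have hden : 0 < (1 - y) ^ k := pow_pos (by linarith) k
  have e1 : (k : ℝ) / p = k * y := by rw [hy]; ring
  have e0 : Ck k / (p : ℝ) ^ 2 = Ck k * y ^ 2 := by rw [hy]; ring
  have h1 := pow_upper y hy0.le (by linarith) k
  have h2 : 1 - k * y ≤ (1 - y) ^ k := by
    have := one_add_mul_le_pow (show (-2 : ℝ) ≤ -y by linarith) k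
    have e : (1 : ℝ) + -y = 1 - y := by ring
    rw [e] at this; linarith
  have h3 : (1 : ℝ) ≤ 2 ^ k * (1 - y) ^ k := by
    rw [← mul_pow]; exact one_le_pow₀ (by linarith)
  rw [e0, e1, abs_le]
  have h4 : (1 - k * y) / (1 - y) ^ k - 1 = -(((1 - y) ^ k - (1 - k * y)) / (1 - y) ^ k) := by
    field_simp; ring
  rw [h4]
  have h5 : 0 ≤ ((1 - y) ^ k - (1 - k * y)) / (1 - y) ^ k := div_nonneg (by linarith) hden.le
  have h6 : ((1 - y) ^ k - (1 - k * y)) / (1 - y) ^ k ≤ Ck k * y ^ 2 := by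
    rw [div_le_iff₀ hden]
    unfold Ck
    rw [pow_succ]
    have h7 : (k : ℝ) ^ 2 * y ^ 2 ≤ (2 ^ k * (1 - y) ^ k) * ((k : ℝ) ^ 2 * y ^ 2) :=
      le_mul_of_one_le_left (by positivity) h3
    have h8 : 2 ^ k * 2 * ((k : ℝ) ^ 2 + 1) * y ^ 2 * (1 - y) ^ k =
        (2 ^ k * (1 - y) ^ k) * ((k : ℝ) ^ 2 * y ^ 2) + (2 ^ k * (1 - y) ^ k) * (((k : ℝ) ^ 2 + 2) * y ^ 2) := by ring
    have h9 : 0 ≤ (2 ^ k * (1 - y) ^ k) * (((k : ℝ) ^ 2 + 2) * y ^ 2) := by positivity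
    linarith
  have h10 : 0 ≤ Ck k * y ^ 2 := by have := Ck_pos k; positivity
  constructor <;> linarith

/-- convergence of the singular series -/
lemma tailZ {k : ℕ} (v : Fin k → ℤ × ℤ) (z P : ℕ) (η : ℝ) (hz : 1 ≤ z)
    (hα : ∀ p : ℕ, p.Prime → z < p → ¬ VB v p) (hβ : ∀ p : ℕ, p.Prime → P < p → ¬ Ex v p)
    (F : Finset ℕ) (hF : ∀ p : ℕ, p.Prime → z < p → p ≤ P → Ex v p → p ∈ F) (hγ : ∑ p ∈ F, 1 / (p : ℝ) ≤ η) :
    ∃ S : ℝ, Tendsto (SPZ v) atTop (𝓝 S) ∧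
      |S - SPZ v z| ≤ (Real.exp (Ck k * (1 / z + η)) - 1) * SPZ v z := by
  classical
  have hCk := Ck_pos k
  set a : ℕ → ℝ := fun n => if n.Prime ∧ z < n then sfZ v n - 1 else 0 with ha
  have hsf0 : ∀ p : ℕ, p.Prime → 0 ≤ sfZ v p := by
    intro p hp
    have hp2 : (2 : ℝ) ≤ p := by exact_mod_cast hp.two_le
    unfold sfZ
    have h1 : (nuZ v p : ℝ) / p ≤ 1 := by
      rw [div_le_one (by linarith)]; exact_mod_cast nuZ_le v p
    have h2 : 1 / (p : ℝ) ≤ 1 := by rw [div_le_one (by linarith)]; linarith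
    exact div_nonneg (by linarith) (pow_nonneg (by linarith) k)
  have hSP0 : 0 ≤ SPZ v z := Finset.prod_nonneg fun p hp => hsf0 p (Finset.mem_filter.1 hp).2
  -- pointwise bound
  have hb : ∀ n, |a n| ≤ Ck k * (if z < n then ((n : ℝ) ^ 2)⁻¹ else 0) + Ck k * (if n ∈ F then 1 / (n : ℝ) else 0) := by
    intro n
    have hpos1 : 0 ≤ Ck k * (if z < n then ((n : ℝ) ^ 2)⁻¹ else 0) := by split_ifs <;> positivity
    have hpos2 : 0 ≤ Ck k * (if n ∈ F then 1 / (n : ℝ) else 0) := by split_ifs <;> positivity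
    show |if n.Prime ∧ z < n then sfZ v n - 1 else 0| ≤ _
    by_cases h : n.Prime ∧ z < n
    · rw [if_pos h]
      by_cases hE : Ex v n
      · have h1 : n ∈ F := by
          refine hF n h.1 h.2 ?_ hE
          by_contra hcon
          exact hβ n h.1 (by omega) hE
        have h2 := sfZ_bound v n h.1 (hα n h.1 h.2)
        rw [if_pos h1] 
        have : Ck k / n = Ck k * (1 / (n : ℝ)) := by ring
        linarith
      · have h2 := sfZ_bound2 v n h.1 hE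
        rw [if_pos h.2] at *
        have : Ck k / (n : ℝ) ^ 2 = Ck k * ((n : ℝ) ^ 2)⁻¹ := by ring
        linarith
    · rw [if_neg h, abs_zero]; linarith
  -- partial sums
  have hsum : ∀ m : ℕ, ∑ n ∈ range m, |a n| ≤ Ck k * (1 / z + η) := by
    intro m
    have h1 : ∑ n ∈ range m, (if z < n then ((n : ℝ) ^ 2)⁻¹ else 0) ≤ 1 / z := by
      rw [← Finset.sum_filter]
      calc _ ≤ ∑ n ∈ Ioc z (z + m), ((n : ℝ) ^ 2)⁻¹ := by
            refine Finset.sum_le_sum_of_subset_of_nonneg ?_ fun _ _ _ => by positivity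
            intro n hn
            have h1 := Finset.mem_filter.1 hn
            have h2 := Finset.mem_range.1 h1.1
            exact mem_Ioc.2 ⟨h1.2, by omega⟩
        _ ≤ (z : ℝ)⁻¹ - ((z + m : ℕ) : ℝ)⁻¹ := sum_Ioc_inv_sq_le_sub (by omega) (by omega)
        _ ≤ 1 / z := by
            rw [one_div]
            have : 0 ≤ ((z + m : ℕ) : ℝ)⁻¹ := by positivity
            linarith
    have h2 : ∑ n ∈ range m, (if n ∈ F then 1 / (n : ℝ) else 0) ≤ η := by
      refine le_trans ?_ hγ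
      rw [← Finset.sum_filter]
      refine Finset.sum_le_sum_of_subset_of_nonneg ?_ fun _ _ _ => by positivity
      intro n hn
      exact (Finset.mem_filter.1 hn).2
    calc _ ≤ ∑ n ∈ range m, (Ck k * (if z < n then ((n : ℝ) ^ 2)⁻¹ else 0) + Ck k * (if n ∈ F then 1 / (n : ℝ) else 0)) :=
          Finset.sum_le_sum fun n _ => hb n
      _ = Ck k * ∑ n ∈ range m, (if z < n then ((n : ℝ) ^ 2)⁻¹ else 0) +
          Ck k * ∑ n ∈ range m, (if n ∈ F then 1 / (n : ℝ) else 0) := by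
          rw [Finset.sum_add_distrib, Finset.mul_sum, Finset.mul_sum]
      _ ≤ Ck k * (1 / z) + Ck k * η := by gcongr
      _ = _ := by ring
  have hsummable : Summable (fun n => |a n|) := summable_of_sum_range_le (fun n => abs_nonneg _) hsum
  have hsm : Summable a := hsummable.of_abs
  have hmul : Multipliable (fun n => 1 + a n) := Real.multipliable_one_add_of_summable hsm
  have htend := hmul.tendsto_prod_tprod_nat
  set Q := ∏' n, (1 + a n) with hQ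
  -- relation of the partial products
  have hrel : ∀ y : ℕ, z ≤ y → SPZ v y = SPZ v z * ∏ n ∈ range (y + 1), (1 + a n) := by
    intro y hy
    have h1 : ∏ n ∈ range (y + 1), (1 + a n) = ∏ p ∈ (Ioc z y).filter Nat.Prime, sfZ v p := by
      have h2 : (Ioc z y).filter Nat.Prime ⊆ range (y + 1) := by
        intro p hp
        have := mem_Ioc.1 (Finset.mem_filter.1 hp).1
        exact Finset.mem_range.2 (by omega)
      rw [← Finset.prod_subset h2]
      · refine Finset.prod_congr rfl fun p hp => ?_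
        obtain ⟨h3, h4⟩ := Finset.mem_filter.1 hp
        show 1 + (if p.Prime ∧ z < p then sfZ v p - 1 else 0) = _
        rw [if_pos ⟨h4, (mem_Ioc.1 h3).1⟩]; ring
      · intro n hn hn'
        show 1 + (if n.Prime ∧ z < n then sfZ v n - 1 else 0) = 1
        rw [if_neg, add_zero]
        rintro ⟨h3, h4⟩
        exact hn' (Finset.mem_filter.2 ⟨mem_Ioc.2 ⟨h4, by have := Finset.mem_range.1 hn; omega⟩, h3⟩)
    rw [h1]
    unfold SPZ
    have h2 : (Icc 1 y).filter Nat.Prime = (Icc 1 z).filter Nat.Prime ∪ (Ioc z y).filter Nat.Prime := by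
      ext p
      simp only [mem_filter, mem_union, mem_Icc, mem_Ioc]
      constructor
      · rintro ⟨⟨a, b⟩, c⟩
        by_cases hpz : p ≤ z
        · exact Or.inl ⟨⟨a, hpz⟩, c⟩
        · exact Or.inr ⟨⟨by omega, b⟩, c⟩
      · rintro (⟨⟨a, b⟩, c⟩ | ⟨⟨a, b⟩, c⟩)
        · exact ⟨⟨a, by omega⟩, c⟩
        · exact ⟨⟨by omega, b⟩, c⟩
    rw [h2, Finset.prod_union]
    rw [Finset.disjoint_left]
    intro p hp hp'
    have h3 := mem_Icc.1 (Finset.mem_filter.1 hp).1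
    have h4 := mem_Ioc.1 (Finset.mem_filter.1 hp').1
    omega
  refine ⟨SPZ v z * Q, ?_, ?_⟩
  · have h1 : Tendsto (fun y : ℕ => SPZ v z * ∏ n ∈ range (y + 1), (1 + a n)) atTop (𝓝 (SPZ v z * Q)) :=
      (htend.comp (tendsto_add_atTop_nat 1)).const_mul _
    refine h1.congr' ?_
    filter_upwards [eventually_ge_atTop z] with y hy
    exact (hrel y hy).symm
  · have h1 : |Q - 1| ≤ Real.exp (Ck k * (1 / z + η)) - 1 := by
      have h2 : Tendsto (fun y : ℕ => |∏ n ∈ range y, (1 + a n) - 1|) atTop (𝓝 |Q - 1|) :=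
        (htend.sub_const 1).abs
      refine le_of_tendsto h2 (Eventually.of_forall fun y => ?_)
      have h3 := Finset.norm_prod_one_add_sub_one_le (range y) a
      simp only [Real.norm_eq_abs] at h3
      refine h3.trans ?_
      have := Real.exp_le_exp.2 (hsum y)
      linarith
    have h2 : SPZ v z * Q - SPZ v z = (Q - 1) * SPZ v z := by ring
    rw [h2, abs_mul, abs_of_nonneg hSP0]
    exact mul_le_mul_of_nonneg_right h1 hSP0

end Pool.Agent.H570.CD
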