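import Mathlib
import Pool.Agent.H570.CD.SS

/-! The singular series is bounded from below. -/

set_option autoImplicit false

namespace Pool.Agent.H570.CD

open Finset Filter Topology Pool.Agent.H570.LQ Pool.Agent.H570.TH
open Pool.Agent.H373R2.T7 (pz Vz mem_pz Vz_pos Vz_inv_small singZ singZ_eq rhoP rhoP_le nuP)

lemma prod_lower (s : Finset ℕ) (f : ℕ → ℝ) (h0 : ∀ i ∈ s, 0 ≤ f i) (h1 : ∀ i ∈ s, f i ≤ 1) :
    1 - ∑ i ∈ s, f i ≤ ∏ i ∈ s, (1 - f i) ∧ ∏ i ∈ s, (1 - f i) ≤ 1 := by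
  classical
  induction s using Finset.induction_on with
  | empty => simp
  | insert a s ha ih =>
    obtain ⟨ih1, ih2⟩ := ih (fun i hi => h0 i (Finset.mem_insert_of_mem hi)) (fun i hi => h1 i (Finset.mem_insert_of_mem hi))
    rw [Finset.prod_insert ha, Finset.sum_insert ha]
    have ha0 := h0 a (Finset.mem_insert_self _ _)
    have ha1 := h1 a (Finset.mem_insert_self _ _)
    have h2 : 0 ≤ ∏ i ∈ s, (1 - f i) := Finset.prod_nonneg fun i hi => by
      have := h1 i (Finset.mem_insert_of_mem hi); linarith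
    constructor
    · have h3 : f a * ∏ i ∈ s, (1 - f i) ≤ f a * 1 := mul_le_mul_of_nonneg_left ih2 ha0
      have e : (1 - f a) * ∏ i ∈ s, (1 - f i) = ∏ i ∈ s, (1 - f i) - f a * ∏ i ∈ s, (1 - f i) := by ring
      rw [e]; linarith
    · calc (1 - f a) * ∏ i ∈ s, (1 - f i) ≤ 1 * 1 := mul_le_mul (by linarith) ih2 h2 (by norm_num)
        _ = 1 := by norm_num

lemma base_k (k p : ℕ) (hp : 2 ≤ p) : 1 - Ck k / (p : ℝ) ^ 2 ≤ (1 - (k : ℝ) / p) / (1 - 1 / (p : ℝ)) ^ k := by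
  have hp2 : (2 : ℝ) ≤ p := by exact_mod_cast hp
  set y : ℝ := 1 / (p : ℝ) with hy
  have hy0 : 0 < y := by positivity
  have hy1 : y ≤ 1 / 2 := one_div_le_one_div_of_le (by norm_num) hp2
  have hden : 0 < (1 - y) ^ k := pow_pos (by linarith) k
  have e1 : (k : ℝ) / p = k * y := by rw [hy]; ring
  have e0 : Ck k / (p : ℝ) ^ 2 = Ck k * y ^ 2 := by rw [hy]; ring
  have h1 := pow_upper y hy0.le (by linarith) k
  have h3 : (1 : ℝ) ≤ 2 ^ k * (1 - y) ^ k := by
    rw [← mul_pow]; exact one_le_pow₀ (by linarith)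
  rw [e0, e1, le_div_iff₀ hden]
  unfold Ck
  rw [pow_succ]
  have h7 : (k : ℝ) ^ 2 * y ^ 2 ≤ (2 ^ k * (1 - y) ^ k) * ((k : ℝ) ^ 2 * y ^ 2) :=
    le_mul_of_one_le_left (by positivity) h3
  have h8 : (1 - 2 ^ k * 2 * ((k : ℝ) ^ 2 + 1) * y ^ 2) * (1 - y) ^ k =
      (1 - y) ^ k - (2 ^ k * (1 - y) ^ k) * ((k : ℝ) ^ 2 * y ^ 2) - (2 ^ k * (1 - y) ^ k) * (((k : ℝ) ^ 2 + 2) * y ^ 2) := by ring
  have h9 : 0 ≤ (2 ^ k * (1 - y) ^ k) * (((k : ℝ) ^ 2 + 2) * y ^ 2) := by positivity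
  rw [h8]
  linarith

lemma nu_or {k : ℕ} (v : Fin k → ℤ × ℤ) (p : ℕ) (hp : p.Prime) : nuZ v p = p ∨ nuZ v p ≤ k := by
  by_cases h : VB v p
  · left
    obtain ⟨i, h1, h2⟩ := h
    unfold nuZ
    rw [Finset.filter_true_of_mem, Finset.card_range]
    intro n _
    exact ⟨i, dvd_add h1 (h2.mul_left _)⟩
  · right
    exact nu_le v p hp h

lemma sfZ_lower {k : ℕ} (v : Fin k → ℤ × ℤ) (p : ℕ) (hp : p.Prime) (h : sfZ v p ≠ 0) :
    1 / (p : ℝ) ≤ sfZ v p ∧ 1 - Ck k / (p : ℝ) ^ 2 ≤ sfZ v p := by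
  have hp2 : (2 : ℝ) ≤ p := by exact_mod_cast hp.two_le
  have hp0 : (0 : ℝ) < p := by linarith
  have hne : nuZ v p ≠ p := by
    intro h1
    apply h
    unfold sfZ
    rw [h1, div_self hp0.ne']; simp
  have h1 : nuZ v p ≤ k := by
    rcases nu_or v p hp with h2 | h2
    · exact absurd h2 hne
    · exact h2
  have h2 : nuZ v p + 1 ≤ p := by
    have := nuZ_le v p; omega
  have hy1 : 1 / (p : ℝ) ≤ 1 / 2 := one_div_le_one_div_of_le (by norm_num) hp2
  have hy0 : 0 < 1 / (p : ℝ) := by positivity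
  have hden : 0 < (1 - 1 / (p : ℝ)) ^ k := pow_pos (by linarith) k
  have hden1 : (1 - 1 / (p : ℝ)) ^ k ≤ 1 := pow_le_one₀ (by linarith) (by linarith)
  have h3 : ((nuZ v p : ℝ) + 1) ≤ p := by exact_mod_cast h2
  have h4 : 1 / (p : ℝ) ≤ 1 - (nuZ v p : ℝ) / p := by
    rw [le_sub_iff_add_le, ← add_div, div_le_one hp0]; linarith
  have h0 : 0 ≤ 1 - (nuZ v p : ℝ) / p := by linarith
  constructor
  · refine h4.trans ?_
    unfold sfZ
    rw [le_div_iff₀ hden]
    exact mul_le_of_le_one_right h0 hden1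
  · by_cases hkp : k ≤ p
    · refine (base_k k p hp.two_le).trans ?_
      unfold sfZ
      refine div_le_div_of_nonneg_right ?_ hden.le
      have : (nuZ v p : ℝ) ≤ k := by exact_mod_cast h1
      have := div_le_div_of_nonneg_right this hp0.le
      linarith
    · have h5 : 0 ≤ sfZ v p := by unfold sfZ; exact div_nonneg h0 hden.le
      refine le_trans ?_ h5
      have h6 : (p : ℝ) ^ 2 ≤ Ck k := by
        unfold Ck
        have h7 : (p : ℝ) ≤ k := by exact_mod_cast (by omega : p ≤ k)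
        have h8 : (p : ℝ) ^ 2 ≤ (k : ℝ) ^ 2 := pow_le_pow_left₀ hp0.le h7 2
        have h9 : (1 : ℝ) ≤ 2 ^ (k + 1) := one_le_pow₀ (by norm_num)
        nlinarith [sq_nonneg (k : ℝ)]
      rw [sub_nonpos, one_le_div (by positivity)]
      exact h6

theorem SPZ_lower (k : ℕ) : ∃ c : ℝ, 0 < c ∧ ∀ (v : Fin k → ℤ × ℤ), ∀ z : ℕ, SPZ v z ≠ 0 → c ≤ SPZ v z := by
  have hCk := Ck_pos k
  obtain ⟨P, hP⟩ := exists_nat_ge (2 * Ck k + 1)
  have hP1 : (1 : ℝ) ≤ P := by linarith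
  have hPn : 1 ≤ P := by exact_mod_cast hP1
  refine ⟨(∏ p ∈ (Icc 1 P).filter Nat.Prime, 1 / (p : ℝ)) * (1 / 2), ?_, fun v z hz => ?_⟩
  · refine mul_pos (Finset.prod_pos fun p hp => ?_) (by norm_num)
    have := (Finset.mem_filter.1 hp).2.pos
    positivity
  have hne : ∀ p ∈ (Icc 1 z).filter Nat.Prime, sfZ v p ≠ 0 := by
    intro p hp h0
    exact hz (Finset.prod_eq_zero hp h0)
  unfold SPZ
  rw [← Finset.prod_filter_mul_prod_filter_not ((Icc 1 z).filter Nat.Prime) (fun p => p ≤ P)]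
  refine mul_le_mul ?_ ?_ (by norm_num) ?_
  · -- small primes
    have hsub : ((Icc 1 z).filter Nat.Prime).filter (fun p => p ≤ P) ⊆ (Icc 1 P).filter Nat.Prime := by
      intro p hp
      obtain ⟨h1, h2⟩ := Finset.mem_filter.1 hp
      obtain ⟨h3, h4⟩ := Finset.mem_filter.1 h1
      exact Finset.mem_filter.2 ⟨mem_Icc.2 ⟨(mem_Icc.1 h3).1, h2⟩, h4⟩
    calc ∏ p ∈ (Icc 1 P).filter Nat.Prime, 1 / (p : ℝ) ≤ ∏ p ∈ ((Icc 1 z).filter Nat.Prime).filter (fun p => p ≤ P), 1 / (p : ℝ) := by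
          rw [← Finset.prod_sdiff hsub]
          refine mul_le_of_le_one_left (Finset.prod_nonneg fun p _ => by positivity) (Finset.prod_le_one (fun p _ => by positivity) fun p hp => ?_)
          have h1 := (Finset.mem_filter.1 (Finset.mem_sdiff.1 hp).1).2.pos
          rw [div_le_one (by exact_mod_cast h1)]
          exact_mod_cast h1
      _ ≤ _ := by
          refine Finset.prod_le_prod (fun p _ => by positivity) fun p hp => ?_
          have h1 := (Finset.mem_filter.1 hp).1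
          exact (sfZ_lower v p (Finset.mem_filter.1 h1).2 (hne p h1)).1
  · -- large primes
    set S := ((Icc 1 z).filter Nat.Prime).filter (fun p => ¬ p ≤ P) with hS
    have hS1 : ∀ p ∈ S, p.Prime ∧ P < p ∧ p ∈ (Icc 1 z).filter Nat.Prime := by
      intro p hp
      obtain ⟨h1, h2⟩ := Finset.mem_filter.1 hp
      exact ⟨(Finset.mem_filter.1 h1).2, by omega, h1⟩
    have hle : ∀ p ∈ S, Ck k / (p : ℝ) ^ 2 ≤ 1 := by
      intro p hp
      have h1 : (P : ℝ) ≤ p := by exact_mod_cast (hS1 p hp).2.1.le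
      have h0 : (0 : ℝ) < p := by linarith
      rw [div_le_one (by positivity)]
      nlinarith
    have hsum : ∑ p ∈ S, Ck k / (p : ℝ) ^ 2 ≤ 1 / 2 := by
      have h2 : S ⊆ Ioc P (P + z) := by
        intro p hp
        have h3 := hS1 p hp
        have h4 := mem_Icc.1 (Finset.mem_filter.1 h3.2.2).1
        exact mem_Ioc.2 ⟨h3.2.1, by omega⟩
      calc _ ≤ ∑ p ∈ Ioc P (P + z), Ck k / (p : ℝ) ^ 2 := Finset.sum_le_sum_of_subset_of_nonneg h2 fun p _ _ => by positivity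
        _ = Ck k * ∑ p ∈ Ioc P (P + z), ((p : ℝ) ^ 2)⁻¹ := by
            rw [Finset.mul_sum]; exact Finset.sum_congr rfl fun p _ => by rw [div_eq_mul_inv]
        _ ≤ Ck k * (1 / P) := by
            refine mul_le_mul_of_nonneg_left ?_ hCk.le
            have h3 := sum_Ioc_inv_sq_le_sub (α := ℝ) (show P ≠ 0 by omega) (show P ≤ P + z by omega)
            have : (0 : ℝ) ≤ (((P + z : ℕ) : ℝ))⁻¹ := by positivity
            rw [one_div]; linarith
        _ ≤ 1 / 2 := by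
            rw [mul_one_div, div_le_div_iff₀ (by linarith) (by norm_num)]; linarith
    calc (1 : ℝ) / 2 ≤ 1 - ∑ p ∈ S, Ck k / (p : ℝ) ^ 2 := by linarith
      _ ≤ ∏ p ∈ S, (1 - Ck k / (p : ℝ) ^ 2) := (prod_lower S _ (fun p _ => by positivity) hle).1
      _ ≤ _ := by
          refine Finset.prod_le_prod (fun p hp => ?_) fun p hp => ?_
          · have := hle p hp; linarith
          · exact (sfZ_lower v p (hS1 p hp).1 (hne p (hS1 p hp).2.2)).2
  · refine Finset.prod_nonneg fun p hp => ?_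
    have h1 := (Finset.mem_filter.1 hp).1
    exact le_trans (by positivity) (sfZ_lower v p (Finset.mem_filter.1 h1).2 (hne p h1)).1

end Pool.Agent.H570.CD
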