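import Mathlib
import Pool.Agent.H570.CD.SLow

/-! All lengths simultaneously. -/

set_option autoImplicit false

namespace Pool.Agent.H570.CD

open Finset Filter Topology Pool.Agent.H570.LQ Pool.Agent.H570.TH
open Pool.Agent.H373R2.T7 (pz Vz mem_pz Vz_pos Vz_inv_small singZ singZ_eq rhoP rhoP_le nuP)

/-- the sums of the products of the von Mangoldt function -/
noncomputable def XF {k : ℕ} (w : Fin k → ℕ → ℕ → ℕ) (v : ℕ × (Fin k → ℕ)) (J : ℕ) : ℝ := ∑ j ∈ range J, FF w (j + 1) v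

/-- the sums of the model -/
noncomputable def XM {k : ℕ} (w : Fin k → ℕ → ℕ → ℕ) (z0 : ℕ) (v : ℕ × (Fin k → ℕ)) (J : ℕ) : ℝ :=
  ∑ j ∈ range J, MM w z0 (j + 1) v

/-- a vector whose sums deviate -/
def Dev {k : ℕ} (w : Fin k → ℕ → ℕ → ℕ) (z0 : ℕ) (Jg : ℕ → ℕ) (I : ℕ) (θ : ℝ) (v : ℕ × (Fin k → ℕ)) : Prop :=
  ∃ i ∈ range (I + 1), 2 * θ < |XF w v (Jg i) / Jg i - XM w z0 v (Jg I) / Jg I|

lemma uu_sum (f : ℕ → ℝ) (J J' : ℕ) (h : J ≤ J') : ∑ j ∈ range J', uu J j * f j = (∑ j ∈ range J, f j) / J := by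
  rw [Finset.sum_div]
  unfold uu
  have h1 : ∀ j ∈ range J', (if j < J then 1 / (J : ℝ) else 0) * f j = if j < J then f j / J else 0 := by
    intro j _
    split_ifs <;> ring
  rw [Finset.sum_congr rfl h1, ← Finset.sum_filter]
  have : (range J').filter (fun j => j < J) = range J := by
    ext j; simp only [mem_filter, mem_range]; omega
  rw [this]

open Classical in
lemma cheb {α : Type*} (Ω : Finset α) (f : α → ℝ) (θ N τ : ℝ) (hθ : 0 < θ) (h : ∑ v ∈ Ω, f v ^ 2 ≤ N * τ) :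
    ((Ω.filter (fun v => θ < |f v|)).card : ℝ) ≤ N * (τ / θ ^ 2) := by
  have h1 : ((Ω.filter (fun v => θ < |f v|)).card : ℝ) * θ ^ 2 ≤ N * τ := by
    calc _ = ∑ v ∈ Ω.filter (fun v => θ < |f v|), θ ^ 2 := by rw [Finset.sum_const, nsmul_eq_mul]
      _ ≤ ∑ v ∈ Ω.filter (fun v => θ < |f v|), f v ^ 2 := by
          refine Finset.sum_le_sum fun v hv => ?_
          rw [← sq_abs (f v)]
          exact pow_le_pow_left₀ hθ.le (Finset.mem_filter.1 hv).2.le 2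
      _ ≤ ∑ v ∈ Ω, f v ^ 2 := Finset.sum_le_sum_of_subset_of_nonneg (Finset.filter_subset _ _) fun _ _ _ => sq_nonneg _
      _ ≤ _ := h
  rw [mul_div_assoc', le_div_iff₀ (by positivity)]
  exact h1

section
variable {k : ℕ} {w : Fin k → ℕ → ℕ → ℕ} {t H K X z z0 : ℕ} {L δ : ℝ} {Ex : Finset ℕ}

open Classical in
lemma all_lengths (h : Hyp w t H K X z z0 L δ Ex) (C1 : ℝ) (hC1 : 1 ≤ C1)
    (hQ : ∀ d J : ℕ, 1 ≤ d → 1 ≤ J → ∑ j ∈ range J, ∑ j' ∈ (range J).filter (fun j' => j' ≠ j), uu J j * uu J j' *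
      (sg z ((d * dd j j' : ℕ) : ℤ) ^ k - sg z0 ((d * dd j j' : ℕ) : ℤ) ^ k) ≤
      ((Vz z0)⁻¹) ^ k * (Gk k z0 d * (1 + C1 / Real.sqrt z0) - 1))
    (G0 G1 : ℝ) (hG0 : ∑ d ∈ Ioc t (t + H), Gk k z0 d ≤ G0 * H) (hG1 : ∑ d ∈ Ioc t (t + H), Gk k 1 d ≤ G1 * H)
    (Jg : ℕ → ℕ) (I : ℕ) (hJ1 : ∀ i, 1 ≤ Jg i) (hJm : ∀ i ∈ range I, Jg i ≤ Jg I) (hJI : Jg I ≤ K) (θ : ℝ) (hθ : 0 < θ) :
    (((Om k t H).filter (Dev w z0 Jg I θ)).card : ℝ) ≤ (H : ℝ) ^ (k + 1) *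
      (((((Vz z0)⁻¹) ^ k * (G0 * (1 + C1 / Real.sqrt z0) - 1) + 4 * ((k + 1) * ((L ^ 2) ^ k * δ)) +
        ((2 * L) ^ k + (L ^ 2) ^ k) * (1 / Jg I)) +
        ∑ i ∈ range I, (G1 * (6 * (bk k : ℝ) ^ (bk k ^ 2)) / Real.sqrt (Jg i) + 4 * ((k + 1) * ((L ^ 2) ^ k * δ)) +
        (2 * L) ^ k * (2 / Jg i))) / θ ^ 2) := by
  set fA : (ℕ × (Fin k → ℕ)) → ℝ := fun v => ∑ j ∈ range (Jg I), uu (Jg I) j * (FF w (j + 1) v - MM w z0 (j + 1) v) with hfA
  set fB : ℕ → (ℕ × (Fin k → ℕ)) → ℝ := fun i v => ∑ j ∈ range (Jg I), vv (Jg i) (Jg I) j * FF w (j + 1) v with hfB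
  have hA := cheb (Om k t H) fA θ ((H : ℝ) ^ (k + 1)) _ hθ (V2 h C1 hC1 hQ (Jg I) (hJ1 I) hJI G0 hG0)
  have hB : ∀ i ∈ range I, _ := fun i hi =>
    cheb (Om k t H) (fB i) θ ((H : ℝ) ^ (k + 1)) _ hθ (V1 h (Jg i) (Jg I) (hJ1 i) (hJm i hi) hJI G1 hG1)
  have hsub : (Om k t H).filter (Dev w z0 Jg I θ) ⊆ (Om k t H).filter (fun v => θ < |fA v|) ∪
      (range I).biUnion (fun i => (Om k t H).filter (fun v => θ < |fB i v|)) := by
    intro v hv
    obtain ⟨hvO, i, hi, hlt⟩ := Finset.mem_filter.1 hv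
    have eA : fA v = XF w v (Jg I) / Jg I - XM w z0 v (Jg I) / Jg I := by
      rw [hfA]
      simp only [mul_sub, Finset.sum_sub_distrib]
      rw [uu_sum (fun j => FF w (j + 1) v) (Jg I) (Jg I) le_rfl, uu_sum (fun j => MM w z0 (j + 1) v) (Jg I) (Jg I) le_rfl]
      rfl
    by_cases hbA : θ < |fA v|
    · exact Finset.mem_union_left _ (Finset.mem_filter.2 ⟨hvO, hbA⟩)
    · have hi2 : i ∈ range I := by
        rcases Nat.lt_succ_iff_lt_or_eq.1 (Finset.mem_range.1 hi) with h1 | h1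
        · exact Finset.mem_range.2 h1
        · exfalso
          rw [h1, ← eA] at hlt
          push Not at hbA
          linarith
      refine Finset.mem_union_right _ (Finset.mem_biUnion.2 ⟨i, hi2, Finset.mem_filter.2 ⟨hvO, ?_⟩⟩)
      have eB : fB i v = XF w v (Jg i) / Jg i - XF w v (Jg I) / Jg I := by
        rw [hfB]
        unfold vv
        simp only [sub_mul, Finset.sum_sub_distrib]
        rw [uu_sum (fun j => FF w (j + 1) v) (Jg i) (Jg I) (hJm i hi2), uu_sum (fun j => FF w (j + 1) v) (Jg I) (Jg I) le_rfl]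
        rfl
      rw [eB]
      push Not at hbA
      rw [eA] at hbA
      have h5 := abs_add_le (XF w v (Jg i) / Jg i - XF w v (Jg I) / Jg I) (XF w v (Jg I) / Jg I - XM w z0 v (Jg I) / Jg I)
      rw [sub_add_sub_cancel] at h5
      linarith
  calc _ ≤ (((Om k t H).filter (fun v => θ < |fA v|) ∪
      (range I).biUnion (fun i => (Om k t H).filter (fun v => θ < |fB i v|))).card : ℝ) := by exact_mod_cast Finset.card_le_card hsub
    _ ≤ (((Om k t H).filter (fun v => θ < |fA v|)).card : ℝ) +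
        ∑ i ∈ range I, (((Om k t H).filter (fun v => θ < |fB i v|)).card : ℝ) := by
        have h1 := Finset.card_union_le ((Om k t H).filter (fun v => θ < |fA v|))
          ((range I).biUnion (fun i => (Om k t H).filter (fun v => θ < |fB i v|)))
        have h2 : ((range I).biUnion (fun i => (Om k t H).filter (fun v => θ < |fB i v|))).card ≤
          ∑ i ∈ range I, ((Om k t H).filter (fun v => θ < |fB i v|)).card := Finset.card_biUnion_le
        exact_mod_cast h1.trans (Nat.add_le_add_left h2 _)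
    _ ≤ _ := by
        refine (add_le_add hA (Finset.sum_le_sum hB)).trans (le_of_eq ?_)
        rw [← Finset.mul_sum, ← Finset.sum_div]; ring

end

lemma Vz_log : ∃ C : ℝ, 0 < C ∧ ∀ z : ℕ, 3 ≤ z → (Vz z)⁻¹ ≤ C * Real.log z ^ 2 := by
  obtain ⟨C, hC⟩ := Pool.Agent.Helper256.KM.mertens_inv
  refine ⟨Real.exp (2 * C), Real.exp_pos _, fun z h3 => ?_⟩
  have h4 := hC z h3
  have h5 : (Vz z)⁻¹ ≤ Real.exp (2 * ∑ p ∈ pz z, 1 / (p : ℝ)) := by
    unfold Vz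
    rw [← Finset.prod_inv_distrib, Finset.mul_sum, Real.exp_sum]
    apply Finset.prod_le_prod
    · intro p hp
      have hp2 : (2 : ℝ) ≤ p := by exact_mod_cast (mem_pz.1 hp).2.two_le
      apply inv_nonneg.2
      rw [sub_nonneg, div_le_one (by linarith)]; linarith
    · intro p hp
      have hp2 : (2 : ℝ) ≤ p := by exact_mod_cast (mem_pz.1 hp).2.two_le
      have h6 : (1 - 1 / (p : ℝ))⁻¹ ≤ 2 * (1 / p) + 1 := by
        rw [inv_le_iff_one_le_mul₀ (by rw [sub_pos, div_lt_one (by linarith)]; linarith)]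
        have h7 : 0 < 1 / (p : ℝ) := by positivity
        have h8 : 1 / (p : ℝ) ≤ 1 / 2 := one_div_le_one_div_of_le (by norm_num) hp2
        nlinarith
      exact h6.trans (Real.add_one_le_exp _)
  have hz3 : (3 : ℝ) ≤ z := by exact_mod_cast h3
  have hlz : 1 ≤ Real.log z := by
    rw [← Real.log_exp 1]
    apply Real.log_le_log (Real.exp_pos _)
    have := Real.exp_one_lt_d9
    linarith
  have h6 : ∑ p ∈ pz z, 1 / (p : ℝ) ≤ Real.log (Real.log z) + C := by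
    have := (abs_le.1 h4).2
    unfold pz
    linarith
  calc (Vz z)⁻¹ ≤ Real.exp (2 * ∑ p ∈ pz z, 1 / (p : ℝ)) := h5
    _ ≤ Real.exp (2 * (Real.log (Real.log z) + C)) := Real.exp_le_exp.2 (by linarith)
    _ = Real.exp (2 * C) * Real.log z ^ 2 := by
        rw [mul_add, Real.exp_add, mul_comm 2 (Real.log (Real.log z)), Real.exp_mul, Real.exp_log (by linarith)]
        norm_num
        ring

/-- `(Vz z)⁻¹ ^ k / √z` tends to zero -/
lemma Vz_decay (k : ℕ) (κ : ℝ) (hκ : 0 < κ) : ∀ᶠ z : ℕ in atTop, ((Vz z)⁻¹) ^ k / Real.sqrt z ≤ κ := by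
  obtain ⟨C, hC0, hC⟩ := Vz_log
  filter_upwards [ev4 (2 * k) (κ / C ^ k) (by positivity), eventually_ge_atTop 3] with z h1 h2
  have hz3 : (3 : ℝ) ≤ z := by exact_mod_cast h2
  have hs : 0 < Real.sqrt z := Real.sqrt_pos.2 (by linarith)
  have hV0 : 0 ≤ (Vz z)⁻¹ := inv_nonneg.2 (Vz_pos z).le
  rw [div_le_iff₀ hs]
  calc ((Vz z)⁻¹) ^ k ≤ (C * Real.log z ^ 2) ^ k := pow_le_pow_left₀ hV0 (hC z h2) k
    _ = C ^ k * Real.log z ^ (2 * k) := by rw [mul_pow, ← pow_mul]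
    _ ≤ C ^ k * (κ / C ^ k * Real.sqrt z) := mul_le_mul_of_nonneg_left h1 (by positivity)
    _ = _ := by field_simp

end Pool.Agent.H570.CD
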