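import Mathlib
import Pool.Agent.H570.CD.All
import Pool.Agent.H570.TH.Cnt

/-! Counting. -/

set_option autoImplicit false

namespace Pool.Agent.H570.CD

open Finset Filter Topology Pool.Agent.H570.LQ Pool.Agent.H570.TH
open Pool.Agent.H373R2.T7 (pz Vz mem_pz Vz_pos Vz_inv_small singZ singZ_eq rhoP rhoP_le nuP)

/-- all values at `n` are primes -/
def AllP {k : ℕ} (w : Fin k → ℕ → ℕ → ℕ) (v : ℕ × (Fin k → ℕ)) (n : ℕ) : Prop := ∀ i, (v.2 i + w i v.1 n).Prime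

open Classical in
/-- the number of `n ≤ K` for which all values are primes -/
noncomputable def PiW {k : ℕ} (w : Fin k → ℕ → ℕ → ℕ) (v : ℕ × (Fin k → ℕ)) (K : ℕ) : ℕ :=
  ((Icc 1 K).filter (AllP w v)).card

/-- the values are linear forms -/
def Rep {k : ℕ} (w : Fin k → ℕ → ℕ → ℕ) (v : ℕ × (Fin k → ℕ)) (K : ℕ) (l : Fin k → ℤ × ℤ) : Prop :=
  ∀ n, n ≤ K → ∀ i, ((v.2 i : ℤ) + (w i v.1 n : ℕ)) = (l i).1 + n * (l i).2

/-- the vectors for which the counting works -/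
structure Nice {k : ℕ} (w : Fin k → ℕ → ℕ → ℕ) (v : ℕ × (Fin k → ℕ)) (K N z : ℕ) (x u : ℝ) : Prop where
  small : ∀ i, z < v.2 i
  lower : ∀ i, (1 - u) * x ≤ Real.log (v.2 i)
  le : ∀ n, 1 ≤ n → n ≤ K → ∀ i, v.2 i + w i v.1 n ≤ N
  upper : Real.log N ≤ (1 + u) * x
  pp : ∀ n, 1 ≤ n → n ≤ K → ∀ i, v.2 i + w i v.1 n ∉ PPw N

section
variable {k : ℕ} {w : Fin k → ℕ → ℕ → ℕ} {v : ℕ × (Fin k → ℕ)} {K N z : ℕ} {x u : ℝ}

lemma XF_eq_Icc (w : Fin k → ℕ → ℕ → ℕ) (v : ℕ × (Fin k → ℕ)) (J : ℕ) : XF w v J = ∑ n ∈ Icc 1 J, FF w n v := by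
  unfold XF
  rw [← Finset.sum_image (f := fun n => FF w n v) (g := fun j => j + 1) (s := range J)]
  · congr 1
    ext n
    simp only [mem_image, mem_range, mem_Icc]
    constructor
    · rintro ⟨j, hj, rfl⟩; omega
    · intro h; exact ⟨n - 1, by omega, by omega⟩
  · intro a _ b _ hab
    have : a + 1 = b + 1 := hab
    omega

lemma XF_mono (w : Fin k → ℕ → ℕ → ℕ) (v : ℕ × (Fin k → ℕ)) (J J' : ℕ) (h : J ≤ J') : XF w v J ≤ XF w v J' := by
  unfold XF
  exact Finset.sum_le_sum_of_subset_of_nonneg (Finset.range_mono h) fun j _ _ => FF_nonneg _ _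

lemma FF_zero (h : Nice w v K N z x u) (n : ℕ) (hn : 1 ≤ n) (hnK : n ≤ K) (hA : ¬ AllP w v n) : FF w n v = 0 := by
  unfold AllP at hA
  push Not at hA
  obtain ⟨i, hi⟩ := hA
  unfold FF
  refine Finset.prod_eq_zero (Finset.mem_univ i) ?_
  by_contra hne
  refine h.pp n hn hnK i ?_
  unfold PPw
  have hpos : 0 < v.2 i := by have := h.small i; omega
  have := h.le n hn hnK i
  refine Finset.mem_filter.2 ⟨mem_Icc.2 ⟨?_, this⟩, hi, hne⟩
  omega

open Classical in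
lemma XF_bounds (h : Nice w v K N z x u) (hu : u ≤ 1) (hx : 0 ≤ x) (J : ℕ) (hJ : J ≤ K) :
    ((1 - u) * x) ^ k * (PiW w v J : ℝ) ≤ XF w v J ∧ XF w v J ≤ ((1 + u) * x) ^ k * (PiW w v J : ℝ) := by
  have h0 : XF w v J = ∑ n ∈ (Icc 1 J).filter (AllP w v), FF w n v := by
    rw [XF_eq_Icc, Finset.sum_filter]
    refine Finset.sum_congr rfl fun n hn => ?_
    have hn' := mem_Icc.1 hn
    split_ifs with hA
    · rfl
    · exact FF_zero h n hn'.1 (hn'.2.trans hJ) hA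
  rw [h0]
  unfold PiW
  have hval : ∀ n ∈ (Icc 1 J).filter (AllP w v), ((1 - u) * x) ^ k ≤ FF w n v ∧ FF w n v ≤ ((1 + u) * x) ^ k := by
    intro n hn
    obtain ⟨hn1, hA⟩ := Finset.mem_filter.1 hn
    have hn2 := mem_Icc.1 hn1
    have e1 : FF w n v = ∏ i, Real.log (v.2 i + w i v.1 n : ℕ) := by
      unfold FF
      refine Finset.prod_congr rfl fun i _ => ?_
      exact ArithmeticFunction.vonMangoldt_apply_prime (hA i)
    have hpos : ∀ i, (0 : ℝ) < v.2 i := fun i => by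
      have := h.small i
      exact_mod_cast (by omega : 0 < v.2 i)
    have hlow : ∀ i, (1 - u) * x ≤ Real.log (v.2 i + w i v.1 n : ℕ) := fun i => by
      refine (h.lower i).trans (Real.log_le_log (hpos i) ?_)
      exact_mod_cast Nat.le_add_right _ _
    have hup : ∀ i, Real.log (v.2 i + w i v.1 n : ℕ) ≤ (1 + u) * x := fun i => by
      refine le_trans (Real.log_le_log ?_ ?_) h.upper
      · exact_mod_cast (hA i).pos
      · exact_mod_cast h.le n hn2.1 (hn2.2.trans hJ) i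
    have h0 : 0 ≤ (1 - u) * x := mul_nonneg (by linarith) hx
    rw [e1]
    constructor
    · calc ((1 - u) * x) ^ k = ∏ i : Fin k, ((1 - u) * x) := by rw [Finset.prod_const, Finset.card_univ, Fintype.card_fin]
        _ ≤ _ := Finset.prod_le_prod (fun i _ => h0) fun i _ => hlow i
    · calc _ ≤ ∏ i : Fin k, ((1 + u) * x) := Finset.prod_le_prod (fun i _ => h0.trans (hlow i)) fun i _ => hup i
        _ = _ := by rw [Finset.prod_const, Finset.card_univ, Fintype.card_fin]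
  constructor
  · calc ((1 - u) * x) ^ k * (((Icc 1 J).filter (AllP w v)).card : ℝ) =
        ∑ n ∈ (Icc 1 J).filter (AllP w v), ((1 - u) * x) ^ k := by
          rw [Finset.sum_const, nsmul_eq_mul]; ring
      _ ≤ _ := Finset.sum_le_sum fun n hn => (hval n hn).1
  · calc _ ≤ ∑ n ∈ (Icc 1 J).filter (AllP w v), ((1 + u) * x) ^ k := Finset.sum_le_sum fun n hn => (hval n hn).2
      _ = _ := by rw [Finset.sum_const, nsmul_eq_mul]; ring

/-- the mean of the model -/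
lemma XM_mean (l : Fin k → ℤ × ℤ) (z0 : ℕ) (hl : Rep w v K l) (J : ℕ) (hJ : 1 ≤ J) (hJK : J ≤ K) :
    |XM w z0 v J / J - SPZ l z0| ≤ PW z0 * ((Vz z0)⁻¹) ^ k / J := by
  have hJr : (0 : ℝ) < J := by exact_mod_cast hJ
  have hW : 1 ≤ PW z0 := PW_pos z0
  have hWr : (0 : ℝ) < (PW z0 : ℕ) := by exact_mod_cast hW
  set f : ℕ → ℝ := fun n => ∏ i, mz z0 ((l i).1 + n * (l i).2) with hf
  have h1 : XM w z0 v J = ∑ u ∈ Ioc 0 (0 + J), f u := by
    have e0 : Ioc 0 (0 + J) = (range J).image (fun j => j + 1) := by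
      ext n
      simp only [mem_image, mem_range, mem_Ioc]
      constructor
      · intro h; exact ⟨n - 1, by omega, by omega⟩
      · rintro ⟨j, hj, rfl⟩; omega
    rw [e0, Finset.sum_image]
    · unfold XM MM
      refine Finset.sum_congr rfl fun j hj => ?_
      have hj' := Finset.mem_range.1 hj
      refine Finset.prod_congr rfl fun i _ => ?_
      rw [hl (j + 1) (by omega) i]
    · intro a _ b _ hab
      have : a + 1 = b + 1 := hab
      omega
  have hf0 : ∀ n, 0 ≤ f n := fun n => Finset.prod_nonneg fun _ _ => mz_nonneg _ _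
  have hf1 : ∀ n, f n ≤ ((Vz z0)⁻¹) ^ k := fun n => by
    calc f n ≤ ∏ _i : Fin k, (Vz z0)⁻¹ := Finset.prod_le_prod (fun _ _ => mz_nonneg _ _) fun _ _ => mz_le _ _
      _ = _ := by simp
  have hper : ∀ n, f (n + PW z0) = f n := by
    intro n
    refine Finset.prod_congr rfl fun i _ => ?_
    have h2 : (l i).1 + ((n + PW z0 : ℕ) : ℤ) * (l i).2 = ((l i).1 + n * (l i).2) + (l i).2 * ((PW z0 : ℕ) : ℤ) := by
      push_cast; ring
    rw [h2]
    unfold mz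
    have h3 : (∀ p ∈ pz z0, ¬ (p : ℤ) ∣ ((l i).1 + n * (l i).2) + (l i).2 * ((PW z0 : ℕ) : ℤ)) ↔
        (∀ p ∈ pz z0, ¬ (p : ℤ) ∣ (l i).1 + n * (l i).2) := by
      refine forall_congr' fun p => forall_congr' fun hp => not_congr ?_
      have h1 : (p : ℤ) ∣ (l i).2 * ((PW z0 : ℕ) : ℤ) := (Int.natCast_dvd_natCast.2 (dvd_PW' hp)).mul_left _
      exact Int.dvd_add_left h1
    by_cases h4 : ∀ p ∈ pz z0, ¬ (p : ℤ) ∣ (l i).1 + n * (l i).2
    · rw [if_pos h4, if_pos (h3.2 h4)]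
    · rw [if_neg h4, if_neg (fun h => h4 (h3.1 h))]
  have h2 := per_sum f (PW z0) hW hper (((Vz z0)⁻¹) ^ k) hf0 hf1 0 J
  rw [mean_SPZ] at h2
  rw [h1]
  have e1 : (J : ℝ) / (PW z0 : ℕ) * ((PW z0 : ℕ) * SPZ l z0) = J * SPZ l z0 := by field_simp
  rw [e1] at h2
  have e2 : (∑ u ∈ Ioc 0 (0 + J), f u) / J - SPZ l z0 = (∑ u ∈ Ioc 0 (0 + J), f u - J * SPZ l z0) / J := by field_simp
  rw [e2, abs_div, abs_of_pos hJr]
  exact div_le_div_of_nonneg_right h2 hJr.le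

/-- a vanishing singular series -/
lemma PiW_zero (l : Fin k → ℤ × ℤ) (hl : Rep w v K l) (h : Nice w v K N z x u) (T : ℕ) (hT : T ≤ K) (h0 : SPZ l z = 0) :
    PiW w v T = 0 := by
  classical
  unfold PiW
  rw [Finset.card_eq_zero, Finset.filter_eq_empty_iff]
  intro n hn hA
  have hn1 := mem_Icc.1 hn
  have hW : 1 ≤ PW z := PW_pos z
  have h1 := mean_SPZ l z
  rw [h0, mul_zero] at h1
  have h2 := (Finset.sum_eq_zero_iff_of_nonneg (fun r _ => Finset.prod_nonneg fun _ _ => mz_nonneg _ _)).1 h1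
    (n % PW z) (Finset.mem_range.2 (Nat.mod_lt _ hW))
  obtain ⟨i, -, hi⟩ := Finset.prod_eq_zero_iff.1 h2
  have hV : (Vz z)⁻¹ ≠ 0 := (inv_pos.2 (Vz_pos z)).ne'
  unfold mz at hi
  split_ifs at hi with h3
  · exact hV hi
  · apply h3
    intro p hp hd
    have hp' := mem_pz.1 hp
    have h4 : (p : ℤ) ∣ (l i).1 + (n : ℤ) * (l i).2 := by
      have h5 : (l i).1 + (n : ℤ) * (l i).2 = ((l i).1 + ((n % PW z : ℕ) : ℤ) * (l i).2) +
          ((PW z : ℕ) : ℤ) * (((n / PW z : ℕ) : ℤ) * (l i).2) := by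
        have := Nat.mod_add_div n (PW z)
        have h6 : (n : ℤ) = ((n % PW z : ℕ) : ℤ) + (PW z : ℕ) * ((n / PW z : ℕ) : ℤ) := by exact_mod_cast this.symm
        calc (l i).1 + (n : ℤ) * (l i).2 = (l i).1 + (((n % PW z : ℕ) : ℤ) + (PW z : ℕ) * ((n / PW z : ℕ) : ℤ)) * (l i).2 := by
              rw [← h6]
          _ = _ := by ring
      rw [h5]
      exact dvd_add hd ((Int.natCast_dvd_natCast.2 (dvd_PW' hp)).mul_right _)
    rw [← hl n (hn1.2.trans hT) i] at h4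
    have h5 : p ∣ v.2 i + w i v.1 n := by
      have : ((v.2 i : ℤ) + (w i v.1 n : ℕ)) = ((v.2 i + w i v.1 n : ℕ) : ℤ) := by push_cast; ring
      rw [this] at h4
      exact Int.natCast_dvd_natCast.1 h4
    have h6 := (Nat.prime_dvd_prime_iff_eq hp'.2 (hA i)).1 h5
    have h7 := h.small i
    omega

/-- the final count -/
lemma final_count (l : Fin k → ℤ × ℤ) (z0 : ℕ) (hl : Rep w v K l) (h : Nice w v K N z0 x u) (hu : 0 < u) (hu1 : u ≤ 1 / 4)
    (hx : 0 < x) (c : ℝ) (hc0 : 0 < c) (hc : SPZ l z0 ≠ 0 → c ≤ SPZ l z0) (Jg : ℕ → ℕ) (I : ℕ)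
    (hstep : ∀ i, (Jg (i + 1) : ℝ) ≤ (1 + 2 * u) * Jg i) (hJ1 : ∀ i, 1 ≤ Jg i)
    (hdev : ¬ Dev w z0 Jg I (c * u / 2) v) (hK : Jg I ≤ K) (hJI : PW z0 * ((Vz z0)⁻¹) ^ k / Jg I ≤ c * u)
    (T : ℕ) (hT0 : Jg 0 ≤ T) (hT1 : T ≤ Jg I) :
    (1 - 2 * u) * (1 - u) / ((1 + 2 * u) * (1 + u) ^ k) * (SPZ l z0 * T / x ^ k) ≤ PiW w v T ∧
    (PiW w v T : ℝ) ≤ (1 + 2 * u) ^ 2 * (1 + u) / (1 - u) ^ k * (SPZ l z0 * T / x ^ k) := by
  by_cases h0 : SPZ l z0 = 0
  · rw [PiW_zero l hl h T (hT1.trans hK) h0, h0]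
    simp
  set M := SPZ l z0 with hM
  have hMc : c ≤ M := hc h0
  have hM0 : 0 < M := by linarith
  have hu1k : 0 < (1 - u) ^ k := pow_pos (by linarith) k
  have hxk : 0 < x ^ k := by positivity
  have hmean := XM_mean l z0 hl (Jg I) (hJ1 I) hK
  have hdev' : ∀ i ∈ range (I + 1), |XF w v (Jg i) / Jg i - M| ≤ 2 * u * M := by
    intro i hi
    by_contra hcon
    push Not at hcon
    apply hdev
    refine ⟨i, hi, ?_⟩
    have h2 := abs_sub_le (XF w v (Jg i) / Jg i) (XM w z0 v (Jg I) / Jg I) M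
    have h3 : c * u ≤ u * M := by rw [mul_comm]; exact mul_le_mul_of_nonneg_left hMc hu.le
    linarith
  have hint := interp (fun J => XF w v J) (fun J J' h => XF_mono w v J J' h) M hM0.le Jg I u u
    hu hu (by linarith) hstep hJ1 hdev' T hT0 hT1
  have hb := XF_bounds h (by linarith) hx.le T (hT1.trans hK)
  constructor
  · have hden : 0 < ((1 + u) * x) ^ k := by positivity
    have h6 : (1 - 2 * u) * (1 - u) / ((1 + 2 * u) * (1 + u) ^ k) * (M * T / x ^ k) =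
        ((1 - 2 * u) / (1 + 2 * u) * (T * M) * (1 - u)) / ((1 + u) * x) ^ k := by
      rw [mul_pow]; field_simp
    rw [h6, div_le_iff₀ hden]
    have h7 : 0 ≤ (1 - 2 * u) / (1 + 2 * u) * (T * M) :=
      mul_nonneg (div_nonneg (by linarith) (by linarith)) (by positivity)
    have h8 : (1 - 2 * u) / (1 + 2 * u) * (T * M) * (1 - u) ≤ (1 - 2 * u) / (1 + 2 * u) * (T * M) :=
      mul_le_of_le_one_right h7 (by linarith)
    linarith [hint.1, hb.2]
  · have hden : 0 < ((1 - u) * x) ^ k := by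
      rw [mul_pow]; positivity
    have h6 : (1 + 2 * u) ^ 2 * (1 + u) / (1 - u) ^ k * (M * T / x ^ k) =
        ((1 + 2 * u) * (1 + 2 * u) * (T * M) * (1 + u)) / ((1 - u) * x) ^ k := by
      rw [mul_pow]; field_simp
    rw [h6, le_div_iff₀ hden]
    have h7 : 0 ≤ (1 + 2 * u) * (1 + 2 * u) * (T * M) := by positivity
    have h8 : (1 + 2 * u) * (1 + 2 * u) * (T * M) ≤ (1 + 2 * u) * (1 + 2 * u) * (T * M) * (1 + u) :=
      le_mul_of_one_le_right h7 (by linarith)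
    linarith [hint.2, hb.1]

end

end Pool.Agent.H570.CD
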