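import Mathlib
import Pool.Agent.H570.CD.Cnt
import Pool.Agent.H570.TH.Fin

/-! Counting in the sample space. -/

set_option autoImplicit false

namespace Pool.Agent.H570.CD

open Finset Filter Topology Pool.Agent.H570.LQ Pool.Agent.H570.TH

open Classical in
/-- counting along one coordinate -/
lemma card_fibO {k : ℕ} (t H : ℕ) (i : Fin k) (Q : ℕ × (Fin k → ℕ) → Prop) (κ : ℝ)
    (h : ∀ d ∈ Ioc t (t + H), ∀ y : Fin k → ℕ, (((Ioc 0 H).filter (fun a => Q (d, Function.update y i a))).card : ℝ) ≤ κ * H) :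
    (((Om k t H).filter Q).card : ℝ) ≤ κ * (H : ℝ) ^ (k + 1) := by
  set φ : (ℕ × (Fin k → ℕ)) → (ℕ × (Fin k → ℕ)) := fun v => (v.1, Function.update v.2 i 0) with hφ
  set T : Finset (ℕ × (Fin k → ℕ)) := Ioc t (t + H) ×ˢ Fintype.piFinset
    (fun j => if j = i then ({0} : Finset ℕ) else Ioc 0 H) with hT
  have h1 : ∀ v ∈ (Om k t H).filter Q, φ v ∈ T := by
    intro v hv
    have hv1 := mem_Om (Finset.mem_filter.1 hv).1
    rw [hT]
    refine Finset.mem_product.2 ⟨hv1.1, ?_⟩
    rw [Fintype.mem_piFinset]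
    intro j
    by_cases hj : j = i
    · subst hj
      rw [if_pos rfl, hφ]
      simp
    · rw [if_neg hj, hφ]
      simp only [Function.update_of_ne hj]
      exact hv1.2 j
  rw [Finset.card_eq_sum_card_fiberwise h1]
  push_cast
  have h2 : ∀ w ∈ T, ((((Om k t H).filter Q).filter (fun v => φ v = w)).card : ℝ) ≤ κ * H := by
    intro w hw
    have hw1 : w.1 ∈ Ioc t (t + H) := by
      rw [hT] at hw; exact (Finset.mem_product.1 hw).1
    refine le_trans ?_ (h w.1 hw1 w.2)
    have h3 : (((Om k t H).filter Q).filter (fun v => φ v = w)).card ≤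
        ((Ioc 0 H).filter (fun a => Q (w.1, Function.update w.2 i a))).card := by
      have hup : ∀ v : ℕ × (Fin k → ℕ), φ v = w → (w.1, Function.update w.2 i (v.2 i)) = v := by
        intro v hv
        rw [← hv, hφ]
        simp
      refine Finset.card_le_card_of_injOn (fun v => v.2 i) ?_ ?_
      · intro v hv
        obtain ⟨h4, h5⟩ := Finset.mem_filter.1 (Finset.mem_coe.1 hv)
        obtain ⟨h6, h7⟩ := Finset.mem_filter.1 h4
        refine Finset.mem_coe.2 (Finset.mem_filter.2 ⟨(mem_Om h6).2 i, ?_⟩)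
        show Q (w.1, Function.update w.2 i (v.2 i))
        rw [hup v h5]; exact h7
      · intro v hv v' hv' hvv
        have h5 := (Finset.mem_filter.1 (Finset.mem_coe.1 hv)).2
        have h5' := (Finset.mem_filter.1 (Finset.mem_coe.1 hv')).2
        have h6 : v.2 i = v'.2 i := hvv
        rw [← hup v h5, ← hup v' h5', h6]
    exact_mod_cast h3
  have hcard : (T.card : ℝ) * (H : ℝ) = (H : ℝ) ^ (k + 1) := by
    rw [hT, Finset.card_product, Fintype.card_piFinset, Nat.card_Ioc, Nat.add_sub_cancel_left]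
    push_cast
    have e1 : ∀ j : Fin k, (((if j = i then ({0} : Finset ℕ) else Ioc 0 H).card : ℕ) : ℝ) =
        if j = i then 1 else (H : ℝ) := by
      intro j
      split_ifs
      · simp
      · rw [Nat.card_Ioc]; simp
    rw [Finset.prod_congr rfl fun j _ => e1 j]
    rw [← Finset.mul_prod_erase univ _ (Finset.mem_univ i), if_pos rfl, one_mul]
    have e2 : ∏ x ∈ univ.erase i, (if x = i then (1 : ℝ) else (H : ℝ)) = ∏ x ∈ univ.erase i, (H : ℝ) :=
      Finset.prod_congr rfl fun j hj => if_neg (Finset.ne_of_mem_erase hj)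
    rw [e2, mul_assoc, Finset.prod_erase_mul univ (fun _ => (H : ℝ)) (Finset.mem_univ i), Finset.prod_const, Finset.card_univ,
      Fintype.card_fin]
    ring
  calc _ ≤ ∑ w ∈ T, κ * (H : ℝ) := Finset.sum_le_sum h2
    _ = κ * (T.card * (H : ℝ)) := by rw [Finset.sum_const, nsmul_eq_mul]; ring
    _ = _ := by rw [hcard]

open Classical in
/-- a condition on `d` -/
lemma card_dO (k t H : ℕ) (Q : ℕ → Prop) (κ : ℝ) (h : (((Ioc t (t + H)).filter Q).card : ℝ) ≤ κ * H) :
    (((Om k t H).filter (fun v => Q v.1)).card : ℝ) ≤ κ * (H : ℝ) ^ (k + 1) := by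
  have h1 : (Om k t H).filter (fun v => Q v.1) = (Ioc t (t + H)).filter Q ×ˢ XB k H := by
    ext v
    unfold Om
    simp only [mem_filter, mem_product]
    tauto
  rw [h1, Finset.card_product]
  unfold XB
  rw [Fintype.card_piFinset]
  simp only [Nat.card_Ioc, Finset.prod_const, Finset.card_univ, Fintype.card_fin, Nat.sub_zero]
  push_cast
  calc _ ≤ (κ * H) * (H : ℝ) ^ k := mul_le_mul_of_nonneg_right h (by positivity)
    _ = _ := by ring

open Classical in
/-- a condition on `d` and one coordinate -/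
lemma card_pO {k : ℕ} (t H : ℕ) (i : Fin k) (Q : ℕ × ℕ → Prop) (κ : ℝ)
    (h : (((Ioc 0 H ×ˢ Ioc t (t + H)).filter Q).card : ℝ) ≤ κ * (H : ℝ) ^ 2) :
    (((Om k t H).filter (fun v => Q (v.2 i, v.1))).card : ℝ) ≤ κ * (H : ℝ) ^ (k + 1) := by
  set φ : (ℕ × (Fin k → ℕ)) → (Fin k → ℕ) := fun v => Function.update v.2 i 0 with hφ
  set T : Finset (Fin k → ℕ) := Fintype.piFinset (fun j => if j = i then ({0} : Finset ℕ) else Ioc 0 H) with hT
  have h1 : ∀ v ∈ (Om k t H).filter (fun v => Q (v.2 i, v.1)), φ v ∈ T := by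
    intro v hv
    have hv1 := mem_Om (Finset.mem_filter.1 hv).1
    rw [hT, Fintype.mem_piFinset]
    intro j
    by_cases hj : j = i
    · subst hj
      rw [if_pos rfl, hφ]
      simp
    · rw [if_neg hj, hφ]
      simp only [Function.update_of_ne hj]
      exact hv1.2 j
  rw [Finset.card_eq_sum_card_fiberwise h1]
  push_cast
  have h2 : ∀ w ∈ T, ((((Om k t H).filter (fun v => Q (v.2 i, v.1))).filter (fun v => φ v = w)).card : ℝ) ≤ κ * (H : ℝ) ^ 2 := by
    intro w _
    refine le_trans ?_ h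
    have h3 : (((Om k t H).filter (fun v => Q (v.2 i, v.1))).filter (fun v => φ v = w)).card ≤
        ((Ioc 0 H ×ˢ Ioc t (t + H)).filter Q).card := by
      have hup : ∀ v : ℕ × (Fin k → ℕ), φ v = w → (v.1, Function.update w i (v.2 i)) = v := by
        intro v hv
        rw [← hv, hφ]
        simp
      refine Finset.card_le_card_of_injOn (fun v => (v.2 i, v.1)) ?_ ?_
      · intro v hv
        obtain ⟨h4, h5⟩ := Finset.mem_filter.1 (Finset.mem_coe.1 hv)
        obtain ⟨h6, h7⟩ := Finset.mem_filter.1 h4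
        exact Finset.mem_coe.2 (Finset.mem_filter.2 ⟨Finset.mem_product.2 ⟨(mem_Om h6).2 i, (mem_Om h6).1⟩, h7⟩)
      · intro v hv v' hv' hvv
        have h5 := (Finset.mem_filter.1 (Finset.mem_coe.1 hv)).2
        have h5' := (Finset.mem_filter.1 (Finset.mem_coe.1 hv')).2
        simp only [Prod.mk.injEq] at hvv
        rw [← hup v h5, ← hup v' h5', hvv.1, hvv.2]
    exact_mod_cast h3
  have hcard : (T.card : ℝ) * (H : ℝ) ^ 2 = (H : ℝ) ^ (k + 1) := by
    rw [hT, Fintype.card_piFinset]
    push_cast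
    have e1 : ∀ j : Fin k, (((if j = i then ({0} : Finset ℕ) else Ioc 0 H).card : ℕ) : ℝ) =
        if j = i then 1 else (H : ℝ) := by
      intro j
      split_ifs
      · simp
      · rw [Nat.card_Ioc]; simp
    rw [Finset.prod_congr rfl fun j _ => e1 j]
    rw [← Finset.mul_prod_erase univ _ (Finset.mem_univ i), if_pos rfl, one_mul]
    have e2 : ∏ x ∈ univ.erase i, (if x = i then (1 : ℝ) else (H : ℝ)) = ∏ x ∈ univ.erase i, (H : ℝ) :=
      Finset.prod_congr rfl fun j hj => if_neg (Finset.ne_of_mem_erase hj)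
    rw [e2, pow_two, ← mul_assoc, Finset.prod_erase_mul univ (fun _ => (H : ℝ)) (Finset.mem_univ i), Finset.prod_const, Finset.card_univ,
      Fintype.card_fin]
    ring
  calc _ ≤ ∑ w ∈ T, κ * (H : ℝ) ^ 2 := Finset.sum_le_sum h2
    _ = κ * (T.card * (H : ℝ) ^ 2) := by rw [Finset.sum_const, nsmul_eq_mul]; ring
    _ = _ := by rw [hcard]

/-- a union of conditions -/
lemma card_orO {k : ℕ} {ι : Type*} [Fintype ι] (t H : ℕ) (Q : ι → (ℕ × (Fin k → ℕ)) → Prop)
    [∀ i, DecidablePred (Q i)] [DecidablePred (fun v => ∃ i, Q i v)] (κ : ℝ)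
    (h : ∀ i, (((Om k t H).filter (Q i)).card : ℝ) ≤ κ * (H : ℝ) ^ (k + 1)) :
    (((Om k t H).filter (fun v => ∃ i, Q i v)).card : ℝ) ≤ Fintype.card ι * κ * (H : ℝ) ^ (k + 1) := by
  classical
  have h1 : (Om k t H).filter (fun v => ∃ i, Q i v) ⊆ (univ : Finset ι).biUnion (fun i => (Om k t H).filter (Q i)) := by
    intro v hv
    have h2 := Finset.mem_filter.1 hv
    obtain ⟨i, hi⟩ := h2.2
    exact Finset.mem_biUnion.2 ⟨i, Finset.mem_univ i, Finset.mem_filter.2 ⟨h2.1, hi⟩⟩
  calc _ ≤ ((((univ : Finset ι).biUnion (fun i => (Om k t H).filter (Q i))).card : ℕ) : ℝ) := by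
          exact_mod_cast Finset.card_le_card h1
    _ ≤ ∑ i : ι, (((Om k t H).filter (Q i)).card : ℝ) := by exact_mod_cast Finset.card_biUnion_le
    _ ≤ ∑ i : ι, κ * (H : ℝ) ^ (k + 1) := Finset.sum_le_sum fun i _ => h i
    _ = _ := by rw [Finset.sum_const, Finset.card_univ, nsmul_eq_mul]; ring

/-- the value of the form `q.2` at `q.1` is a proper prime power -/
def ppAt {k : ℕ} (w : Fin k → ℕ → ℕ → ℕ) (N : ℕ) (q : ℕ × Fin k) (v : ℕ × (Fin k → ℕ)) : Prop :=
  v.2 q.2 + w q.2 v.1 q.1 ∈ PPw N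

/-- a small coordinate -/
def leZ {k : ℕ} (Z : ℕ) (i : Fin k) (v : ℕ × (Fin k → ℕ)) : Prop := v.2 i ≤ Z

/-- a value is a proper prime power -/
def BadPP {k : ℕ} (w : Fin k → ℕ → ℕ → ℕ) (K N : ℕ) (v : ℕ × (Fin k → ℕ)) : Prop :=
  ∃ n ∈ Icc 1 K, ∃ i, ppAt w N (n, i) v

/-- a small coordinate -/
def BadS {k : ℕ} (Z : ℕ) (v : ℕ × (Fin k → ℕ)) : Prop := ∃ i, leZ Z i v

open Classical in
lemma bad_ppO {k : ℕ} (w : Fin k → ℕ → ℕ → ℕ) (t H K N : ℕ) (hH : 1 ≤ H) :
    (((Om k t H).filter (BadPP w K N)).card : ℝ) ≤ K * k * ((PPw N).card / H) * (H : ℝ) ^ (k + 1) := by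
  have hHr : (1 : ℝ) ≤ H := by exact_mod_cast hH
  have h1 : (Om k t H).filter (BadPP w K N) ⊆ (Icc 1 K ×ˢ (univ : Finset (Fin k))).biUnion
        (fun x => (Om k t H).filter (ppAt w N x)) := by
    intro v hv
    have h2 := Finset.mem_filter.1 hv
    obtain ⟨q, hq, i, hi⟩ := h2.2
    exact Finset.mem_biUnion.2 ⟨(q, i), Finset.mem_product.2 ⟨hq, Finset.mem_univ i⟩, Finset.mem_filter.2 ⟨h2.1, hi⟩⟩
  calc _ ≤ ((((Icc 1 K ×ˢ (univ : Finset (Fin k))).biUnion
        (fun x => (Om k t H).filter (ppAt w N x))).card : ℕ) : ℝ) := by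
          exact_mod_cast Finset.card_le_card h1
    _ ≤ ∑ x ∈ Icc 1 K ×ˢ (univ : Finset (Fin k)), ((PPw N).card / H : ℝ) * (H : ℝ) ^ (k + 1) := by
        calc _ ≤ ∑ x ∈ Icc 1 K ×ˢ (univ : Finset (Fin k)), (((Om k t H).filter (ppAt w N x)).card : ℝ) := by
                exact_mod_cast Finset.card_biUnion_le
          _ ≤ _ := by
                refine Finset.sum_le_sum fun x hx => ?_
                refine card_fibO t H x.2 (ppAt w N x) _ fun d _ y => ?_
                have h4 : ((Ioc 0 H).filter (fun a => ppAt w N x (d, Function.update y x.2 a))).card ≤ (PPw N).card := by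
                  refine Finset.card_le_card_of_injOn (fun a => a + w x.2 d x.1) ?_ ?_
                  · intro a ha
                    have h5 := (Finset.mem_filter.1 (Finset.mem_coe.1 ha)).2
                    unfold ppAt at h5
                    simp only [Function.update_self] at h5
                    exact Finset.mem_coe.2 h5
                  · intro a _ b _ hab
                    have : a + w x.2 d x.1 = b + w x.2 d x.1 := hab
                    omega
                have h5 : (((Ioc 0 H).filter (fun a => ppAt w N x (d, Function.update y x.2 a))).card : ℝ) ≤ ((PPw N).card : ℝ) := by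
                  exact_mod_cast h4
                refine h5.trans (le_of_eq ?_)
                field_simp
    _ = _ := by
        rw [Finset.sum_const, Finset.card_product, Nat.card_Icc, Finset.card_univ, Fintype.card_fin, nsmul_eq_mul]
        push_cast
        ring

open Classical in
lemma bad_smallO (k t H Z : ℕ) (hH : 1 ≤ H) :
    (((Om k t H).filter (BadS Z)).card : ℝ) ≤ k * (Z / H) * (H : ℝ) ^ (k + 1) := by
  have hHr : (1 : ℝ) ≤ H := by exact_mod_cast hH
  have h := card_orO (k := k) t H (fun (i : Fin k) => leZ Z i) (Z / H) (fun i => by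
    refine card_fibO t H i (leZ Z i) _ fun d _ y => ?_
    have h4 : ((Ioc 0 H).filter (fun a => leZ Z i (d, Function.update y i a))).card ≤ (Icc 1 Z).card := by
      refine Finset.card_le_card fun a ha => ?_
      obtain ⟨h1, h2⟩ := Finset.mem_filter.1 ha
      unfold leZ at h2
      simp only [Function.update_self] at h2
      have := mem_Ioc.1 h1
      exact mem_Icc.2 ⟨by omega, h2⟩
    rw [Nat.card_Icc, Nat.add_sub_cancel] at h4
    have h5 : (((Ioc 0 H).filter (fun a => leZ Z i (d, Function.update y i a))).card : ℝ) ≤ Z := by exact_mod_cast h4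
    refine h5.trans (le_of_eq ?_)
    field_simp)
  rw [Fintype.card_fin] at h
  refine le_trans (le_of_eq ?_) h
  congr 2
  exact Finset.filter_congr fun v _ => Iff.rfl

end Pool.Agent.H570.CD
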