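import Mathlib
import Pool.Agent.H570.CD.Fib

/-! The main theorem with the truncated singular series. -/

set_option autoImplicit false

namespace Pool.Agent.H570.CD

open Finset Filter Topology Pool.Agent.H570.LQ Pool.Agent.H570.TH
open Pool.Agent.H373R2.T7 (pz Vz mem_pz Vz_pos Vz_inv_small singZ singZ_eq rhoP rhoP_le nuP)

/-- the offsets with signs -/
def wS {k : ℕ} (s : Fin k → ℕ) (σ : Fin k → Bool) (i : Fin k) (d n : ℕ) : ℕ := if σ i then s i + d * n else s i - d * n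

/-- the linear forms -/
def lS {k : ℕ} (s : Fin k → ℕ) (σ : Fin k → Bool) (v : ℕ × (Fin k → ℕ)) : Fin k → ℤ × ℤ :=
  fun i => ((v.2 i : ℤ) + s i, if σ i then (v.1 : ℤ) else -(v.1 : ℤ))

lemma offs_wS {k : ℕ} (s : Fin k → ℕ) (σ : Fin k → Bool) (t H K : ℕ) (Y : ℝ) (hs : ∀ i, (s i : ℝ) ≤ Y)
    (ht : (((t + H) * K : ℕ) : ℝ) ≤ 2 * Y) (hσ : ∀ i, σ i = false → (t + H) * K ≤ s i) (hY : 0 ≤ Y) :
    Offs (wS s σ) t H K (3 * Y) := by
  constructor
  · intro i d hd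
    have hd' := mem_Ioc.1 hd
    cases hσi : σ i with
    | true =>
      left
      intro n m hnm _
      unfold wS
      rw [if_pos hσi, if_pos hσi, add_assoc, ← mul_add]
      congr 2; omega
    | false =>
      right
      intro n m hnm hm
      unfold wS
      have h0 : ¬ σ i = true := by rw [hσi]; simp
      rw [if_neg h0, if_neg h0]
      have h1 := hσ i hσi
      have h2 : d * m ≤ (t + H) * K := Nat.mul_le_mul hd'.2 hm
      have h3 : d * n + d * (m - n) = d * m := by rw [← mul_add]; congr 1; omega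
      omega
  · intro i d n hd hn
    have hd' := mem_Ioc.1 hd
    have h2 : d * n ≤ (t + H) * K := Nat.mul_le_mul hd'.2 hn
    have h3 : wS s σ i d n ≤ s i + (t + H) * K := by
      unfold wS
      split_ifs
      · omega
      · omega
    have h4 : (wS s σ i d n : ℝ) ≤ (s i : ℝ) + (((t + H) * K : ℕ) : ℝ) := by exact_mod_cast h3
    have := hs i
    linarith

lemma rep_wS {k : ℕ} (s : Fin k → ℕ) (σ : Fin k → Bool) (t H K : ℕ) (hσ : ∀ i, σ i = false → (t + H) * K ≤ s i)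
    (v : ℕ × (Fin k → ℕ)) (hv : v ∈ Om k t H) : Rep (wS s σ) v K (lS s σ v) := by
  intro n hn i
  have hd' := mem_Ioc.1 (mem_Om hv).1
  unfold wS lS
  cases hσi : σ i with
  | true =>
    simp only [if_true]
    push_cast; ring
  | false =>
    have h1 := hσ i hσi
    have h2 : v.1 * n ≤ (t + H) * K := Nat.mul_le_mul hd'.2 hn
    simp only [Bool.false_eq_true, if_false]
    rw [Nat.cast_sub (h2.trans h1)]
    push_cast; ring

/-- the formula holds for all lengths between `lo` and `hi` -/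
def Form {k : ℕ} (w : Fin k → ℕ → ℕ → ℕ) (l : Fin k → ℤ × ℤ) (z : ℕ) (ε lo hi x : ℝ) (v : ℕ × (Fin k → ℕ)) : Prop :=
  ∀ T : ℕ, lo ≤ T → (T : ℝ) ≤ hi → |(PiW w v T : ℝ) - SPZ l z * T / x ^ k| ≤ ε * (SPZ l z * T / x ^ k)

lemma sfZ_nonneg {k : ℕ} (v : Fin k → ℤ × ℤ) (p : ℕ) (hp : p.Prime) : 0 ≤ sfZ v p := by
  have hp2 : (2 : ℝ) ≤ p := by exact_mod_cast hp.two_le
  unfold sfZ
  have h1 : (nuZ v p : ℝ) / p ≤ 1 := by
    rw [div_le_one (by linarith)]; exact_mod_cast nuZ_le v p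
  have h2 : 1 / (p : ℝ) ≤ 1 := by rw [div_le_one (by linarith)]; linarith
  exact div_nonneg (by linarith) (pow_nonneg (by linarith) k)

lemma SPZ_nonneg {k : ℕ} (v : Fin k → ℤ × ℤ) (z : ℕ) : 0 ≤ SPZ v z :=
  Finset.prod_nonneg fun p hp => sfZ_nonneg v p (Finset.mem_filter.1 hp).2

/-- the sum of the variances is small -/
lemma total_leO (k z0 I B2 m : ℕ) (G0 G1 C1 V Cb x X0 u lam κ : ℝ) (_hk : 1 ≤ k) (hx : 4 ≤ x) (hκ : 0 < κ) (hu : 0 < u)
    (hCb : 0 ≤ Cb) (hG1 : 0 ≤ G1)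
    (hz : V * (G0 * (1 + C1 / Real.sqrt z0) - 1) ≤ κ) (hX0 : X0 = lam * x ^ k) (hX1 : 1 ≤ X0)
    (hlam0 : 0 < lam) (hlam : 4 ^ k * (2 * Gam u) / κ ≤ lam) (hX3 : G1 * Cb * Gam u / Real.sqrt X0 ≤ κ)
    (hI : ((I : ℝ) + 1) ≤ x ^ B2) (hm : m = 2 * k + B2 + 1) (hJI : x ^ (2 * k + 1) ≤ JJ X0 u I)
    (hx1 : 8 * (k + 1) * 4 ^ k / κ ≤ x) (hx2 : 2 * 4 ^ k / κ ≤ x) :
    (V * (G0 * (1 + C1 / Real.sqrt z0) - 1) + 4 * ((k + 1) * (((2 * x) ^ 2) ^ k * (2 / x ^ m))) +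
        ((2 * (2 * x)) ^ k + ((2 * x) ^ 2) ^ k) * (1 / JJ X0 u I)) +
        ∑ i ∈ range I, (G1 * Cb / Real.sqrt (JJ X0 u i) + 4 * ((k + 1) * (((2 * x) ^ 2) ^ k * (2 / x ^ m))) +
        (2 * (2 * x)) ^ k * (2 / JJ X0 u i)) ≤ 5 * κ := by
  have hx0 : 0 < x := by linarith
  have hΓ := Gam_pos u hu
  have hxk : 0 < x ^ k := by positivity
  have e1 : ((2 * x) ^ 2) ^ k = 4 ^ k * x ^ (2 * k) := by rw [← pow_mul, mul_pow, pow_mul]; norm_num
  have e4 : (2 * (2 * x)) ^ k = 4 ^ k * x ^ k := by rw [← mul_assoc, mul_pow]; norm_num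
  have hX0p : 0 < X0 := by linarith
  -- (b)
  have b1 : ((I : ℝ) + 1) * (4 * ((k + 1) * (((2 * x) ^ 2) ^ k * (2 / x ^ m)))) ≤ κ := by
    have h1 : 4 * (((k : ℝ) + 1) * (((2 * x) ^ 2) ^ k * (2 / x ^ m))) = 8 * (k + 1) * 4 ^ k / x ^ (B2 + 1) := by
      have : x ^ m = x ^ (2 * k) * x ^ (B2 + 1) := by rw [← pow_add]; congr 1
      rw [e1, this]; field_simp; ring
    rw [h1]
    calc ((I : ℝ) + 1) * (8 * (k + 1) * 4 ^ k / x ^ (B2 + 1)) ≤ x ^ B2 * (8 * (k + 1) * 4 ^ k / x ^ (B2 + 1)) :=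
          mul_le_mul_of_nonneg_right hI (by positivity)
      _ = 8 * (k + 1) * 4 ^ k / x := by rw [pow_succ]; field_simp
      _ ≤ κ := by
          rw [div_le_iff₀ hx0]; rw [div_le_iff₀ hκ] at hx1; linarith
  -- (c)
  have b2 : ((2 * (2 * x)) ^ k + ((2 * x) ^ 2) ^ k) * (1 / JJ X0 u I) ≤ κ := by
    have h1 : (2 * (2 * x)) ^ k + ((2 * x) ^ 2) ^ k ≤ 2 * 4 ^ k * x ^ (2 * k) := by
      rw [e1, e4]
      have h2 : x ^ k ≤ x ^ (2 * k) := pow_le_pow_right₀ (by linarith) (by omega)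
      have h3 : (0 : ℝ) < 4 ^ k := by positivity
      nlinarith
    calc _ ≤ (2 * 4 ^ k * x ^ (2 * k)) * (1 / x ^ (2 * k + 1)) :=
          mul_le_mul h1 (one_div_le_one_div_of_le (by positivity) hJI) (by positivity) (by positivity)
      _ = 2 * 4 ^ k / x := by rw [pow_succ]; field_simp
      _ ≤ κ := by
          rw [div_le_iff₀ hx0]; rw [div_le_iff₀ hκ] at hx2; linarith
  have b3 : ∑ i ∈ range I, G1 * Cb / Real.sqrt (JJ X0 u i) ≤ κ := by
    have h1 := sum_JJ_sqrt X0 u hX1 hu I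
    calc _ = (G1 * Cb) * ∑ i ∈ range I, 1 / Real.sqrt (JJ X0 u i) := by
          rw [Finset.mul_sum]; exact Finset.sum_congr rfl fun i _ => by ring
      _ ≤ (G1 * Cb) * (Gam u / Real.sqrt X0) := mul_le_mul_of_nonneg_left h1 (by positivity)
      _ = G1 * Cb * Gam u / Real.sqrt X0 := by ring
      _ ≤ _ := hX3
  have b4 : ∑ i ∈ range I, (2 * (2 * x)) ^ k * (2 / JJ X0 u i) ≤ κ := by
    have h1 := sum_JJ_inv X0 u hX1 hu I
    calc _ = (2 * (2 * x)) ^ k * 2 * ∑ i ∈ range I, 1 / (JJ X0 u i : ℝ) := by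
          rw [Finset.mul_sum]; exact Finset.sum_congr rfl fun i _ => by ring
      _ ≤ (2 * (2 * x)) ^ k * 2 * (Gam u / X0) := mul_le_mul_of_nonneg_left h1 (by positivity)
      _ = 4 ^ k * (2 * Gam u) / lam := by rw [e4, hX0]; field_simp
      _ ≤ κ := by rw [div_le_iff₀ hlam0]; rw [div_le_iff₀ hκ] at hlam; linarith
  rw [Finset.sum_add_distrib, Finset.sum_add_distrib, Finset.sum_const, Finset.card_range, nsmul_eq_mul]
  have h0 : ((I : ℝ) + 1) * (4 * ((k + 1) * (((2 * x) ^ 2) ^ k * (2 / x ^ m)))) =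
    I * (4 * ((k + 1) * (((2 * x) ^ 2) ^ k * (2 / x ^ m)))) + 4 * ((k + 1) * (((2 * x) ^ 2) ^ k * (2 / x ^ m))) := by ring
  rw [h0] at b1
  linarith

end Pool.Agent.H570.CD
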