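import Mathlib
import Pool.Agent.H570.CD.Fin

/-! The main theorem with the truncated singular series. -/

set_option autoImplicit false

namespace Pool.Agent.H570.CD

open Finset Filter Topology Pool.Agent.H570.LQ Pool.Agent.H570.TH
open Pool.Agent.H373R2.T7 (pz Vz mem_pz Vz_pos Vz_inv_small singZ singZ_eq rhoP rhoP_le nuP)

lemma sqN (H N D : ℕ) (x : ℝ) (hx1 : 1 ≤ x) (f2 : (N : ℝ) ≤ H * x ^ D) : Real.sqrt N ≤ Real.sqrt H * x ^ D := by
  apply Real.sqrt_le_iff.2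
  refine ⟨by positivity, f2.trans ?_⟩
  rw [mul_pow, Real.sq_sqrt (Nat.cast_nonneg _)]
  have h1 : 1 ≤ x ^ D := one_le_pow₀ hx1
  exact mul_le_mul_of_nonneg_left (le_self_pow₀ h1 (by norm_num)) (Nat.cast_nonneg _)

lemma c2_num (k H N K B1 D : ℕ) (x ε : ℝ) (hk : 1 ≤ k) (hx1 : 1 ≤ x) (hH : 3 ≤ H) (hN1 : 1 ≤ N)
    (f2 : (N : ℝ) ≤ H * x ^ (D + 1)) (h3 : Real.log N ≤ 2 * x) (hK : (K : ℝ) ≤ x ^ B1)
    (hsm : x ^ (B1 + D + 2) ≤ ε / (32 * k) * Real.sqrt H) : (K : ℝ) * k * ((PPw N).card / H) ≤ ε / 4 := by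
  have hHr : (3 : ℝ) ≤ H := by exact_mod_cast hH
  have hkr : (1 : ℝ) ≤ k := by exact_mod_cast hk
  have hx0 : 0 < x := by linarith
  have h1 := card_PPw N hN1
  have hs0 : 0 < Real.sqrt H := Real.sqrt_pos.2 (by linarith)
  have h2 := sqN H N (D + 1) x hx1 f2
  have hlogN : 0 ≤ Real.log N := Real.log_natCast_nonneg N
  have h4 : ((PPw N).card : ℝ) ≤ 4 * (Real.sqrt H * x ^ (D + 1)) * (2 * x) := by
    refine h1.trans ?_
    gcongr
  calc (K : ℝ) * k * ((PPw N).card / H) ≤ x ^ B1 * k * ((4 * (Real.sqrt H * x ^ (D + 1)) * (2 * x)) / H) := by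
        gcongr
    _ = 8 * k * x ^ (B1 + D + 2) * (Real.sqrt H / H) := by
        have : x ^ (B1 + D + 2) = x ^ B1 * x ^ (D + 1) * x := by ring
        rw [this]; ring
    _ ≤ 8 * k * (ε / (32 * k) * Real.sqrt H) * (Real.sqrt H / H) := by gcongr
    _ = ε / 4 := by
        have h7 : Real.sqrt H * Real.sqrt H = H := Real.mul_self_sqrt (by linarith)
        calc _ = ε / 4 * ((Real.sqrt H * Real.sqrt H) / H) := by field_simp; ring
          _ = _ := by rw [h7, div_self (by linarith), mul_one]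

lemma c3_num (k H z0 : ℕ) (x u ε : ℝ) (hx0 : 0 < x) (hu : 0 < u) (hε : 0 < ε) (hH : 3 ≤ H)
    (hH2 : 32 * k * (z0 + 1) / ε ≤ H) (hxe : 32 * k / (ε * u) ≤ x) :
    (k : ℝ) * (((z0 + ⌈(H : ℝ) / (1 + u * x)⌉₊ : ℕ) : ℝ) / H) ≤ ε / 4 := by
  have hHr : (3 : ℝ) ≤ H := by exact_mod_cast hH
  have h1 : ((z0 + ⌈(H : ℝ) / (1 + u * x)⌉₊ : ℕ) : ℝ) ≤ z0 + 1 + H / (1 + u * x) := by
    push_cast
    have := (Nat.ceil_lt_add_one (show 0 ≤ (H : ℝ) / (1 + u * x) by positivity)).le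
    linarith
  have h3 : k * ((z0 + 1) / H : ℝ) ≤ ε / 32 := by
    rw [div_le_iff₀ hε] at hH2
    rw [mul_div_assoc', div_le_div_iff₀ (by linarith) (by norm_num)]
    linarith
  have h4 : k * (1 / (1 + u * x)) ≤ ε / 32 := by
    rw [div_le_iff₀ (by positivity)] at hxe
    rw [mul_div_assoc', mul_one, div_le_div_iff₀ (by positivity) (by norm_num)]
    have h5 : ε * (1 + u * x) = ε + x * (ε * u) := by ring
    rw [h5]
    linarith
  calc (k : ℝ) * (((z0 + ⌈(H : ℝ) / (1 + u * x)⌉₊ : ℕ) : ℝ) / H) ≤ k * ((z0 + 1 + H / (1 + u * x)) / H) := by gcongr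
    _ = k * ((z0 + 1) / H : ℝ) + k * (1 / (1 + u * x)) := by field_simp
    _ ≤ ε / 4 := by linarith

lemma VG_num (V C1 C2 κ sq : ℝ) (hV0 : 0 ≤ V) (hC1 : 1 ≤ C1) (hC2 : 1 ≤ C2) (hsq1 : 1 ≤ sq)
    (hdec : V / sq ≤ κ / (2 * C2 + C1 + 2 * C1 * C2)) : V * ((1 + 2 * C2 / sq) * (1 + C1 / sq) - 1) ≤ κ := by
  have hsq0 : 0 < sq := by linarith
  have hC3 : 0 < 2 * C2 + C1 + 2 * C1 * C2 := by positivity
  have h1 : (1 + 2 * C2 / sq) * (1 + C1 / sq) - 1 ≤ (2 * C2 + C1 + 2 * C1 * C2) / sq := by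
    have e : (1 + 2 * C2 / sq) * (1 + C1 / sq) - 1 = (2 * C2 + C1) / sq + 2 * C1 * C2 / sq * (1 / sq) := by
      field_simp; ring
    rw [e]
    have h2 : 1 / sq ≤ 1 := by rw [div_le_one hsq0]; exact hsq1
    have h3 : 2 * C1 * C2 / sq * (1 / sq) ≤ 2 * C1 * C2 / sq * 1 := mul_le_mul_of_nonneg_left h2 (by positivity)
    have e2 : (2 * C2 + C1 + 2 * C1 * C2) / sq = (2 * C2 + C1) / sq + 2 * C1 * C2 / sq * 1 := by ring
    rw [e2]; linarith
  calc V * ((1 + 2 * C2 / sq) * (1 + C1 / sq) - 1) ≤ V * ((2 * C2 + C1 + 2 * C1 * C2) / sq) :=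
        mul_le_mul_of_nonneg_left h1 hV0
    _ = (2 * C2 + C1 + 2 * C1 * C2) * (V / sq) := by ring
    _ ≤ (2 * C2 + C1 + 2 * C1 * C2) * (κ / (2 * C2 + C1 + 2 * C1 * C2)) := mul_le_mul_of_nonneg_left hdec hC3.le
    _ = κ := by field_simp

lemma log_num (H a : ℕ) (x u : ℝ) (hxd : x = Real.log H) (hx0 : 0 < x) (hu : 0 < u) (hH : 3 ≤ H)
    (h2 : (H : ℝ) / (1 + u * x) ≤ a) : (1 - u) * x ≤ Real.log a := by
  have hHr : (3 : ℝ) ≤ H := by exact_mod_cast hH
  have h4 : Real.log ((H : ℝ) / (1 + u * x)) ≤ Real.log a := Real.log_le_log (by positivity) h2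
  rw [Real.log_div (by linarith) (by positivity)] at h4
  have h5 : Real.log (1 + u * x) ≤ u * x := by
    have := Real.log_le_sub_one_of_pos (show 0 < 1 + u * x by positivity)
    linarith
  have h6 : (1 - u) * x = x - u * x := by ring
  rw [h6, hxd] at *
  linarith

theorem main_truncO (k : ℕ) (hk : 1 ≤ k) (ε : ℝ) (hε : 0 < ε) : ∃ z1 : ℕ, ∀ z0 ≥ z1, ∃ C : ℝ, 0 < C ∧ ∀ A D : ℕ,
    A + (A + 2 * k + 2) ≤ D → ∀ᶠ H : ℕ in atTop, ∀ (t : ℕ) (s : Fin k → ℕ) (σ : Fin k → Bool),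
    (t : ℝ) ≤ H * Real.log H ^ A → (∀ i, (s i : ℝ) ≤ H * Real.log H ^ D) →
    (∀ i, σ i = false → (t + H) * ⌊Real.log H ^ (A + 2 * k + 2)⌋₊ ≤ s i) →
    ∀ F : Finset (ℕ × (Fin k → ℕ)), (∀ v ∈ F, v ∈ Om k t H ∧
      ¬ Form (wS s σ) (lS s σ v) z0 ε (C * Real.log H ^ k) (Real.log H ^ A) (Real.log H) v) →
    (F.card : ℝ) ≤ ε * (H : ℝ) ^ (k + 1) := by
  classical
  obtain ⟨u, hu, hu1, hup, hlo⟩ := exists_u k ε hε
  obtain ⟨c, hc0, hc⟩ := SPZ_lower k
  obtain ⟨C1, hC1, hQ⟩ := QF_cut k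
  obtain ⟨C2, hC2, hG⟩ := avg_Gk k
  set θ : ℝ := c * u / 2 with hθ
  have hθ0 : 0 < θ := by positivity
  set κ : ℝ := θ ^ 2 * ε / 20 with hκ
  have hκ0 : 0 < κ := by positivity
  set C3 : ℝ := 2 * C2 + C1 + 2 * C1 * C2 with hC3
  have hC30 : 0 < C3 := by positivity
  obtain ⟨z2, hz2⟩ := eventually_atTop.1 (Vz_decay k (κ / C3) (by positivity))
  refine ⟨max z2 1, fun z0 hz => ?_⟩
  have hz01 : 1 ≤ z0 := le_trans (le_max_right _ _) hz
  have hz0r : (1 : ℝ) ≤ z0 := by exact_mod_cast hz01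
  have hdec := hz2 z0 (le_trans (le_max_left _ _) hz)
  set sq := Real.sqrt z0 with hsq
  have hsq1 : 1 ≤ sq := by rw [hsq, Real.one_le_sqrt]; exact hz0r
  have hsq0 : 0 < sq := by linarith
  set V := ((Vz z0)⁻¹) ^ k with hV
  have hV0 : 0 ≤ V := pow_nonneg (inv_nonneg.2 (Vz_pos z0).le) k
  set G0 : ℝ := 1 + 2 * C2 / sq with hG0
  have hVG : V * (G0 * (1 + C1 / sq) - 1) ≤ κ := VG_num V C1 C2 κ sq hV0 hC1 hC2 hsq1 hdec
  have hΓ := Gam_pos u hu
  set Cb : ℝ := 6 * (bk k : ℝ) ^ (bk k ^ 2) with hCb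
  have hCb0 : 0 ≤ Cb := by positivity
  set G1 : ℝ := 1 + 2 * C2 with hG1
  have hG10 : 0 ≤ G1 := by positivity
  set lam : ℝ := 4 ^ k * (2 * Gam u) / κ + 1 / u + 1 with hlam
  have hp1 : 0 < 4 ^ k * (2 * Gam u) / κ := by positivity
  have hp2 : 0 < 1 / u := by positivity
  have hlam1 : 1 ≤ lam := by linarith
  have hlamu : 1 / u ≤ lam := by linarith
  have hlam2 : 4 ^ k * (2 * Gam u) / κ ≤ lam := by linarith
  refine ⟨lam + 2, by positivity, fun A D hAD => ?_⟩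
  set B1 := A + 2 * k + 2 with hB1
  set m := 2 * k + B1 + 1 with hm
  filter_upwards [params k A B1 D z0 m hz01 (by omega) hAD, NG_facts (D + 1) u hu,
    ev1 (max (max (max 8 (z0 + 3)) (3 + lam)) (max (2 + 1 / u) (PW z0 * V / (c * u)))),
    ev1 (max (max ((G1 * Cb * Gam u / κ) ^ 2) (32 * k / (ε * u))) (max (8 * (k + 1) * 4 ^ k / κ) (2 * 4 ^ k / κ))),
    ev4 (B1 + D + 2) (ε / (32 * k)) (by positivity), ev4 (D + 1) (1 / sq) (by positivity),
    eventually_ge_atTop (max 3 (⌈32 * k * (z0 + 1) / ε⌉₊))] with H hpar hNf hx hx2 hsm hsm2 hH3 t s σ ht hs hσ F hF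
  obtain ⟨f1, f2, f3, f4⟩ := hNf
  set N := NG (D + 1) H with hN
  set x := Real.log H with hxd
  have hkr : (1 : ℝ) ≤ k := by exact_mod_cast hk
  have hx8 : 8 ≤ x := le_trans (le_trans (le_max_left _ _) (le_trans (le_max_left _ _) (le_max_left _ _))) hx
  have hxz : (z0 : ℝ) + 3 ≤ x := le_trans (le_trans (le_max_right _ _) (le_trans (le_max_left _ _) (le_max_left _ _))) hx
  have hxl : 3 + lam ≤ x := le_trans (le_trans (le_max_right _ _) (le_max_left _ _)) hx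
  have hxu : 2 + 1 / u ≤ x := le_trans (le_trans (le_max_left _ _) (le_max_right _ _)) hx
  have hxW : PW z0 * V / (c * u) ≤ x := le_trans (le_trans (le_max_right _ _) (le_max_right _ _)) hx
  have hxG : (G1 * Cb * Gam u / κ) ^ 2 ≤ x := le_trans (le_trans (le_max_left _ _) (le_max_left _ _)) hx2
  have hxe : 32 * k / (ε * u) ≤ x := le_trans (le_trans (le_max_right _ _) (le_max_left _ _)) hx2
  have hxk1 : 8 * (k + 1) * 4 ^ k / κ ≤ x := le_trans (le_trans (le_max_left _ _) (le_max_right _ _)) hx2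
  have hxk2 : 2 * 4 ^ k / κ ≤ x := le_trans (le_trans (le_max_right _ _) (le_max_right _ _)) hx2
  have hx0 : 0 < x := by linarith
  have hx1 : 1 ≤ x := by linarith
  have hxk : 1 ≤ x ^ k := one_le_pow₀ hx1
  have hH3' : 3 ≤ H := le_trans (le_max_left _ _) hH3
  have hHr : (3 : ℝ) ≤ H := by exact_mod_cast hH3'
  set X0 : ℝ := lam * x ^ k with hX0
  have hX01 : 1 ≤ X0 := one_le_mul_of_one_le_of_one_le hlam1 hxk
  have hX0u : 1 / u ≤ X0 := hlamu.trans (le_mul_of_one_le_right (by linarith) hxk)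
  -- the grid
  set Y : ℝ := x ^ (A + 2 * k + 1) with hY
  have hY1 : 1 ≤ Y := one_le_pow₀ hx1
  obtain ⟨I, hI1, hI2, hI3⟩ := exists_I X0 u Y hX01 hu (by linarith) (by positivity)
  set K := JJ X0 u I with hK
  have hxkY : x ^ k ≤ Y := pow_le_pow_right₀ hx1 (by omega)
  have hKx : (K : ℝ) ≤ x ^ B1 := by
    calc (K : ℝ) ≤ 2 * Y + X0 + 1 := hI2
      _ ≤ (3 + lam) * Y := by
          have : X0 ≤ lam * Y := mul_le_mul_of_nonneg_left hxkY (by linarith)
          linarith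
      _ ≤ x * Y := mul_le_mul_of_nonneg_right hxl (by positivity)
      _ = x ^ B1 := by rw [hY, hB1]; ring
  have hJpos := JJ_pos X0 u hX01 hu
  have hK1 : 1 ≤ K := hJpos I
  have hKfl : K ≤ ⌊x ^ B1⌋₊ := Nat.le_floor hKx
  have hxAB : H * x ^ (A + B1) ≤ H * x ^ D := mul_le_mul_of_nonneg_left (pow_le_pow_right₀ hx1 hAD) (by linarith)
  have hσK : ∀ i, σ i = false → (t + H) * K ≤ s i := fun i hi => (Nat.mul_le_mul_left _ hKfl).trans (hσ i hi)
  have htK : (((t + H) * K : ℕ) : ℝ) ≤ 2 * (H * x ^ D) := by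
    push_cast
    have hxA : 1 ≤ x ^ A := one_le_pow₀ hx1
    have h8 : (t : ℝ) + H ≤ 2 * (H * x ^ A) := by
      have : (H : ℝ) ≤ H * x ^ A := le_mul_of_one_le_right (by linarith) hxA
      linarith
    calc ((t : ℝ) + H) * K ≤ (2 * (H * x ^ A)) * x ^ B1 := mul_le_mul h8 hKx (by positivity) (by positivity)
      _ = 2 * (H * x ^ (A + B1)) := by ring
      _ ≤ _ := by linarith
  have hoffs : Offs (wS s σ) t H K (3 * (H * x ^ D)) := offs_wS s σ t H K _ hs htK hσK (by positivity)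
  obtain ⟨z, Ex, hyp⟩ := hpar K hK1 hKx t ht (wS s σ) hoffs
  have hIx : (I : ℝ) + 1 ≤ x ^ B1 := by
    have h1 : (I : ℝ) + 1 ≤ (2 + 1 / u) * Y := by
      have h3 : (2 + 1 / u) * Y = 2 * Y + Y / u := by ring
      linarith
    calc _ ≤ (2 + 1 / u) * Y := h1
      _ ≤ x * Y := mul_le_mul_of_nonneg_right hxu (by positivity)
      _ = x ^ B1 := by rw [hY, hB1]; ring
  have hXs : G1 * Cb * Gam u / Real.sqrt X0 ≤ κ := by
    have h1 : G1 * Cb * Gam u / κ ≤ Real.sqrt X0 := by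
      apply Real.le_sqrt_of_sq_le
      refine hxG.trans ?_
      have h2 : x ≤ x ^ k := le_self_pow₀ hx1 (by omega)
      exact h2.trans (le_mul_of_one_le_left (by linarith) hlam1)
    have h2 : 0 < Real.sqrt X0 := Real.sqrt_pos.2 (by linarith)
    rw [div_le_iff₀ h2]
    rw [div_le_iff₀ hκ0] at h1
    linarith
  have hJI : x ^ (2 * k + 1) ≤ JJ X0 u I := le_trans (pow_le_pow_right₀ hx1 (by omega)) hI1
  have htot := total_leO k z0 I B1 m G0 G1 C1 V Cb x X0 u lam κ hk (by linarith) hκ0 hu hCb0 hG10 hVG hX0 hX01 (by linarith)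
    hlam2 hXs hIx hm hJI hxk1 hxk2
  -- averages of Gk
  have hNX : t + H ≤ N := by
    have h1 := hyp.dK
    calc t + H ≤ (t + H) * K := Nat.le_mul_of_pos_right _ hK1
      _ ≤ N := h1
  have hsN : Real.sqrt N ≤ H / sq := by
    have h2 := sqN H N (D + 1) x hx1 f2
    calc Real.sqrt N ≤ Real.sqrt H * x ^ (D + 1) := h2
      _ ≤ Real.sqrt H * (1 / sq * Real.sqrt H) := mul_le_mul_of_nonneg_left hsm2 (Real.sqrt_nonneg _)
      _ = (Real.sqrt H * Real.sqrt H) / sq := by ring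
      _ = H / sq := by rw [Real.mul_self_sqrt (by linarith)]
  have hGz : ∑ d ∈ Ioc t (t + H), Gk k z0 d ≤ G0 * H := by
    have h1 := hG z0 t H N hz01 (by omega) hNX
    have h2 : C2 * Real.sqrt N ≤ C2 * (H / sq) := mul_le_mul_of_nonneg_left hsN (by linarith)
    calc _ ≤ (H : ℝ) * (1 + C2 / sq) + C2 * (H / sq) := by linarith
      _ = G0 * H := by rw [hG0]; ring
  have hG1' : ∑ d ∈ Ioc t (t + H), Gk k 1 d ≤ G1 * H := by
    have h1 := hG 1 t H N le_rfl (by omega) hNX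
    have h3 : (H : ℝ) / sq ≤ H := div_le_self (by linarith) hsq1
    have h2 : C2 * Real.sqrt N ≤ C2 * H := mul_le_mul_of_nonneg_left (hsN.trans h3) (by linarith)
    simp only [Nat.cast_one, Real.sqrt_one, div_one] at h1
    calc _ ≤ (H : ℝ) * (1 + C2) + C2 * H := by linarith
      _ = G1 * H := by rw [hG1]; ring
  have hbox := all_lengths hyp C1 hC1 (fun d J hd hJ => hQ z0 z d J hz01 hyp.hz hd hJ) G0 G1 hGz hG1' (JJ X0 u) I hJpos
    (fun i hi => JJ_mono X0 u hX01 hu i I (Finset.mem_range.1 hi).le) (le_of_eq hK.symm) θ hθ0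
  have hHk : 0 ≤ (H : ℝ) ^ (k + 1) := by positivity
  have hc1 : (((Om k t H).filter (Dev (wS s σ) z0 (JJ X0 u) I θ)).card : ℝ) ≤ ε / 4 * (H : ℝ) ^ (k + 1) := by
    refine hbox.trans ?_
    rw [mul_comm]
    refine mul_le_mul_of_nonneg_right ?_ hHk
    rw [div_le_iff₀ (by positivity)]
    refine htot.trans (le_of_eq ?_)
    rw [hκ]; ring
  -- prime powers
  have hc2 : (((Om k t H).filter (BadPP (wS s σ) K N)).card : ℝ) ≤ ε / 4 * (H : ℝ) ^ (k + 1) := by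
    refine (bad_ppO (wS s σ) t H K N (by omega)).trans (mul_le_mul_of_nonneg_right ?_ hHk)
    have h3 : Real.log N ≤ 2 * x := by
      refine f3.trans ?_
      have : (1 + u) * x ≤ 2 * x := mul_le_mul_of_nonneg_right (by linarith) hx0.le
      exact this
    exact c2_num k H N K B1 D x ε hk hx1 hH3' (by omega) f2 h3 hKx hsm
  -- small coordinates
  set Z : ℕ := z0 + ⌈(H : ℝ) / (1 + u * x)⌉₊ with hZ
  have hc3 : (((Om k t H).filter (BadS Z)).card : ℝ) ≤ ε / 4 * (H : ℝ) ^ (k + 1) := by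
    refine (bad_smallO k t H Z (by omega)).trans (mul_le_mul_of_nonneg_right ?_ hHk)
    have h2 : 32 * k * (z0 + 1) / ε ≤ H := (Nat.le_ceil _).trans (by exact_mod_cast le_trans (le_max_right _ _) hH3)
    exact c3_num k H z0 x u ε hx0 hu hε hH3' h2 hxe
  -- union
  have hsub : F ⊆ (Om k t H).filter (Dev (wS s σ) z0 (JJ X0 u) I θ) ∪
      ((Om k t H).filter (BadPP (wS s σ) K N) ∪ (Om k t H).filter (BadS Z)) := by
    intro v hv
    obtain ⟨hvB, hvF⟩ := hF v hv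
    by_contra hnot
    rw [Finset.mem_union, Finset.mem_union, not_or, not_or, Finset.mem_filter, Finset.mem_filter, Finset.mem_filter] at hnot
    obtain ⟨n1, n2, n3⟩ := hnot
    have m1 : ¬ Dev (wS s σ) z0 (JJ X0 u) I θ v := fun h => n1 ⟨hvB, h⟩
    have m2 : ∀ n ∈ Icc 1 K, ∀ i, v.2 i + wS s σ i v.1 n ∉ PPw N := fun n hn i h => n2 ⟨hvB, n, hn, i, h⟩
    have m3 : ∀ i, Z < v.2 i := fun i => by
      by_contra h
      exact n3 ⟨hvB, i, by unfold leZ; omega⟩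
    have hmO := mem_Om hvB
    have hnice : Nice (wS s σ) v K N z0 x u := by
      refine ⟨fun i => ?_, fun i => ?_, fun n hn hnK i => ?_, f3, fun n hn hnK i => m2 n (mem_Icc.2 ⟨hn, hnK⟩) i⟩
      · have := m3 i; omega
      · have h1 := m3 i
        have h2 : (H : ℝ) / (1 + u * x) ≤ v.2 i := by
          have h3 : ⌈(H : ℝ) / (1 + u * x)⌉₊ ≤ v.2 i := by omega
          exact (Nat.le_ceil _).trans (by exact_mod_cast h3)
        exact log_num H (v.2 i) x u hxd hx0 hu hH3' h2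
      · have h1 := hyp.le i v.1 n hmO.1 hnK
        have h2 := mem_Ioc.1 (hmO.2 i)
        omega
    refine hvF fun T hT0 hT1 => ?_
    have hT0' : (JJ X0 u 0 : ℝ) ≤ T := by
      have h1 := JJ_le X0 u hX01 hu 0
      rw [pow_zero, mul_one] at h1
      refine h1.trans (le_trans ?_ hT0)
      rw [hX0]
      have : (lam + 2) * x ^ k = lam * x ^ k + 2 * x ^ k := by ring
      rw [this]; linarith
    have hT3 : T ≤ JJ X0 u I := by
      have h1 : (T : ℝ) ≤ JJ X0 u I := hT1.trans ((pow_le_pow_right₀ hx1 (by omega)).trans hI1)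
      exact_mod_cast h1
    have hJIW : PW z0 * V / JJ X0 u I ≤ c * u := by
      have h1 : x ≤ JJ X0 u I := le_trans (le_self_pow₀ hx1 (by omega)) hJI
      have h2 : (0 : ℝ) < JJ X0 u I := by linarith
      rw [div_le_iff₀ h2]
      rw [div_le_iff₀ (by positivity)] at hxW
      calc PW z0 * V ≤ x * (c * u) := hxW
        _ ≤ JJ X0 u I * (c * u) := mul_le_mul_of_nonneg_right h1 (by positivity)
        _ = _ := by ring
    have hT0n : JJ X0 u 0 ≤ T := by exact_mod_cast hT0'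
    have hKle : JJ X0 u I ≤ K := le_of_eq hK.symm
    have hrep := rep_wS s σ t H K hσK v hvB
    have hfin := final_count (lS s σ v) z0 hrep hnice hu hu1 hx0 c hc0 (hc (lS s σ v) z0)
      (JJ X0 u) I (JJ_step X0 u hX01 hu hX0u) hJpos m1 hKle hJIW T hT0n hT3
    obtain ⟨h1, h2⟩ := hfin
    exact abs_of_two _ _ ε _ _ (by have := SPZ_nonneg (lS s σ v) z0; positivity) hlo hup h1 h2
  have hu := (Finset.card_le_card hsub).trans ((Finset.card_union_le _ _).trans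
      (Nat.add_le_add_left (Finset.card_union_le _ _) _))
  have hu' : (F.card : ℝ) ≤ ((Om k t H).filter (Dev (wS s σ) z0 (JJ X0 u) I θ)).card +
      (((Om k t H).filter (BadPP (wS s σ) K N)).card + ((Om k t H).filter (BadS Z)).card) := by exact_mod_cast hu
  have : 0 ≤ ε * (H : ℝ) ^ (k + 1) := by positivity
  linarith

end Pool.Agent.H570.CD
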