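import Mathlib
import Pool.Agent.H570.CD.Main
import Pool.Agent.H570.TH.SS4

/-! Few vectors have an unusual singular series. -/

set_option autoImplicit false

namespace Pool.Agent.H570.CD

open Finset Filter Topology Pool.Agent.H570.LQ Pool.Agent.H570.TH

/-- sign -/
def sgn (b : Bool) : ℤ := if b then 1 else -1

lemma sgn_dvd (p : ℕ) (hp : p.Prime) (b : Bool) : ¬ (p : ℤ) ∣ sgn b := by
  intro h
  have h1 : (p : ℤ) ∣ 1 := by
    unfold sgn at h
    split_ifs at h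
    · exact h
    · exact (Int.dvd_neg).1 h
  have h2 : p ∣ 1 := by exact_mod_cast h1
  exact hp.one_lt.ne' (Nat.dvd_one.1 h2)

lemma lS_snd {k : ℕ} (s : Fin k → ℕ) (σ : Fin k → Bool) (v : ℕ × (Fin k → ℕ)) (i : Fin k) :
    (lS s σ v i).2 = sgn (σ i) * v.1 := by
  unfold lS sgn
  dsimp only
  split_ifs <;> ring

lemma lS_fst {k : ℕ} (s : Fin k → ℕ) (σ : Fin k → Bool) (v : ℕ × (Fin k → ℕ)) (i : Fin k) :
    (lS s σ v i).1 = (v.2 i : ℤ) + s i := rfl

/-- a common factor of two coefficients -/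
def Q2O {k : ℕ} (s : Fin k → ℕ) (σ : Fin k → Bool) (p : ℕ) (ij : Fin k × Fin k) (v : ℕ × (Fin k → ℕ)) : Prop :=
  ij.1 ≠ ij.2 ∧ (p : ℤ) ∣ (v.2 ij.1 : ℤ) * sgn (σ ij.2) - (sgn (σ ij.1) * ((v.2 ij.2 : ℤ) + s ij.2) - sgn (σ ij.2) * s ij.1)

/-- degenerate pairs -/
def QdO {k : ℕ} (s : Fin k → ℕ) (σ : Fin k → Bool) (ij : Fin k × Fin k) (v : ℕ × (Fin k → ℕ)) : Prop :=
  ij.1 ≠ ij.2 ∧ ((v.2 ij.1 : ℤ) + s ij.1) * sgn (σ ij.2) = ((v.2 ij.2 : ℤ) + s ij.2) * sgn (σ ij.1)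

/-- `p` is exceptional -/
def ExO {k : ℕ} (s : Fin k → ℕ) (σ : Fin k → Bool) (p : ℕ) (v : ℕ × (Fin k → ℕ)) : Prop := Ex (lS s σ v) p

lemma ExO_cases {k : ℕ} (s : Fin k → ℕ) (σ : Fin k → Bool) (p : ℕ) (hp : p.Prime) (v : ℕ × (Fin k → ℕ))
    (h : ExO s σ p v) : p ∣ v.1 ∨ ∃ ij, Q2O s σ p ij v := by
  have hp' : Prime (p : ℤ) := Nat.prime_iff_prime_int.1 hp
  rcases h with ⟨i, hi⟩ | ⟨i, j, hij, hd⟩
  · left
    rw [lS_snd] at hi
    rcases hp'.dvd_or_dvd hi with h1 | h1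
    · exact absurd h1 (sgn_dvd p hp _)
    · exact_mod_cast h1
  · rw [lS_snd, lS_snd, lS_fst, lS_fst] at hd
    have e : ((v.2 i : ℤ) + s i) * (sgn (σ j) * v.1) - ((v.2 j : ℤ) + s j) * (sgn (σ i) * v.1) =
        (v.1 : ℤ) * ((v.2 i : ℤ) * sgn (σ j) - (sgn (σ i) * ((v.2 j : ℤ) + s j) - sgn (σ j) * s i)) := by ring
    rw [e] at hd
    rcases hp'.dvd_or_dvd hd with h1 | h1
    · left; exact_mod_cast h1
    · right; exact ⟨(i, j), hij, h1⟩

/-- divisibility -/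
def dvP (p d : ℕ) : Prop := p ∣ d

/-- `p` divides `d` -/
def QdvO {k : ℕ} (p : ℕ) (v : ℕ × (Fin k → ℕ)) : Prop := dvP p v.1

open Classical in
lemma card_ExO {k : ℕ} (hk : 1 ≤ k) (s : Fin k → ℕ) (σ : Fin k → Bool) (t H p : ℕ) (hH : 1 ≤ H) (hp : p.Prime) :
    (((Om k t H).filter (ExO s σ p)).card : ℝ) ≤ 2 * (k : ℝ) ^ 2 * (1 / p + 1 / H) * (H : ℝ) ^ (k + 1) := by
  have hHr : (1 : ℝ) ≤ H := by exact_mod_cast hH
  have hpr : (0 : ℝ) < p := by exact_mod_cast hp.pos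
  have hkr : (1 : ℝ) ≤ k := by exact_mod_cast hk
  set κ : ℝ := 1 / p + 1 / H with hκ
  have hκ0 : 0 < κ := by positivity
  have hκe : (H : ℝ) / p + 1 = κ * H := by rw [hκ]; field_simp
  have h1 : (((Om k t H).filter (QdvO p)).card : ℝ) ≤ κ * (H : ℝ) ^ (k + 1) := by
    refine card_dO k t H (dvP p) κ ?_
    rw [← hκe]
    refine le_trans (le_of_eq ?_) (card_mul t H p hp)
    have h3 : (Ioc t (t + H)).filter (dvP p) = (Ioc t (t + H)).filter (fun d : ℕ => p ∣ d) :=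
      Finset.filter_congr fun a _ => Iff.rfl
    rw [h3]
  have h2 : ∀ ij, (((Om k t H).filter (Q2O s σ p ij)).card : ℝ) ≤ κ * (H : ℝ) ^ (k + 1) := by
    rintro ⟨i, j⟩
    refine card_fibO t H i (Q2O s σ p (i, j)) κ fun d hd y => ?_
    by_cases hij : i ≠ j
    · have hu : ∀ a : ℕ, Function.update y i a j = y j := fun a => Function.update_of_ne (Ne.symm hij) _ _
      have h3 := card_lin 0 H p hp (sgn (σ j)) (sgn (σ i) * ((y j : ℤ) + s j) - sgn (σ j) * s i) (sgn_dvd p hp _)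
      rw [zero_add, hκe] at h3
      refine le_trans ?_ h3
      have h4 : (Ioc 0 H).filter (fun a => Q2O s σ p (i, j) (d, Function.update y i a)) ⊆
          (Ioc 0 H).filter (fun a : ℕ => (p : ℤ) ∣ (a : ℤ) * sgn (σ j) - (sgn (σ i) * ((y j : ℤ) + s j) - sgn (σ j) * s i)) := by
        intro a ha
        obtain ⟨h5, h6⟩ := Finset.mem_filter.1 ha
        refine Finset.mem_filter.2 ⟨h5, ?_⟩
        have h7 := h6.2
        simp only [Function.update_self, hu] at h7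
        exact h7
      exact_mod_cast Finset.card_le_card h4
    · have h3 : (Ioc 0 H).filter (fun a => Q2O s σ p (i, j) (d, Function.update y i a)) = ∅ := by
        rw [Finset.filter_eq_empty_iff]
        intro a _ ha
        exact hij ha.1
      rw [h3, Finset.card_empty, Nat.cast_zero]
      positivity
  have hsub : (Om k t H).filter (ExO s σ p) ⊆ (Om k t H).filter (QdvO p) ∪ (Om k t H).filter (fun v => ∃ ij, Q2O s σ p ij v) := by
    intro v hv
    obtain ⟨hv1, hv2⟩ := Finset.mem_filter.1 hv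
    rcases ExO_cases s σ p hp v hv2 with h3 | h3
    · exact Finset.mem_union_left _ (Finset.mem_filter.2 ⟨hv1, h3⟩)
    · exact Finset.mem_union_right _ (Finset.mem_filter.2 ⟨hv1, h3⟩)
  have h4 := card_orO t H (Q2O s σ p) κ h2
  rw [Fintype.card_prod, Fintype.card_fin] at h4
  have h5 : (((Om k t H).filter (ExO s σ p)).card : ℝ) ≤
      (((Om k t H).filter (QdvO p)).card : ℝ) + (((Om k t H).filter (fun v => ∃ ij, Q2O s σ p ij v)).card : ℝ) := by
    exact_mod_cast (Finset.card_le_card hsub).trans (Finset.card_union_le _ _)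
  refine h5.trans ((add_le_add h1 h4).trans ?_)
  push_cast
  have h7 : 0 ≤ κ * (H : ℝ) ^ (k + 1) := by positivity
  have h8 : (1 : ℝ) ≤ (k : ℝ) ^ 2 := one_le_pow₀ hkr
  nlinarith

open Classical in
lemma card_degO {k : ℕ} (s : Fin k → ℕ) (σ : Fin k → Bool) (t H : ℕ) (hH : 1 ≤ H) :
    (((Om k t H).filter (fun v => ∃ ij, QdO s σ ij v)).card : ℝ) ≤ (k : ℝ) ^ 2 * (1 / H) * (H : ℝ) ^ (k + 1) := by
  have hHr : (1 : ℝ) ≤ H := by exact_mod_cast hH
  have h0 := card_orO t H (QdO s σ) (1 / H) ?_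
  · rw [Fintype.card_prod, Fintype.card_fin] at h0
    push_cast at h0
    refine h0.trans (le_of_eq ?_)
    ring
  rintro ⟨i, j⟩
  refine card_fibO t H i (QdO s σ (i, j)) (1 / H) fun d hd y => ?_
  have e : 1 / (H : ℝ) * H = 1 := by field_simp
  rw [e]
  have h1 : ((Ioc 0 H).filter (fun a => QdO s σ (i, j) (d, Function.update y i a))).card ≤ 1 := by
    rw [Finset.card_le_one]
    intro a ha b hb
    obtain ⟨h1, h2⟩ := (Finset.mem_filter.1 ha).2
    obtain ⟨h3, h4⟩ := (Finset.mem_filter.1 hb).2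
    simp only at h1 h2 h4
    have hu : ∀ a : ℕ, Function.update y i a j = y j := fun a => Function.update_of_ne (Ne.symm h1) _ _
    simp only [Function.update_self, hu] at h2 h4
    rw [← h4] at h2
    have h5 : sgn (σ j) ≠ 0 := by unfold sgn; split_ifs <;> norm_num
    have h6 := mul_right_cancel₀ h5 h2
    have h7 : (a : ℤ) = b := by linarith
    exact_mod_cast h7
  exact_mod_cast h1

/-- a common prime factor above `z` -/
def VBO {k : ℕ} (s : Fin k → ℕ) (z : ℕ) (i : Fin k) (v : ℕ × (Fin k → ℕ)) : Prop :=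
  ∃ p : ℕ, p.Prime ∧ z < p ∧ p ∣ v.2 i + s i ∧ p ∣ v.1

/-- the same for pairs -/
def cmn (z : ℕ) (x : ℕ × ℕ) : Prop := ∃ p : ℕ, p.Prime ∧ z < p ∧ p ∣ x.1 ∧ p ∣ x.2

open Classical in
lemma card_VBO {k : ℕ} (s : Fin k → ℕ) (t H z Y : ℕ) (hH : 1 ≤ H) (hz : 1 ≤ z) (hs : ∀ i, s i + H ≤ H * Y)
    (ht : t + H ≤ H * Y) :
    (((Om k t H).filter (fun v => ∃ i, VBO s z i v)).card : ℝ) ≤ k * (4 / z + (Y : ℝ) ^ 2 / H) * (H : ℝ) ^ (k + 1) := by
  have h := card_orO t H (VBO s z) (4 / z + (Y : ℝ) ^ 2 / H) (fun i => by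
    have h1 := card_pO t H i (fun y => cmn z (y.1 + s i, y.2)) (4 / z + (Y : ℝ) ^ 2 / H) (by
      have h2 := card_common (s i) t H z Y hH hz (hs i) ht
      refine le_trans ?_ h2
      have h3 : ((Ioc 0 H ×ˢ Ioc t (t + H)).filter (fun y : ℕ × ℕ => cmn z (y.1 + s i, y.2))).card ≤
          ((Ioc (s i) (s i + H) ×ˢ Ioc t (t + H)).filter (fun x : ℕ × ℕ => ∃ p : ℕ, p.Prime ∧ z < p ∧ p ∣ x.1 ∧ p ∣ x.2)).card := by
        refine Finset.card_le_card_of_injOn (fun y => (y.1 + s i, y.2)) ?_ ?_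
        · intro y hy
          obtain ⟨h3, h4⟩ := Finset.mem_filter.1 (Finset.mem_coe.1 hy)
          obtain ⟨h5, h6⟩ := Finset.mem_product.1 h3
          have h7 := mem_Ioc.1 h5
          refine Finset.mem_coe.2 (Finset.mem_filter.2 ⟨Finset.mem_product.2 ⟨?_, h6⟩, h4⟩)
          show y.1 + s i ∈ Ioc (s i) (s i + H)
          exact mem_Ioc.2 ⟨by omega, by omega⟩
        · intro y _ y' _ hyy
          simp only [Prod.mk.injEq] at hyy
          refine Prod.ext (by omega) hyy.2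
      exact_mod_cast h3)
    exact h1)
  rw [Fintype.card_fin] at h
  exact h

open Classical in
/-- the primes in `(z, P]` for which `v` is exceptional -/
noncomputable def FEO {k : ℕ} (s : Fin k → ℕ) (σ : Fin k → Bool) (z P : ℕ) (v : ℕ × (Fin k → ℕ)) : Finset ℕ :=
  (Ioc z P).filter (fun p => p.Prime ∧ ExO s σ p v)

/-- many exceptional primes -/
def MgO {k : ℕ} (s : Fin k → ℕ) (σ : Fin k → Bool) (z P : ℕ) (η : ℝ) (v : ℕ × (Fin k → ℕ)) : Prop :=
  η < ∑ p ∈ FEO s σ z P v, 1 / (p : ℝ)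

open Classical in
lemma card_MgO {k : ℕ} (hk : 1 ≤ k) (s : Fin k → ℕ) (σ : Fin k → Bool) (t H z P : ℕ) (η : ℝ) (hη : 0 < η) (hH : 1 ≤ H)
    (hz : 1 ≤ z) :
    (((Om k t H).filter (MgO s σ z P η)).card : ℝ) ≤
      2 * (k : ℝ) ^ 2 / η * (1 / z + (1 + Real.log P) / H) * (H : ℝ) ^ (k + 1) := by
  have hHr : (1 : ℝ) ≤ H := by exact_mod_cast hH
  have h1 : (((Om k t H).filter (MgO s σ z P η)).card : ℝ) * η ≤ ∑ v ∈ Om k t H, ∑ p ∈ FEO s σ z P v, 1 / (p : ℝ) := by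
    calc _ = ∑ v ∈ (Om k t H).filter (MgO s σ z P η), η := by rw [Finset.sum_const, nsmul_eq_mul]
      _ ≤ ∑ v ∈ (Om k t H).filter (MgO s σ z P η), ∑ p ∈ FEO s σ z P v, 1 / (p : ℝ) :=
          Finset.sum_le_sum fun v hv => (Finset.mem_filter.1 hv).2.le
      _ ≤ _ := Finset.sum_le_sum_of_subset_of_nonneg (Finset.filter_subset _ _) fun v _ _ =>
          Finset.sum_nonneg fun p _ => by positivity
  have h2 : ∑ v ∈ Om k t H, ∑ p ∈ FEO s σ z P v, 1 / (p : ℝ) =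
      ∑ p ∈ (Ioc z P).filter Nat.Prime, (((Om k t H).filter (ExO s σ p)).card : ℝ) * (1 / p) := by
    unfold FEO
    have e1 : ∀ v : ℕ × (Fin k → ℕ), ∑ p ∈ (Ioc z P).filter (fun p => p.Prime ∧ ExO s σ p v), 1 / (p : ℝ) =
        ∑ p ∈ (Ioc z P).filter Nat.Prime, if ExO s σ p v then 1 / (p : ℝ) else 0 := by
      intro v
      rw [← Finset.sum_filter, Finset.filter_filter]
    simp only [e1]
    rw [Finset.sum_comm]
    refine Finset.sum_congr rfl fun p _ => ?_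
    rw [← Finset.sum_filter, Finset.sum_const, nsmul_eq_mul]
  rw [h2] at h1
  have h3 : ∑ p ∈ (Ioc z P).filter Nat.Prime, (((Om k t H).filter (ExO s σ p)).card : ℝ) * (1 / p) ≤
      2 * (k : ℝ) ^ 2 * (1 / z + (1 + Real.log P) / H) * (H : ℝ) ^ (k + 1) := by
    calc _ ≤ ∑ p ∈ (Ioc z P).filter Nat.Prime,
          (2 * (k : ℝ) ^ 2 * (H : ℝ) ^ (k + 1)) * (((p : ℝ) ^ 2)⁻¹ + 1 / H * (1 / p)) := by
          refine Finset.sum_le_sum fun p hp => ?_
          have hpp := (Finset.mem_filter.1 hp).2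
          have := mul_le_mul_of_nonneg_right (card_ExO hk s σ t H p hH hpp) (show (0 : ℝ) ≤ 1 / p by positivity)
          refine this.trans (le_of_eq ?_)
          ring
      _ = (2 * (k : ℝ) ^ 2 * (H : ℝ) ^ (k + 1)) * (∑ p ∈ (Ioc z P).filter Nat.Prime, ((p : ℝ) ^ 2)⁻¹ +
          1 / H * ∑ p ∈ (Ioc z P).filter Nat.Prime, 1 / (p : ℝ)) := by
          rw [← Finset.mul_sum, Finset.sum_add_distrib, ← Finset.mul_sum]
      _ ≤ (2 * (k : ℝ) ^ 2 * (H : ℝ) ^ (k + 1)) * (1 / z + 1 / H * (1 + Real.log P)) := by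
          refine mul_le_mul_of_nonneg_left (add_le_add ?_ (mul_le_mul_of_nonneg_left ?_ (by positivity))) (by positivity)
          · calc _ ≤ ∑ p ∈ Ioc z P, ((p : ℝ) ^ 2)⁻¹ :=
                Finset.sum_le_sum_of_subset_of_nonneg (Finset.filter_subset _ _) fun _ _ _ => by positivity
              _ ≤ 1 / z := by
                by_cases hzP : z ≤ P
                · have h1 := sum_Ioc_inv_sq_le_sub (α := ℝ) (show z ≠ 0 by omega) hzP
                  have : (0 : ℝ) ≤ (P : ℝ)⁻¹ := by positivity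
                  rw [one_div]; linarith
                · rw [Finset.Ioc_eq_empty (by omega)]; simp
          · refine le_trans ?_ (sum_inv_le P z)
            exact Finset.sum_le_sum_of_subset_of_nonneg (Finset.filter_subset _ _) fun _ _ _ => by positivity
      _ = _ := by ring
  have h4 := h1.trans h3
  have h5 : (((Om k t H).filter (MgO s σ z P η)).card : ℝ) ≤
      (2 * (k : ℝ) ^ 2 * (1 / z + (1 + Real.log P) / H) * (H : ℝ) ^ (k + 1)) / η := by
    rw [le_div_iff₀ hη]; exact h4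
  refine h5.trans (le_of_eq ?_)
  ring

lemma tail_O {k : ℕ} (s : Fin k → ℕ) (σ : Fin k → Bool) (t H z Y : ℕ) (η : ℝ) (hz : 1 ≤ z) (hs : ∀ i, s i + H ≤ H * Y)
    (ht : t + H ≤ H * Y) (v : ℕ × (Fin k → ℕ)) (hv : v ∈ Om k t H) (h1 : ¬ ∃ i, VBO s z i v) (h2 : ¬ ∃ ij, QdO s σ ij v)
    (h3 : ¬ MgO s σ z (2 * (H * Y) ^ 2) η v) :
    ∃ S : ℝ, Tendsto (SPZ (lS s σ v)) atTop (𝓝 S) ∧
      |S - SPZ (lS s σ v) z| ≤ (Real.exp (Ck k * (1 / z + η)) - 1) * SPZ (lS s σ v) z := by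
  classical
  have hmO := mem_Om hv
  have hd := mem_Ioc.1 hmO.1
  have hdY : v.1 ≤ H * Y := by omega
  have hb : ∀ i, 1 ≤ v.2 i + s i ∧ v.2 i + s i ≤ H * Y := by
    intro i
    have h5 := mem_Ioc.1 (hmO.2 i)
    have := hs i
    omega
  refine tailZ (lS s σ v) z (2 * (H * Y) ^ 2) η hz ?_ ?_ (FEO s σ z (2 * (H * Y) ^ 2) v)
    (fun p hp hzp hpP hE => Finset.mem_filter.2 ⟨mem_Ioc.2 ⟨hzp, hpP⟩, hp, hE⟩) ?_
  · rintro p hp hzp ⟨i, hi1, hi2⟩
    apply h1
    refine ⟨i, p, hp, hzp, ?_, ?_⟩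
    · rw [lS_fst] at hi1
      exact_mod_cast hi1
    · rw [lS_snd] at hi2
      rcases (Nat.prime_iff_prime_int.1 hp).dvd_or_dvd hi2 with h4 | h4
      · exact absurd h4 (sgn_dvd p hp _)
      · exact_mod_cast h4
  · intro p hp hpP hE
    have hHY : H * Y ≤ (H * Y) ^ 2 := Nat.le_self_pow (by norm_num) _
    rcases ExO_cases s σ p hp v hE with h4 | ⟨⟨i, j⟩, hij, hdv⟩
    · have h5 := Nat.le_of_dvd (by omega) h4
      omega
    · have hi := hb i
      have hj := hb j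
      simp only at hij hdv
      have e : (v.2 i : ℤ) * sgn (σ j) - (sgn (σ i) * ((v.2 j : ℤ) + s j) - sgn (σ j) * s i) =
          ((v.2 i + s i : ℕ) : ℤ) * sgn (σ j) - ((v.2 j + s j : ℕ) : ℤ) * sgn (σ i) := by push_cast; ring
      rw [e] at hdv
      have h4 : ((v.2 i + s i : ℕ) : ℤ) * sgn (σ j) - ((v.2 j + s j : ℕ) : ℤ) * sgn (σ i) ≠ 0 := by
        intro h0
        refine h2 ⟨(i, j), hij, ?_⟩
        simp only
        push_cast at h0
        linarith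
      have h5 : |((v.2 i + s i : ℕ) : ℤ) * sgn (σ j) - ((v.2 j + s j : ℕ) : ℤ) * sgn (σ i)| < p := by
        have e1 : ((v.2 i + s i : ℕ) : ℤ) ≤ ((H * Y : ℕ) : ℤ) := by exact_mod_cast hi.2
        have e2 : ((v.2 j + s j : ℕ) : ℤ) ≤ ((H * Y : ℕ) : ℤ) := by exact_mod_cast hj.2
        have e3 : (0 : ℤ) ≤ ((v.2 i + s i : ℕ) : ℤ) := Int.natCast_nonneg _
        have e4 : (0 : ℤ) ≤ ((v.2 j + s j : ℕ) : ℤ) := Int.natCast_nonneg _
        have e5 : 2 * ((H * Y : ℕ) : ℤ) < p := by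
          have : 2 * (H * Y) < p := by omega
          exact_mod_cast this
        have s1 : sgn (σ j) = 1 ∨ sgn (σ j) = -1 := by unfold sgn; split_ifs <;> simp
        have s2 : sgn (σ i) = 1 ∨ sgn (σ i) = -1 := by unfold sgn; split_ifs <;> simp
        rw [abs_lt]
        rcases s1 with s1 | s1 <;> rcases s2 with s2 | s2 <;> rw [s1, s2] <;> constructor <;> linarith
      exact h4 (Int.eq_zero_of_abs_lt_dvd hdv h5)
  · unfold MgO at h3
    push Not at h3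
    exact h3

end Pool.Agent.H570.CD
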