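import Mathlib
import Pool.Agent.H570.CD.SSO
import Pool.Agent.H570.TH.Low

/-! The formula with the full singular series. -/

set_option autoImplicit false

namespace Pool.Agent.H570.CD

open Finset Filter Topology Pool.Agent.H570.LQ Pool.Agent.H570.TH

/-- the formula, with the full singular series, for all lengths between `lo` and `hi` -/
def FormF {k : ℕ} (w : Fin k → ℕ → ℕ → ℕ) (l : Fin k → ℤ × ℤ) (ε lo hi x : ℝ) (v : ℕ × (Fin k → ℕ)) : Prop :=
  ∃ S : ℝ, Tendsto (SPZ l) atTop (𝓝 S) ∧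
    ∀ T : ℕ, lo ≤ T → (T : ℝ) ≤ hi → |(PiW w v T : ℝ) - S * T / x ^ k| ≤ ε * (S * T / x ^ k)

lemma form_full {k : ℕ} (w : Fin k → ℕ → ℕ → ℕ) (l : Fin k → ℤ × ℤ) (z : ℕ) (ε ε' lo hi x : ℝ) (v : ℕ × (Fin k → ℕ)) (S : ℝ)
    (hx : 0 < x) (hε0 : 0 < ε') (hε1 : ε' ≤ 1 / 8) (hε2 : ε' ≤ ε / 8) (hS1 : Tendsto (SPZ l) atTop (𝓝 S))
    (h5 : |S - SPZ l z| ≤ ε' * SPZ l z) (hform : Form w l z ε' lo hi x v) : FormF w l ε lo hi x v := by
  refine ⟨S, hS1, fun T hT0 hT1 => ?_⟩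
  have h4 := hform T hT0 hT1
  have hSP0 : 0 ≤ SPZ l z := SPZ_nonneg l z
  set Sz := SPZ l z with hSz
  set U : ℝ := (T : ℝ) / x ^ k with hU
  have hU0 : 0 ≤ U := by positivity
  have e1 : Sz * T / x ^ k = Sz * U := by rw [hU]; ring
  have e2 : S * T / x ^ k = S * U := by rw [hU]; ring
  rw [e1] at h4
  rw [e2]
  have h6 : |(PiW w v T : ℝ) - S * U| ≤ 2 * ε' * (Sz * U) := by
    have h7 : |Sz * U - S * U| ≤ ε' * (Sz * U) := by
      rw [← sub_mul, abs_mul, abs_of_nonneg hU0, abs_sub_comm]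
      calc |S - Sz| * U ≤ (ε' * Sz) * U := mul_le_mul_of_nonneg_right h5 hU0
        _ = _ := by ring
    have h8 := abs_sub_le (PiW w v T : ℝ) (Sz * U) (S * U)
    linarith
  have h7 : Sz ≤ 2 * S := by
    have := (abs_le.1 h5).1
    nlinarith
  have h8 : Sz * U ≤ 2 * (S * U) := by
    have := mul_le_mul_of_nonneg_right h7 hU0
    linarith
  have h9 : 0 ≤ Sz * U := mul_nonneg hSP0 hU0
  have h10 : 0 ≤ S * U := by linarith
  calc _ ≤ 2 * ε' * (Sz * U) := h6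
    _ ≤ 2 * ε' * (2 * (S * U)) := mul_le_mul_of_nonneg_left h8 (by positivity)
    _ = (4 * ε') * (S * U) := by ring
    _ ≤ ε * (S * U) := mul_le_mul_of_nonneg_right (by linarith) h10

lemma Y_num (D H Y : ℕ) (x c : ℝ) (hxd : x = Real.log H) (hx3 : 3 ≤ x) (hxD : 2 * (D : ℝ) + 6 ≤ x) (hH3 : 3 ≤ H) (hc0 : 0 < c)
    (hY : Y = ⌈x ^ D⌉₊ + 1) (hsm : x ^ (2 * D + 2) ≤ c * Real.sqrt H) :
    (Y : ℝ) ^ 2 / H ≤ c ∧ 1 / (H : ℝ) ≤ c ∧ (1 + Real.log ((2 * (H * Y) ^ 2 : ℕ) : ℝ)) / H ≤ c ∧ x ^ D + 1 ≤ Y := by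
  have hHr : (3 : ℝ) ≤ H := by exact_mod_cast hH3
  have hxD1 : 1 ≤ x ^ D := one_le_pow₀ (by linarith)
  have hYr : (Y : ℝ) ≤ x ^ (D + 1) := by
    rw [hY]; push_cast
    have := (Nat.ceil_lt_add_one (show 0 ≤ x ^ D by linarith)).le
    rw [pow_succ]
    nlinarith
  have hYl : x ^ D + 1 ≤ Y := by
    rw [hY]; push_cast
    have := Nat.le_ceil (x ^ D)
    linarith
  have hY0 : (1 : ℝ) ≤ Y := by linarith
  have hlogP : Real.log ((2 * (H * Y) ^ 2 : ℕ) : ℝ) ≤ (2 * D + 5) * x := by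
    push_cast
    rw [Real.log_mul (by norm_num) (by positivity), Real.log_pow, Real.log_mul (by linarith) (by linarith)]
    have h1 : Real.log Y ≤ (D + 1 : ℕ) * Real.log x := by
      rw [← Real.log_pow]; exact Real.log_le_log (by linarith) hYr
    have h2 : Real.log x ≤ x := (Real.log_le_sub_one_of_pos (by linarith)).trans (by linarith)
    have h3 : ((D + 1 : ℕ) : ℝ) * Real.log x ≤ ((D + 1 : ℕ) : ℝ) * x := mul_le_mul_of_nonneg_left h2 (Nat.cast_nonneg _)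
    have h4 : Real.log 2 ≤ x := by
      have := Real.log_two_lt_d9; linarith
    rw [← hxd]
    push_cast at h1 h3 ⊢
    linarith
  have hlogP2 : 1 + Real.log ((2 * (H * Y) ^ 2 : ℕ) : ℝ) ≤ x ^ (2 * D + 2) := by
    have h1 : 1 + (2 * (D : ℝ) + 5) * x ≤ x ^ 2 := by nlinarith
    have h2 : x ^ 2 ≤ x ^ (2 * D + 2) := pow_le_pow_right₀ (by linarith) (by omega)
    linarith
  have hY2 : (Y : ℝ) ^ 2 ≤ x ^ (2 * D + 2) := by
    calc (Y : ℝ) ^ 2 ≤ (x ^ (D + 1)) ^ 2 := pow_le_pow_left₀ (by linarith) hYr 2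
      _ = x ^ (2 * D + 2) := by rw [← pow_mul]; congr 1; ring
  have hxH : x ^ (2 * D + 2) / H ≤ c := by
    rw [div_le_iff₀ (by linarith)]
    refine hsm.trans (mul_le_mul_of_nonneg_left ?_ hc0.le)
    have h1 : 1 ≤ Real.sqrt H := by rw [Real.one_le_sqrt]; linarith
    have h2 := Real.mul_self_sqrt (show (0 : ℝ) ≤ H by linarith)
    nlinarith
  have hX1 : 1 ≤ x ^ (2 * D + 2) := one_le_pow₀ (by linarith)
  exact ⟨(div_le_div_of_nonneg_right hY2 (by linarith)).trans hxH, (div_le_div_of_nonneg_right hX1 (by linarith)).trans hxH,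
    (div_le_div_of_nonneg_right hlogP2 (by linarith)).trans hxH, hYl⟩

theorem main_fullO (k : ℕ) (hk : 1 ≤ k) (ε : ℝ) (hε : 0 < ε) : ∃ C : ℝ, 0 < C ∧ ∀ A D : ℕ,
    A + (A + 2 * k + 2) ≤ D → ∀ᶠ H : ℕ in atTop, ∀ (t : ℕ) (s : Fin k → ℕ) (σ : Fin k → Bool),
    (t : ℝ) ≤ H * Real.log H ^ A → (∀ i, (s i : ℝ) ≤ H * Real.log H ^ D) →
    (∀ i, σ i = false → (t + H) * ⌊Real.log H ^ (A + 2 * k + 2)⌋₊ ≤ s i) →
    ∀ F : Finset (ℕ × (Fin k → ℕ)), (∀ v ∈ F, v ∈ Om k t H ∧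
      ¬ FormF (wS s σ) (lS s σ v) ε (C * Real.log H ^ k) (Real.log H ^ A) (Real.log H) v) →
    (F.card : ℝ) ≤ ε * (H : ℝ) ^ (k + 1) := by
  classical
  set ε' : ℝ := min ε 1 / 8 with hε'
  have hε'0 : 0 < ε' := by positivity
  have hε'1 : ε' ≤ 1 / 8 := by have := min_le_right ε 1; linarith
  have hε'2 : ε' ≤ ε / 8 := by have := min_le_left ε 1; linarith
  obtain ⟨z0, hz0⟩ := main_truncO k hk ε' hε'0
  have hCk := Ck_pos k
  set η : ℝ := Real.log (1 + ε') / (2 * Ck k) with hη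
  have hη0 : 0 < η := div_pos (Real.log_pos (by linarith)) (by positivity)
  have hkr : (1 : ℝ) ≤ k := by exact_mod_cast hk
  obtain ⟨z1, hz1⟩ := exists_nat_ge (1 / η + 8 * (4 * k + 2 * k ^ 2 / η) / ε + 1)
  set z := max z0 z1 with hz
  have hzr : 1 / η + 8 * (4 * k + 2 * k ^ 2 / η) / ε + 1 ≤ z := hz1.trans (by exact_mod_cast le_max_right _ _)
  have hp1 : 0 < 1 / η := by positivity
  have hp2 : 0 < 8 * (4 * k + 2 * (k : ℝ) ^ 2 / η) / ε := by positivity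
  have hz1' : (1 : ℝ) ≤ z := by linarith
  have hz1n : 1 ≤ z := by exact_mod_cast hz1'
  have hzη : 1 / (z : ℝ) ≤ η := by
    rw [one_div_le (by linarith) hη0]; linarith
  have hexp : Real.exp (Ck k * (1 / z + η)) - 1 ≤ ε' := by
    have h1 : Ck k * (1 / z + η) ≤ Real.log (1 + ε') := by
      calc Ck k * (1 / z + η) ≤ Ck k * (η + η) := mul_le_mul_of_nonneg_left (by linarith) hCk.le
        _ = Real.log (1 + ε') := by rw [hη]; field_simp; ring
    have h2 := Real.exp_le_exp.2 h1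
    rw [Real.exp_log (by linarith)] at h2
    linarith
  have hzε : k * (4 / (z : ℝ)) + 2 * (k : ℝ) ^ 2 / η * (1 / z) ≤ ε / 8 := by
    have h1 : 8 * (4 * k + 2 * (k : ℝ) ^ 2 / η) / ε ≤ z := by linarith
    rw [div_le_iff₀ hε] at h1
    have h2 : k * (4 / (z : ℝ)) + 2 * (k : ℝ) ^ 2 / η * (1 / z) = (4 * k + 2 * (k : ℝ) ^ 2 / η) / z := by ring
    rw [h2, div_le_iff₀ (by linarith)]
    linarith
  obtain ⟨C, hC0, hC⟩ := hz0 z (le_max_left _ _)
  refine ⟨C, hC0, fun A D hAD => ?_⟩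
  set c : ℝ := ε / (8 * (k + k ^ 2 + 2 * k ^ 2 / η)) with hc
  have hc0 : 0 < c := by positivity
  filter_upwards [hC A D hAD, ev1 (max 3 (2 * D + 6)), ev4 (2 * D + 2) c hc0, eventually_ge_atTop 3] with
    H hmain hx hsm hH3 t s σ ht hs hσ F hF
  set x := Real.log H with hxd
  have hx3 : 3 ≤ x := le_trans (le_max_left _ _) hx
  have hxD : 2 * (D : ℝ) + 6 ≤ x := le_trans (le_max_right _ _) hx
  have hHr : (3 : ℝ) ≤ H := by exact_mod_cast hH3
  have hH1 : 1 ≤ H := by omega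
  have hHk : 0 < (H : ℝ) ^ (k + 1) := by positivity
  obtain ⟨e1, e2, e3, hYl⟩ := Y_num D H (⌈x ^ D⌉₊ + 1) x c hxd hx3 hxD hH3 hc0 rfl hsm
  set Y : ℕ := ⌈x ^ D⌉₊ + 1 with hY
  have h0Y : (H : ℝ) * (x ^ D + 1) ≤ H * Y := mul_le_mul_of_nonneg_left hYl (by linarith)
  have hsY : ∀ i, s i + H ≤ H * Y := by
    intro i
    have h2 : (s i : ℝ) + H ≤ H * Y := by have := hs i; linarith
    exact_mod_cast h2
  have htY : t + H ≤ H * Y := by
    have h1 : x ^ A ≤ x ^ D := pow_le_pow_right₀ (by linarith) (by omega)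
    have h3 : (H : ℝ) * x ^ A ≤ H * x ^ D := mul_le_mul_of_nonneg_left h1 (by linarith)
    have h2 : (t : ℝ) + H ≤ H * Y := by linarith
    exact_mod_cast h2
  -- the bad sets
  have b1 := card_VBO s t H z Y hH1 hz1n hsY htY
  have b2 := card_degO s σ t H hH1
  have b3 := card_MgO hk s σ t H z (2 * (H * Y) ^ 2) η hη0 hH1 hz1n
  have btot : k * (4 / (z : ℝ) + (Y : ℝ) ^ 2 / H) + (k : ℝ) ^ 2 * (1 / H) +
      2 * (k : ℝ) ^ 2 / η * (1 / z + (1 + Real.log ((2 * (H * Y) ^ 2 : ℕ) : ℝ)) / H) ≤ ε / 4 := by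
    have hcc : (k + (k : ℝ) ^ 2 + 2 * (k : ℝ) ^ 2 / η) * c = ε / 8 := by rw [hc]; field_simp
    calc _ = (k * (4 / (z : ℝ)) + 2 * (k : ℝ) ^ 2 / η * (1 / z)) + (k * ((Y : ℝ) ^ 2 / H) + (k : ℝ) ^ 2 * (1 / H) +
          2 * (k : ℝ) ^ 2 / η * ((1 + Real.log ((2 * (H * Y) ^ 2 : ℕ) : ℝ)) / H)) := by ring
      _ ≤ ε / 8 + (k * c + (k : ℝ) ^ 2 * c + 2 * (k : ℝ) ^ 2 / η * c) := by gcongr
      _ = ε / 8 + (k + (k : ℝ) ^ 2 + 2 * (k : ℝ) ^ 2 / η) * c := by ring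
      _ = ε / 4 := by rw [hcc]; ring
  -- the good set
  set G := F.filter (fun v => (¬ ∃ i, VBO s z i v) ∧ (¬ ∃ ij, QdO s σ ij v) ∧ ¬ MgO s σ z (2 * (H * Y) ^ 2) η v) with hG
  have hGc : (G.card : ℝ) ≤ ε' * (H : ℝ) ^ (k + 1) := by
    refine hmain t s σ ht hs hσ G fun v hv => ?_
    obtain ⟨hvF, h1, h2, h3⟩ := Finset.mem_filter.1 hv
    obtain ⟨hvB, hvn⟩ := hF v hvF
    refine ⟨hvB, fun hform => hvn ?_⟩
    obtain ⟨S, hS1, hS2⟩ := tail_O s σ t H z Y η hz1n hsY htY v hvB h1 h2 h3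
    have h5 : |S - SPZ (lS s σ v) z| ≤ ε' * SPZ (lS s σ v) z :=
      hS2.trans (mul_le_mul_of_nonneg_right hexp (SPZ_nonneg _ _))
    exact form_full _ _ z ε ε' _ _ x v S (by linarith) hε'0 hε'1 hε'2 hS1 h5 hform
  have hsub : F ⊆ G ∪ ((Om k t H).filter (fun v => ∃ i, VBO s z i v) ∪ ((Om k t H).filter (fun v => ∃ ij, QdO s σ ij v) ∪
      (Om k t H).filter (MgO s σ z (2 * (H * Y) ^ 2) η))) := by
    intro v hv
    have hvB := (hF v hv).1
    by_cases h1 : ∃ i, VBO s z i v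
    · exact Finset.mem_union_right _ (Finset.mem_union_left _ (Finset.mem_filter.2 ⟨hvB, h1⟩))
    by_cases h2 : ∃ ij, QdO s σ ij v
    · exact Finset.mem_union_right _ (Finset.mem_union_right _ (Finset.mem_union_left _ (Finset.mem_filter.2 ⟨hvB, h2⟩)))
    by_cases h3 : MgO s σ z (2 * (H * Y) ^ 2) η v
    · exact Finset.mem_union_right _ (Finset.mem_union_right _ (Finset.mem_union_right _ (Finset.mem_filter.2 ⟨hvB, h3⟩)))
    exact Finset.mem_union_left _ (Finset.mem_filter.2 ⟨hv, h1, h2, h3⟩)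
  have hcard := (Finset.card_le_card hsub).trans ((Finset.card_union_le _ _).trans
      (Nat.add_le_add_left ((Finset.card_union_le _ _).trans (Nat.add_le_add_left (Finset.card_union_le _ _) _)) _))
  have hcard' : (F.card : ℝ) ≤ G.card + (((Om k t H).filter (fun v => ∃ i, VBO s z i v)).card +
      (((Om k t H).filter (fun v => ∃ ij, QdO s σ ij v)).card +
      ((Om k t H).filter (MgO s σ z (2 * (H * Y) ^ 2) η)).card)) := by exact_mod_cast hcard
  have hb := mul_le_mul_of_nonneg_right btot hHk.le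
  have hee : ε' * (H : ℝ) ^ (k + 1) ≤ ε / 8 * (H : ℝ) ^ (k + 1) := mul_le_mul_of_nonneg_right hε'2 hHk.le
  have h0 : 0 ≤ ε * (H : ℝ) ^ (k + 1) := by positivity
  linarith

/-- few systems have an `n` with prime values below the critical length -/
lemma lowO : ∃ C : ℝ, 1 ≤ C ∧ ∀ (k : ℕ) (w : Fin k → ℕ → ℕ → ℕ) (t H K0 : ℕ), 2 ≤ H →
    ∀ F : Finset (ℕ × (Fin k → ℕ)), (∀ v ∈ F, v ∈ Om k t H ∧ ∃ n : ℕ, 1 ≤ n ∧ n ≤ K0 ∧ AllP w v n) →
    (F.card : ℝ) ≤ K0 * ((C / Real.log H) ^ k * (H : ℝ) ^ (k + 1)) := by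
  classical
  obtain ⟨C, hC, hBT⟩ := Pool.Agent.Helper602.MK.BTLib.brun_titchmarsh
  refine ⟨C, hC, fun k w t H K0 hH F hF => ?_⟩
  have hHr : (2 : ℝ) ≤ H := by exact_mod_cast hH
  have hlog : 0 < Real.log H := Real.log_pos (by linarith)
  have h1 : ∀ y : ℕ, (((Ioc 0 H).filter (fun a => (a + y).Prime)).card : ℝ) ≤ C * H / Real.log H := by
    intro y
    have h3 := hBT (1 + y) 1 H le_rfl hH
    simp only [Nat.totient_one, Nat.cast_one, div_one, mul_one] at h3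
    refine le_trans ?_ h3
    have h4 : ((Ioc 0 H).filter (fun a => (a + y).Prime)).card ≤ ((range H).filter (fun k => (1 + y + k).Prime)).card := by
      refine Finset.card_le_card_of_injOn (fun a => a - 1) ?_ ?_
      · intro a ha
        have h5 := Finset.mem_filter.1 (Finset.mem_coe.1 ha)
        have h6 := mem_Ioc.1 h5.1
        refine Finset.mem_coe.2 (Finset.mem_filter.2 ⟨Finset.mem_range.2 (by show a - 1 < H; omega), ?_⟩)
        have : 1 + y + (a - 1) = a + y := by omega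
        show (1 + y + (a - 1)).Prime
        rw [this]; exact h5.2
      · intro a ha b hb hab
        have h5 := mem_Ioc.1 (Finset.mem_filter.1 (Finset.mem_coe.1 ha)).1
        have h6 := mem_Ioc.1 (Finset.mem_filter.1 (Finset.mem_coe.1 hb)).1
        have : a - 1 = b - 1 := hab
        omega
    exact_mod_cast h4
  have h2 : ∀ n : ℕ, (((Om k t H).filter (fun v => AllP w v n)).card : ℝ) ≤ (C / Real.log H) ^ k * (H : ℝ) ^ (k + 1) := by
    intro n
    have h3 : ((Om k t H).filter (fun v => AllP w v n)).card =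
        ∑ d ∈ Ioc t (t + H), ∏ i, ((Ioc 0 H).filter (fun a => (a + w i d n).Prime)).card := by
      have h4 : ((Om k t H).filter (fun v => AllP w v n)).card =
          ∑ d ∈ Ioc t (t + H), ((XB k H).filter (fun y => AllP w (d, y) n)).card := by
        unfold Om
        simp only [Finset.card_filter]
        rw [Finset.sum_product]
      rw [h4]
      refine Finset.sum_congr rfl fun d _ => ?_
      rw [← Fintype.card_piFinset]
      congr 1
      ext y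
      unfold XB AllP
      simp only [Fintype.mem_piFinset, mem_filter]
      exact ⟨fun h i => ⟨h.1 i, h.2 i⟩, fun h => ⟨fun i => (h i).1, fun i => (h i).2⟩⟩
    rw [h3]
    push_cast
    calc _ ≤ ∑ d ∈ Ioc t (t + H), (C * H / Real.log H) ^ k := by
          refine Finset.sum_le_sum fun d _ => ?_
          calc _ ≤ ∏ _i : Fin k, (C * H / Real.log H) := Finset.prod_le_prod (fun _ _ => Nat.cast_nonneg _) fun i _ => h1 _
            _ = _ := by rw [Finset.prod_const, Finset.card_univ, Fintype.card_fin]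
      _ = _ := by
        rw [Finset.sum_const, Nat.card_Ioc, Nat.add_sub_cancel_left, nsmul_eq_mul]; ring
  have h3 : F ⊆ (Icc 1 K0).biUnion (fun q => (Om k t H).filter (fun v => AllP w v q)) := by
    intro v hv
    obtain ⟨hB, q, h1q, hq, hqi⟩ := hF v hv
    exact Finset.mem_biUnion.2 ⟨q, mem_Icc.2 ⟨h1q, hq⟩, Finset.mem_filter.2 ⟨hB, hqi⟩⟩
  calc _ ≤ ((((Icc 1 K0).biUnion (fun q => (Om k t H).filter (fun v => AllP w v q))).card : ℕ) : ℝ) := by
          exact_mod_cast Finset.card_le_card h3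
    _ ≤ ∑ q ∈ Icc 1 K0, (((Om k t H).filter (fun v => AllP w v q)).card : ℝ) := by
          exact_mod_cast Finset.card_biUnion_le
    _ ≤ ∑ q ∈ Icc 1 K0, (C / Real.log H) ^ k * (H : ℝ) ^ (k + 1) := Finset.sum_le_sum fun q _ => h2 q
    _ = _ := by rw [Finset.sum_const, Nat.card_Icc, Nat.add_sub_cancel, nsmul_eq_mul]

end Pool.Agent.H570.CD
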