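import Mathlib
import Pool.Agent.H570.CD.Full

/-! One length. -/

set_option autoImplicit false

namespace Pool.Agent.H570.CD

open Finset Filter Topology Pool.Agent.H570.LQ Pool.Agent.H570.TH
open Pool.Agent.H373R2.T7 (pz Vz mem_pz Vz_pos Vz_inv_small singZ singZ_eq rhoP rhoP_le nuP)

section
variable {k : ℕ} {w : Fin k → ℕ → ℕ → ℕ} {t H K X z z0 : ℕ} {L δ : ℝ} {Ex : Finset ℕ}

/-- the longest sum against the model -/
lemma V2s (h : Hyp w t H K X z z0 L δ Ex) (C1 : ℝ) (hC1 : 1 ≤ C1)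
    (hQ : ∀ d J : ℕ, 1 ≤ d → 1 ≤ J → ∑ j ∈ range J, ∑ j' ∈ (range J).filter (fun j' => j' ≠ j), uu J j * uu J j' *
      (sg z ((d * dd j j' : ℕ) : ℤ) ^ k - sg z0 ((d * dd j j' : ℕ) : ℤ) ^ k) ≤
      ((Vz z0)⁻¹) ^ k * (Gk k z0 d * (1 + C1 / Real.sqrt z0) - 1)) (J : ℕ) (hJ : 1 ≤ J) (hJK : J ≤ K) (G : ℝ)
    (hG : ∑ d ∈ Ioc t (t + H), Gk k z0 d ≤ G * H) :
    ∑ v ∈ Om k t H, (∑ j ∈ range J, uu J j * (FF w (j + 1) v - MM w z0 (j + 1) v)) ^ 2 ≤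
      (H : ℝ) ^ (k + 1) * (((Vz z0)⁻¹) ^ k * (G * (1 + C1 / Real.sqrt z0) - 1) + 4 * ((k + 1) * ((L ^ 2) ^ k * δ)) +
        ((2 * L) ^ k + (((Vz z0)⁻¹) ^ k) ^ 2) * (1 / J)) := by
  have hHr : (0 : ℝ) < H := by exact_mod_cast h.hH
  have hL := h.hL
  have h0 := h.hδ
  have hV0 : 0 ≤ (Vz z0)⁻¹ := inv_nonneg.2 (Vz_pos z0).le
  rw [second (Om k t H) (fun j v => FF w (j + 1) v - MM w z0 (j + 1) v) (uu J) J]
  set e0 := (k + 1) * ((L ^ 2) ^ k * δ) with he0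
  have he00 : 0 ≤ e0 := by rw [he0]; positivity
  have hd : ∑ j ∈ range J, uu J j ^ 2 * ∑ v ∈ Om k t H, (FF w (j + 1) v - MM w z0 (j + 1) v) ^ 2 ≤
      (H : ℝ) ^ (k + 1) * (((2 * L) ^ k + (((Vz z0)⁻¹) ^ k) ^ 2) * (1 / J)) := by
    have h1 : ∀ j ∈ range J, ∑ v ∈ Om k t H, (FF w (j + 1) v - MM w z0 (j + 1) v) ^ 2 ≤
        (H : ℝ) ^ (k + 1) * ((2 * L) ^ k + (((Vz z0)⁻¹) ^ k) ^ 2) := by
      intro j hj
      have hj' := Finset.mem_range.1 hj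
      calc _ ≤ ∑ v ∈ Om k t H, (FF w (j + 1) v ^ 2 + (((Vz z0)⁻¹) ^ k) ^ 2) := by
            refine Finset.sum_le_sum fun v hv => ?_
            have h2 := FF_nonneg (w := w) (j + 1) v
            have h3 := MM_nonneg (w := w) (z0 := z0) (j + 1) v
            have h4 : MM w z0 (j + 1) v ≤ ((Vz z0)⁻¹) ^ k := by
              unfold MM
              calc _ ≤ ∏ _i : Fin k, (Vz z0)⁻¹ := Finset.prod_le_prod (fun i _ => mz_nonneg _ _) fun i _ => mz_le _ _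
                _ = _ := by simp
            have h5 : MM w z0 (j + 1) v ^ 2 ≤ (((Vz z0)⁻¹) ^ k) ^ 2 := pow_le_pow_left₀ h3 h4 2
            nlinarith [mul_nonneg h2 h3]
        _ = ∑ v ∈ Om k t H, FF w (j + 1) v ^ 2 + (H : ℝ) ^ (k + 1) * (((Vz z0)⁻¹) ^ k) ^ 2 := by
            rw [Finset.sum_add_distrib, Finset.sum_const, nsmul_eq_mul, card_Om]
        _ ≤ (H : ℝ) ^ (k + 1) * (2 * L) ^ k + (H : ℝ) ^ (k + 1) * (((Vz z0)⁻¹) ^ k) ^ 2 := by
            have := EF2 h (j + 1) (by omega)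
            linarith
        _ = _ := by ring
    calc _ ≤ ∑ j ∈ range J, uu J j ^ 2 * ((H : ℝ) ^ (k + 1) * ((2 * L) ^ k + (((Vz z0)⁻¹) ^ k) ^ 2)) :=
          Finset.sum_le_sum fun j hj => mul_le_mul_of_nonneg_left (h1 j hj) (sq_nonneg _)
      _ = (∑ j ∈ range J, uu J j ^ 2) * ((H : ℝ) ^ (k + 1) * ((2 * L) ^ k + (((Vz z0)⁻¹) ^ k) ^ 2)) := by rw [Finset.sum_mul]
      _ = _ := by rw [sum_uu_sq J J le_rfl hJ]; ring
  have ho : ∑ j ∈ range J, ∑ j' ∈ (range J).filter (fun j' => j' ≠ j), uu J j * uu J j' *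
      ∑ v ∈ Om k t H, (FF w (j + 1) v - MM w z0 (j + 1) v) * (FF w (j' + 1) v - MM w z0 (j' + 1) v) ≤
      ∑ j ∈ range J, ∑ j' ∈ (range J).filter (fun j' => j' ≠ j), (uu J j * uu J j' *
        ((H : ℝ) ^ k * ∑ d ∈ Ioc t (t + H), (sg z ((d * dd j j' : ℕ) : ℤ) ^ k - sg z0 ((d * dd j j' : ℕ) : ℤ) ^ k)) +
          uu J j * uu J j' * (4 * ((H : ℝ) ^ (k + 1) * e0))) := by
    refine Finset.sum_le_sum fun j hj => Finset.sum_le_sum fun j' hj' => ?_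
    have h1 := Finset.mem_range.1 hj
    have h2 := Finset.mem_filter.1 hj'
    have h3 := Finset.mem_range.1 h2.1
    have h4 := (abs_le.1 (EFF h (j + 1) (j' + 1) (by omega) (by omega) (by have := h2.2; omega))).2
    have h4b := (abs_le.1 (EFM h (j + 1) (j' + 1) (by omega) (by omega))).1
    have h4c := (abs_le.1 (EFM h (j' + 1) (j + 1) (by omega) (by omega))).1
    have h4d := (abs_le.1 (EMM h (j + 1) (j' + 1) (by omega) (by omega))).2
    have h5 : dd (j + 1) (j' + 1) = dd j j' := by unfold dd; omega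
    have h5' : dd (j' + 1) (j + 1) = dd j j' := by unfold dd; omega
    rw [h5] at h4 h4b h4d
    rw [h5'] at h4c
    rw [← he0] at h4 h4b h4c h4d
    rw [← mul_add]
    refine mul_le_mul_of_nonneg_left ?_ (mul_nonneg (uu_nonneg _ _) (uu_nonneg _ _))
    have e1 : ∑ v ∈ Om k t H, (FF w (j + 1) v - MM w z0 (j + 1) v) * (FF w (j' + 1) v - MM w z0 (j' + 1) v) =
        ∑ v ∈ Om k t H, FF w (j + 1) v * FF w (j' + 1) v - ∑ v ∈ Om k t H, FF w (j + 1) v * MM w z0 (j' + 1) v -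
        ∑ v ∈ Om k t H, FF w (j' + 1) v * MM w z0 (j + 1) v + ∑ v ∈ Om k t H, MM w z0 (j + 1) v * MM w z0 (j' + 1) v := by
      rw [← Finset.sum_sub_distrib, ← Finset.sum_sub_distrib, ← Finset.sum_add_distrib]
      exact Finset.sum_congr rfl fun v _ => by ring
    rw [e1, Finset.sum_sub_distrib, mul_sub]
    linarith
  have ho2 : ∑ j ∈ range J, ∑ j' ∈ (range J).filter (fun j' => j' ≠ j), uu J j * uu J j' * (4 * ((H : ℝ) ^ (k + 1) * e0)) ≤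
      4 * ((H : ℝ) ^ (k + 1) * e0) := by
    calc _ ≤ ∑ j ∈ range J, ∑ j' ∈ range J, uu J j * uu J j' * (4 * ((H : ℝ) ^ (k + 1) * e0)) := by
          refine Finset.sum_le_sum fun j _ => ?_
          exact Finset.sum_le_sum_of_subset_of_nonneg (Finset.filter_subset _ _) fun j' _ _ =>
            mul_nonneg (mul_nonneg (uu_nonneg _ _) (uu_nonneg _ _)) (by positivity)
      _ = (∑ j ∈ range J, uu J j) * (∑ j ∈ range J, uu J j) * (4 * ((H : ℝ) ^ (k + 1) * e0)) := by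
          rw [Finset.sum_mul_sum, Finset.sum_mul]
          refine Finset.sum_congr rfl fun j _ => ?_
          rw [Finset.sum_mul]
      _ = _ := by rw [sum_uu J J le_rfl hJ]; ring
  have ho3 : ∑ j ∈ range J, ∑ j' ∈ (range J).filter (fun j' => j' ≠ j), uu J j * uu J j' *
        ((H : ℝ) ^ k * ∑ d ∈ Ioc t (t + H), (sg z ((d * dd j j' : ℕ) : ℤ) ^ k - sg z0 ((d * dd j j' : ℕ) : ℤ) ^ k)) ≤
      (H : ℝ) ^ (k + 1) * (((Vz z0)⁻¹) ^ k * (G * (1 + C1 / Real.sqrt z0) - 1)) := by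
    rw [swap3 (Ioc t (t + H)) (range J) (fun j => (range J).filter (fun j' => j' ≠ j))
        (fun d j j' => sg z ((d * dd j j' : ℕ) : ℤ) ^ k - sg z0 ((d * dd j j' : ℕ) : ℤ) ^ k)
        (fun j j' => uu J j * uu J j') ((H : ℝ) ^ k), pow_succ, mul_assoc]
    refine mul_le_mul_of_nonneg_left ?_ (by positivity)
    calc _ ≤ ∑ d ∈ Ioc t (t + H), ((Vz z0)⁻¹) ^ k * (Gk k z0 d * (1 + C1 / Real.sqrt z0) - 1) := by
          refine Finset.sum_le_sum fun d hd => hQ d J ?_ hJ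
          have := mem_Ioc.1 hd; omega
      _ = ((Vz z0)⁻¹) ^ k * ((∑ d ∈ Ioc t (t + H), Gk k z0 d) * (1 + C1 / Real.sqrt z0) - H) := by
          rw [← Finset.mul_sum, Finset.sum_sub_distrib, ← Finset.sum_mul, Finset.sum_const, Nat.card_Ioc,
            Nat.add_sub_cancel_left]
          simp
      _ ≤ ((Vz z0)⁻¹) ^ k * ((G * H) * (1 + C1 / Real.sqrt z0) - H) := by
          refine mul_le_mul_of_nonneg_left ?_ (by positivity)
          have := mul_le_mul_of_nonneg_right hG (show 0 ≤ 1 + C1 / Real.sqrt z0 by positivity)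
          linarith
      _ = _ := by ring
  simp only [Finset.sum_add_distrib] at ho
  calc _ ≤ (H : ℝ) ^ (k + 1) * (((2 * L) ^ k + (((Vz z0)⁻¹) ^ k) ^ 2) * (1 / J)) +
        ((H : ℝ) ^ (k + 1) * (((Vz z0)⁻¹) ^ k * (G * (1 + C1 / Real.sqrt z0) - 1)) + 4 * ((H : ℝ) ^ (k + 1) * e0)) := by linarith
    _ = _ := by ring


/-- a vector whose sum deviates -/
def Dev1 {k : ℕ} (w : Fin k → ℕ → ℕ → ℕ) (z0 J : ℕ) (θ : ℝ) (v : ℕ × (Fin k → ℕ)) : Prop :=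
  θ < |XF w v J / J - XM w z0 v J / J|

open Classical in
lemma one_length (h : Hyp w t H K X z z0 L δ Ex) (C1 : ℝ) (hC1 : 1 ≤ C1)
    (hQ : ∀ d J : ℕ, 1 ≤ d → 1 ≤ J → ∑ j ∈ range J, ∑ j' ∈ (range J).filter (fun j' => j' ≠ j), uu J j * uu J j' *
      (sg z ((d * dd j j' : ℕ) : ℤ) ^ k - sg z0 ((d * dd j j' : ℕ) : ℤ) ^ k) ≤
      ((Vz z0)⁻¹) ^ k * (Gk k z0 d * (1 + C1 / Real.sqrt z0) - 1))
    (G0 : ℝ) (hG0 : ∑ d ∈ Ioc t (t + H), Gk k z0 d ≤ G0 * H) (J : ℕ) (hJ1 : 1 ≤ J) (hJK : J ≤ K) (θ : ℝ) (hθ : 0 < θ) :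
    (((Om k t H).filter (Dev1 w z0 J θ)).card : ℝ) ≤ (H : ℝ) ^ (k + 1) *
      ((((Vz z0)⁻¹) ^ k * (G0 * (1 + C1 / Real.sqrt z0) - 1) + 4 * ((k + 1) * ((L ^ 2) ^ k * δ)) +
        ((2 * L) ^ k + (((Vz z0)⁻¹) ^ k) ^ 2) * (1 / J)) / θ ^ 2) := by
  set fA : (ℕ × (Fin k → ℕ)) → ℝ := fun v => ∑ j ∈ range J, uu J j * (FF w (j + 1) v - MM w z0 (j + 1) v) with hfA
  have hA := cheb (Om k t H) fA θ ((H : ℝ) ^ (k + 1)) _ hθ (V2s h C1 hC1 hQ J hJ1 hJK G0 hG0)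
  refine le_trans ?_ hA
  have hsub : (Om k t H).filter (Dev1 w z0 J θ) ⊆ (Om k t H).filter (fun v => θ < |fA v|) := by
    intro v hv
    obtain ⟨hvO, hlt⟩ := Finset.mem_filter.1 hv
    refine Finset.mem_filter.2 ⟨hvO, ?_⟩
    have eA : fA v = XF w v J / J - XM w z0 v J / J := by
      rw [hfA]
      simp only [mul_sub, Finset.sum_sub_distrib]
      rw [uu_sum (fun j => FF w (j + 1) v) J J le_rfl, uu_sum (fun j => MM w z0 (j + 1) v) J J le_rfl]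
      rfl
    rw [eA]
    exact hlt
  exact_mod_cast Finset.card_le_card hsub

end

/-- the final count -/
lemma final_one {k : ℕ} {w : Fin k → ℕ → ℕ → ℕ} {v : ℕ × (Fin k → ℕ)} {K N : ℕ} {x u : ℝ} (l : Fin k → ℤ × ℤ) (z0 : ℕ)
    (hl : Rep w v K l) (h : Nice w v K N z0 x u) (hu : 0 < u) (hu1 : u ≤ 1 / 4)
    (hx : 0 < x) (c : ℝ) (hc0 : 0 < c) (hc : SPZ l z0 ≠ 0 → c ≤ SPZ l z0) (T : ℕ) (hT : 1 ≤ T)
    (hdev : ¬ Dev1 w z0 T (c * u) v) (hK : T ≤ K) (hJI : PW z0 * ((Vz z0)⁻¹) ^ k / T ≤ c * u) :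
    (1 - 2 * u) * (1 - u) / ((1 + 2 * u) * (1 + u) ^ k) * (SPZ l z0 * T / x ^ k) ≤ PiW w v T ∧
    (PiW w v T : ℝ) ≤ (1 + 2 * u) ^ 2 * (1 + u) / (1 - u) ^ k * (SPZ l z0 * T / x ^ k) := by
  by_cases h0 : SPZ l z0 = 0
  · rw [PiW_zero l hl h T hK h0, h0]
    simp
  have hTr : (1 : ℝ) ≤ T := by exact_mod_cast hT
  set M := SPZ l z0 with hM
  have hMc : c ≤ M := hc h0
  have hM0 : 0 < M := by linarith
  have hu1k : 0 < (1 - u) ^ k := pow_pos (by linarith) k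
  have hxk : 0 < x ^ k := by positivity
  have hmean := XM_mean l z0 hl T hT hK
  unfold Dev1 at hdev
  push Not at hdev
  have h2 := abs_sub_le (XF w v T / T) (XM w z0 v T / T) M
  have h3 : c * u ≤ u * M := by rw [mul_comm]; exact mul_le_mul_of_nonneg_left hMc hu.le
  have h4 : |XF w v T / T - M| ≤ 2 * u * M := by linarith
  have e0 : XF w v T = XF w v T / T * T := by field_simp
  have h5 : (1 - 2 * u) * (T * M) ≤ XF w v T := by
    rw [e0]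
    have := mul_le_mul_of_nonneg_right (show (1 - 2 * u) * M ≤ XF w v T / T by have := (abs_le.1 h4).1; linarith)
      (show (0 : ℝ) ≤ T by linarith)
    linarith
  have h6 : XF w v T ≤ (1 + 2 * u) * (T * M) := by
    rw [e0]
    have := mul_le_mul_of_nonneg_right (show XF w v T / T ≤ (1 + 2 * u) * M by have := (abs_le.1 h4).2; linarith)
      (show (0 : ℝ) ≤ T by linarith)
    linarith
  have hTM : 0 ≤ (T : ℝ) * M := by positivity
  have hb := XF_bounds h (by linarith) hx.le T hK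
  constructor
  · have hden : 0 < ((1 + u) * x) ^ k := by positivity
    have h7 : (1 - 2 * u) * (1 - u) / ((1 + 2 * u) * (1 + u) ^ k) * (M * T / x ^ k) =
        ((1 - u) / (1 + 2 * u) * ((1 - 2 * u) * (T * M))) / ((1 + u) * x) ^ k := by
      rw [mul_pow]; field_simp
    rw [h7, div_le_iff₀ hden]
    have h8 : (1 - u) / (1 + 2 * u) ≤ 1 := by rw [div_le_one (by linarith)]; linarith
    have h9 : 0 ≤ (1 - 2 * u) * (T * M) := mul_nonneg (by linarith) hTM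
    have h10 : (1 - u) / (1 + 2 * u) * ((1 - 2 * u) * (T * M)) ≤ (1 - 2 * u) * (T * M) := mul_le_of_le_one_left h9 h8
    linarith [hb.2]
  · have hden : 0 < ((1 - u) * x) ^ k := by
      rw [mul_pow]; positivity
    have h7 : (1 + 2 * u) ^ 2 * (1 + u) / (1 - u) ^ k * (M * T / x ^ k) =
        ((1 + 2 * u) * (1 + u) * ((1 + 2 * u) * (T * M))) / ((1 - u) * x) ^ k := by
      rw [mul_pow]; field_simp
    rw [h7, le_div_iff₀ hden]
    have h9 : 0 ≤ (1 + 2 * u) * (T * M) := by positivity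
    have h10 : (1 + 2 * u) * (T * M) ≤ (1 + 2 * u) * (1 + u) * ((1 + 2 * u) * (T * M)) :=
      le_mul_of_one_le_left h9 (by nlinarith)
    linarith [hb.1]

end Pool.Agent.H570.CD
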