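import Mathlib
import Pool.Agent.H570.CD.One

/-! Systems `a_i + d e_i ± d n`. -/

set_option autoImplicit false

namespace Pool.Agent.H570.CD

open Finset Filter Topology Pool.Agent.H570.LQ Pool.Agent.H570.TH
open Pool.Agent.H373R2.T7 (pz Vz mem_pz Vz_pos Vz_inv_small singZ singZ_eq rhoP rhoP_le nuP)

/-- the offsets -/
def wG {k : ℕ} (s e : Fin k → ℕ) (σ : Fin k → Bool) (i : Fin k) (d n : ℕ) : ℕ :=
  if σ i then s i + d * (e i + n) else s i + d * (e i - n)

/-- the linear forms -/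
def lG {k : ℕ} (s e : Fin k → ℕ) (σ : Fin k → Bool) (v : ℕ × (Fin k → ℕ)) : Fin k → ℤ × ℤ :=
  fun i => ((v.2 i : ℤ) + s i + v.1 * e i, sgn (σ i) * v.1)

lemma offs_wG {k : ℕ} (s e : Fin k → ℕ) (σ : Fin k → Bool) (t H K : ℕ) (Y : ℝ)
    (hs : ∀ i, ((s i + (t + H) * (e i + K) : ℕ) : ℝ) ≤ Y) (hσ : ∀ i, σ i = false → K ≤ e i) :
    Offs (wG s e σ) t H K Y := by
  constructor
  · intro i d _
    cases hσi : σ i with
    | true =>
      left
      intro n m hnm _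
      unfold wG
      rw [if_pos hσi, if_pos hσi, add_assoc, ← mul_add]
      congr 2; omega
    | false =>
      right
      intro n m hnm hm
      unfold wG
      have h0 : ¬ σ i = true := by rw [hσi]; simp
      rw [if_neg h0, if_neg h0, add_assoc, ← mul_add]
      have h1 := hσ i hσi
      congr 2; omega
  · intro i d n hd hn
    have hd' := mem_Ioc.1 hd
    refine le_trans ?_ (hs i)
    have h3 : wG s e σ i d n ≤ s i + (t + H) * (e i + K) := by
      unfold wG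
      split_ifs
      · exact Nat.add_le_add_left (Nat.mul_le_mul hd'.2 (by omega)) _
      · exact Nat.add_le_add_left (Nat.mul_le_mul hd'.2 (by omega)) _
    exact_mod_cast h3

lemma rep_wG {k : ℕ} (s e : Fin k → ℕ) (σ : Fin k → Bool) (K : ℕ) (hσ : ∀ i, σ i = false → K ≤ e i)
    (v : ℕ × (Fin k → ℕ)) : Rep (wG s e σ) v K (lG s e σ v) := by
  intro n hn i
  unfold wG lG sgn
  cases hσi : σ i with
  | true =>
    simp only [if_true]
    push_cast; ring
  | false =>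
    have h1 := hσ i hσi
    simp only [Bool.false_eq_true, if_false]
    push_cast [Nat.cast_sub (hn.trans h1)]
    ring

/-- a common factor of two coefficients -/
def Q2G {k : ℕ} (s e : Fin k → ℕ) (σ : Fin k → Bool) (p : ℕ) (ij : Fin k × Fin k) (v : ℕ × (Fin k → ℕ)) : Prop :=
  ij.1 ≠ ij.2 ∧ (p : ℤ) ∣ (v.2 ij.1 : ℤ) * sgn (σ ij.2) -
    (sgn (σ ij.1) * ((v.2 ij.2 : ℤ) + s ij.2 + v.1 * e ij.2) - sgn (σ ij.2) * (s ij.1 + v.1 * e ij.1))

/-- degenerate pairs -/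
def QdG {k : ℕ} (s e : Fin k → ℕ) (σ : Fin k → Bool) (ij : Fin k × Fin k) (v : ℕ × (Fin k → ℕ)) : Prop :=
  ij.1 ≠ ij.2 ∧ ((v.2 ij.1 : ℤ) + s ij.1 + v.1 * e ij.1) * sgn (σ ij.2) =
    ((v.2 ij.2 : ℤ) + s ij.2 + v.1 * e ij.2) * sgn (σ ij.1)

/-- `p` is exceptional -/
def ExG {k : ℕ} (s e : Fin k → ℕ) (σ : Fin k → Bool) (p : ℕ) (v : ℕ × (Fin k → ℕ)) : Prop := Ex (lG s e σ v) p

lemma ExG_cases {k : ℕ} (s e : Fin k → ℕ) (σ : Fin k → Bool) (p : ℕ) (hp : p.Prime) (v : ℕ × (Fin k → ℕ))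
    (h : ExG s e σ p v) : p ∣ v.1 ∨ ∃ ij, Q2G s e σ p ij v := by
  have hp' : Prime (p : ℤ) := Nat.prime_iff_prime_int.1 hp
  rcases h with ⟨i, hi⟩ | ⟨i, j, hij, hd⟩
  · left
    have hi' : (p : ℤ) ∣ sgn (σ i) * v.1 := hi
    rcases hp'.dvd_or_dvd hi' with h1 | h1
    · exact absurd h1 (sgn_dvd p hp _)
    · exact_mod_cast h1
  · have hd' : (p : ℤ) ∣ ((v.2 i : ℤ) + s i + v.1 * e i) * (sgn (σ j) * v.1) -
        ((v.2 j : ℤ) + s j + v.1 * e j) * (sgn (σ i) * v.1) := hd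
    have e : ((v.2 i : ℤ) + s i + v.1 * e i) * (sgn (σ j) * v.1) - ((v.2 j : ℤ) + s j + v.1 * e j) * (sgn (σ i) * v.1) =
        (v.1 : ℤ) * ((v.2 i : ℤ) * sgn (σ j) - (sgn (σ i) * ((v.2 j : ℤ) + s j + v.1 * e j) -
          sgn (σ j) * (s i + v.1 * e i))) := by ring
    rw [e] at hd'
    rcases hp'.dvd_or_dvd hd' with h1 | h1
    · left; exact_mod_cast h1
    · right; exact ⟨(i, j), hij, h1⟩

open Classical in
lemma card_ExG {k : ℕ} (hk : 1 ≤ k) (s e : Fin k → ℕ) (σ : Fin k → Bool) (t H p : ℕ) (hH : 1 ≤ H) (hp : p.Prime) :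
    (((Om k t H).filter (ExG s e σ p)).card : ℝ) ≤ 2 * (k : ℝ) ^ 2 * (1 / p + 1 / H) * (H : ℝ) ^ (k + 1) := by
  have hHr : (1 : ℝ) ≤ H := by exact_mod_cast hH
  have hpr : (0 : ℝ) < p := by exact_mod_cast hp.pos
  have hkr : (1 : ℝ) ≤ k := by exact_mod_cast hk
  set κ : ℝ := 1 / p + 1 / H with hκ
  have hκ0 : 0 < κ := by positivity
  have hκe : (H : ℝ) / p + 1 = κ * H := by rw [hκ]; field_simp
  have h1 : (((Om k t H).filter (QdvO p)).card : ℝ) ≤ κ * (H : ℝ) ^ (k + 1) := by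
    refine card_dO k t H (dvP p) κ ?_
    rw [← hκe]
    refine le_trans (le_of_eq ?_) (card_mul t H p hp)
    have h3 : (Ioc t (t + H)).filter (dvP p) = (Ioc t (t + H)).filter (fun d : ℕ => p ∣ d) :=
      Finset.filter_congr fun a _ => Iff.rfl
    rw [h3]
  have h2 : ∀ ij, (((Om k t H).filter (Q2G s e σ p ij)).card : ℝ) ≤ κ * (H : ℝ) ^ (k + 1) := by
    rintro ⟨i, j⟩
    refine card_fibO t H i (Q2G s e σ p (i, j)) κ fun d hd y => ?_
    by_cases hij : i ≠ j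
    · have hu : ∀ a : ℕ, Function.update y i a j = y j := fun a => Function.update_of_ne (Ne.symm hij) _ _
      have h3 := card_lin 0 H p hp (sgn (σ j)) (sgn (σ i) * ((y j : ℤ) + s j + d * e j) - sgn (σ j) * (s i + d * e i)) (sgn_dvd p hp _)
      rw [zero_add, hκe] at h3
      refine le_trans ?_ h3
      have h4 : (Ioc 0 H).filter (fun a => Q2G s e σ p (i, j) (d, Function.update y i a)) ⊆
          (Ioc 0 H).filter (fun a : ℕ => (p : ℤ) ∣ (a : ℤ) * sgn (σ j) - (sgn (σ i) * ((y j : ℤ) + s j + d * e j) - sgn (σ j) * (s i + d * e i))) := by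
        intro a ha
        obtain ⟨h5, h6⟩ := Finset.mem_filter.1 ha
        refine Finset.mem_filter.2 ⟨h5, ?_⟩
        have h7 := h6.2
        simp only [Function.update_self, hu] at h7
        exact h7
      exact_mod_cast Finset.card_le_card h4
    · have h3 : (Ioc 0 H).filter (fun a => Q2G s e σ p (i, j) (d, Function.update y i a)) = ∅ := by
        rw [Finset.filter_eq_empty_iff]
        intro a _ ha
        exact hij ha.1
      rw [h3, Finset.card_empty, Nat.cast_zero]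
      positivity
  have hsub : (Om k t H).filter (ExG s e σ p) ⊆ (Om k t H).filter (QdvO p) ∪ (Om k t H).filter (fun v => ∃ ij, Q2G s e σ p ij v) := by
    intro v hv
    obtain ⟨hv1, hv2⟩ := Finset.mem_filter.1 hv
    rcases ExG_cases s e σ p hp v hv2 with h3 | h3
    · exact Finset.mem_union_left _ (Finset.mem_filter.2 ⟨hv1, h3⟩)
    · exact Finset.mem_union_right _ (Finset.mem_filter.2 ⟨hv1, h3⟩)
  have h4 := card_orO t H (Q2G s e σ p) κ h2
  rw [Fintype.card_prod, Fintype.card_fin] at h4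
  have h5 : (((Om k t H).filter (ExG s e σ p)).card : ℝ) ≤
      (((Om k t H).filter (QdvO p)).card : ℝ) + (((Om k t H).filter (fun v => ∃ ij, Q2G s e σ p ij v)).card : ℝ) := by
    exact_mod_cast (Finset.card_le_card hsub).trans (Finset.card_union_le _ _)
  refine h5.trans ((add_le_add h1 h4).trans ?_)
  push_cast
  have h7 : 0 ≤ κ * (H : ℝ) ^ (k + 1) := by positivity
  have h8 : (1 : ℝ) ≤ (k : ℝ) ^ 2 := one_le_pow₀ hkr
  nlinarith

open Classical in
lemma card_degG {k : ℕ} (s e : Fin k → ℕ) (σ : Fin k → Bool) (t H : ℕ) (hH : 1 ≤ H) :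
    (((Om k t H).filter (fun v => ∃ ij, QdG s e σ ij v)).card : ℝ) ≤ (k : ℝ) ^ 2 * (1 / H) * (H : ℝ) ^ (k + 1) := by
  have hHr : (1 : ℝ) ≤ H := by exact_mod_cast hH
  have h0 := card_orO t H (QdG s e σ) (1 / H) ?_
  · rw [Fintype.card_prod, Fintype.card_fin] at h0
    push_cast at h0
    refine h0.trans (le_of_eq ?_)
    ring
  rintro ⟨i, j⟩
  refine card_fibO t H i (QdG s e σ (i, j)) (1 / H) fun d hd y => ?_
  have eH : 1 / (H : ℝ) * H = 1 := by field_simp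
  rw [eH]
  have h1 : ((Ioc 0 H).filter (fun a => QdG s e σ (i, j) (d, Function.update y i a))).card ≤ 1 := by
    rw [Finset.card_le_one]
    intro a ha b hb
    obtain ⟨h1, h2⟩ := (Finset.mem_filter.1 ha).2
    obtain ⟨h3, h4⟩ := (Finset.mem_filter.1 hb).2
    simp only at h1 h2 h4
    have hu : ∀ a : ℕ, Function.update y i a j = y j := fun a => Function.update_of_ne (Ne.symm h1) _ _
    simp only [Function.update_self, hu] at h2 h4
    rw [← h4] at h2
    have h5 : sgn (σ j) ≠ 0 := by unfold sgn; split_ifs <;> norm_num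
    have h6 := mul_right_cancel₀ h5 h2
    have h7 : (a : ℤ) = b := by linarith
    exact_mod_cast h7
  exact_mod_cast h1

open Classical in
/-- the primes in `(z, P]` for which `v` is exceptional -/
noncomputable def FEG {k : ℕ} (s e : Fin k → ℕ) (σ : Fin k → Bool) (z P : ℕ) (v : ℕ × (Fin k → ℕ)) : Finset ℕ :=
  (Ioc z P).filter (fun p => p.Prime ∧ ExG s e σ p v)

/-- many exceptional primes -/
def MgG {k : ℕ} (s e : Fin k → ℕ) (σ : Fin k → Bool) (z P : ℕ) (η : ℝ) (v : ℕ × (Fin k → ℕ)) : Prop :=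
  η < ∑ p ∈ FEG s e σ z P v, 1 / (p : ℝ)

open Classical in
lemma card_MgG {k : ℕ} (hk : 1 ≤ k) (s e : Fin k → ℕ) (σ : Fin k → Bool) (t H z P : ℕ) (η : ℝ) (hη : 0 < η) (hH : 1 ≤ H)
    (hz : 1 ≤ z) :
    (((Om k t H).filter (MgG s e σ z P η)).card : ℝ) ≤
      2 * (k : ℝ) ^ 2 / η * (1 / z + (1 + Real.log P) / H) * (H : ℝ) ^ (k + 1) := by
  have hHr : (1 : ℝ) ≤ H := by exact_mod_cast hH
  have h1 : (((Om k t H).filter (MgG s e σ z P η)).card : ℝ) * η ≤ ∑ v ∈ Om k t H, ∑ p ∈ FEG s e σ z P v, 1 / (p : ℝ) := by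
    calc _ = ∑ v ∈ (Om k t H).filter (MgG s e σ z P η), η := by rw [Finset.sum_const, nsmul_eq_mul]
      _ ≤ ∑ v ∈ (Om k t H).filter (MgG s e σ z P η), ∑ p ∈ FEG s e σ z P v, 1 / (p : ℝ) :=
          Finset.sum_le_sum fun v hv => (Finset.mem_filter.1 hv).2.le
      _ ≤ _ := Finset.sum_le_sum_of_subset_of_nonneg (Finset.filter_subset _ _) fun v _ _ =>
          Finset.sum_nonneg fun p _ => by positivity
  have h2 : ∑ v ∈ Om k t H, ∑ p ∈ FEG s e σ z P v, 1 / (p : ℝ) =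
      ∑ p ∈ (Ioc z P).filter Nat.Prime, (((Om k t H).filter (ExG s e σ p)).card : ℝ) * (1 / p) := by
    unfold FEG
    have e1 : ∀ v : ℕ × (Fin k → ℕ), ∑ p ∈ (Ioc z P).filter (fun p => p.Prime ∧ ExG s e σ p v), 1 / (p : ℝ) =
        ∑ p ∈ (Ioc z P).filter Nat.Prime, if ExG s e σ p v then 1 / (p : ℝ) else 0 := by
      intro v
      rw [← Finset.sum_filter, Finset.filter_filter]
    simp only [e1]
    rw [Finset.sum_comm]
    refine Finset.sum_congr rfl fun p _ => ?_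
    rw [← Finset.sum_filter, Finset.sum_const, nsmul_eq_mul]
  rw [h2] at h1
  have h3 : ∑ p ∈ (Ioc z P).filter Nat.Prime, (((Om k t H).filter (ExG s e σ p)).card : ℝ) * (1 / p) ≤
      2 * (k : ℝ) ^ 2 * (1 / z + (1 + Real.log P) / H) * (H : ℝ) ^ (k + 1) := by
    calc _ ≤ ∑ p ∈ (Ioc z P).filter Nat.Prime,
          (2 * (k : ℝ) ^ 2 * (H : ℝ) ^ (k + 1)) * (((p : ℝ) ^ 2)⁻¹ + 1 / H * (1 / p)) := by
          refine Finset.sum_le_sum fun p hp => ?_
          have hpp := (Finset.mem_filter.1 hp).2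
          have := mul_le_mul_of_nonneg_right (card_ExG hk s e σ t H p hH hpp) (show (0 : ℝ) ≤ 1 / p by positivity)
          refine this.trans (le_of_eq ?_)
          ring
      _ = (2 * (k : ℝ) ^ 2 * (H : ℝ) ^ (k + 1)) * (∑ p ∈ (Ioc z P).filter Nat.Prime, ((p : ℝ) ^ 2)⁻¹ +
          1 / H * ∑ p ∈ (Ioc z P).filter Nat.Prime, 1 / (p : ℝ)) := by
          rw [← Finset.mul_sum, Finset.sum_add_distrib, ← Finset.mul_sum]
      _ ≤ (2 * (k : ℝ) ^ 2 * (H : ℝ) ^ (k + 1)) * (1 / z + 1 / H * (1 + Real.log P)) := by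
          refine mul_le_mul_of_nonneg_left (add_le_add ?_ (mul_le_mul_of_nonneg_left ?_ (by positivity))) (by positivity)
          · calc _ ≤ ∑ p ∈ Ioc z P, ((p : ℝ) ^ 2)⁻¹ :=
                Finset.sum_le_sum_of_subset_of_nonneg (Finset.filter_subset _ _) fun _ _ _ => by positivity
              _ ≤ 1 / z := by
                by_cases hzP : z ≤ P
                · have h1 := sum_Ioc_inv_sq_le_sub (α := ℝ) (show z ≠ 0 by omega) hzP
                  have : (0 : ℝ) ≤ (P : ℝ)⁻¹ := by positivity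
                  rw [one_div]; linarith
                · rw [Finset.Ioc_eq_empty (by omega)]; simp
          · refine le_trans ?_ (sum_inv_le P z)
            exact Finset.sum_le_sum_of_subset_of_nonneg (Finset.filter_subset _ _) fun _ _ _ => by positivity
      _ = _ := by ring
  have h4 := h1.trans h3
  have h5 : (((Om k t H).filter (MgG s e σ z P η)).card : ℝ) ≤
      (2 * (k : ℝ) ^ 2 * (1 / z + (1 + Real.log P) / H) * (H : ℝ) ^ (k + 1)) / η := by
    rw [le_div_iff₀ hη]; exact h4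
  refine h5.trans (le_of_eq ?_)
  ring

lemma tail_G {k : ℕ} (s e : Fin k → ℕ) (σ : Fin k → Bool) (t H z Y : ℕ) (η : ℝ) (hz : 1 ≤ z)
    (hs : ∀ i, s i + H + (t + H) * e i ≤ H * Y)
    (ht : t + H ≤ H * Y) (v : ℕ × (Fin k → ℕ)) (hv : v ∈ Om k t H) (h1 : ¬ ∃ i, VBO s z i v) (h2 : ¬ ∃ ij, QdG s e σ ij v)
    (h3 : ¬ MgG s e σ z (2 * (H * Y) ^ 2) η v) :
    ∃ S : ℝ, Tendsto (SPZ (lG s e σ v)) atTop (𝓝 S) ∧
      |S - SPZ (lG s e σ v) z| ≤ (Real.exp (Ck k * (1 / z + η)) - 1) * SPZ (lG s e σ v) z := by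
  classical
  have hmO := mem_Om hv
  have hd := mem_Ioc.1 hmO.1
  have hdY : v.1 ≤ H * Y := by omega
  have hb : ∀ i, 1 ≤ v.2 i + s i + v.1 * e i ∧ v.2 i + s i + v.1 * e i ≤ H * Y := by
    intro i
    have h5 := mem_Ioc.1 (hmO.2 i)
    have h6 := hs i
    have h7 : v.1 * e i ≤ (t + H) * e i := Nat.mul_le_mul_right _ hd.2
    omega
  refine tailZ (lG s e σ v) z (2 * (H * Y) ^ 2) η hz ?_ ?_ (FEG s e σ z (2 * (H * Y) ^ 2) v)
    (fun p hp hzp hpP hE => Finset.mem_filter.2 ⟨mem_Ioc.2 ⟨hzp, hpP⟩, hp, hE⟩) ?_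
  · rintro p hp hzp ⟨i, hi1, hi2⟩
    apply h1
    have hi1' : (p : ℤ) ∣ (v.2 i : ℤ) + s i + v.1 * e i := hi1
    have hi2' : (p : ℤ) ∣ sgn (σ i) * v.1 := hi2
    have hd1 : (p : ℤ) ∣ (v.1 : ℤ) := by
      rcases (Nat.prime_iff_prime_int.1 hp).dvd_or_dvd hi2' with h4 | h4
      · exact absurd h4 (sgn_dvd p hp _)
      · exact h4
    refine ⟨i, p, hp, hzp, ?_, ?_⟩
    · have h4 : (p : ℤ) ∣ (v.2 i : ℤ) + s i := (dvd_add_left (hd1.mul_right _)).1 hi1'
      exact_mod_cast h4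
    · exact_mod_cast hd1
  · intro p hp hpP hE
    have hHY : H * Y ≤ (H * Y) ^ 2 := Nat.le_self_pow (by norm_num) _
    rcases ExG_cases s e σ p hp v hE with h4 | ⟨⟨i, j⟩, hij, hdv⟩
    · have h5 := Nat.le_of_dvd (by omega) h4
      omega
    · have hi := hb i
      have hj := hb j
      simp only at hij hdv
      have eq : (v.2 i : ℤ) * sgn (σ j) - (sgn (σ i) * ((v.2 j : ℤ) + s j + v.1 * e j) -
          sgn (σ j) * (s i + v.1 * e i)) =
          ((v.2 i + s i + v.1 * e i : ℕ) : ℤ) * sgn (σ j) - ((v.2 j + s j + v.1 * e j : ℕ) : ℤ) * sgn (σ i) := by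
        push_cast; ring
      rw [eq] at hdv
      have h4 : ((v.2 i + s i + v.1 * e i : ℕ) : ℤ) * sgn (σ j) - ((v.2 j + s j + v.1 * e j : ℕ) : ℤ) * sgn (σ i) ≠ 0 := by
        intro h0
        refine h2 ⟨(i, j), hij, ?_⟩
        simp only
        push_cast at h0
        linarith
      have h5 : |((v.2 i + s i + v.1 * e i : ℕ) : ℤ) * sgn (σ j) - ((v.2 j + s j + v.1 * e j : ℕ) : ℤ) * sgn (σ i)| < p := by
        have e1 : ((v.2 i + s i + v.1 * e i : ℕ) : ℤ) ≤ ((H * Y : ℕ) : ℤ) := by exact_mod_cast hi.2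
        have e2 : ((v.2 j + s j + v.1 * e j : ℕ) : ℤ) ≤ ((H * Y : ℕ) : ℤ) := by exact_mod_cast hj.2
        have e3 : (0 : ℤ) ≤ ((v.2 i + s i + v.1 * e i : ℕ) : ℤ) := Int.natCast_nonneg _
        have e4 : (0 : ℤ) ≤ ((v.2 j + s j + v.1 * e j : ℕ) : ℤ) := Int.natCast_nonneg _
        have e5 : 2 * ((H * Y : ℕ) : ℤ) < p := by
          have : 2 * (H * Y) < p := by omega
          exact_mod_cast this
        have s1 : sgn (σ j) = 1 ∨ sgn (σ j) = -1 := by unfold sgn; split_ifs <;> simp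
        have s2 : sgn (σ i) = 1 ∨ sgn (σ i) = -1 := by unfold sgn; split_ifs <;> simp
        rw [abs_lt]
        rcases s1 with s1 | s1 <;> rcases s2 with s2 | s2 <;> rw [s1, s2] <;> constructor <;> linarith
      exact h4 (Int.eq_zero_of_abs_lt_dvd hdv h5)
  · unfold MgG at h3
    push Not at h3
    exact h3

end Pool.Agent.H570.CD
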