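import Mathlib
import Pool.Agent.H570.CD.SSG

/-! One critical length, with offsets proportional to the slope. -/

set_option autoImplicit false

namespace Pool.Agent.H570.CD

open Finset Filter Topology Pool.Agent.H570.LQ Pool.Agent.H570.TH
open Pool.Agent.H373R2.T7 (pz Vz mem_pz Vz_pos Vz_inv_small singZ singZ_eq rhoP rhoP_le nuP)

/-- the formula at one length -/
def Form1 {k : ℕ} (w : Fin k → ℕ → ℕ → ℕ) (l : Fin k → ℤ × ℤ) (z : ℕ) (ε : ℝ) (T : ℕ) (x : ℝ) (v : ℕ × (Fin k → ℕ)) : Prop :=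
  |(PiW w v T : ℝ) - SPZ l z * T / x ^ k| ≤ ε * (SPZ l z * T / x ^ k)

lemma one_num (k K m : ℕ) (G0 C1 V x κ lam : ℝ) (sq : ℝ) (hx : 4 ≤ x) (hκ : 0 < κ)
    (hz : V * (G0 * (1 + C1 / sq) - 1) ≤ κ) (hm : m = 2 * k + 1) (hlam0 : 0 < lam) (hlam : 2 * 4 ^ k / κ ≤ lam)
    (hK : lam * x ^ k ≤ K) (hk : 1 ≤ k)
    (hx1 : 8 * (k + 1) * 4 ^ k / κ ≤ x) (hx2 : 2 * V ^ 2 / κ ≤ x) (hlam1 : 1 ≤ lam) :
    V * (G0 * (1 + C1 / sq) - 1) + 4 * ((k + 1) * (((2 * x) ^ 2) ^ k * (2 / x ^ m))) +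
        ((2 * (2 * x)) ^ k + V ^ 2) * (1 / K) ≤ 3 * κ := by
  have hx0 : 0 < x := by linarith
  have hxk : 0 < x ^ k := by positivity
  have e1 : ((2 * x) ^ 2) ^ k = 4 ^ k * x ^ (2 * k) := by rw [← pow_mul, mul_pow, pow_mul]; norm_num
  have e4 : (2 * (2 * x)) ^ k = 4 ^ k * x ^ k := by rw [← mul_assoc, mul_pow]; norm_num
  have hK0 : (0 : ℝ) < K := lt_of_lt_of_le (by positivity) hK
  have b1 : 4 * (((k : ℝ) + 1) * (((2 * x) ^ 2) ^ k * (2 / x ^ m))) ≤ κ := by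
    have h1 : 4 * (((k : ℝ) + 1) * (((2 * x) ^ 2) ^ k * (2 / x ^ m))) = 8 * (k + 1) * 4 ^ k / x := by
      have : x ^ m = x ^ (2 * k) * x := by rw [hm, pow_succ]
      rw [e1, this]; field_simp; ring
    rw [h1, div_le_iff₀ hx0]
    rw [div_le_iff₀ hκ] at hx1; linarith
  have b2 : (2 * (2 * x)) ^ k * (1 / K) ≤ κ / 2 := by
    rw [e4, mul_one_div, div_le_iff₀ hK0]
    rw [div_le_iff₀ hκ] at hlam
    have h1 : κ / 2 * (lam * x ^ k) ≤ κ / 2 * K := mul_le_mul_of_nonneg_left hK (by linarith)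
    have h2 : 2 * 4 ^ k * x ^ k ≤ lam * κ * x ^ k := mul_le_mul_of_nonneg_right hlam hxk.le
    linarith
  have b3 : V ^ 2 * (1 / K) ≤ κ / 2 := by
    rw [mul_one_div, div_le_iff₀ hK0]
    rw [div_le_iff₀ hκ] at hx2
    have h3 : x ≤ K := by
      have h4 : x ≤ x ^ k := le_self_pow₀ (by linarith) (by omega)
      have h5 : x ^ k ≤ lam * x ^ k := le_mul_of_one_le_left hxk.le hlam1
      linarith
    have h1 : κ / 2 * x ≤ κ / 2 * K := mul_le_mul_of_nonneg_left h3 (by linarith)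
    linarith
  have e : ((2 * (2 * x)) ^ k + V ^ 2) * (1 / K) = (2 * (2 * x)) ^ k * (1 / K) + V ^ 2 * (1 / K) := by ring
  rw [e]
  linarith

theorem main_one (k : ℕ) (hk : 1 ≤ k) (ε : ℝ) (hε : 0 < ε) : ∃ z1 : ℕ, ∀ z0 ≥ z1, ∃ C : ℝ, 0 < C ∧ ∀ A : ℕ,
    ∀ᶠ H : ℕ in atTop, ∀ (t : ℕ) (s e : Fin k → ℕ) (σ : Fin k → Bool) (K : ℕ),
    (t : ℝ) ≤ H * Real.log H ^ A → (∀ i, (s i : ℝ) ≤ H * Real.log H ^ A) → (∀ i, (e i : ℝ) ≤ Real.log H ^ A) →
    C * Real.log H ^ k ≤ K → (K : ℝ) ≤ Real.log H ^ A → (∀ i, σ i = false → K ≤ e i) →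
    ∀ F : Finset (ℕ × (Fin k → ℕ)), (∀ v ∈ F, v ∈ Om k t H ∧
      ¬ Form1 (wG s e σ) (lG s e σ v) z0 ε K (Real.log H) v) →
    (F.card : ℝ) ≤ ε * (H : ℝ) ^ (k + 1) := by
  classical
  obtain ⟨u, hu, hu1, hup, hlo⟩ := exists_u k ε hε
  obtain ⟨c, hc0, hc⟩ := SPZ_lower k
  obtain ⟨C1, hC1, hQ⟩ := QF_cut k
  obtain ⟨C2, hC2, hG⟩ := avg_Gk k
  set θ : ℝ := c * u with hθ
  have hθ0 : 0 < θ := by positivity
  set κ : ℝ := θ ^ 2 * ε / 20 with hκ
  have hκ0 : 0 < κ := by positivity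
  set C3 : ℝ := 2 * C2 + C1 + 2 * C1 * C2 with hC3
  have hC30 : 0 < C3 := by positivity
  obtain ⟨z2, hz2⟩ := eventually_atTop.1 (Vz_decay k (κ / C3) (by positivity))
  refine ⟨max z2 1, fun z0 hz => ?_⟩
  have hz01 : 1 ≤ z0 := le_trans (le_max_right _ _) hz
  have hz0r : (1 : ℝ) ≤ z0 := by exact_mod_cast hz01
  have hdec := hz2 z0 (le_trans (le_max_left _ _) hz)
  set sq := Real.sqrt z0 with hsq
  have hsq1 : 1 ≤ sq := by rw [hsq, Real.one_le_sqrt]; exact hz0r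
  have hsq0 : 0 < sq := by linarith
  set V := ((Vz z0)⁻¹) ^ k with hV
  have hV0 : 0 ≤ V := pow_nonneg (inv_nonneg.2 (Vz_pos z0).le) k
  set G0 : ℝ := 1 + 2 * C2 / sq with hG0
  have hVG : V * (G0 * (1 + C1 / sq) - 1) ≤ κ := VG_num V C1 C2 κ sq hV0 hC1 hC2 hsq1 hdec
  set lam : ℝ := 2 * 4 ^ k / κ + 1 with hlam
  have hp1 : 0 < 2 * 4 ^ k / κ := by positivity
  have hlam1 : 1 ≤ lam := by linarith
  have hlam2 : 2 * 4 ^ k / κ ≤ lam := by linarith
  refine ⟨lam, by positivity, fun A => ?_⟩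
  set D := 2 * A + 1 with hD
  set m := 2 * k + 1 with hm
  filter_upwards [params k A A D z0 m hz01 (by omega) (by omega), NG_facts (D + 1) u hu,
    ev1 (max (max 8 (z0 + 3)) (PW z0 * V / (c * u))),
    ev1 (max (max (2 * V ^ 2 / κ) (32 * k / (ε * u))) (8 * (k + 1) * 4 ^ k / κ)),
    ev4 (A + D + 2) (ε / (32 * k)) (by positivity), ev4 (D + 1) (1 / sq) (by positivity),
    eventually_ge_atTop (max 3 (⌈32 * k * (z0 + 1) / ε⌉₊))] with H hpar hNf hx hx2 hsm hsm2 hH3 t s e σ K ht hs he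
      hCK hKx hσ F hF
  obtain ⟨f1, f2, f3, f4⟩ := hNf
  set N := NG (D + 1) H with hN
  set x := Real.log H with hxd
  have hkr : (1 : ℝ) ≤ k := by exact_mod_cast hk
  have hx8 : 8 ≤ x := le_trans (le_trans (le_max_left _ _) (le_max_left _ _)) hx
  have hxz : (z0 : ℝ) + 3 ≤ x := le_trans (le_trans (le_max_right _ _) (le_max_left _ _)) hx
  have hxW : PW z0 * V / (c * u) ≤ x := le_trans (le_max_right _ _) hx
  have hxV : 2 * V ^ 2 / κ ≤ x := le_trans (le_trans (le_max_left _ _) (le_max_left _ _)) hx2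
  have hxe : 32 * k / (ε * u) ≤ x := le_trans (le_trans (le_max_right _ _) (le_max_left _ _)) hx2
  have hxk1 : 8 * (k + 1) * 4 ^ k / κ ≤ x := le_trans (le_max_right _ _) hx2
  have hx0 : 0 < x := by linarith
  have hx1 : 1 ≤ x := by linarith
  have hxk : 1 ≤ x ^ k := one_le_pow₀ hx1
  have hxK : x ≤ K := by
    have h4 : x ≤ x ^ k := le_self_pow₀ (by linarith) (by omega)
    have h5 : x ^ k ≤ lam * x ^ k := le_mul_of_one_le_left (by linarith) hlam1
    linarith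
  have hK1r : (1 : ℝ) ≤ K := by linarith
  have hK1 : 1 ≤ K := by exact_mod_cast hK1r
  have hH3' : 3 ≤ H := le_trans (le_max_left _ _) hH3
  have hHr : (3 : ℝ) ≤ H := by exact_mod_cast hH3'
  have hxA : 1 ≤ x ^ A := one_le_pow₀ hx1
  have htH : (t : ℝ) + H ≤ 2 * (H * x ^ A) := by
    have : (H : ℝ) ≤ H * x ^ A := le_mul_of_one_le_right (by linarith) hxA
    linarith
  have hsY : ∀ i, ((s i + (t + H) * (e i + K) : ℕ) : ℝ) ≤ 3 * (H * x ^ D) := by
    intro i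
    push_cast
    have h1 := hs i
    have h2 := he i
    have h3 : ((t : ℝ) + H) * (e i + K) ≤ (2 * (H * x ^ A)) * (2 * x ^ A) :=
      mul_le_mul htH (by linarith) (by positivity) (by positivity)
    have h4 : x ^ D = x ^ A * x ^ A * x := by rw [hD]; ring
    have h5 : (H : ℝ) * x ^ A ≤ H * x ^ D := mul_le_mul_of_nonneg_left (pow_le_pow_right₀ hx1 (by omega)) (by linarith)
    have h6 : (2 * (H * x ^ A)) * (2 * x ^ A) ≤ H * x ^ D := by
      rw [h4]
      have h7 : 0 ≤ H * (x ^ A * x ^ A) := by positivity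
      calc (2 * (H * x ^ A)) * (2 * x ^ A) = H * (x ^ A * x ^ A) * 4 := by ring
        _ ≤ H * (x ^ A * x ^ A) * x := mul_le_mul_of_nonneg_left (by linarith) h7
        _ = _ := by ring
    linarith
  have hoffs : Offs (wG s e σ) t H K (3 * (H * x ^ D)) := offs_wG s e σ t H K _ hsY hσ
  obtain ⟨z, Ex, hyp⟩ := hpar K hK1 hKx t ht (wG s e σ) hoffs
  have htot := one_num k K m G0 C1 V x κ lam sq (by linarith) hκ0 hVG hm (by linarith) hlam2 hCK hk hxk1 hxV hlam1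
  -- averages of Gk
  have hNX : t + H ≤ N := by
    have h1 := hyp.dK
    calc t + H ≤ (t + H) * K := Nat.le_mul_of_pos_right _ hK1
      _ ≤ N := h1
  have hsN : Real.sqrt N ≤ H / sq := by
    have h2 := sqN H N (D + 1) x hx1 f2
    calc Real.sqrt N ≤ Real.sqrt H * x ^ (D + 1) := h2
      _ ≤ Real.sqrt H * (1 / sq * Real.sqrt H) := mul_le_mul_of_nonneg_left hsm2 (Real.sqrt_nonneg _)
      _ = (Real.sqrt H * Real.sqrt H) / sq := by ring
      _ = H / sq := by rw [Real.mul_self_sqrt (by linarith)]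
  have hGz : ∑ d ∈ Ioc t (t + H), Gk k z0 d ≤ G0 * H := by
    have h1 := hG z0 t H N hz01 (by omega) hNX
    have h2 : C2 * Real.sqrt N ≤ C2 * (H / sq) := mul_le_mul_of_nonneg_left hsN (by linarith)
    calc _ ≤ (H : ℝ) * (1 + C2 / sq) + C2 * (H / sq) := by linarith
      _ = G0 * H := by rw [hG0]; ring
  have hbox := one_length hyp C1 hC1 (fun d J hd hJ => hQ z0 z d J hz01 hyp.hz hd hJ) G0 hGz K hK1 le_rfl θ hθ0
  have hHk : 0 ≤ (H : ℝ) ^ (k + 1) := by positivity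
  have hc1 : (((Om k t H).filter (Dev1 (wG s e σ) z0 K θ)).card : ℝ) ≤ ε / 4 * (H : ℝ) ^ (k + 1) := by
    refine hbox.trans ?_
    rw [mul_comm]
    refine mul_le_mul_of_nonneg_right ?_ hHk
    rw [div_le_iff₀ (by positivity)]
    refine htot.trans ?_
    have hp : 0 ≤ θ ^ 2 * ε := by positivity
    rw [hκ]; linarith
  -- prime powers
  have hc2 : (((Om k t H).filter (BadPP (wG s e σ) K N)).card : ℝ) ≤ ε / 4 * (H : ℝ) ^ (k + 1) := by
    refine (bad_ppO (wG s e σ) t H K N (by omega)).trans (mul_le_mul_of_nonneg_right ?_ hHk)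
    have h3 : Real.log N ≤ 2 * x := by
      refine f3.trans ?_
      have : (1 + u) * x ≤ 2 * x := mul_le_mul_of_nonneg_right (by linarith) hx0.le
      exact this
    exact c2_num k H N K A D x ε hk hx1 hH3' (by omega) f2 h3 hKx hsm
  -- small coordinates
  set Z : ℕ := z0 + ⌈(H : ℝ) / (1 + u * x)⌉₊ with hZ
  have hc3 : (((Om k t H).filter (BadS Z)).card : ℝ) ≤ ε / 4 * (H : ℝ) ^ (k + 1) := by
    refine (bad_smallO k t H Z (by omega)).trans (mul_le_mul_of_nonneg_right ?_ hHk)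
    have h2 : 32 * k * (z0 + 1) / ε ≤ H := (Nat.le_ceil _).trans (by exact_mod_cast le_trans (le_max_right _ _) hH3)
    exact c3_num k H z0 x u ε hx0 hu hε hH3' h2 hxe
  -- union
  have hsub : F ⊆ (Om k t H).filter (Dev1 (wG s e σ) z0 K θ) ∪
      ((Om k t H).filter (BadPP (wG s e σ) K N) ∪ (Om k t H).filter (BadS Z)) := by
    intro v hv
    obtain ⟨hvB, hvF⟩ := hF v hv
    by_contra hnot
    rw [Finset.mem_union, Finset.mem_union, not_or, not_or, Finset.mem_filter, Finset.mem_filter, Finset.mem_filter] at hnot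
    obtain ⟨n1, n2, n3⟩ := hnot
    have m1 : ¬ Dev1 (wG s e σ) z0 K θ v := fun h => n1 ⟨hvB, h⟩
    have m2 : ∀ n ∈ Icc 1 K, ∀ i, v.2 i + wG s e σ i v.1 n ∉ PPw N := fun n hn i h => n2 ⟨hvB, n, hn, i, h⟩
    have m3 : ∀ i, Z < v.2 i := fun i => by
      by_contra h
      exact n3 ⟨hvB, i, by unfold leZ; omega⟩
    have hmO := mem_Om hvB
    have hnice : Nice (wG s e σ) v K N z0 x u := by
      refine ⟨fun i => ?_, fun i => ?_, fun n hn hnK i => ?_, f3, fun n hn hnK i => m2 n (mem_Icc.2 ⟨hn, hnK⟩) i⟩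
      · have := m3 i; omega
      · have h1 := m3 i
        have h2 : (H : ℝ) / (1 + u * x) ≤ v.2 i := by
          have h3 : ⌈(H : ℝ) / (1 + u * x)⌉₊ ≤ v.2 i := by omega
          exact (Nat.le_ceil _).trans (by exact_mod_cast h3)
        exact log_num H (v.2 i) x u hxd hx0 hu hH3' h2
      · have h1 := hyp.le i v.1 n hmO.1 hnK
        have h2 := mem_Ioc.1 (hmO.2 i)
        omega
    apply hvF
    have hJIW : PW z0 * V / K ≤ c * u := by
      have h2 : (0 : ℝ) < K := by linarith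
      rw [div_le_iff₀ h2]
      rw [div_le_iff₀ (by positivity)] at hxW
      calc PW z0 * V ≤ x * (c * u) := hxW
        _ ≤ K * (c * u) := mul_le_mul_of_nonneg_right hxK (by positivity)
        _ = _ := by ring
    have hrep := rep_wG s e σ K hσ v
    obtain ⟨h1, h2⟩ := final_one (lG s e σ v) z0 hrep hnice hu hu1 hx0 c hc0 (hc (lG s e σ v) z0) K hK1 m1 le_rfl hJIW
    exact abs_of_two _ _ ε _ _ (by have := SPZ_nonneg (lG s e σ v) z0; positivity) hlo hup h1 h2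
  have hu := (Finset.card_le_card hsub).trans ((Finset.card_union_le _ _).trans
      (Nat.add_le_add_left (Finset.card_union_le _ _) _))
  have hu' : (F.card : ℝ) ≤ ((Om k t H).filter (Dev1 (wG s e σ) z0 K θ)).card +
      (((Om k t H).filter (BadPP (wG s e σ) K N)).card + ((Om k t H).filter (BadS Z)).card) := by exact_mod_cast hu
  have : 0 ≤ ε * (H : ℝ) ^ (k + 1) := by positivity
  linarith

end Pool.Agent.H570.CD
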