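import Mathlib
import Pool.Agent.H570.CD.OneMain

/-! One critical length, with the full singular series. -/

set_option autoImplicit false

namespace Pool.Agent.H570.CD

open Finset Filter Topology Pool.Agent.H570.LQ Pool.Agent.H570.TH

/-- the formula at one length, with the full singular series -/
def FormF1 {k : ℕ} (w : Fin k → ℕ → ℕ → ℕ) (l : Fin k → ℤ × ℤ) (ε : ℝ) (T : ℕ) (x : ℝ) (v : ℕ × (Fin k → ℕ)) : Prop :=
  ∃ S : ℝ, Tendsto (SPZ l) atTop (𝓝 S) ∧ |(PiW w v T : ℝ) - S * T / x ^ k| ≤ ε * (S * T / x ^ k)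

lemma form_full1 {k : ℕ} (w : Fin k → ℕ → ℕ → ℕ) (l : Fin k → ℤ × ℤ) (z : ℕ) (ε ε' : ℝ) (T : ℕ) (x : ℝ)
    (v : ℕ × (Fin k → ℕ)) (S : ℝ)
    (hx : 0 < x) (hε0 : 0 < ε') (hε1 : ε' ≤ 1 / 8) (hε2 : ε' ≤ ε / 8) (hS1 : Tendsto (SPZ l) atTop (𝓝 S))
    (h5 : |S - SPZ l z| ≤ ε' * SPZ l z) (hform : Form1 w l z ε' T x v) : FormF1 w l ε T x v := by
  have h := form_full w l z ε ε' T T x v S hx hε0 hε1 hε2 hS1 h5 (fun T' h1 h2 => by
    have e : T' = T := le_antisymm (by exact_mod_cast h2) (by exact_mod_cast h1)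
    rw [e]; exact hform)
  obtain ⟨S', hS', h'⟩ := h
  exact ⟨S', hS', h' T le_rfl le_rfl⟩

theorem main_oneF (k : ℕ) (hk : 1 ≤ k) (ε : ℝ) (hε : 0 < ε) : ∃ C : ℝ, 0 < C ∧ ∀ A : ℕ,
    ∀ᶠ H : ℕ in atTop, ∀ (t : ℕ) (s e : Fin k → ℕ) (σ : Fin k → Bool) (K : ℕ),
    (t : ℝ) ≤ H * Real.log H ^ A → (∀ i, (s i : ℝ) ≤ H * Real.log H ^ A) → (∀ i, (e i : ℝ) ≤ Real.log H ^ A) →
    C * Real.log H ^ k ≤ K → (K : ℝ) ≤ Real.log H ^ A → (∀ i, σ i = false → K ≤ e i) →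
    ∀ F : Finset (ℕ × (Fin k → ℕ)), (∀ v ∈ F, v ∈ Om k t H ∧
      ¬ FormF1 (wG s e σ) (lG s e σ v) ε K (Real.log H) v) →
    (F.card : ℝ) ≤ ε * (H : ℝ) ^ (k + 1) := by
  classical
  set ε' : ℝ := min ε 1 / 8 with hε'
  have hε'0 : 0 < ε' := by positivity
  have hε'1 : ε' ≤ 1 / 8 := by have := min_le_right ε 1; linarith
  have hε'2 : ε' ≤ ε / 8 := by have := min_le_left ε 1; linarith
  obtain ⟨z0, hz0⟩ := main_one k hk ε' hε'0
  have hCk := Ck_pos k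
  set η : ℝ := Real.log (1 + ε') / (2 * Ck k) with hη
  have hη0 : 0 < η := div_pos (Real.log_pos (by linarith)) (by positivity)
  have hkr : (1 : ℝ) ≤ k := by exact_mod_cast hk
  obtain ⟨z1, hz1⟩ := exists_nat_ge (1 / η + 8 * (4 * k + 2 * k ^ 2 / η) / ε + 1)
  set z := max z0 z1 with hz
  have hzr : 1 / η + 8 * (4 * k + 2 * k ^ 2 / η) / ε + 1 ≤ z := hz1.trans (by exact_mod_cast le_max_right _ _)
  have hp1 : 0 < 1 / η := by positivity
  have hp2 : 0 < 8 * (4 * k + 2 * (k : ℝ) ^ 2 / η) / ε := by positivity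
  have hz1' : (1 : ℝ) ≤ z := by linarith
  have hz1n : 1 ≤ z := by exact_mod_cast hz1'
  have hzη : 1 / (z : ℝ) ≤ η := by
    rw [one_div_le (by linarith) hη0]; linarith
  have hexp : Real.exp (Ck k * (1 / z + η)) - 1 ≤ ε' := by
    have h1 : Ck k * (1 / z + η) ≤ Real.log (1 + ε') := by
      calc Ck k * (1 / z + η) ≤ Ck k * (η + η) := mul_le_mul_of_nonneg_left (by linarith) hCk.le
        _ = Real.log (1 + ε') := by rw [hη]; field_simp; ring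
    have h2 := Real.exp_le_exp.2 h1
    rw [Real.exp_log (by linarith)] at h2
    linarith
  have hzε : k * (4 / (z : ℝ)) + 2 * (k : ℝ) ^ 2 / η * (1 / z) ≤ ε / 8 := by
    have h1 : 8 * (4 * k + 2 * (k : ℝ) ^ 2 / η) / ε ≤ z := by linarith
    rw [div_le_iff₀ hε] at h1
    have h2 : k * (4 / (z : ℝ)) + 2 * (k : ℝ) ^ 2 / η * (1 / z) = (4 * k + 2 * (k : ℝ) ^ 2 / η) / z := by ring
    rw [h2, div_le_iff₀ (by linarith)]
    linarith
  obtain ⟨C, hC0, hC⟩ := hz0 z (le_max_left _ _)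
  refine ⟨C, hC0, fun A => ?_⟩
  set D := 2 * A + 1 with hD
  set c : ℝ := ε / (8 * (k + k ^ 2 + 2 * k ^ 2 / η)) with hc
  have hc0 : 0 < c := by positivity
  filter_upwards [hC A, ev1 (max 4 (2 * D + 6)), ev4 (2 * D + 2) c hc0, eventually_ge_atTop 3] with
    H hmain hx hsm hH3 t s e σ K ht hs he hCK hKx hσ F hF
  set x := Real.log H with hxd
  have hx4 : 4 ≤ x := le_trans (le_max_left _ _) hx
  have hx3 : 3 ≤ x := by linarith
  have hxD : 2 * (D : ℝ) + 6 ≤ x := le_trans (le_max_right _ _) hx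
  have hHr : (3 : ℝ) ≤ H := by exact_mod_cast hH3
  have hH1 : 1 ≤ H := by omega
  have hHk : 0 < (H : ℝ) ^ (k + 1) := by positivity
  obtain ⟨e1, e2, e3, hYl⟩ := Y_num D H (⌈x ^ D⌉₊ + 1) x c hxd hx3 hxD hH3 hc0 rfl hsm
  set Y : ℕ := ⌈x ^ D⌉₊ + 1 with hY
  have h0Y : (H : ℝ) * (x ^ D + 1) ≤ H * Y := mul_le_mul_of_nonneg_left hYl (by linarith)
  have hxA : 1 ≤ x ^ A := one_le_pow₀ (by linarith)
  have hxAD : x ^ D = x ^ A * x ^ A * x := by rw [hD]; ring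
  have hxAA : (1 : ℝ) ≤ x ^ A * x ^ A := by nlinarith
  have hx4D : 4 * (x ^ A * x ^ A) ≤ x ^ D := by
    rw [hxAD]
    nlinarith
  have hsY : ∀ i, s i + H + (t + H) * e i ≤ H * Y := by
    intro i
    have h1 := hs i
    have h2 := he i
    have h3 : (t : ℝ) + H ≤ 2 * (H * x ^ A) := by
      have : (H : ℝ) ≤ H * x ^ A := le_mul_of_one_le_right (by linarith) hxA
      linarith
    have h4 : ((t : ℝ) + H) * e i ≤ (2 * (H * x ^ A)) * x ^ A := mul_le_mul h3 h2 (Nat.cast_nonneg _) (by positivity)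
    have h5 : (H : ℝ) * x ^ A ≤ H * (x ^ A * x ^ A) := mul_le_mul_of_nonneg_left (le_mul_of_one_le_left (by linarith) hxA) (by linarith)
    have h6 : (H : ℝ) * (4 * (x ^ A * x ^ A)) ≤ H * x ^ D := mul_le_mul_of_nonneg_left hx4D (by linarith)
    have h7 : 0 ≤ (H : ℝ) * (x ^ A * x ^ A) := by positivity
    have h2 : (s i : ℝ) + H + (t + H) * e i ≤ H * Y := by linarith
    exact_mod_cast h2
  have hsY0 : ∀ i, s i + H ≤ H * Y := fun i => le_trans (Nat.le_add_right _ _) (hsY i)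
  have htY : t + H ≤ H * Y := by
    have h1 : x ^ A ≤ x ^ D := pow_le_pow_right₀ (by linarith) (by omega)
    have h3 : (H : ℝ) * x ^ A ≤ H * x ^ D := mul_le_mul_of_nonneg_left h1 (by linarith)
    have h2 : (t : ℝ) + H ≤ H * Y := by linarith
    exact_mod_cast h2
  -- the bad sets
  have b1 := card_VBO s t H z Y hH1 hz1n hsY0 htY
  have b2 := card_degG s e σ t H hH1
  have b3 := card_MgG hk s e σ t H z (2 * (H * Y) ^ 2) η hη0 hH1 hz1n
  have btot : k * (4 / (z : ℝ) + (Y : ℝ) ^ 2 / H) + (k : ℝ) ^ 2 * (1 / H) +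
      2 * (k : ℝ) ^ 2 / η * (1 / z + (1 + Real.log ((2 * (H * Y) ^ 2 : ℕ) : ℝ)) / H) ≤ ε / 4 := by
    have hcc : (k + (k : ℝ) ^ 2 + 2 * (k : ℝ) ^ 2 / η) * c = ε / 8 := by rw [hc]; field_simp
    calc _ = (k * (4 / (z : ℝ)) + 2 * (k : ℝ) ^ 2 / η * (1 / z)) + (k * ((Y : ℝ) ^ 2 / H) + (k : ℝ) ^ 2 * (1 / H) +
          2 * (k : ℝ) ^ 2 / η * ((1 + Real.log ((2 * (H * Y) ^ 2 : ℕ) : ℝ)) / H)) := by ring
      _ ≤ ε / 8 + (k * c + (k : ℝ) ^ 2 * c + 2 * (k : ℝ) ^ 2 / η * c) := by gcongr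
      _ = ε / 8 + (k + (k : ℝ) ^ 2 + 2 * (k : ℝ) ^ 2 / η) * c := by ring
      _ = ε / 4 := by rw [hcc]; ring
  -- the good set
  set G := F.filter (fun v => (¬ ∃ i, VBO s z i v) ∧ (¬ ∃ ij, QdG s e σ ij v) ∧ ¬ MgG s e σ z (2 * (H * Y) ^ 2) η v) with hG
  have hGc : (G.card : ℝ) ≤ ε' * (H : ℝ) ^ (k + 1) := by
    refine hmain t s e σ K ht hs he hCK hKx hσ G fun v hv => ?_
    obtain ⟨hvF, h1, h2, h3⟩ := Finset.mem_filter.1 hv
    obtain ⟨hvB, hvn⟩ := hF v hvF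
    refine ⟨hvB, fun hform => hvn ?_⟩
    obtain ⟨S, hS1, hS2⟩ := tail_G s e σ t H z Y η hz1n hsY htY v hvB h1 h2 h3
    have h5 : |S - SPZ (lG s e σ v) z| ≤ ε' * SPZ (lG s e σ v) z :=
      hS2.trans (mul_le_mul_of_nonneg_right hexp (SPZ_nonneg _ _))
    exact form_full1 _ _ z ε ε' K x v S (by linarith) hε'0 hε'1 hε'2 hS1 h5 hform
  have hsub : F ⊆ G ∪ ((Om k t H).filter (fun v => ∃ i, VBO s z i v) ∪ ((Om k t H).filter (fun v => ∃ ij, QdG s e σ ij v) ∪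
      (Om k t H).filter (MgG s e σ z (2 * (H * Y) ^ 2) η))) := by
    intro v hv
    have hvB := (hF v hv).1
    by_cases h1 : ∃ i, VBO s z i v
    · exact Finset.mem_union_right _ (Finset.mem_union_left _ (Finset.mem_filter.2 ⟨hvB, h1⟩))
    by_cases h2 : ∃ ij, QdG s e σ ij v
    · exact Finset.mem_union_right _ (Finset.mem_union_right _ (Finset.mem_union_left _ (Finset.mem_filter.2 ⟨hvB, h2⟩)))
    by_cases h3 : MgG s e σ z (2 * (H * Y) ^ 2) η v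
    · exact Finset.mem_union_right _ (Finset.mem_union_right _ (Finset.mem_union_right _ (Finset.mem_filter.2 ⟨hvB, h3⟩)))
    exact Finset.mem_union_left _ (Finset.mem_filter.2 ⟨hv, h1, h2, h3⟩)
  have hcard := (Finset.card_le_card hsub).trans ((Finset.card_union_le _ _).trans
      (Nat.add_le_add_left ((Finset.card_union_le _ _).trans (Nat.add_le_add_left (Finset.card_union_le _ _) _)) _))
  have hcard' : (F.card : ℝ) ≤ G.card + (((Om k t H).filter (fun v => ∃ i, VBO s z i v)).card +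
      (((Om k t H).filter (fun v => ∃ ij, QdG s e σ ij v)).card +
      ((Om k t H).filter (MgG s e σ z (2 * (H * Y) ^ 2) η)).card)) := by exact_mod_cast hcard
  have hb := mul_le_mul_of_nonneg_right btot hHk.le
  have hee : ε' * (H : ℝ) ^ (k + 1) ≤ ε / 8 * (H : ℝ) ^ (k + 1) := mul_le_mul_of_nonneg_right hε'2 hHk.le
  have h0 : 0 ≤ ε * (H : ℝ) ^ (k + 1) := by positivity
  linarith

end Pool.Agent.H570.CD
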