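import Mathlib
import Pool.Agent.H570.CD.OneFull

/-! The parameters, uniformly in `z0`. -/

set_option autoImplicit false

namespace Pool.Agent.H570.CD

open Finset Filter Topology Pool.Agent.H570.LQ Pool.Agent.H570.TH
open Pool.Agent.H373R2.T7 (pz Vz mem_pz Vz_pos Vz_inv_small singZ singZ_eq rhoP rhoP_le nuP)

lemma paramsU (k A B1 D m : ℕ) (hm : 1 ≤ m) (hAD : A + B1 ≤ D) : ∀ᶠ H : ℕ in atTop,
    ∀ z0 : ℕ, 1 ≤ z0 → (z0 : ℝ) ≤ Real.log H → (Vz z0)⁻¹ ≤ Real.log H →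
    Real.log H ^ m * (PW z0 * ((Vz z0)⁻¹) ^ 2 + 1) ≤ Real.sqrt H → ∀ K : ℕ, 1 ≤ K → (K : ℝ) ≤ Real.log H ^ B1 → ∀ t : ℕ, (t : ℝ) ≤ H * Real.log H ^ A →
    ∀ w : Fin k → ℕ → ℕ → ℕ, Offs w t H K (3 * (H * Real.log H ^ D)) →
    ∃ (z : ℕ) (Ex : Finset ℕ), Hyp w t H K (NG (D + 1) H) z z0 (2 * Real.log H) (2 / Real.log H ^ m) Ex := by
  set B := D + 1 with hB
  obtain ⟨E, hE⟩ := pairs B m
  have hN : Tendsto (fun H : ℕ => NG B H) atTop atTop := by
    refine tendsto_atTop_mono' atTop ?_ tendsto_id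
    filter_upwards [NG_facts B 1 one_pos] with H hH
    exact hH.1
  filter_upwards [hE, hN.eventually (one_mod 1 (m + B)), NG_facts B 1 one_pos,
    ev1 8, ev4 (m + 1) 1 one_pos,
    eventually_ge_atTop 3] with H h1 h2 h3 h4 h6 h7 z0 hz0 hxz hxV h9 K hK1 hK t ht w hw
  have hV0 : 0 ≤ (Vz z0)⁻¹ := inv_nonneg.2 (Vz_pos z0).le
  obtain ⟨z, hz1, hz2, hz3, Ex, hEx1, hEx2⟩ := h1
  obtain ⟨f1, f2, f3, f4⟩ := h3
  set N := NG B H with hNd
  set x := Real.log H with hx
  have hHr : (3 : ℝ) ≤ H := by exact_mod_cast h7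
  have hx8 : (8 : ℝ) ≤ x := h4
  have hx0 : 0 < x := by linarith
  have hx1 : 1 ≤ x := by linarith
  have hxm : 1 ≤ x ^ m := one_le_pow₀ hx1
  have hNr : (3 : ℝ) ≤ N := by
    have : (H : ℝ) ≤ N := by exact_mod_cast f1
    linarith
  have hmod : ∀ z : ℕ, 1 ≤ z → (z : ℝ) ≤ x → ∀ (a : ℤ) (y : ℕ), y ≤ N →
      |∑ n ∈ Icc 1 y, vM n * mz z ((n : ℤ) + a) - sg z a * y| ≤ (2 / x ^ m) * H / 2 := by
    intro z hz hzx a y hy
    refine (h2 z hz (by rw [pow_one]; linarith) a y hy).trans ?_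
    calc (N : ℝ) / Real.log N ^ (m + B) ≤ (H * x ^ B) / x ^ (m + B) :=
          div_le_div₀ (by positivity) f2 (by positivity) (pow_le_pow_left₀ hx0.le f4 _)
      _ = (2 / x ^ m) * H / 2 := by
          have : x ^ (m + B) = x ^ m * x ^ B := pow_add x m B
          rw [this]
          have hB0 : x ^ B ≠ 0 := by positivity
          have hm0 : x ^ m ≠ 0 := by positivity
          generalize x ^ B = b at hB0 ⊢
          field_simp
  refine ⟨z, Ex, ⟨by omega, hw.1, ?_, ?_, by linarith, by linarith, ?_, hz0, hz3, by linarith, by positivity, ?_, ?_, ?_,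
    fun a y hy => hmod z0 hz0 hxz a y hy, ?_, ?_⟩⟩
  · intro i d n hd hn
    apply Nat.le_floor
    push_cast
    have h8 := hw.2 i d n hd hn
    have h9 : (H : ℝ) ≤ H * x ^ D := le_mul_of_one_le_right (by linarith) (one_le_pow₀ hx1)
    calc (w i d n : ℝ) + H ≤ 4 * (H * x ^ D) := by linarith
      _ ≤ x * (H * x ^ D) := mul_le_mul_of_nonneg_right (by linarith) (by positivity)
      _ = H * x ^ B := by rw [hB]; ring
  · apply Nat.le_floor
    push_cast
    have hxA : 1 ≤ x ^ A := one_le_pow₀ hx1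
    have h8 : (t : ℝ) + H ≤ 2 * (H * x ^ A) := by
      have : (H : ℝ) ≤ H * x ^ A := le_mul_of_one_le_right (by linarith) hxA
      linarith
    calc ((t : ℝ) + H) * K ≤ (2 * (H * x ^ A)) * x ^ B1 := mul_le_mul h8 hK (by positivity) (by positivity)
      _ = 2 * (H * x ^ (A + B1)) := by ring
      _ ≤ x * (H * x ^ D) := by
          have h9 : x ^ (A + B1) ≤ x ^ D := pow_le_pow_right₀ hx1 hAD
          exact mul_le_mul (by linarith) (mul_le_mul_of_nonneg_left h9 (by linarith)) (by positivity) hx0.le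
      _ = H * x ^ B := by rw [hB]; ring
  · have : (z0 : ℝ) ≤ z := hxz.trans hz1
    exact_mod_cast this
  · rw [div_le_one (by positivity)]
    have h8 : x ≤ x ^ m := le_self_pow₀ hx1 (by omega)
    linarith
  · intro D hD1 hD2 hD3 y hy
    refine (hEx2 D hD1 hD2 hD3 y hy).trans (le_of_eq ?_)
    field_simp
  · refine hEx1.trans ?_
    have : (0 : ℝ) ≤ H / x ^ m := by positivity
    have e : 2 / x ^ m * (H : ℝ) = 2 * (H / x ^ m) := by ring
    rw [e]; linarith
  · intro y hy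
    have h8 := hmod 1 le_rfl (by push_cast; linarith) 0 y hy
    simp only [mz_one, sg_one, mul_one, one_mul] at h8
    refine h8.trans ?_
    have h9 : x ≤ x ^ m := le_self_pow₀ hx1 (by omega)
    have h10 : 2 / x ^ m ≤ 1 := by
      rw [div_le_one (by positivity)]; linarith
    nlinarith
  · have h10 : Real.sqrt H ≤ H := by
      rw [Real.sqrt_le_left (by linarith)]
      nlinarith
    have h11 : (PW z0 : ℝ) * ((Vz z0)⁻¹) ^ 2 * x ^ m ≤ H := by
      have : 0 ≤ x ^ m := by positivity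
      nlinarith
    have e : 2 / x ^ m * (H : ℝ) = 2 * H / x ^ m := by ring
    rw [e, le_div_iff₀ (by positivity)]
    linarith

end Pool.Agent.H570.CD
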