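import Mathlib
import Pool.Agent.H570.CD.ParU

/-! The growing sieve parameter. -/

set_option autoImplicit false

namespace Pool.Agent.H570.CD

open Finset Filter Topology Pool.Agent.H570.LQ Pool.Agent.H570.TH
open Pool.Agent.H373R2.T7 (pz Vz mem_pz Vz_pos Vz_inv_small singZ singZ_eq rhoP rhoP_le nuP)

/-- the sieve parameter: the integer part of `(log H) ^ (1 / K)` -/
noncomputable def zz (K H : ℕ) : ℕ := ⌊(Real.log H) ^ (1 / (K : ℝ))⌋₊

lemma zz_pow (K H : ℕ) (hK : 1 ≤ K) (h : 0 ≤ Real.log H) : ((zz K H : ℕ) : ℝ) ^ K ≤ Real.log H := by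
  have h1 : ((zz K H : ℕ) : ℝ) ≤ (Real.log H) ^ (1 / (K : ℝ)) := Nat.floor_le (by positivity)
  have h2 : ((Real.log H) ^ (1 / (K : ℝ))) ^ K = Real.log H := by
    rw [one_div]; exact Real.rpow_inv_natCast_pow h (by omega)
  calc _ ≤ ((Real.log H) ^ (1 / (K : ℝ))) ^ K := pow_le_pow_left₀ (Nat.cast_nonneg _) h1 K
    _ = _ := h2

lemma zz_ge (K H : ℕ) (hK : 1 ≤ K) (h : 0 ≤ Real.log H) : Real.log H ≤ ((zz K H : ℕ) + 1 : ℝ) ^ K := by
  have h1 : (Real.log H) ^ (1 / (K : ℝ)) ≤ (zz K H : ℕ) + 1 := (Nat.lt_floor_add_one _).le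
  have h2 : ((Real.log H) ^ (1 / (K : ℝ))) ^ K = Real.log H := by
    rw [one_div]; exact Real.rpow_inv_natCast_pow h (by omega)
  calc Real.log H = ((Real.log H) ^ (1 / (K : ℝ))) ^ K := h2.symm
    _ ≤ _ := pow_le_pow_left₀ (by positivity) h1 K

lemma zz_tendsto (K : ℕ) (hK : 1 ≤ K) : Tendsto (fun H : ℕ => zz K H) atTop atTop := by
  rw [tendsto_atTop]
  intro M
  filter_upwards [ev1 ((M + 1 : ℝ) ^ K), ev1 0] with H h1 h0
  have h2 := h1.trans (zz_ge K H hK h0)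
  have h3 : (M + 1 : ℝ) ≤ (zz K H : ℕ) + 1 := le_of_pow_le_pow_left₀ (by omega) (by positivity) h2
  have h4 : (M : ℝ) ≤ (zz K H : ℕ) := by linarith
  exact_mod_cast h4

lemma Vz_inv_one (z : ℕ) : 1 ≤ (Vz z)⁻¹ := by
  rw [one_le_inv₀ (Vz_pos z)]
  unfold Vz
  refine Finset.prod_le_one (fun p hp => ?_) fun p hp => ?_
  · have : (2 : ℝ) ≤ p := by exact_mod_cast (mem_pz.1 hp).2.two_le
    have h : 1 / (p : ℝ) ≤ 1 := by rw [div_le_one (by linarith)]; linarith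
    linarith
  · have : 0 ≤ 1 / (p : ℝ) := by positivity
    linarith

lemma dec_z (k K : ℕ) (hK : 1 ≤ K) (η : ℝ) (hη : 0 < η) : ∀ᶠ z : ℕ in atTop, ∀ x : ℝ, 1 ≤ x → x ≤ ((z : ℝ) + 1) ^ K →
    ((Vz z)⁻¹) ^ k / Real.sqrt z * (1 + Real.log x) ≤ η := by
  obtain ⟨C, hC0, hC⟩ := Vz_log
  have hKr : (1 : ℝ) ≤ K := by exact_mod_cast hK
  filter_upwards [ev4 (2 * k + 1) (η / (C ^ k * (3 * K))) (by positivity), eventually_ge_atTop 3] with z h1 h2 x hx hxz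
  have hz3 : (3 : ℝ) ≤ z := by exact_mod_cast h2
  have hs : 0 < Real.sqrt z := Real.sqrt_pos.2 (by linarith)
  have hV0 : 0 ≤ (Vz z)⁻¹ := inv_nonneg.2 (Vz_pos z).le
  have hl1 : 1 ≤ Real.log z := by
    rw [Real.le_log_iff_exp_le (by linarith)]
    have := Real.exp_one_lt_d9
    linarith
  have h3 : Real.log x ≤ K * (2 * Real.log z) := by
    calc Real.log x ≤ Real.log (((z : ℝ) + 1) ^ K) := Real.log_le_log (by linarith) hxz
      _ = K * Real.log ((z : ℝ) + 1) := Real.log_pow _ _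
      _ ≤ K * Real.log ((z : ℝ) ^ 2) := by
          refine mul_le_mul_of_nonneg_left (Real.log_le_log (by linarith) (by nlinarith)) (by linarith)
      _ = K * (2 * Real.log z) := by rw [Real.log_pow]; push_cast; ring
  have h4 : 1 + Real.log x ≤ 3 * K * Real.log z := by
    have : 1 ≤ K * Real.log z := one_le_mul_of_one_le_of_one_le hKr hl1
    linarith
  have h5 : ((Vz z)⁻¹) ^ k ≤ C ^ k * Real.log z ^ (2 * k) := by
    calc ((Vz z)⁻¹) ^ k ≤ (C * Real.log z ^ 2) ^ k := pow_le_pow_left₀ hV0 (hC z h2) k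
      _ = _ := by rw [mul_pow, ← pow_mul]
  have h6 : 0 ≤ Real.log x := Real.log_nonneg hx
  rw [div_mul_eq_mul_div, div_le_iff₀ hs]
  calc ((Vz z)⁻¹) ^ k * (1 + Real.log x) ≤ (C ^ k * Real.log z ^ (2 * k)) * (3 * K * Real.log z) :=
        mul_le_mul h5 h4 (by linarith) (by positivity)
    _ = (C ^ k * (3 * K)) * Real.log z ^ (2 * k + 1) := by ring
    _ ≤ (C ^ k * (3 * K)) * (η / (C ^ k * (3 * K)) * Real.sqrt z) := mul_le_mul_of_nonneg_left h1 (by positivity)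
    _ = η * Real.sqrt z := by field_simp

lemma inv_z (k z : ℕ) (hz : 1 ≤ z) : 1 / (z : ℝ) ≤ ((Vz z)⁻¹) ^ k / Real.sqrt z := by
  have hzr : (1 : ℝ) ≤ z := by exact_mod_cast hz
  have hs : 1 ≤ Real.sqrt z := by rw [Real.one_le_sqrt]; exact hzr
  have h1 : (1 : ℝ) ≤ ((Vz z)⁻¹) ^ k := one_le_pow₀ (Vz_inv_one z)
  have h2 : Real.sqrt z * Real.sqrt z = z := Real.mul_self_sqrt (by linarith)
  rw [div_le_div_iff₀ (by linarith) (by linarith), one_mul]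
  have h3 : Real.sqrt z ≤ z := by nlinarith
  have h4 : (z : ℝ) ≤ ((Vz z)⁻¹) ^ k * z := le_mul_of_one_le_left (by linarith) h1
  linarith

lemma PW_four (z : ℕ) : (PW z : ℝ) ≤ 4 ^ z := by
  have h1 : PW z = primorial z := by
    unfold PW primorial
    refine Finset.prod_congr ?_ fun _ _ => rfl
    ext p
    simp only [mem_filter, mem_Icc, mem_range]
    constructor
    · rintro ⟨⟨h1, h2⟩, h3⟩; exact ⟨by omega, h3⟩
    · rintro ⟨h1, h3⟩; exact ⟨⟨h3.one_lt.le, by omega⟩, h3⟩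
  rw [h1]
  exact_mod_cast primorial_le_four_pow z

lemma zcond (m : ℕ) : ∀ᶠ H : ℕ in atTop, ∀ z0 : ℕ, 1 ≤ z0 → (z0 : ℝ) ^ 2 ≤ Real.log H →
    (z0 : ℝ) ≤ Real.log H ∧ (Vz z0)⁻¹ ≤ Real.log H ∧
    Real.log H ^ m * (PW z0 * ((Vz z0)⁻¹) ^ 2 + 1) ≤ Real.sqrt H := by
  obtain ⟨N0, hN0⟩ := Vz_inv_small 1
  filter_upwards [ev1 64, ev4 (2 * m + 4) (1 / 4) (by norm_num), eventually_ge_atTop (max N0 3)] with H hx hsm hH z0 hz1 hz2
  have hH3 : 3 ≤ H := le_trans (le_max_right _ _) hH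
  have hHr : (3 : ℝ) ≤ H := by exact_mod_cast hH3
  set x := Real.log H with hxd
  have hz1r : (1 : ℝ) ≤ z0 := by exact_mod_cast hz1
  have hzx : (z0 : ℝ) ≤ x := by nlinarith
  have hV : (Vz z0)⁻¹ ≤ x := hN0 H (le_trans (le_max_left _ _) hH) z0 hz1 (by rw [pow_one]; exact hzx)
  have hV0 : 0 ≤ (Vz z0)⁻¹ := inv_nonneg.2 (Vz_pos z0).le
  refine ⟨hzx, hV, ?_⟩
  have hx1 : 1 ≤ x := by linarith
  have hz8 : (z0 : ℝ) ≤ x / 8 := by
    by_contra hcon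
    push Not at hcon
    nlinarith
  have h16 : (16 : ℝ) ^ z0 ≤ Real.sqrt H := by
    have h1 : Real.sqrt H = Real.exp (x / 2) := by
      rw [hxd, Real.sqrt_eq_rpow, Real.rpow_def_of_pos (by linarith)]
      congr 1; ring
    have h2 : (16 : ℝ) ^ z0 = Real.exp (z0 * Real.log 16) := by
      rw [← Real.rpow_natCast, Real.rpow_def_of_pos (by norm_num)]
      congr 1; ring
    rw [h1, h2]
    refine Real.exp_le_exp.2 ?_
    have h3 : Real.log 16 ≤ 4 := by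
      have h4 : Real.log 16 = 4 * Real.log 2 := by
        rw [show (16 : ℝ) = 2 ^ (4 : ℕ) by norm_num, Real.log_pow]; norm_num
      have := Real.log_two_lt_d9
      linarith
    have h5 : 0 ≤ Real.log 16 := Real.log_nonneg (by norm_num)
    calc (z0 : ℝ) * Real.log 16 ≤ (x / 8) * 4 := mul_le_mul hz8 h3 h5 (by linarith)
      _ = x / 2 := by ring
  have h4pow : (1 : ℝ) ≤ 4 ^ z0 := one_le_pow₀ (by norm_num)
  have hsq : (2 * x ^ (m + 2) * 4 ^ z0) ^ 2 ≤ (Real.sqrt H) ^ 2 := by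
    have e : (2 * x ^ (m + 2) * 4 ^ z0 : ℝ) ^ 2 = (4 * x ^ (2 * m + 4)) * 16 ^ z0 := by
      rw [mul_pow, mul_pow, ← pow_mul, ← pow_mul, show (16 : ℝ) = 4 ^ 2 by norm_num, ← pow_mul]
      have e1 : (m + 2) * 2 = 2 * m + 4 := by ring
      have e2 : z0 * 2 = 2 * z0 := by ring
      rw [e1, e2]; norm_num
    rw [e, pow_two]
    refine mul_le_mul ?_ h16 (by positivity) (Real.sqrt_nonneg _)
    linarith
  have h5 : 2 * x ^ (m + 2) * 4 ^ z0 ≤ Real.sqrt H := le_of_pow_le_pow_left₀ (by norm_num) (Real.sqrt_nonneg _) hsq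
  refine le_trans ?_ h5
  have hPW := PW_four z0
  have hPW0 : (0 : ℝ) ≤ PW z0 := Nat.cast_nonneg _
  have h6 : (PW z0 : ℝ) * ((Vz z0)⁻¹) ^ 2 ≤ 4 ^ z0 * x ^ 2 := mul_le_mul hPW (pow_le_pow_left₀ hV0 hV 2) (by positivity) (by positivity)
  have h7 : (1 : ℝ) ≤ 4 ^ z0 * x ^ 2 := one_le_mul_of_one_le_of_one_le h4pow (one_le_pow₀ hx1)
  calc x ^ m * (PW z0 * ((Vz z0)⁻¹) ^ 2 + 1) ≤ x ^ m * (4 ^ z0 * x ^ 2 + 4 ^ z0 * x ^ 2) :=
        mul_le_mul_of_nonneg_left (by linarith) (by positivity)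
    _ = 2 * x ^ (m + 2) * 4 ^ z0 := by ring

end Pool.Agent.H570.CD
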