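import Mathlib
import Pool.Agent.H570.CD.QPar
import Pool.Graph.R_seed8.H373R2.T7.Fund

/-! The mean of the model with a growing sieve parameter. -/

set_option autoImplicit false

namespace Pool.Agent.H570.CD

open Finset Filter Topology Pool.Agent.H570.LQ Pool.Agent.H570.TH
open Pool.Agent.H373R2.T7 (pz Vz mem_pz Vz_pos Vz_inv_small singZ singZ_eq rhoP rhoP_le nuP nuB PerB sys_fund)

/-- the condition at the prime `p` -/
def QC {k : ℕ} (l : Fin k → ℤ × ℤ) (z p n : ℕ) : Prop :=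
  p ≤ z ∧ ∃ i, (p : ℤ) ∣ (l i).1 + ((n % p : ℕ) : ℤ) * (l i).2

lemma card_filt (s : Finset ℕ) (P Q : ℕ → Prop) (i1 : DecidablePred P) (i2 : DecidablePred Q) (h : ∀ n ∈ s, (P n ↔ Q n)) :
    (@Finset.filter ℕ P i1 s).card = (@Finset.filter ℕ Q i2 s).card := by
  refine congrArg Finset.card (Finset.ext fun n => ?_)
  rw [@Finset.mem_filter ℕ P i1, @Finset.mem_filter ℕ Q i2]
  constructor
  · rintro ⟨h1, h2⟩; exact ⟨h1, (h n h1).1 h2⟩
  · rintro ⟨h1, h2⟩; exact ⟨h1, (h n h1).2 h2⟩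

lemma VB_full {k : ℕ} (l : Fin k → ℤ × ℤ) (p : ℕ) (h : VB l p) : nuZ l p = p := by
  obtain ⟨i, h1, h2⟩ := h
  unfold nuZ
  have h3 : (range p).filter (fun n : ℕ => ∃ i, (p : ℤ) ∣ (l i).1 + n * (l i).2) = range p := by
    rw [Finset.filter_eq_self]
    intro n _
    exact ⟨i, dvd_add h1 (h2.mul_left _)⟩
  rw [h3, Finset.card_range]

lemma SPZ_ne {k : ℕ} (l : Fin k → ℤ × ℤ) (z : ℕ) (h : SPZ l z ≠ 0) (p : ℕ) (hp : p.Prime) (hpz : p ≤ z) : ¬ VB l p := by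
  intro hV
  apply h
  unfold SPZ
  refine Finset.prod_eq_zero (Finset.mem_filter.2 ⟨mem_Icc.2 ⟨hp.one_lt.le, hpz⟩, hp⟩) ?_
  unfold sfZ
  have hp0 : (p : ℝ) ≠ 0 := by exact_mod_cast hp.ne_zero
  rw [VB_full l p hV, div_self hp0]
  simp

lemma nuB_QC {k : ℕ} (l : Fin k → ℤ × ℤ) (z p : ℕ) (hpz : p ≤ z) : nuB (QC l z) p = nuZ l p := by
  unfold nuB nuZ
  have h : ∀ n ∈ range p, (QC l z p n ↔ ∃ i, (p : ℤ) ∣ (l i).1 + (n : ℤ) * (l i).2) := by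
    intro n hn
    have hn' := Finset.mem_range.1 hn
    unfold QC
    rw [Nat.mod_eq_of_lt hn']
    exact ⟨fun h => h.2, fun h => ⟨hpz, h⟩⟩
  exact card_filt _ _ _ _ _ h

lemma PerB_QC {k : ℕ} (l : Fin k → ℤ × ℤ) (z : ℕ) (h : SPZ l z ≠ 0) : PerB (QC l z) k := by
  refine ⟨fun p n => ?_, fun p hp => ?_⟩
  · unfold QC
    rw [Nat.mod_mod]
  · by_cases hpz : p ≤ z
    · rw [nuB_QC l z p hpz]
      exact nu_le l p hp (SPZ_ne l z h p hp hpz)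
    · classical
      unfold nuB
      refine le_trans (le_of_eq ?_) (Nat.zero_le k)
      rw [card_filt (range p) (fun r => QC l z p r) (fun _ => False) _ (fun _ => instDecidableFalse) (fun n _ => ⟨fun h => hpz h.1, fun h => h.elim⟩)]
      simp

lemma SPZ_Vz {k : ℕ} (l : Fin k → ℤ × ℤ) (z : ℕ) :
    SPZ l z = ((Vz z)⁻¹) ^ k * ∏ p ∈ pz z, (1 - (nuB (QC l z) p : ℝ) / p) := by
  unfold SPZ Vz
  have e0 : (Icc 1 z).filter Nat.Prime = pz z := rfl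
  rw [e0, ← Finset.prod_inv_distrib, ← Finset.prod_pow, ← Finset.prod_mul_distrib]
  refine Finset.prod_congr rfl fun p hp => ?_
  rw [nuB_QC l z p (mem_pz.1 hp).1]
  unfold sfZ
  rw [inv_pow, div_eq_inv_mul]

open Classical in
lemma XM_card {k : ℕ} (w : Fin k → ℕ → ℕ → ℕ) (v : ℕ × (Fin k → ℕ)) (l : Fin k → ℤ × ℤ) (z T : ℕ) (hl : Rep w v T l) :
    XM w z v T = ((Vz z)⁻¹) ^ k * (((Icc 1 T).filter (fun n : ℕ => ∀ p ∈ pz z, ¬ QC l z p n)).card : ℝ) := by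
  have h1 : XM w z v T = ∑ n ∈ Icc 1 T, ∏ i, mz z ((l i).1 + n * (l i).2) := by
    have e0 : Icc 1 T = (range T).image (fun j => j + 1) := by
      ext n
      simp only [mem_image, mem_range, mem_Icc]
      constructor
      · intro h; exact ⟨n - 1, by omega, by omega⟩
      · rintro ⟨j, hj, rfl⟩; omega
    rw [e0, Finset.sum_image]
    · unfold XM MM
      refine Finset.sum_congr rfl fun j hj => ?_
      have hj' := Finset.mem_range.1 hj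
      refine Finset.prod_congr rfl fun i _ => ?_
      rw [hl (j + 1) (by omega) i]
    · intro a _ b _ hab
      have : a + 1 = b + 1 := hab
      omega
  rw [h1, Finset.sum_congr rfl fun n _ => prod_mz l z n, ← Finset.sum_filter, Finset.sum_const, nsmul_eq_mul, mul_comm]
  have h2 : ∀ n ∈ Icc 1 T, ((∀ p ∈ pz z, ∀ i, ¬ (p : ℤ) ∣ (l i).1 + ((n % p : ℕ) : ℤ) * (l i).2) ↔ ∀ p ∈ pz z, ¬ QC l z p n) := by
    intro n _
    constructor
    · intro h p hp hQ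
      obtain ⟨i, hi⟩ := hQ.2
      exact h p hp i hi
    · intro h p hp i hi
      exact h p hp ⟨(mem_pz.1 hp).1, i, hi⟩
  congr 2
  exact card_filt _ _ _ _ _ h2

open Classical in
/-- the mean of the model with a growing sieve parameter -/
theorem XM_fund (k : ℕ) (hk : 1 ≤ k) (u : ℝ) (hu : 0 < u) : ∃ K z1 : ℕ, 2 ≤ K ∧ ∀ z T : ℕ, z1 ≤ z → 1 ≤ z → z ^ K ≤ T →
    ∀ (w : Fin k → ℕ → ℕ → ℕ) (v : ℕ × (Fin k → ℕ)) (l : Fin k → ℤ × ℤ), Rep w v T l → SPZ l z ≠ 0 →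
    |XM w z v T - T * SPZ l z| ≤ u * (T * SPZ l z) + ((Vz z)⁻¹) ^ k * Real.sqrt T := by
  obtain ⟨K, x0, hK, hF⟩ := sys_fund k hk u hu
  refine ⟨max K 2, x0, le_max_right _ _, fun z T hz hz1 hzT w v l hl hS => ?_⟩
  have h1 : z ^ K ≤ T := (Nat.pow_le_pow_right hz1 (le_max_left _ _)).trans hzT
  have h2 := hF T z hz h1 (QC l z) (PerB_QC l z hS) T
  have hV0 : 0 ≤ ((Vz z)⁻¹) ^ k := pow_nonneg (inv_nonneg.2 (Vz_pos z).le) k
  rw [XM_card w v l z T hl, SPZ_Vz l z]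
  have h3 := mul_le_mul_of_nonneg_left h2 hV0
  rw [← abs_of_nonneg hV0, ← abs_mul, abs_of_nonneg hV0, mul_sub] at h3
  have e1 : ∀ Pr : ℝ, (T : ℝ) * (((Vz z)⁻¹) ^ k * Pr) = ((Vz z)⁻¹) ^ k * (T * Pr) := fun Pr => by ring
  rw [e1]
  have e2 : ∀ i1 : DecidablePred (fun n : ℕ => ∀ p ∈ pz z, ¬ QC l z p n), (@Finset.filter ℕ _ i1 (Icc 1 T)).card =
      ((Icc 1 T).filter (fun n : ℕ => ∀ p ∈ pz z, ¬ QC l z p n)).card := fun i1 => card_filt _ _ _ _ _ (fun n _ => Iff.rfl)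
  rw [e2] at h3
  refine h3.trans (le_of_eq ?_)
  ring

end Pool.Agent.H570.CD
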