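import Mathlib
import Pool.Agent.H570.CD.QFund

/-! One length, with an explicit small exceptional set. -/

set_option autoImplicit false

namespace Pool.Agent.H570.CD

open Finset Filter Topology Pool.Agent.H570.LQ Pool.Agent.H570.TH
open Pool.Agent.H373R2.T7 (pz Vz mem_pz Vz_pos Vz_inv_small singZ singZ_eq rhoP rhoP_le nuP)

/-- the final count, from the mean of the model -/
lemma final_oneU {k : ℕ} {w : Fin k → ℕ → ℕ → ℕ} {v : ℕ × (Fin k → ℕ)} {K N : ℕ} {x u : ℝ} (l : Fin k → ℤ × ℤ) (z0 : ℕ)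
    (hl : Rep w v K l) (h : Nice w v K N z0 x u) (hu : 0 < u) (hu1 : u ≤ 1 / 4)
    (hx : 0 < x) (c : ℝ) (hc0 : 0 < c) (hc : SPZ l z0 ≠ 0 → c ≤ SPZ l z0) (T : ℕ) (hT : 1 ≤ T)
    (hdev : ¬ Dev1 w z0 T (c * u) v) (hK : T ≤ K)
    (hmean : SPZ l z0 ≠ 0 → |XM w z0 v T / T - SPZ l z0| ≤ u * SPZ l z0) :
    (1 - 2 * u) * (1 - u) / ((1 + 2 * u) * (1 + u) ^ k) * (SPZ l z0 * T / x ^ k) ≤ PiW w v T ∧
    (PiW w v T : ℝ) ≤ (1 + 2 * u) ^ 2 * (1 + u) / (1 - u) ^ k * (SPZ l z0 * T / x ^ k) := by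
  by_cases h0 : SPZ l z0 = 0
  · rw [PiW_zero l hl h T hK h0, h0]
    simp
  have hTr : (1 : ℝ) ≤ T := by exact_mod_cast hT
  have hmean' := hmean h0
  set M := SPZ l z0 with hM
  have hMc : c ≤ M := hc h0
  have hM0 : 0 < M := by linarith
  have hu1k : 0 < (1 - u) ^ k := pow_pos (by linarith) k
  have hxk : 0 < x ^ k := by positivity
  unfold Dev1 at hdev
  push Not at hdev
  have h2 := abs_sub_le (XF w v T / T) (XM w z0 v T / T) M
  have h3 : c * u ≤ u * M := by rw [mul_comm]; exact mul_le_mul_of_nonneg_left hMc hu.le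
  have h4 : |XF w v T / T - M| ≤ 2 * u * M := by linarith
  have e0 : XF w v T = XF w v T / T * T := by field_simp
  have h5 : (1 - 2 * u) * (T * M) ≤ XF w v T := by
    rw [e0]
    have := mul_le_mul_of_nonneg_right (show (1 - 2 * u) * M ≤ XF w v T / T by have := (abs_le.1 h4).1; linarith)
      (show (0 : ℝ) ≤ T by linarith)
    linarith
  have h6 : XF w v T ≤ (1 + 2 * u) * (T * M) := by
    rw [e0]
    have := mul_le_mul_of_nonneg_right (show XF w v T / T ≤ (1 + 2 * u) * M by have := (abs_le.1 h4).2; linarith)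
      (show (0 : ℝ) ≤ T by linarith)
    linarith
  have hTM : 0 ≤ (T : ℝ) * M := by positivity
  have hb := XF_bounds h (by linarith) hx.le T hK
  constructor
  · have hden : 0 < ((1 + u) * x) ^ k := by positivity
    have h7 : (1 - 2 * u) * (1 - u) / ((1 + 2 * u) * (1 + u) ^ k) * (M * T / x ^ k) =
        ((1 - u) / (1 + 2 * u) * ((1 - 2 * u) * (T * M))) / ((1 + u) * x) ^ k := by
      rw [mul_pow]; field_simp
    rw [h7, div_le_iff₀ hden]
    have h8 : (1 - u) / (1 + 2 * u) ≤ 1 := by rw [div_le_one (by linarith)]; linarith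
    have h9 : 0 ≤ (1 - 2 * u) * (T * M) := mul_nonneg (by linarith) hTM
    have h10 : (1 - u) / (1 + 2 * u) * ((1 - 2 * u) * (T * M)) ≤ (1 - 2 * u) * (T * M) := mul_le_of_le_one_left h9 h8
    linarith [hb.2]
  · have hden : 0 < ((1 - u) * x) ^ k := by
      rw [mul_pow]; positivity
    have h7 : (1 + 2 * u) ^ 2 * (1 + u) / (1 - u) ^ k * (M * T / x ^ k) =
        ((1 + 2 * u) * (1 + u) * ((1 + 2 * u) * (T * M))) / ((1 - u) * x) ^ k := by
      rw [mul_pow]; field_simp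
    rw [h7, le_div_iff₀ hden]
    have h9 : 0 ≤ (1 + 2 * u) * (T * M) := by positivity
    have h10 : (1 + 2 * u) * (T * M) ≤ (1 + 2 * u) * (1 + u) * ((1 + 2 * u) * (T * M)) :=
      le_mul_of_one_le_left h9 (by nlinarith)
    linarith [hb.1]

/-- the size of the variance -/
lemma q_num (k T m : ℕ) (V x η1 C1 C2 sq : ℝ) (hx : 4 ≤ x) (hV0 : 0 ≤ V) (hC1 : 1 ≤ C1) (hC2 : 1 ≤ C2) (hsq : 1 ≤ sq)
    (hη : 0 < η1) (hdec : V / sq * (1 + Real.log x) ≤ η1) (hm : m = 2 * k + 2) (hk : 1 ≤ k)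
    (hx1 : 8 * (k + 1) * 4 ^ k / η1 ≤ x) (hV2 : V ^ 2 ≤ x) (hT : 1 ≤ T) :
    V * ((1 + 2 * C2 / sq) * (1 + C1 / sq) - 1) + 4 * ((k + 1) * (((2 * x) ^ 2) ^ k * (2 / x ^ m))) +
        ((2 * (2 * x)) ^ k + V ^ 2) * (1 / T) ≤
      (2 * C2 + C1 + 2 * C1 * C2 + 1) * (η1 / (1 + Real.log x)) + (4 ^ k + 1) * (x ^ k / T) := by
  have hx0 : 0 < x := by linarith
  have hlog : 0 ≤ Real.log x := Real.log_nonneg (by linarith)
  have hlogx : 1 + Real.log x ≤ x := by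
    have := Real.log_le_sub_one_of_pos hx0
    linarith
  have hTr : (1 : ℝ) ≤ T := by exact_mod_cast hT
  have hxk : 0 < x ^ k := by positivity
  have e1 : ((2 * x) ^ 2) ^ k = 4 ^ k * x ^ (2 * k) := by rw [← pow_mul, mul_pow, pow_mul]; norm_num
  have e4 : (2 * (2 * x)) ^ k = 4 ^ k * x ^ k := by rw [← mul_assoc, mul_pow]; norm_num
  have hC3 : 0 < 2 * C2 + C1 + 2 * C1 * C2 := by positivity
  have h1 : V / sq ≤ η1 / (1 + Real.log x) := by
    rw [le_div_iff₀ (by linarith)]; exact hdec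
  have b0 : V * ((1 + 2 * C2 / sq) * (1 + C1 / sq) - 1) ≤ (2 * C2 + C1 + 2 * C1 * C2) * (η1 / (1 + Real.log x)) := by
    refine VG_num V C1 C2 _ sq hV0 hC1 hC2 hsq ?_
    rw [mul_div_cancel_left₀ _ hC3.ne']
    exact h1
  have b1 : 4 * (((k : ℝ) + 1) * (((2 * x) ^ 2) ^ k * (2 / x ^ m))) ≤ η1 / (1 + Real.log x) := by
    have h2 : 4 * (((k : ℝ) + 1) * (((2 * x) ^ 2) ^ k * (2 / x ^ m))) = (8 * (k + 1) * 4 ^ k / x) / x := by
      have : x ^ m = x ^ (2 * k) * x * x := by rw [hm]; ring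
      rw [e1, this]; field_simp; ring
    rw [h2]
    have h3 : 8 * ((k : ℝ) + 1) * 4 ^ k / x ≤ η1 := by
      rw [div_le_iff₀ hx0]; rw [div_le_iff₀ hη] at hx1; linarith
    exact div_le_div₀ hη.le h3 (by linarith) hlogx
  have b2 : ((2 * (2 * x)) ^ k + V ^ 2) * (1 / T) ≤ (4 ^ k + 1) * (x ^ k / T) := by
    have h2 : x ≤ x ^ k := le_self_pow₀ (by linarith) (by omega)
    have h3 : (2 * (2 * x)) ^ k + V ^ 2 ≤ (4 ^ k + 1) * x ^ k := by
      rw [e4, add_mul, one_mul]; linarith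
    calc ((2 * (2 * x)) ^ k + V ^ 2) * (1 / T) ≤ ((4 ^ k + 1) * x ^ k) * (1 / T) :=
          mul_le_mul_of_nonneg_right h3 (by positivity)
      _ = _ := by ring
  have e : (2 * C2 + C1 + 2 * C1 * C2 + 1) * (η1 / (1 + Real.log x)) =
      (2 * C2 + C1 + 2 * C1 * C2) * (η1 / (1 + Real.log x)) + η1 / (1 + Real.log x) := by ring
  rw [e]
  linarith

end Pool.Agent.H570.CD
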