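import Mathlib
import Pool.Agent.H570.CD.QOne

/-! One length, with an explicit small exceptional set: the theorem. -/

set_option autoImplicit false

namespace Pool.Agent.H570.CD

open Finset Filter Topology Pool.Agent.H570.LQ Pool.Agent.H570.TH
open Pool.Agent.H373R2.T7 (pz Vz mem_pz Vz_pos Vz_inv_small singZ singZ_eq rhoP rhoP_le nuP)

lemma sz_num (A D H t sI eI T : ℕ) (x : ℝ) (hx : 8 ≤ x) (hD : D = 2 * A + 1)
    (ht : (t : ℝ) ≤ H * x ^ A) (hs : (sI : ℝ) ≤ H * x ^ A) (he : (eI : ℝ) ≤ x ^ A) (hT : (T : ℝ) ≤ x ^ A) :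
    ((sI + (t + H) * (eI + T) : ℕ) : ℝ) ≤ 3 * (H * x ^ D) ∧ (sI : ℝ) + H + (t + H) * eI ≤ H * (x ^ D + 1) ∧
    (t : ℝ) + H ≤ H * (x ^ D + 1) := by
  have hx1 : 1 ≤ x := by linarith
  have hx0 : 0 < x := by linarith
  have hH0 : (0 : ℝ) ≤ H := Nat.cast_nonneg _
  have hxA : 1 ≤ x ^ A := one_le_pow₀ hx1
  have htH : (t : ℝ) + H ≤ 2 * (H * x ^ A) := by
    have : (H : ℝ) ≤ H * x ^ A := le_mul_of_one_le_right hH0 hxA
    linarith
  have hxAD : x ^ D = x ^ A * x ^ A * x := by rw [hD]; ring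
  have hxAA : (1 : ℝ) ≤ x ^ A * x ^ A := one_le_mul_of_one_le_of_one_le hxA hxA
  have hx4D : 4 * (x ^ A * x ^ A) ≤ x ^ D := by
    rw [hxAD, mul_comm 4]
    exact mul_le_mul_of_nonneg_left (by linarith) (by linarith)
  have h5A : (H : ℝ) * x ^ A ≤ H * (x ^ A * x ^ A) :=
    mul_le_mul_of_nonneg_left (le_mul_of_one_le_left (by linarith) hxA) hH0
  have h6A : (H : ℝ) * (4 * (x ^ A * x ^ A)) ≤ H * x ^ D := mul_le_mul_of_nonneg_left hx4D hH0
  have h7A : 0 ≤ (H : ℝ) * (x ^ A * x ^ A) := by positivity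
  have h9 : (0 : ℝ) ≤ H * x ^ D := by positivity
  have hHD : (H : ℝ) * (x ^ D + 1) = H * x ^ D + H := by ring
  refine ⟨?_, ?_, ?_⟩
  · push_cast
    have h3 : ((t : ℝ) + H) * (eI + T) ≤ (2 * (H * x ^ A)) * (2 * x ^ A) :=
      mul_le_mul htH (by linarith) (by positivity) (by positivity)
    have h8 : (2 * (H * x ^ A)) * (2 * x ^ A) = H * (4 * (x ^ A * x ^ A)) := by ring
    linarith
  · have h4 : ((t : ℝ) + H) * eI ≤ (2 * (H * x ^ A)) * x ^ A := mul_le_mul htH he (Nat.cast_nonneg _) (by positivity)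
    linarith
  · linarith

lemma mean_num (T : ℕ) (XMT S u c V sq : ℝ) (hu : 0 < u) (hc : 0 < c) (hS : c ≤ S) (hT : 0 < (T : ℝ))
    (hsq0 : 0 < sq) (hsqT : sq ≤ Real.sqrt T) (hVd : V / sq ≤ u * c / 2)
    (h1 : |XMT - T * S| ≤ u / 2 * (T * S) + V * Real.sqrt T) : |XMT / T - S| ≤ u * S := by
  have h2 : XMT / T - S = (XMT - T * S) / T := by field_simp
  rw [h2, abs_div, abs_of_pos hT, div_le_iff₀ hT]
  refine h1.trans ?_
  have h3 : V * Real.sqrt T ≤ (u * c / 2) * T := by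
    have h5 : V ≤ (u * c / 2) * sq := by rwa [div_le_iff₀ hsq0] at hVd
    have h6 : V ≤ (u * c / 2) * Real.sqrt T := h5.trans (mul_le_mul_of_nonneg_left hsqT (by positivity))
    calc V * Real.sqrt T ≤ ((u * c / 2) * Real.sqrt T) * Real.sqrt T := mul_le_mul_of_nonneg_right h6 (Real.sqrt_nonneg _)
      _ = (u * c / 2) * (Real.sqrt T * Real.sqrt T) := by ring
      _ = _ := by rw [Real.mul_self_sqrt hT.le]
  have h4 : (u * c / 2) * T ≤ (u * S / 2) * T := by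
    refine mul_le_mul_of_nonneg_right ?_ hT.le
    have := mul_le_mul_of_nonneg_left hS hu.le
    linarith
  calc u / 2 * (T * S) + V * Real.sqrt T ≤ u / 2 * (T * S) + (u * S / 2) * T := by linarith
    _ = u * S * T := by ring

open Classical in
lemma badS_z (k K : ℕ) (hk : 1 ≤ k) (hK2 : 2 ≤ K) (ε u : ℝ) (hε : 0 < ε) (hu : 0 < u) : ∀ᶠ H : ℕ in atTop, ∀ t : ℕ,
    (((Om k t H).filter (BadS (zz K H + ⌈(H : ℝ) / (1 + u * Real.log H)⌉₊))).card : ℝ) ≤ ε * (H : ℝ) ^ (k + 1) := by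
  have hkr : (1 : ℝ) ≤ k := by exact_mod_cast hk
  filter_upwards [ev1 (max 1 (32 * k / (ε * u))), ev4 1 (ε / (64 * k)) (by positivity),
    eventually_ge_atTop (max 3 (⌈64 * k / ε⌉₊)), zcond 1, (zz_tendsto K (by omega)).eventually (eventually_ge_atTop 1)]
    with H hx hsm hH3 hzc hz1 t
  have hx1 : 1 ≤ Real.log H := le_trans (le_max_left _ _) hx
  have hxe : 32 * k / (ε * u) ≤ Real.log H := le_trans (le_max_right _ _) hx
  have hH3' : 3 ≤ H := le_trans (le_max_left _ _) hH3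
  have hHr : (3 : ℝ) ≤ H := by exact_mod_cast hH3'
  have hzz : ((zz K H : ℕ) : ℝ) ^ 2 ≤ Real.log H := by
    have h1 := zz_pow K H (by omega) (by linarith)
    have h2 : ((zz K H : ℕ) : ℝ) ^ 2 ≤ ((zz K H : ℕ) : ℝ) ^ K := pow_le_pow_right₀ (by exact_mod_cast hz1) hK2
    linarith
  have hzx := (hzc (zz K H) hz1 hzz).1
  refine (bad_smallO k t H _ (by omega)).trans ?_
  have h2 : 32 * k * ((zz K H : ℕ) + 1) / ε ≤ H := by
    have h3 : 64 * k / ε ≤ (H : ℝ) := (Nat.le_ceil _).trans (by exact_mod_cast le_trans (le_max_right _ _) hH3)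
    rw [pow_one] at hsm
    have h4 : Real.sqrt H ≤ H := by
      rw [Real.sqrt_le_left (by linarith)]
      nlinarith
    have h5 : Real.log H ≤ ε / (64 * k) * H := hsm.trans (mul_le_mul_of_nonneg_left h4 (by positivity))
    rw [div_le_iff₀ hε] at h3 ⊢
    have h6 : 64 * k * Real.log H ≤ ε * H := by
      calc 64 * k * Real.log H ≤ 64 * k * (ε / (64 * k) * H) := mul_le_mul_of_nonneg_left h5 (by positivity)
        _ = ε * H := by field_simp
    have h7 : 32 * (k : ℝ) * ((zz K H : ℕ) + 1) ≤ 32 * k * (Real.log H + 1) := by gcongr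
    linarith
  have h3 := c3_num k H (zz K H) (Real.log H) u ε (by linarith) hu hε hH3' h2 hxe
  refine mul_le_mul_of_nonneg_right ?_ (by positivity)
  refine h3.trans ?_
  linarith

open Classical in
theorem q_one (k : ℕ) (hk : 1 ≤ k) (ε : ℝ) (hε : 0 < ε) : ∃ (C : ℝ) (Z : ℕ → ℕ), 0 < C ∧
    (∀ᶠ H : ℕ in atTop, ∀ t : ℕ, (((Om k t H).filter (BadS (Z H))).card : ℝ) ≤ ε * (H : ℝ) ^ (k + 1)) ∧
    ∀ (A : ℕ) (η0 : ℝ), 0 < η0 → ∀ᶠ H : ℕ in atTop, ∀ (t : ℕ) (s e : Fin k → ℕ) (σ : Fin k → Bool) (T : ℕ),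
    (t : ℝ) ≤ H * Real.log H ^ A → (∀ i, (s i : ℝ) ≤ H * Real.log H ^ A) → (∀ i, (e i : ℝ) ≤ Real.log H ^ A) →
    Real.log H ≤ T → (T : ℝ) ≤ Real.log H ^ A → (∀ i, σ i = false → T ≤ e i) →
    ∀ F : Finset (ℕ × (Fin k → ℕ)), (∀ v ∈ F, v ∈ Om k t H ∧ ¬ BadS (Z H) v ∧
      ¬ FormF1 (wG s e σ) (lG s e σ v) ε T (Real.log H) v) →
    (F.card : ℝ) ≤ (η0 / (1 + Real.log (Real.log H)) + C * (Real.log H ^ k / T)) * (H : ℝ) ^ (k + 1) := by
  set ε' : ℝ := min ε 1 / 8 with hε'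
  have hε'0 : 0 < ε' := by positivity
  have hε'1 : ε' ≤ 1 / 8 := by have := min_le_right ε 1; linarith
  have hε'2 : ε' ≤ ε / 8 := by have := min_le_left ε 1; linarith
  obtain ⟨u, hu, hu1, hup, hlo⟩ := exists_u k ε' hε'0
  obtain ⟨c, hc0, hc⟩ := SPZ_lower k
  obtain ⟨C1, hC1, hQ⟩ := QF_cut k
  obtain ⟨C2, hC2, hG⟩ := avg_Gk k
  obtain ⟨K, zM, hK2, hfund⟩ := XM_fund k hk (u / 2) (by positivity)
  have hkr : (1 : ℝ) ≤ k := by exact_mod_cast hk
  set θ : ℝ := c * u with hθ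
  have hθ0 : 0 < θ := by positivity
  set C3 : ℝ := 2 * C2 + C1 + 2 * C1 * C2 with hC3
  have hC30 : 0 < C3 := by positivity
  have hCk := Ck_pos k
  set η : ℝ := Real.log (1 + ε') / (2 * Ck k) with hη
  have hη0 : 0 < η := div_pos (Real.log_pos (by linarith)) (by positivity)
  refine ⟨(4 ^ k + 1) / θ ^ 2, fun H => zz K H + ⌈(H : ℝ) / (1 + u * Real.log H)⌉₊, by positivity,
    badS_z k K hk hK2 ε u hε hu, ?_⟩
  intro A η0 hη00
  set M0 : ℝ := (C3 + 1) / θ ^ 2 + 1 + 5 * k + k ^ 2 + 4 * k ^ 2 / η with hM0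
  have hM00 : 0 < M0 := by positivity
  set η2 : ℝ := min (η0 / M0) 1 with hη2
  have hη20 : 0 < η2 := by positivity
  have hη2a : M0 * η2 ≤ η0 := by
    have h1 : η2 ≤ η0 / M0 := min_le_left _ _
    rw [le_div_iff₀ hM00] at h1
    linarith
  have hη2b : η2 ≤ 1 := min_le_right _ _
  set D := 2 * A + 1 with hD
  set m := 2 * k + 2 with hm
  obtain ⟨z3, hz3⟩ := exists_nat_ge (1 / η + 1)
  filter_upwards [paramsU k A A D m (by omega) (by omega), NG_facts (D + 1) u hu, zcond m,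
    (zz_tendsto K (by omega)).eventually (dec_z k K (by omega) η2 hη20),
    (zz_tendsto K (by omega)).eventually (eventually_ge_atTop (max zM (max z3 1))),
    (zz_tendsto K (by omega)).eventually (Vz_decay k (u * c / 2) (by positivity)),
    ev1 (max (max 8 (8 * (k + 1) * 4 ^ k / η2)) (2 * D + 6)),
    ev4 (A + D + 3) (η2 / (8 * k)) (by positivity), ev4 (2 * D + 3) η2 hη20, ev4 (D + 2) 1 one_pos,
    eventually_ge_atTop 3] with H hpar hNf hzc hdz hzge hVd hx hsm1 hsm2 hsm3 hH3' t s e σ T ht hs he hxT hTx hσ F hF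
  obtain ⟨f1, f2, f3, f4⟩ := hNf
  set N := NG (D + 1) H with hN
  set z := zz K H with hz
  set x := Real.log H with hxd
  have hzM : zM ≤ z := le_trans (le_max_left _ _) hzge
  have hz3' : z3 ≤ z := le_trans (le_trans (le_max_left _ _) (le_max_right _ _)) hzge
  have hz1 : 1 ≤ z := le_trans (le_trans (le_max_right _ _) (le_max_right _ _)) hzge
  have hz1r : (1 : ℝ) ≤ z := by exact_mod_cast hz1
  have hx8 : 8 ≤ x := le_trans (le_trans (le_max_left _ _) (le_max_left _ _)) hx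
  have hxk1 : 8 * (k + 1) * 4 ^ k / η2 ≤ x := le_trans (le_trans (le_max_right _ _) (le_max_left _ _)) hx
  have hxD : 2 * (D : ℝ) + 6 ≤ x := le_trans (le_max_right _ _) hx
  have hx0 : 0 < x := by linarith
  have hx1 : 1 ≤ x := by linarith
  have hHr : (3 : ℝ) ≤ H := by exact_mod_cast hH3'
  have hH1 : 1 ≤ H := by omega
  have hlogx0 : 0 ≤ Real.log x := Real.log_nonneg hx1
  have hlogx : 1 + Real.log x ≤ x := by
    have := Real.log_le_sub_one_of_pos hx0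
    linarith
  have hzK : (z : ℝ) ^ K ≤ x := zz_pow K H (by omega) (by linarith)
  have hzz : (z : ℝ) ^ 2 ≤ x := (pow_le_pow_right₀ hz1r hK2).trans hzK
  obtain ⟨hzx, hVx, hPW⟩ := hzc z hz1 hzz
  have hdec := hdz x hx1 (zz_ge K H (by omega) (by linarith))
  set sq := Real.sqrt z with hsq
  have hsq1 : 1 ≤ sq := by rw [hsq, Real.one_le_sqrt]; exact hz1r
  have hsq0 : 0 < sq := by linarith
  set V := ((Vz z)⁻¹) ^ k with hV
  have hV0 : 0 ≤ V := pow_nonneg (inv_nonneg.2 (Vz_pos z).le) k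
  have hV1 : 1 ≤ V := one_le_pow₀ (Vz_inv_one z)
  set r : ℝ := η2 / (1 + Real.log x) with hr
  have hr0 : 0 < r := by positivity
  have hVr : V / sq ≤ r := by rw [hr, le_div_iff₀ (by linarith)]; exact hdec
  have hzr : 1 / (z : ℝ) ≤ r := (inv_z k z hz1).trans hVr
  have hxr : η2 / x ≤ r := div_le_div_of_nonneg_left hη20.le (by linarith) hlogx
  have hr1 : r ≤ 1 := by
    rw [hr, div_le_one (by linarith)]; linarith
  have hV2 : V ^ 2 ≤ x := by
    have h1 : V ≤ sq := by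
      have h2 := hVr.trans hr1
      rwa [div_le_one hsq0] at h2
    have h2 : sq ^ 2 = z := Real.sq_sqrt (by linarith)
    calc V ^ 2 ≤ sq ^ 2 := pow_le_pow_left₀ hV0 h1 2
      _ = z := h2
      _ ≤ x := hzx
  have hT1r : (1 : ℝ) ≤ T := by linarith
  have hT1 : 1 ≤ T := by exact_mod_cast hT1r
  have hsz := fun i => sz_num A D H t (s i) (e i) T x hx8 hD ht (hs i) (he i) hTx
  have hsY : ∀ i, ((s i + (t + H) * (e i + T) : ℕ) : ℝ) ≤ 3 * (H * x ^ D) := fun i => (hsz i).1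
  have hoffs : Offs (wG s e σ) t H T (3 * (H * x ^ D)) := offs_wG s e σ t H T _ hsY hσ
  obtain ⟨z', Ex, hyp⟩ := hpar z hz1 hzx hVx hPW T hT1 hTx t ht (wG s e σ) hoffs
  have htot := q_num k T m V x η2 C1 C2 sq (by linarith) hV0 hC1 hC2 hsq1 hη20 hdec hm hk hxk1 hV2 hT1
  -- averages of Gk
  have hNX : t + H ≤ N := by
    have h1 := hyp.dK
    calc t + H ≤ (t + H) * T := Nat.le_mul_of_pos_right _ hT1
      _ ≤ N := h1
  have hsqx : sq ≤ x := by
    have h1 : sq ^ 2 = z := Real.sq_sqrt (by linarith)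
    nlinarith
  have hsN : Real.sqrt N ≤ H / sq := by
    have h2 := sqN H N (D + 1) x hx1 f2
    rw [le_div_iff₀ hsq0]
    calc Real.sqrt N * sq ≤ (Real.sqrt H * x ^ (D + 1)) * x := mul_le_mul h2 hsqx hsq0.le (by positivity)
      _ = Real.sqrt H * x ^ (D + 2) := by ring
      _ ≤ Real.sqrt H * (1 * Real.sqrt H) := mul_le_mul_of_nonneg_left hsm3 (Real.sqrt_nonneg _)
      _ = H := by rw [one_mul, Real.mul_self_sqrt (by linarith)]
  have hGz : ∑ d ∈ Ioc t (t + H), Gk k z d ≤ (1 + 2 * C2 / sq) * H := by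
    have h1 := hG z t H N hz1 (by omega) hNX
    have h2 : C2 * Real.sqrt N ≤ C2 * (H / sq) := mul_le_mul_of_nonneg_left hsN (by linarith)
    calc _ ≤ (H : ℝ) * (1 + C2 / sq) + C2 * (H / sq) := by linarith
      _ = (1 + 2 * C2 / sq) * H := by ring
  have hbox := one_length hyp C1 hC1 (fun d J hd hJ => hQ z z' d J hz1 hyp.hz hd hJ) (1 + 2 * C2 / sq) hGz T hT1 le_rfl θ hθ0
  have hHk : 0 ≤ (H : ℝ) ^ (k + 1) := by positivity
  have hc1 : (((Om k t H).filter (Dev1 (wG s e σ) z T θ)).card : ℝ) ≤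
      ((C3 + 1) / θ ^ 2 * r + (4 ^ k + 1) / θ ^ 2 * (x ^ k / T)) * (H : ℝ) ^ (k + 1) := by
    refine hbox.trans ?_
    rw [mul_comm]
    refine mul_le_mul_of_nonneg_right ?_ hHk
    rw [div_le_iff₀ (by positivity)]
    refine htot.trans (le_of_eq ?_)
    rw [← hr, ← hC3]
    field_simp
  -- prime powers
  have hc2 : (((Om k t H).filter (BadPP (wG s e σ) T N)).card : ℝ) ≤ r * (H : ℝ) ^ (k + 1) := by
    refine (bad_ppO (wG s e σ) t H T N (by omega)).trans (mul_le_mul_of_nonneg_right ?_ hHk)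
    have h3 : Real.log N ≤ 2 * x := by
      refine f3.trans ?_
      have : (1 + u) * x ≤ 2 * x := mul_le_mul_of_nonneg_right (by linarith) hx0.le
      exact this
    have h4 : x ^ (A + D + 2) ≤ (4 * η2 / x) / (32 * k) * Real.sqrt H := by
      have h5 : (4 * η2 / x) / (32 * k) * Real.sqrt H = (η2 / (8 * k) * Real.sqrt H) / x := by field_simp; ring
      rw [h5, le_div_iff₀ hx0]
      calc x ^ (A + D + 2) * x = x ^ (A + D + 3) := by ring
        _ ≤ _ := hsm1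
    refine (c2_num k H N T A D x (4 * η2 / x) hk hx1 hH3' (by omega) f2 h3 hTx h4).trans ?_
    have h6 : 4 * η2 / x / 4 = η2 / x := by ring
    rw [h6]; exact hxr
  -- the tail of the singular series
  have hzη : 1 / (z : ℝ) ≤ η := by
    have h1 : (1 / η + 1 : ℝ) ≤ z := hz3.trans (by exact_mod_cast hz3')
    rw [one_div_le (by linarith) hη0]; linarith
  have hexp : Real.exp (Ck k * (1 / z + η)) - 1 ≤ ε' := by
    have h1 : Ck k * (1 / z + η) ≤ Real.log (1 + ε') := by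
      calc Ck k * (1 / z + η) ≤ Ck k * (η + η) := mul_le_mul_of_nonneg_left (by linarith) hCk.le
        _ = Real.log (1 + ε') := by rw [hη]; field_simp; ring
    have h2 := Real.exp_le_exp.2 h1
    rw [Real.exp_log (by linarith)] at h2
    linarith
  have hsmY : x ^ (2 * D + 2) ≤ (η2 / x) * Real.sqrt H := by
    rw [div_mul_eq_mul_div, le_div_iff₀ hx0]
    calc x ^ (2 * D + 2) * x = x ^ (2 * D + 3) := by ring
      _ ≤ _ := hsm2
  obtain ⟨e1, e2, e3, hYl⟩ := Y_num D H (⌈x ^ D⌉₊ + 1) x (η2 / x) hxd (by linarith) hxD hH3' (by positivity) rfl hsmY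
  set Y : ℕ := ⌈x ^ D⌉₊ + 1 with hY
  have h0Y : (H : ℝ) * (x ^ D + 1) ≤ H * Y := mul_le_mul_of_nonneg_left hYl (by linarith)
  have hsY2 : ∀ i, s i + H + (t + H) * e i ≤ H * Y := by
    intro i
    have h2 : (s i : ℝ) + H + (t + H) * e i ≤ H * Y := (hsz i).2.1.trans h0Y
    exact_mod_cast h2
  have hsY0 : ∀ i, s i + H ≤ H * Y := fun i => le_trans (Nat.le_add_right _ _) (hsY2 i)
  have htY : t + H ≤ H * Y := by
    have h2 : (t : ℝ) + H ≤ H * Y := (sz_num A D H t 0 0 0 x hx8 hD ht (by simp; positivity) (by simp; positivity)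
      (by simp; positivity)).2.2.trans h0Y
    exact_mod_cast h2
  have b1 : (((Om k t H).filter (fun v => ∃ i, VBO s z i v)).card : ℝ) ≤ (5 * k * r) * (H : ℝ) ^ (k + 1) := by
    refine (card_VBO s t H z Y hH1 hz1 hsY0 htY).trans (mul_le_mul_of_nonneg_right ?_ hHk)
    have h1 : 4 / (z : ℝ) = 4 * (1 / z) := by ring
    have h2 : 4 / (z : ℝ) + (Y : ℝ) ^ 2 / H ≤ 5 * r := by rw [h1]; linarith
    calc k * (4 / (z : ℝ) + (Y : ℝ) ^ 2 / H) ≤ k * (5 * r) := mul_le_mul_of_nonneg_left h2 (by linarith)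
      _ = 5 * k * r := by ring
  have b2 : (((Om k t H).filter (fun v => ∃ ij, QdG s e σ ij v)).card : ℝ) ≤ ((k : ℝ) ^ 2 * r) * (H : ℝ) ^ (k + 1) := by
    refine (card_degG s e σ t H hH1).trans (mul_le_mul_of_nonneg_right ?_ hHk)
    exact mul_le_mul_of_nonneg_left (e2.trans hxr) (by positivity)
  have b3 : (((Om k t H).filter (MgG s e σ z (2 * (H * Y) ^ 2) η)).card : ℝ) ≤
      (4 * (k : ℝ) ^ 2 / η * r) * (H : ℝ) ^ (k + 1) := by
    refine (card_MgG hk s e σ t H z (2 * (H * Y) ^ 2) η hη0 hH1 hz1).trans (mul_le_mul_of_nonneg_right ?_ hHk)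
    calc 2 * (k : ℝ) ^ 2 / η * (1 / z + (1 + Real.log ((2 * (H * Y) ^ 2 : ℕ) : ℝ)) / H) ≤ 2 * (k : ℝ) ^ 2 / η * (r + r) :=
          mul_le_mul_of_nonneg_left (add_le_add hzr (e3.trans hxr)) (by positivity)
      _ = _ := by ring
  -- union
  have hsub : F ⊆ (Om k t H).filter (Dev1 (wG s e σ) z T θ) ∪ ((Om k t H).filter (BadPP (wG s e σ) T N) ∪
      ((Om k t H).filter (fun v => ∃ i, VBO s z i v) ∪ ((Om k t H).filter (fun v => ∃ ij, QdG s e σ ij v) ∪
      (Om k t H).filter (MgG s e σ z (2 * (H * Y) ^ 2) η)))) := by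
    intro v hv
    obtain ⟨hvB, hvS, hvF⟩ := hF v hv
    by_contra hnot
    simp only [Finset.mem_union, not_or, Finset.mem_filter] at hnot
    obtain ⟨n1, n2, n3, n4, n5⟩ := hnot
    have m1 : ¬ Dev1 (wG s e σ) z T θ v := fun h => n1 ⟨hvB, h⟩
    have m2 : ∀ n ∈ Icc 1 T, ∀ i, v.2 i + wG s e σ i v.1 n ∉ PPw N := fun n hn i h => n2 ⟨hvB, n, hn, i, h⟩
    have m3 : ∀ i, z + ⌈(H : ℝ) / (1 + u * x)⌉₊ < v.2 i := fun i => by
      by_contra h
      exact hvS ⟨i, by unfold leZ; exact Nat.le_of_not_lt h⟩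
    have m4 : ¬ ∃ i, VBO s z i v := fun h => n3 ⟨hvB, h⟩
    have m5 : ¬ ∃ ij, QdG s e σ ij v := fun h => n4 ⟨hvB, h⟩
    have m6 : ¬ MgG s e σ z (2 * (H * Y) ^ 2) η v := fun h => n5 ⟨hvB, h⟩
    have hmO := mem_Om hvB
    have hnice : Nice (wG s e σ) v T N z x u := by
      refine ⟨fun i => ?_, fun i => ?_, fun n hn hnK i => ?_, f3, fun n hn hnK i => m2 n (mem_Icc.2 ⟨hn, hnK⟩) i⟩
      · have := m3 i; omega
      · have h1 := m3 i
        have h2 : (H : ℝ) / (1 + u * x) ≤ v.2 i := by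
          have h3 : ⌈(H : ℝ) / (1 + u * x)⌉₊ ≤ v.2 i := by omega
          exact (Nat.le_ceil _).trans (by exact_mod_cast h3)
        exact log_num H (v.2 i) x u hxd hx0 hu hH3' h2
      · have h1 := hyp.le i v.1 n hmO.1 hnK
        have h2 := mem_Ioc.1 (hmO.2 i)
        omega
    apply hvF
    have hrep := rep_wG s e σ T hσ v
    have hmean : SPZ (lG s e σ v) z ≠ 0 →
        |XM (wG s e σ) z v T / T - SPZ (lG s e σ v) z| ≤ u * SPZ (lG s e σ v) z := by
      intro h0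
      have hzT : z ^ K ≤ T := by
        have h1 : (z : ℝ) ^ K ≤ T := hzK.trans hxT
        exact_mod_cast h1
      have h4 : sq ≤ Real.sqrt T := by
        rw [hsq]
        exact Real.sqrt_le_sqrt (hzx.trans hxT)
      exact mean_num T _ _ u c V sq hu hc0 (hc (lG s e σ v) z h0) (lt_of_lt_of_le one_pos hT1r) hsq0 h4 hVd
        (hfund z T hzM hz1 hzT (wG s e σ) v (lG s e σ v) hrep h0)
    obtain ⟨h1, h2⟩ := final_oneU (lG s e σ v) z hrep hnice hu hu1 hx0 c hc0 (hc (lG s e σ v) z) T hT1 m1 le_rfl hmean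
    have hform : Form1 (wG s e σ) (lG s e σ v) z ε' T x v :=
      abs_of_two _ _ ε' _ _ (by have := SPZ_nonneg (lG s e σ v) z; positivity) hlo hup h1 h2
    obtain ⟨S, hS1, hS2⟩ := tail_G s e σ t H z Y η hz1 hsY2 htY v hvB m4 m5 m6
    have h5 : |S - SPZ (lG s e σ v) z| ≤ ε' * SPZ (lG s e σ v) z :=
      hS2.trans (mul_le_mul_of_nonneg_right hexp (SPZ_nonneg _ _))
    exact form_full1 _ _ z ε ε' T x v S hx0 hε'0 hε'1 hε'2 hS1 h5 hform
  have hcard := (Finset.card_le_card hsub).trans ((Finset.card_union_le _ _).trans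
      (Nat.add_le_add_left ((Finset.card_union_le _ _).trans (Nat.add_le_add_left ((Finset.card_union_le _ _).trans
        (Nat.add_le_add_left (Finset.card_union_le _ _) _)) _)) _))
  have hcard' : (F.card : ℝ) ≤ ((Om k t H).filter (Dev1 (wG s e σ) z T θ)).card + (((Om k t H).filter (BadPP (wG s e σ) T N)).card +
      ((((Om k t H).filter (fun v => ∃ i, VBO s z i v)).card) + (((Om k t H).filter (fun v => ∃ ij, QdG s e σ ij v)).card +
      ((Om k t H).filter (MgG s e σ z (2 * (H * Y) ^ 2) η)).card))) := by exact_mod_cast hcard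
  have hfin : M0 * r ≤ η0 / (1 + Real.log x) := by
    rw [hr, mul_div_assoc']
    exact div_le_div_of_nonneg_right hη2a (by linarith)
  have e5 : M0 * r = (C3 + 1) / θ ^ 2 * r + r + 5 * k * r + (k : ℝ) ^ 2 * r + 4 * (k : ℝ) ^ 2 / η * r := by
    rw [hM0]; ring
  calc (F.card : ℝ) ≤ ((C3 + 1) / θ ^ 2 * r + (4 ^ k + 1) / θ ^ 2 * (x ^ k / T)) * (H : ℝ) ^ (k + 1) +
        (r * (H : ℝ) ^ (k + 1) + ((5 * k * r) * (H : ℝ) ^ (k + 1) + (((k : ℝ) ^ 2 * r) * (H : ℝ) ^ (k + 1) +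
          (4 * (k : ℝ) ^ 2 / η * r) * (H : ℝ) ^ (k + 1)))) := by linarith
    _ = (M0 * r + (4 ^ k + 1) / θ ^ 2 * (x ^ k / T)) * (H : ℝ) ^ (k + 1) := by rw [e5]; ring
    _ ≤ _ := by
        refine mul_le_mul_of_nonneg_right ?_ hHk
        linarith

end Pool.Agent.H570.CD
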