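import Mathlib
import Pool.Agent.H570.CD.QMain

/-! All ranges at the same time. -/

set_option autoImplicit false

namespace Pool.Agent.H570.CD

open Finset Filter Topology Pool.Agent.H570.LQ Pool.Agent.H570.TH

open Classical in
/-- the exceptions in a dyadic block -/
noncomputable def blk (P : ℕ → Prop) (T0 M j : ℕ) : Finset ℕ :=
  (Ico (2 ^ j) (2 ^ (j + 1))).filter (fun T => P T ∧ T0 ≤ T ∧ T ≤ M)

open Classical in
lemma dyadic (P : ℕ → Prop) (T0 M N : ℕ) (hN : 1 ≤ N) (hNM : N ≤ M) (δ : ℝ) (hδ : 0 < δ) (hT0 : 1 ≤ T0)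
    (h : ∀ j, 2 ^ j ≤ N → T0 < 2 ^ (j + 1) → ((blk P T0 M j).card : ℝ) ≤ δ * 2 ^ j) :
    (((Icc T0 N).filter P).card : ℝ) ≤ 2 * δ * N := by
  set L := Nat.log 2 N with hL
  have hsub : (Icc T0 N).filter P ⊆ (range (L + 1)).biUnion (fun j => blk P T0 M j) := by
    intro T hT
    obtain ⟨h1, h2⟩ := Finset.mem_filter.1 hT
    have h3 := mem_Icc.1 h1
    have hT1 : T ≠ 0 := by omega
    have h4 : Nat.log 2 T ≤ L := Nat.log_mono_right h3.2
    refine Finset.mem_biUnion.2 ⟨Nat.log 2 T, Finset.mem_range.2 (by omega), ?_⟩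
    refine Finset.mem_filter.2 ⟨mem_Ico.2 ⟨Nat.pow_log_le_self 2 hT1, Nat.lt_pow_succ_log_self (by norm_num) T⟩, h2, h3.1, by omega⟩
  have h1 : (((Icc T0 N).filter P).card : ℝ) ≤ ∑ j ∈ range (L + 1), ((blk P T0 M j).card : ℝ) := by
    exact_mod_cast (Finset.card_le_card hsub).trans Finset.card_biUnion_le
  refine h1.trans ?_
  have h2 : ∀ j ∈ range (L + 1), ((blk P T0 M j).card : ℝ) ≤ δ * 2 ^ j := by
    intro j hj
    have hj' := Finset.mem_range.1 hj
    have h3 : 2 ^ j ≤ N := (Nat.pow_le_pow_right (by norm_num) (by omega)).trans (Nat.pow_log_le_self 2 (by omega))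
    by_cases h4 : T0 < 2 ^ (j + 1)
    · exact h j h3 h4
    · have h5 : blk P T0 M j = ∅ := by
        unfold blk
        rw [Finset.filter_eq_empty_iff]
        intro T hT hP
        have := mem_Ico.1 hT
        omega
      rw [h5, Finset.card_empty, Nat.cast_zero]
      positivity
  calc _ ≤ ∑ j ∈ range (L + 1), δ * 2 ^ j := Finset.sum_le_sum h2
    _ = δ * ∑ j ∈ range (L + 1), (2 : ℝ) ^ j := by rw [Finset.mul_sum]
    _ ≤ δ * (2 * N) := by
        refine mul_le_mul_of_nonneg_left ?_ hδ.le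
        rw [geom_sum_eq (by norm_num)]
        have h3 : ((2 : ℝ) ^ L) ≤ N := by exact_mod_cast Nat.pow_log_le_self 2 (by omega)
        have h4 : (2 : ℝ) ^ (L + 1) = 2 * 2 ^ L := by ring
        have h5 : (2 : ℝ) - 1 = 1 := by norm_num
        rw [h4, h5]
        linarith
    _ = _ := by ring

lemma geo_half (T0 J : ℕ) (hT0 : 1 ≤ T0) :
    ∑ j ∈ (range J).filter (fun j => T0 < 2 ^ (j + 1)), (1 / 2 : ℝ) ^ j ≤ 4 / T0 := by
  set j0 := Nat.log 2 T0 with hj0
  have h1 : (range J).filter (fun j => T0 < 2 ^ (j + 1)) ⊆ Ico j0 (j0 + J) := by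
    intro j hj
    obtain ⟨h1, h2⟩ := Finset.mem_filter.1 hj
    have h3 := Finset.mem_range.1 h1
    refine mem_Ico.2 ⟨?_, by omega⟩
    by_contra h4
    have h5 : 2 ^ (j + 1) ≤ 2 ^ j0 := Nat.pow_le_pow_right (by norm_num) (by omega)
    have h6 : 2 ^ j0 ≤ T0 := Nat.pow_log_le_self 2 (by omega)
    omega
  have hT0r : (0 : ℝ) < T0 := by exact_mod_cast hT0
  have h2 : (T0 : ℝ) < 2 ^ (j0 + 1) := by exact_mod_cast Nat.lt_pow_succ_log_self (by norm_num) T0
  calc _ ≤ ∑ j ∈ Ico j0 (j0 + J), (1 / 2 : ℝ) ^ j :=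
        Finset.sum_le_sum_of_subset_of_nonneg h1 fun _ _ _ => by positivity
    _ = (1 / 2 : ℝ) ^ j0 * ∑ i ∈ range J, (1 / 2 : ℝ) ^ i := by
        rw [Finset.sum_Ico_eq_sum_range, Nat.add_sub_cancel_left, Finset.mul_sum]
        exact Finset.sum_congr rfl fun i _ => by rw [pow_add]
    _ ≤ (1 / 2 : ℝ) ^ j0 * 2 := by
        refine mul_le_mul_of_nonneg_left ?_ (by positivity)
        rw [geom_sum_eq (by norm_num)]
        have : (0 : ℝ) < (1 / 2) ^ J := by positivity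
        rw [div_le_iff_of_neg (by norm_num)]
        linarith
    _ = 2 / 2 ^ j0 := by rw [one_div, inv_pow]; ring
    _ ≤ 4 / T0 := by
        rw [div_le_div_iff₀ (by positivity) hT0r]
        have : (2 : ℝ) ^ (j0 + 1) = 2 * 2 ^ j0 := by ring
        rw [this] at h2
        linarith

open Classical in
/-- few members of a finite set have a range with many exceptions -/
lemma all_ranges {α : Type} (Ω : Finset α) (B : ℕ → α → Prop) (T0 M : ℕ) (hT0 : 1 ≤ T0) (δ r c W : ℝ) (hδ : 0 < δ)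
    (hr : 0 ≤ r) (hc : 0 ≤ c) (hW : 0 ≤ W)
    (hB : ∀ T, T0 ≤ T → T ≤ M → ((Ω.filter (B T)).card : ℝ) ≤ (r + c / T) * W) :
    ((Ω.filter (fun v => ∃ N, 1 ≤ N ∧ N ≤ M ∧ 2 * δ * N < (((Icc T0 N).filter (fun T => B T v)).card : ℝ))).card : ℝ) ≤
      (1 / δ) * (((Nat.log 2 M + 1 : ℕ) : ℝ) * r + 4 * c / T0) * W := by
  set J := Nat.log 2 M + 1 with hJ
  set G : ℕ → Finset α := fun j => Ω.filter (fun v => δ * 2 ^ j < ((blk (fun T => B T v) T0 M j).card : ℝ)) with hG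
  have hsub : Ω.filter (fun v => ∃ N, 1 ≤ N ∧ N ≤ M ∧ 2 * δ * N < (((Icc T0 N).filter (fun T => B T v)).card : ℝ)) ⊆
      ((range J).filter (fun j => T0 < 2 ^ (j + 1))).biUnion G := by
    intro v hv
    obtain ⟨hv1, N, hN1, hN2, hN3⟩ := Finset.mem_filter.1 hv
    by_contra hcon
    have h2 := dyadic (fun T => B T v) T0 M N hN1 hN2 δ hδ hT0 (fun j hj1 hj2 => by
      by_contra h3
      push Not at h3
      apply hcon
      refine Finset.mem_biUnion.2 ⟨j, Finset.mem_filter.2 ⟨Finset.mem_range.2 ?_, hj2⟩, Finset.mem_filter.2 ⟨hv1, h3⟩⟩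
      have h4 : j ≤ Nat.log 2 M := Nat.le_log_of_pow_le (by norm_num) (hj1.trans hN2)
      omega)
    linarith
  have hGj : ∀ j ∈ (range J).filter (fun j => T0 < 2 ^ (j + 1)), ((G j).card : ℝ) ≤ (1 / δ) * (r + c * (1 / 2) ^ j) * W := by
    intro j hj
    have h2j : (0 : ℝ) < 2 ^ j := by positivity
    have h1 : ((G j).card : ℝ) * (δ * 2 ^ j) ≤ ∑ v ∈ Ω, ((blk (fun T => B T v) T0 M j).card : ℝ) := by
      calc _ = ∑ v ∈ G j, δ * 2 ^ j := by rw [Finset.sum_const, nsmul_eq_mul]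
        _ ≤ ∑ v ∈ G j, ((blk (fun T => B T v) T0 M j).card : ℝ) :=
            Finset.sum_le_sum fun v hv => (Finset.mem_filter.1 hv).2.le
        _ ≤ _ := Finset.sum_le_sum_of_subset_of_nonneg (Finset.filter_subset _ _) fun _ _ _ => Nat.cast_nonneg _
    have h2 : ∑ v ∈ Ω, ((blk (fun T => B T v) T0 M j).card : ℝ) =
        ∑ T ∈ (Ico (2 ^ j) (2 ^ (j + 1))).filter (fun T => T0 ≤ T ∧ T ≤ M), ((Ω.filter (B T)).card : ℝ) := by
      have e1 : ∀ v, ((blk (fun T => B T v) T0 M j).card : ℝ) =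
          ∑ T ∈ (Ico (2 ^ j) (2 ^ (j + 1))).filter (fun T => T0 ≤ T ∧ T ≤ M), if B T v then (1 : ℝ) else 0 := by
        intro v
        rw [← Finset.sum_filter, Finset.filter_filter, Finset.sum_const, nsmul_eq_mul, mul_one]
        unfold blk
        congr 2
        refine Finset.filter_congr fun T _ => ?_
        tauto
      rw [Finset.sum_congr rfl fun v _ => e1 v, Finset.sum_comm]
      refine Finset.sum_congr rfl fun T _ => ?_
      rw [← Finset.sum_filter, Finset.sum_const, nsmul_eq_mul, mul_one]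
    have h3 : ∑ T ∈ (Ico (2 ^ j) (2 ^ (j + 1))).filter (fun T => T0 ≤ T ∧ T ≤ M), ((Ω.filter (B T)).card : ℝ) ≤
        2 ^ j * ((r + c / 2 ^ j) * W) := by
      calc _ ≤ ∑ T ∈ (Ico (2 ^ j) (2 ^ (j + 1))).filter (fun T => T0 ≤ T ∧ T ≤ M), ((r + c / 2 ^ j) * W) := by
            refine Finset.sum_le_sum fun T hT => ?_
            obtain ⟨h4, h5, h6⟩ := Finset.mem_filter.1 hT
            have h7 := (mem_Ico.1 h4).1
            refine (hB T h5 h6).trans (mul_le_mul_of_nonneg_right ?_ hW)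
            have h8 : (2 : ℝ) ^ j ≤ T := by exact_mod_cast h7
            have h9 : c / T ≤ c / 2 ^ j := div_le_div_of_nonneg_left hc h2j h8
            linarith
        _ ≤ ∑ T ∈ Ico (2 ^ j) (2 ^ (j + 1)), ((r + c / 2 ^ j) * W) :=
            Finset.sum_le_sum_of_subset_of_nonneg (Finset.filter_subset _ _) fun _ _ _ => by positivity
        _ = _ := by
            rw [Finset.sum_const, Nat.card_Ico, nsmul_eq_mul]
            have h4 : 2 ^ (j + 1) - 2 ^ j = 2 ^ j := by rw [pow_succ]; omega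
            rw [h4]; push_cast; ring
    have h4 : ((G j).card : ℝ) * (δ * 2 ^ j) ≤ 2 ^ j * ((r + c / 2 ^ j) * W) := by rw [h2] at h1; exact h1.trans h3
    have h5 : ((G j).card : ℝ) ≤ (2 ^ j * ((r + c / 2 ^ j) * W)) / (δ * 2 ^ j) := by
      rw [le_div_iff₀ (by positivity)]; exact h4
    refine h5.trans (le_of_eq ?_)
    rw [one_div (2 : ℝ), inv_pow]
    field_simp
  have h1 : ((Ω.filter (fun v => ∃ N, 1 ≤ N ∧ N ≤ M ∧ 2 * δ * N < (((Icc T0 N).filter (fun T => B T v)).card : ℝ))).card : ℝ) ≤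
      ∑ j ∈ (range J).filter (fun j => T0 < 2 ^ (j + 1)), ((G j).card : ℝ) := by
    exact_mod_cast (Finset.card_le_card hsub).trans Finset.card_biUnion_le
  refine h1.trans ((Finset.sum_le_sum hGj).trans ?_)
  have h2 : ∑ j ∈ (range J).filter (fun j => T0 < 2 ^ (j + 1)), (1 / δ) * (r + c * (1 / 2) ^ j) * W =
      (1 / δ) * (((((range J).filter (fun j => T0 < 2 ^ (j + 1))).card : ℕ) : ℝ) * r +
        c * ∑ j ∈ (range J).filter (fun j => T0 < 2 ^ (j + 1)), (1 / 2 : ℝ) ^ j) * W := by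
    rw [← Finset.sum_mul, ← Finset.mul_sum, Finset.sum_add_distrib, Finset.sum_const, nsmul_eq_mul, ← Finset.mul_sum]
  rw [h2]
  refine mul_le_mul_of_nonneg_right (mul_le_mul_of_nonneg_left (add_le_add ?_ ?_) (by positivity)) hW
  · refine mul_le_mul_of_nonneg_right ?_ hr
    have h3 : ((range J).filter (fun j => T0 < 2 ^ (j + 1))).card ≤ J := by
      refine (Finset.card_filter_le _ _).trans ?_
      rw [Finset.card_range]
    exact_mod_cast h3
  · calc c * ∑ j ∈ (range J).filter (fun j => T0 < 2 ^ (j + 1)), (1 / 2 : ℝ) ^ j ≤ c * (4 / T0) :=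
          mul_le_mul_of_nonneg_left (geo_half T0 J hT0) hc
      _ = 4 * c / T0 := by ring

open Classical in
/-- few members of a finite set have a short range with many solutions -/
lemma low_ranges {α : Type} (Ω : Finset α) (B : ℕ → α → Prop) (M : ℕ) (δ b W : ℝ) (hδ : 0 < δ)
    (hb : 0 ≤ b) (hW : 0 ≤ W) (hB : ∀ T, 1 ≤ T → T ≤ M → ((Ω.filter (B T)).card : ℝ) ≤ (b * T) * W) :
    ((Ω.filter (fun v => ∃ N, 1 ≤ N ∧ N ≤ M ∧ 2 * δ * N < (((Icc 1 N).filter (fun T => B T v)).card : ℝ))).card : ℝ) ≤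
      (1 / δ) * (4 * b * M) * W := by
  by_cases hM0 : M = 0
  · have h1 : Ω.filter (fun v => ∃ N, 1 ≤ N ∧ N ≤ M ∧ 2 * δ * N < (((Icc 1 N).filter (fun T => B T v)).card : ℝ)) = ∅ := by
      rw [Finset.filter_eq_empty_iff]
      rintro v _ ⟨N, h1, h2, _⟩
      omega
    rw [h1, Finset.card_empty, Nat.cast_zero]
    positivity
  set J := Nat.log 2 M + 1 with hJ
  set G : ℕ → Finset α := fun j => Ω.filter (fun v => δ * 2 ^ j < ((blk (fun T => B T v) 1 M j).card : ℝ)) with hG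
  have hsub : Ω.filter (fun v => ∃ N, 1 ≤ N ∧ N ≤ M ∧ 2 * δ * N < (((Icc 1 N).filter (fun T => B T v)).card : ℝ)) ⊆
      (range J).biUnion G := by
    intro v hv
    obtain ⟨hv1, N, hN1, hN2, hN3⟩ := Finset.mem_filter.1 hv
    by_contra hcon
    have h2 := dyadic (fun T => B T v) 1 M N hN1 hN2 δ hδ le_rfl (fun j hj1 hj2 => by
      by_contra h3
      push Not at h3
      apply hcon
      refine Finset.mem_biUnion.2 ⟨j, Finset.mem_range.2 ?_, Finset.mem_filter.2 ⟨hv1, h3⟩⟩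
      have h4 : j ≤ Nat.log 2 M := Nat.le_log_of_pow_le (by norm_num) (hj1.trans hN2)
      omega)
    linarith
  have hGj : ∀ j ∈ range J, ((G j).card : ℝ) ≤ (1 / δ) * (b * (2 * 2 ^ j)) * W := by
    intro j hj
    have h2j : (0 : ℝ) < 2 ^ j := by positivity
    have h1 : ((G j).card : ℝ) * (δ * 2 ^ j) ≤ ∑ v ∈ Ω, ((blk (fun T => B T v) 1 M j).card : ℝ) := by
      calc _ = ∑ v ∈ G j, δ * 2 ^ j := by rw [Finset.sum_const, nsmul_eq_mul]
        _ ≤ ∑ v ∈ G j, ((blk (fun T => B T v) 1 M j).card : ℝ) :=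
            Finset.sum_le_sum fun v hv => (Finset.mem_filter.1 hv).2.le
        _ ≤ _ := Finset.sum_le_sum_of_subset_of_nonneg (Finset.filter_subset _ _) fun _ _ _ => Nat.cast_nonneg _
    have h2 : ∑ v ∈ Ω, ((blk (fun T => B T v) 1 M j).card : ℝ) =
        ∑ T ∈ (Ico (2 ^ j) (2 ^ (j + 1))).filter (fun T => 1 ≤ T ∧ T ≤ M), ((Ω.filter (B T)).card : ℝ) := by
      have e1 : ∀ v, ((blk (fun T => B T v) 1 M j).card : ℝ) =
          ∑ T ∈ (Ico (2 ^ j) (2 ^ (j + 1))).filter (fun T => 1 ≤ T ∧ T ≤ M), if B T v then (1 : ℝ) else 0 := by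
        intro v
        rw [← Finset.sum_filter, Finset.filter_filter, Finset.sum_const, nsmul_eq_mul, mul_one]
        unfold blk
        congr 2
        refine Finset.filter_congr fun T _ => ?_
        tauto
      rw [Finset.sum_congr rfl fun v _ => e1 v, Finset.sum_comm]
      refine Finset.sum_congr rfl fun T _ => ?_
      rw [← Finset.sum_filter, Finset.sum_const, nsmul_eq_mul, mul_one]
    have h3 : ∑ T ∈ (Ico (2 ^ j) (2 ^ (j + 1))).filter (fun T => 1 ≤ T ∧ T ≤ M), ((Ω.filter (B T)).card : ℝ) ≤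
        2 ^ j * ((b * (2 * 2 ^ j)) * W) := by
      calc _ ≤ ∑ T ∈ (Ico (2 ^ j) (2 ^ (j + 1))).filter (fun T => 1 ≤ T ∧ T ≤ M), ((b * (2 * 2 ^ j)) * W) := by
            refine Finset.sum_le_sum fun T hT => ?_
            obtain ⟨h4, h5, h6⟩ := Finset.mem_filter.1 hT
            have h7 := (mem_Ico.1 h4).2
            refine (hB T h5 h6).trans (mul_le_mul_of_nonneg_right (mul_le_mul_of_nonneg_left ?_ hb) hW)
            have h8 : (T : ℝ) ≤ 2 ^ (j + 1) := by exact_mod_cast h7.le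
            rw [pow_succ] at h8
            linarith
        _ ≤ ∑ T ∈ Ico (2 ^ j) (2 ^ (j + 1)), ((b * (2 * 2 ^ j)) * W) :=
            Finset.sum_le_sum_of_subset_of_nonneg (Finset.filter_subset _ _) fun _ _ _ => by positivity
        _ = _ := by
            rw [Finset.sum_const, Nat.card_Ico, nsmul_eq_mul]
            have h4 : 2 ^ (j + 1) - 2 ^ j = 2 ^ j := by rw [pow_succ]; omega
            rw [h4]; push_cast; ring
    have h4 : ((G j).card : ℝ) * (δ * 2 ^ j) ≤ 2 ^ j * ((b * (2 * 2 ^ j)) * W) := by rw [h2] at h1; exact h1.trans h3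
    have h5 : ((G j).card : ℝ) ≤ (2 ^ j * ((b * (2 * 2 ^ j)) * W)) / (δ * 2 ^ j) := by
      rw [le_div_iff₀ (by positivity)]; exact h4
    refine h5.trans (le_of_eq ?_)
    field_simp
  have h1 : ((Ω.filter (fun v => ∃ N, 1 ≤ N ∧ N ≤ M ∧ 2 * δ * N < (((Icc 1 N).filter (fun T => B T v)).card : ℝ))).card : ℝ) ≤
      ∑ j ∈ range J, ((G j).card : ℝ) := by
    exact_mod_cast (Finset.card_le_card hsub).trans Finset.card_biUnion_le
  refine h1.trans ((Finset.sum_le_sum hGj).trans ?_)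
  have h2 : ∑ j ∈ range J, (1 / δ) * (b * (2 * 2 ^ j)) * W = (1 / δ) * (2 * b * ∑ j ∈ range J, (2 : ℝ) ^ j) * W := by
    rw [Finset.mul_sum, Finset.mul_sum, Finset.sum_mul]
    exact Finset.sum_congr rfl fun _ _ => by ring
  rw [h2]
  refine mul_le_mul_of_nonneg_right (mul_le_mul_of_nonneg_left ?_ (by positivity)) hW
  have h3 : ∑ j ∈ range J, (2 : ℝ) ^ j ≤ 2 * M := by
    rw [geom_sum_eq (by norm_num)]
    have h3 : ((2 : ℝ) ^ (Nat.log 2 M)) ≤ M := by exact_mod_cast Nat.pow_log_le_self 2 hM0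
    have h4 : (2 : ℝ) ^ J = 2 * 2 ^ (Nat.log 2 M) := by rw [hJ]; ring
    have h5 : (2 : ℝ) - 1 = 1 := by norm_num
    rw [h4, h5]
    linarith
  calc 2 * b * ∑ j ∈ range J, (2 : ℝ) ^ j ≤ 2 * b * (2 * M) := mul_le_mul_of_nonneg_left h3 (by positivity)
    _ = _ := by ring

lemma form_mono {k : ℕ} (w : Fin k → ℕ → ℕ → ℕ) (l : Fin k → ℤ × ℤ) (ε ε1 : ℝ) (T : ℕ) (x : ℝ) (v : ℕ × (Fin k → ℕ))
    (h1 : 0 < ε1) (h2 : ε1 ≤ ε) (h : FormF1 w l ε1 T x v) : FormF1 w l ε T x v := by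
  obtain ⟨S, hS, h3⟩ := h
  refine ⟨S, hS, h3.trans (mul_le_mul_of_nonneg_right h2 ?_)⟩
  have h4 := (abs_nonneg _).trans h3
  exact nonneg_of_mul_nonneg_right h4 h1

/-- the formula fails at the length `T` -/
def Bd {k : ℕ} (s : Fin k → ℕ) (e : ℕ → Fin k → ℕ) (σ : Fin k → Bool) (ε x : ℝ) (T : ℕ) (v : ℕ × (Fin k → ℕ)) : Prop :=
  ¬ FormF1 (wG s (e T) σ) (lG s (e T) σ v) ε T x v

open Classical in
theorem q_main (k : ℕ) (hk : 1 ≤ k) (ε : ℝ) (hε : 0 < ε) : ∃ C : ℝ, 0 < C ∧ ∀ A : ℕ, ∀ᶠ H : ℕ in atTop,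
    ∀ (t : ℕ) (s : Fin k → ℕ) (e : ℕ → Fin k → ℕ) (σ : Fin k → Bool),
    (t : ℝ) ≤ H * Real.log H ^ A → (∀ i, (s i : ℝ) ≤ H * Real.log H ^ A) →
    (∀ (T : ℕ) (i : Fin k), (T : ℝ) ≤ Real.log H ^ A → (e T i : ℝ) ≤ Real.log H ^ A) →
    (∀ T i, σ i = false → T ≤ e T i) →
    ∀ F : Finset (ℕ × (Fin k → ℕ)), (∀ v ∈ F, v ∈ Om k t H ∧ ∃ N : ℕ, C * Real.log H ^ k ≤ N ∧ (N : ℝ) ≤ Real.log H ^ A ∧
      ε * N < (((Icc 1 N).filter (fun T => Bd s e σ ε (Real.log H) T v)).card : ℝ)) →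
    (F.card : ℝ) ≤ ε * (H : ℝ) ^ (k + 1) := by
  obtain ⟨C1, Z, hC1, hZ, hone⟩ := q_one k hk (ε / 4) (by positivity)
  set C0 : ℝ := 128 * C1 / ε ^ 2 + 1 with hC0
  have hp : 0 < 128 * C1 / ε ^ 2 := by positivity
  have hC01 : 1 ≤ C0 := by linarith
  refine ⟨4 * (C0 + 1) / ε, by positivity, fun A => ?_⟩
  set η0 : ℝ := ε ^ 2 / (32 * (2 * A + 1)) with hη0
  have hη00 : 0 < η0 := by positivity
  filter_upwards [hZ, hone A η0 hη00, ev1 1, eventually_ge_atTop 3] with H hZH hH hx1 hH3 t s e σ ht hs he hσ F hF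
  set x := Real.log H with hxd
  have hx0 : 0 < x := by linarith
  have hHr : (3 : ℝ) ≤ H := by exact_mod_cast hH3
  have hxk : 1 ≤ x ^ k := one_le_pow₀ hx1
  have hxxk : x ≤ x ^ k := le_self_pow₀ hx1 (by omega)
  have hlogx : 0 ≤ Real.log x := Real.log_nonneg hx1
  have hW : 0 ≤ (H : ℝ) ^ (k + 1) := by positivity
  set T0 : ℕ := ⌈C0 * x ^ k⌉₊ with hT0
  have hT0l : C0 * x ^ k ≤ T0 := Nat.le_ceil _
  have hT0u : (T0 : ℝ) ≤ (C0 + 1) * x ^ k := by
    have := (Nat.ceil_lt_add_one (show 0 ≤ C0 * x ^ k by positivity)).le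
    rw [← hT0] at this
    linarith
  have hT0x : x ≤ T0 := by
    have : x ^ k ≤ C0 * x ^ k := le_mul_of_one_le_left (by linarith) hC01
    linarith
  have hT01 : 1 ≤ T0 := by
    have : (1 : ℝ) ≤ T0 := by linarith
    exact_mod_cast this
  set M : ℕ := ⌊x ^ A⌋₊ with hM
  have hMx : (M : ℝ) ≤ x ^ A := Nat.floor_le (by positivity)
  set Ω : Finset (ℕ × (Fin k → ℕ)) := (Om k t H).filter (fun v => ¬ BadS (Z H) v) with hΩ
  have hBdef : ∀ T v, Bd s e σ ε x T v → ¬ FormF1 (wG s (e T) σ) (lG s (e T) σ v) ε T x v := fun T v h => h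
  have hBT : ∀ T, T0 ≤ T → T ≤ M → ((Ω.filter (Bd s e σ ε x T)).card : ℝ) ≤
      (η0 / (1 + Real.log x) + (C1 * x ^ k) / T) * (H : ℝ) ^ (k + 1) := by
    intro T h1 h2
    have h1r : (T0 : ℝ) ≤ T := by exact_mod_cast h1
    have h2r : (T : ℝ) ≤ x ^ A := le_trans (by exact_mod_cast h2) hMx
    have h3 := hH t s (e T) σ T ht hs (fun i => he T i h2r) (hT0x.trans h1r) h2r (fun i hi => hσ T i hi) (Ω.filter (Bd s e σ ε x T)) ?_
    · rw [mul_div_assoc]; exact h3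
    · intro v hv
      obtain ⟨h4, h5⟩ := Finset.mem_filter.1 hv
      obtain ⟨h6, h7⟩ := Finset.mem_filter.1 h4
      exact ⟨h6, h7, fun h8 => hBdef T v h5 (form_mono _ _ ε (ε / 4) T x v (by positivity) (by linarith) h8)⟩
  have hall := all_ranges Ω (Bd s e σ ε x) T0 M hT01 (ε / 8) (η0 / (1 + Real.log x)) (C1 * x ^ k) ((H : ℝ) ^ (k + 1)) (by positivity)
    (by positivity) (by positivity) hW hBT
  have hJ : ((Nat.log 2 M + 1 : ℕ) : ℝ) * (η0 / (1 + Real.log x)) ≤ ε ^ 2 / 32 := by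
    have h1 : ((Nat.log 2 M + 1 : ℕ) : ℝ) ≤ (2 * A + 1) * (1 + Real.log x) := by
      push_cast
      by_cases hM0 : M = 0
      · rw [hM0, Nat.log_zero_right, Nat.cast_zero]
        have : (0 : ℝ) ≤ A := Nat.cast_nonneg _
        nlinarith
      · have h2 : ((2 : ℝ)) ^ (Nat.log 2 M) ≤ x ^ A := by
          have h3 : ((2 : ℝ)) ^ (Nat.log 2 M) ≤ M := by exact_mod_cast Nat.pow_log_le_self 2 hM0
          exact h3.trans hMx
        have h3 := Real.log_le_log (by positivity) h2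
        rw [Real.log_pow, Real.log_pow] at h3
        have h4 : (1 / 2 : ℝ) ≤ Real.log 2 := by
          have := Real.log_two_gt_d9; linarith
        have h5 : (Nat.log 2 M : ℝ) * (1 / 2) ≤ (Nat.log 2 M : ℝ) * Real.log 2 :=
          mul_le_mul_of_nonneg_left h4 (Nat.cast_nonneg _)
        have h6 : (0 : ℝ) ≤ A := Nat.cast_nonneg _
        have e : (2 * (A : ℝ) + 1) * (1 + Real.log x) = 2 * (A * Real.log x) + 2 * A + 1 + Real.log x := by ring
        rw [e]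
        linarith
    have h2 : (0 : ℝ) < 1 + Real.log x := by linarith
    calc ((Nat.log 2 M + 1 : ℕ) : ℝ) * (η0 / (1 + Real.log x)) ≤ ((2 * A + 1) * (1 + Real.log x)) * (η0 / (1 + Real.log x)) :=
          mul_le_mul_of_nonneg_right h1 (by positivity)
      _ = (2 * A + 1) * η0 := by field_simp
      _ = ε ^ 2 / 32 := by rw [hη0]; field_simp
  have hcT : 4 * (C1 * x ^ k) / T0 ≤ ε ^ 2 / 32 := by
    have h1 : (0 : ℝ) < T0 := by linarith
    rw [div_le_iff₀ h1]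
    have h2 : 128 * C1 ≤ ε ^ 2 * C0 := by
      have e : ε ^ 2 * C0 = 128 * C1 + ε ^ 2 := by rw [hC0]; field_simp
      rw [e]; nlinarith
    calc 4 * (C1 * x ^ k) = (128 * C1) * x ^ k / 32 := by ring
      _ ≤ (ε ^ 2 * C0) * x ^ k / 32 := by gcongr
      _ = ε ^ 2 / 32 * (C0 * x ^ k) := by ring
      _ ≤ ε ^ 2 / 32 * T0 := mul_le_mul_of_nonneg_left hT0l (by positivity)
  have hall2 : ((Ω.filter (fun v => ∃ N, 1 ≤ N ∧ N ≤ M ∧ 2 * (ε / 8) * N <
      (((Icc T0 N).filter (fun T => Bd s e σ ε x T v)).card : ℝ))).card : ℝ) ≤ ε / 2 * (H : ℝ) ^ (k + 1) := by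
    refine hall.trans (mul_le_mul_of_nonneg_right ?_ hW)
    calc 1 / (ε / 8) * (((Nat.log 2 M + 1 : ℕ) : ℝ) * (η0 / (1 + Real.log x)) + 4 * (C1 * x ^ k) / T0) ≤
          1 / (ε / 8) * (ε ^ 2 / 32 + ε ^ 2 / 32) := mul_le_mul_of_nonneg_left (by linarith) (by positivity)
      _ = ε / 2 := by field_simp; norm_num
  have hsub : F ⊆ (Om k t H).filter (BadS (Z H)) ∪ Ω.filter (fun v => ∃ N, 1 ≤ N ∧ N ≤ M ∧ 2 * (ε / 8) * N <
      (((Icc T0 N).filter (fun T => Bd s e σ ε x T v)).card : ℝ)) := by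
    intro v hv
    obtain ⟨hvO, N, hN1, hN2, hN3⟩ := hF v hv
    by_cases hS : BadS (Z H) v
    · exact Finset.mem_union_left _ (Finset.mem_filter.2 ⟨hvO, hS⟩)
    refine Finset.mem_union_right _ (Finset.mem_filter.2 ⟨Finset.mem_filter.2 ⟨hvO, hS⟩, N, ?_, Nat.le_floor hN2, ?_⟩)
    · by_contra h0
      have h1 : N = 0 := by omega
      rw [h1, Nat.cast_zero] at hN1
      have : 0 < 4 * (C0 + 1) / ε * x ^ k := by positivity
      linarith
    · have h1 : (Icc 1 N).filter (fun T => Bd s e σ ε x T v) ⊆ range T0 ∪ (Icc T0 N).filter (fun T => Bd s e σ ε x T v) := by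
        intro T hT
        obtain ⟨h2, h3⟩ := Finset.mem_filter.1 hT
        have h4 := mem_Icc.1 h2
        by_cases h5 : T < T0
        · exact Finset.mem_union_left _ (Finset.mem_range.2 h5)
        · exact Finset.mem_union_right _ (Finset.mem_filter.2 ⟨mem_Icc.2 ⟨by omega, h4.2⟩, h3⟩)
      have h2 : (((Icc 1 N).filter (fun T => Bd s e σ ε x T v)).card : ℝ) ≤ T0 + (((Icc T0 N).filter (fun T => Bd s e σ ε x T v)).card : ℝ) := by
        have h3 := (Finset.card_le_card h1).trans (Finset.card_union_le _ _)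
        rw [Finset.card_range] at h3
        exact_mod_cast h3
      have h3 : (T0 : ℝ) ≤ ε / 4 * N := by
        have h4 : 4 * (C0 + 1) / ε * x ^ k * (ε / 4) ≤ N * (ε / 4) := mul_le_mul_of_nonneg_right hN1 (by positivity)
        have h5 : 4 * (C0 + 1) / ε * x ^ k * (ε / 4) = (C0 + 1) * x ^ k := by field_simp
        rw [h5] at h4
        linarith
      have h4 : (0 : ℝ) ≤ ε * N := by positivity
      have h5 : ε * N < (((Icc 1 N).filter (fun T => Bd s e σ ε x T v)).card : ℝ) := hN3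
      linarith
  have hcard := (Finset.card_le_card hsub).trans (Finset.card_union_le _ _)
  have hcard' : (F.card : ℝ) ≤ ((Om k t H).filter (BadS (Z H))).card + (Ω.filter (fun v => ∃ N, 1 ≤ N ∧ N ≤ M ∧
      2 * (ε / 8) * N < (((Icc T0 N).filter (fun T => Bd s e σ ε x T v)).card : ℝ))).card := by exact_mod_cast hcard
  have h9 := hZH t
  have h10 : 0 ≤ ε * (H : ℝ) ^ (k + 1) := by positivity
  linarith

end Pool.Agent.H570.CD
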